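import Pool.Agent.S5.E.V3A

/-!
# Mixed chains, block E: the `S` slot of a vertex with two half twists
-/

set_option autoImplicit false

namespace Pool.Agent.S5.E

open Real
open Pool.Agent.S3.E (al ph tt k2 s2 cc gg tt_pos tt_sq k2_pos s2_pos al_pos al_lt tan_al one_le_cc
  one_lt_cc gg_lt_one neg_one_lt_gg sinh_two_pos sin_two_pos sinh_two_sq sin_two_sq GeoX_cc)

/-- `|t|² (c + g) = c - g`. -/
private theorem tcg {R I : ℝ} (h : 0 < R) (h' : R < π / 2) :
    tt R I ^ 2 * (cc I + gg R) = cc I - gg R := by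
  have hk := k2_pos (I := I) h h'
  have e : tt R I ^ 2 * k2 R I = s2 R I := by
    rw [tt_sq h h']
    field_simp
  unfold k2 s2 at e
  linarith

/-- A lower bound of the cosine from an upper bound of the tangent. -/
private theorem cos_ge_of {θ t c : ℝ} (h0 : 0 ≤ sin θ) (h1 : 0 < cos θ) (ht : sin θ ≤ t * cos θ)
    (hc : 0 ≤ c) (hn : c ^ 2 * (1 + t ^ 2) ≤ 1) : c ≤ cos θ := by
  have h2 := sin_sq_add_cos_sq θ
  have h3 : sin θ ^ 2 ≤ t ^ 2 * cos θ ^ 2 := by
    rw [← mul_pow]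
    exact pow_le_pow_left₀ h0 ht 2
  apply abs_le_of_sq_le_sq' _ h1.le |>.2
  have h4 : 1 ≤ (1 + t ^ 2) * cos θ ^ 2 := by linarith
  have h5 : 0 < 1 + t ^ 2 := by positivity
  have h6 : c ^ 2 * (1 + t ^ 2) ≤ cos θ ^ 2 * (1 + t ^ 2) := by linarith
  exact le_of_mul_le_mul_right h6 h5

variable {R I ρ₁ β₁ p₁ r₁ ρ₂ β₂ p₂ r₂ : ℝ}

/-- The `S` slot of a vertex with two half twists has a positive imaginary part. -/
theorem Vx.two_pos (h : Vx 2 R I ρ₁ β₁ p₁ r₁ ρ₂ β₂ p₂ r₂) (hb : 0 ≤ β₁) (hb' : β₁ < π / 2)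
    (ht₁ : sin β₁ ≤ 0.76 * cos β₁) (hρ₁ : 0.57 ≤ ρ₁) (hc : β₂ ≤ 0) (hc' : -(π / 2) < β₂)
    (ht₂ : -(0.777 * cos β₂) ≤ sin β₂) (hρ₂ : 0.53 ≤ ρ₂) : 0 < r₂ := by
  by_contra hcon
  push Not at hcon
  have hpi := pi_pos
  have hR0 := h.R0
  have hR1 := h.R1
  have hI0 := h.I0
  have hal := al_pos hR0 hR1 hI0
  have hal' := al_lt R I
  have htt := tt_pos (I := I) hR0 hR1
  have hT0 := h.T0
  have hca : 0 < cos (al R I) := cos_pos_of_mem_Ioo ⟨by linarith, hal'⟩
  have hsa : TT R I * cos (al R I) = sin (al R I) := tan_mul_cos hca.ne'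
  have hsa0 : 0 < sin (al R I) := sin_pos_of_pos_of_lt_pi hal (by linarith)
  have hcb : 0 < cos β₁ := cos_pos_of_mem_Ioo ⟨by linarith, hb'⟩
  have hsb : 0 ≤ sin β₁ := sin_nonneg_of_nonneg_of_le_pi hb (by linarith)
  have hcc : 0 < cos β₂ := cos_pos_of_mem_Ioo ⟨hc', by linarith⟩
  -- `T ≤ 0.777`
  have hs2 : sin (al R I + β₂) ≤ 0 := by
    have e2 := h.sl₂.e2
    have h1 : sin r₂ ≤ 0 := sin_nonpos_of_nonpos_of_neg_pi_le hcon (by linarith [h.sl₂.r0])
    have h2 : cosh p₂ * sin r₂ ≤ 0 := mul_nonpos_of_nonneg_of_nonpos (cosh_pos p₂).le h1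
    rw [e2] at h2
    have h3 : 0 < ρ₂ * tt R I := mul_pos (by linarith) htt
    by_contra hn
    push Not at hn
    have := mul_pos h3 hn
    linarith
  have hT : TT R I ≤ 0.777 := by
    rw [sin_add] at hs2
    have h1 : sin (al R I) * cos β₂ ≤ 0.777 * cos (al R I) * cos β₂ := by
      have := mul_le_mul_of_nonneg_left ht₂ hca.le
      linarith
    have h2 : TT R I * cos (al R I) ≤ 0.777 * cos (al R I) := by
      rw [hsa]
      exact le_of_mul_le_mul_right h1 hcc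
    exact le_of_mul_le_mul_right h2 hca
  have hca' : 0.7896 ≤ cos (al R I) :=
    cos_ge_of (t := 0.777) hsa0.le hca (by rw [← hsa]; exact mul_le_mul_of_nonneg_right hT hca.le)
      (by norm_num) (by norm_num)
  have hcb' : 0.796 ≤ cos β₁ := cos_ge_of hsb hcb ht₁ (by norm_num) (by norm_num)
  have hcc' : 0.7896 ≤ cos β₂ := by
    rw [← cos_neg]
    refine cos_ge_of (t := 0.777) ?_ ?_ ?_ (by norm_num) (by norm_num)
    · exact sin_nonneg_of_nonneg_of_le_pi (by linarith) (by linarith)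
    · rw [cos_neg]
      exact hcc
    · rw [cos_neg, sin_neg]
      linarith
  -- `cos (α + β₁) ≥ 0.3258 cos α`
  have hg1 : 0.3258 * cos (al R I) ≤ cos (al R I + β₁) := by
    rw [cos_add, ← hsa]
    have h1 : TT R I * sin β₁ ≤ 0.777 * (0.76 * cos β₁) :=
      mul_le_mul hT ht₁ hsb (by norm_num)
    have h2 : 0.3258 ≤ cos β₁ - TT R I * sin β₁ := by linarith
    have h3 := mul_le_mul_of_nonneg_left h2 hca.le
    linarith
  -- `cos (α + β₂) ≥ cos α (0.7896 + 0.7896 T²)`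
  have hg2 : cos (al R I) * (0.7896 + 0.7896 * TT R I ^ 2) ≤ cos (al R I + β₂) := by
    rw [cos_add, ← hsa]
    have h1 : TT R I * cos β₂ ≤ -sin β₂ := by
      have h2 : TT R I * cos (al R I) * cos β₂ + cos (al R I) * sin β₂ ≤ 0 := by
        rw [sin_add] at hs2
        rw [hsa]
        exact hs2
      have h3 : cos (al R I) * (TT R I * cos β₂) ≤ cos (al R I) * (-sin β₂) := by linarith
      exact le_of_mul_le_mul_left h3 hca
    have h2 : TT R I * (TT R I * 0.7896) ≤ TT R I * -sin β₂ := by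
      apply mul_le_mul_of_nonneg_left _ hT0.le
      exact (mul_le_mul_of_nonneg_left hcc' hT0.le).trans h1
    have h3 : 0.7896 + 0.7896 * TT R I ^ 2 ≤ cos β₂ - TT R I * sin β₂ := by linarith
    have h4 := mul_le_mul_of_nonneg_left h3 hca.le
    linarith
  -- `g ≤ - 0.257`
  have hg : gg R ≤ -0.257 := by
    have h1 := h.sl₁.r_le (by linarith)
    have h2 := h.hR
    have h3 : π - (al R I + β₁) ≤ 2 * R := by linarith
    have h4 : gg R ≤ cos (π - (al R I + β₁)) := by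
      unfold gg
      apply cos_le_cos_of_nonneg_of_le_pi _ (by linarith) h3
      linarith [h.sl₁.g1]
    rw [cos_pi_sub] at h4
    have h5 : 0.3258 * 0.7896 ≤ cos (al R I + β₁) :=
      (mul_le_mul_of_nonneg_left hca' (by norm_num)).trans hg1
    linarith
  have hgn := neg_one_lt_gg hR0 hR1
  have hc1 := one_lt_cc hI0
  have hTsq := TT_sq (I := I) hR0 hR1
  have hT2 : TT R I ^ 2 ≤ 0.6038 := by
    have := pow_le_pow_left₀ hT0.le hT 2
    norm_num at this ⊢
    linarith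
  have hgsq : 1 - gg R ^ 2 ≤ 0.934 := by
    have : 0.257 ^ 2 ≤ (-gg R) ^ 2 := pow_le_pow_left₀ (by norm_num) (by linarith) 2
    norm_num at this ⊢
    linarith
  have hg1' : 0 ≤ 1 - gg R ^ 2 := by
    have h1 : (-gg R) ^ 2 ≤ 1 ^ 2 := pow_le_pow_left₀ (by linarith) (by linarith) 2
    linarith
  have hcc2 : cc I ≤ 1.2512 := by
    have h1 : TT R I ^ 2 * (1 - gg R ^ 2) ≤ 0.6038 * 0.934 :=
      mul_le_mul hT2 hgsq hg1' (by norm_num)
    apply abs_le_of_sq_le_sq' _ (by norm_num) |>.2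
    norm_num at h1 ⊢
    linarith
  have htt2 : 1.2316 ≤ tt R I := by
    have h1 := tcg (I := I) hR0 hR1
    have h2 : 0 < cc I + gg R := by linarith
    have h3 : 1.2316 ^ 2 * (cc I + gg R) ≤ tt R I ^ 2 * (cc I + gg R) := by
      rw [h1]
      norm_num
      linarith
    have h4 := le_of_mul_le_mul_right h3 h2
    exact abs_le_of_sq_le_sq' h4 htt.le |>.2
  -- `sinh 2I ≥ sinh p₁ + sinh p₂`
  have hsum : sinh p₁ + sinh p₂ ≤ sinh (2 * I) := by
    rw [h.hI, sinh_add]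
    have h1 := one_le_cosh p₁
    have h2 := one_le_cosh p₂
    have h3 := h.sl₁.sinh0
    have h4 := h.sl₂.sinh0
    have h5 := mul_le_mul_of_nonneg_left h2 h3
    have h6 := mul_le_mul_of_nonneg_right h1 h4
    linarith
  have hp1 : ρ₁ * tt R I * cos (al R I + β₁) ≤ sinh p₁ := by
    rw [← h.sl₁.e1]
    exact mul_le_of_le_one_right h.sl₁.sinh0 (cos_le_one _)
  have hp2 : ρ₂ * tt R I * cos (al R I + β₂) ≤ sinh p₂ := by
    rw [← h.sl₂.e1]
    exact mul_le_of_le_one_right h.sl₂.sinh0 (cos_le_one _)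
  have hlow : 0.9724 * (0.57 * 0.3258 + 0.53 * (0.7896 + 0.7896 * TT R I ^ 2)) ≤
      sinh (2 * I) := by
    have h0 : 0.9724 ≤ tt R I * cos (al R I) := by
      calc (0.9724 : ℝ) ≤ 1.2316 * 0.7896 := by norm_num
        _ ≤ tt R I * cos (al R I) := mul_le_mul htt2 hca' (by norm_num) htt.le
    have hta : 0 < tt R I * cos (al R I) := mul_pos htt hca
    have h1 : tt R I * cos (al R I) * (0.57 * 0.3258) ≤ ρ₁ * tt R I * cos (al R I + β₁) := by
      have h2 : 0.57 * tt R I * (0.3258 * cos (al R I)) ≤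
          ρ₁ * tt R I * cos (al R I + β₁) :=
        mul_le_mul (mul_le_mul_of_nonneg_right hρ₁ htt.le) hg1 (by positivity) (by positivity)
      linarith
    have h3 : tt R I * cos (al R I) * (0.53 * (0.7896 + 0.7896 * TT R I ^ 2)) ≤
        ρ₂ * tt R I * cos (al R I + β₂) := by
      have h4 : 0.53 * tt R I * (cos (al R I) * (0.7896 + 0.7896 * TT R I ^ 2)) ≤
          ρ₂ * tt R I * cos (al R I + β₂) :=
        mul_le_mul (mul_le_mul_of_nonneg_right hρ₂ htt.le) hg2 (by positivity) (by positivity)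
      linarith
    have h5 : 0.9724 * (0.57 * 0.3258 + 0.53 * (0.7896 + 0.7896 * TT R I ^ 2)) ≤
        tt R I * cos (al R I) * (0.57 * 0.3258 + 0.53 * (0.7896 + 0.7896 * TT R I ^ 2)) :=
      mul_le_mul_of_nonneg_right h0 (by positivity)
    linarith
  -- `sinh 2I = T sin 2R`
  have hup := TT_mul (I := I) hR0 hR1
  have hs : sin (2 * R) ≤ 0.9665 := by
    have h1 := sin_two_sq R
    apply abs_le_of_sq_le_sq' _ (by norm_num) |>.2
    rw [h1]
    norm_num at hgsq ⊢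
    linarith
  have hup2 : sinh (2 * I) ≤ TT R I * 0.9665 := by
    rw [← hup]
    exact mul_le_mul_of_nonneg_left hs hT0.le
  nlinarith [sq_nonneg (TT R I - 0.777)]

end Pool.Agent.S5.E
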