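import Pool.Agent.S5.E.BxV

/-!
# Mixed chains, block E: upper bounds of `Im q` at the open nodes, from the crude bounds of the slots
-/

set_option autoImplicit false

namespace Pool.Agent.S5.E

open Real
open Pool.Agent.S3.E (al ph tt k2 s2 cc gg tt_pos tt_sq k2_pos s2_pos al_pos al_lt tan_al one_le_cc
  one_lt_cc gg_lt_one neg_one_lt_gg sinh_two_pos sin_two_pos sinh_two_sq sin_two_sq)

variable {a R I ρ₁ β₁ p₁ r₁ ρ₂ β₂ p₂ r₂ : ℝ}

/-- `|t|² ≤ X + (1 - X²) m²` if `x² ≤ X < 1`. -/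
private theorem q_le {x m q X : ℝ} (hq : q * (1 + (x * m) ^ 2) = x ^ 2 + m ^ 2) (hX : x ^ 2 ≤ X)
    (hX1 : X ≤ 1) (hm : m ^ 2 ≤ 1) : q ≤ X + (1 - X ^ 2) * m ^ 2 := by
  have h0 : 0 < 1 + (x * m) ^ 2 := by positivity
  have hx := sq_nonneg x
  have hm0 := sq_nonneg m
  have h1 : q * (1 + (x * m) ^ 2) ≤ (X + (1 - X ^ 2) * m ^ 2) * (1 + (x * m) ^ 2) := by
    rw [hq]
    have h2 : 0 ≤ (X - x ^ 2) * (1 - X * m ^ 2) := by
      apply mul_nonneg (by linarith only [hX])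
      have : X * m ^ 2 ≤ 1 * 1 := mul_le_mul hX1 hm hm0 zero_le_one
      linarith only [this]
    have h3 : 0 ≤ (1 - X ^ 2) * (x ^ 2 * (m ^ 2 * m ^ 2)) := by
      apply mul_nonneg _ (by positivity)
      have : X ^ 2 ≤ 1 ^ 2 := pow_le_pow_left₀ (by linarith only [hx, hX]) hX1 2
      linarith only [this]
    have e : (X + (1 - X ^ 2) * m ^ 2) * (1 + (x * m) ^ 2) - (x ^ 2 + m ^ 2) =
        (X - x ^ 2) * (1 - X * m ^ 2) + (1 - X ^ 2) * (x ^ 2 * (m ^ 2 * m ^ 2)) := by ring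
    linarith only [h3, h2]
  exact le_of_mul_le_mul_right h1 h0

/-- `tan² R` from a bound of `sin R`. -/
private theorem tan_sq_le {R s : ℝ} (h : 0 < R) (h' : R < π / 2) (hs : sin R ≤ s) (hs1 : s ^ 2 < 1) :
    tan R ^ 2 * (1 - s ^ 2) ≤ s ^ 2 := by
  have hsR : 0 < sin R := sin_pos_of_pos_of_lt_pi h (by linarith only [h', h])
  have hcR : 0 < cos R := cos_pos_of_mem_Ioo ⟨by linarith only [h', h], h'⟩
  have h1 := sin_sq_add_cos_sq R
  have h2 : sin R ^ 2 ≤ s ^ 2 := pow_le_pow_left₀ hsR.le hs 2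
  have h3 : tan R ^ 2 * cos R ^ 2 = sin R ^ 2 := by
    rw [← mul_pow, tan_mul_cos hcR.ne']
  have h4 : tan R ^ 2 * (1 - s ^ 2) ≤ tan R ^ 2 * cos R ^ 2 :=
    mul_le_mul_of_nonneg_left (by linarith only [h2, h1]) (sq_nonneg _)
  linarith only [h4, h3, h2]

/-- The facts from `cos r ≤ 1.04 sin r`. -/
private theorem big_r {r : ℝ} (h0 : -(π / 2) ≤ r) (h1 : r ≤ π / 2) (hc : cos r ≤ 1.04 * sin r) :
    0.6929 ≤ sin r ∧ 0.7645 ≤ r ∧ 0.48 ≤ sin r ^ 2 := by
  have hp := pi_gt_d4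
  have hcr : 0 ≤ cos r := cos_nonneg_of_mem_Icc ⟨h0, h1⟩
  have hs : 0 ≤ sin r := by linarith only [hcr, hc]
  have h2 := sin_sq_add_cos_sq r
  have h3 : cos r ^ 2 ≤ (1.04 * sin r) ^ 2 := pow_le_pow_left₀ hcr hc 2
  rw [mul_pow] at h3
  have h4 : 0.4803 ≤ sin r ^ 2 := by
    norm_num at h3 ⊢
    linarith only [h3, h2]
  have h5 : 0.6929 ≤ sin r := by
    apply abs_le_of_sq_le_sq' _ hs |>.2
    norm_num at h4 ⊢
    linarith only [h3, h2]
  refine ⟨h5, ?_, by linarith only [h3, h2]⟩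
  by_contra hcon
  push Not at hcon
  have h6 : sin r ≤ sin 0.7645 := sin_le_sin_of_le_of_le_pi_div_two h0 (by linarith only [hp]) hcon.le
  have h7 := sin_le' (x := 0.7645) (by norm_num) (by norm_num)
  norm_num at h7 h6
  linarith only [h6, h7, h5]

/-- `tan r < 1/1.04`, `a ≥ 5`. -/
theorem Vx.tan5 (h : Vx a R I ρ₁ β₁ p₁ r₁ ρ₂ β₂ p₂ r₂) (ha : 5 ≤ a) (i₁ : In ρ₁ β₁)
    (i₂ : In ρ₂ β₂) : 1.04 * sin r₁ < cos r₁ := by
  by_contra hcon
  push Not at hcon
  have hp := pi_gt_d4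
  have hp' := pi_lt_d4
  have hR0 := h.R0
  have hR1 := h.R1
  have hI0 := h.I0
  have hT0 := h.T0
  obtain ⟨hs1, hr1, hs2⟩ := big_r h.sl₁.r0 h.sl₁.r1 hcon
  -- `R ≤ 0.4755 + 0.091 sin 2R`
  have hRa : R ≤ 0.4755 + 0.091 * sin (2 * R) := by
    rcases le_total (TT R I) 1.04 with hT | hT
    · have h2 := h.sl₂.r_ge_p hR0 hR1 hI0 i₂ hT
      have h3 := h.GI hT
      have h4 : GA (TT R I) * p₂ ≤ GA (TT R I) * (a * I) := by
        apply mul_le_mul_of_nonneg_left _ (GA_nonneg hT0.le hT)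
        rw [h.hI]
        linarith only [h.sl₁.p0]
      have h5 : a * (R - GA (TT R I) * I) ≤ π - 0.7645 := by
        have := h.hR
        linarith only [this, h4, h2, hr1]
      rcases le_total 0 (R - GA (TT R I) * I) with h6 | h6
      · have := mul_le_mul_of_nonneg_right ha h6
        linarith only [this, h5, h3, hp', hp]
      · linarith only [h6, h3, hp', hp]
    · have h2 := h.sl₂.r_nonneg hR0 hR1 hI0 i₂ hT
      have h3 := mul_le_mul_of_nonneg_right ha hR0.le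
      have h4 := h.hR
      have h5 := h.S0
      linarith only [h5, h4, h3, h2, hr1, hp', hp]
  have hRb : R ≤ 0.5665 := by
    have := sin_le_one (2 * R)
    linarith only [this, hRa]
  have hs2R : sin (2 * R) ≤ 0.9062 := by
    have h1 : sin (2 * R) ≤ sin 1.133 :=
      sin_le_sin_of_le_of_le_pi_div_two (by linarith only [hR0, hp', hp]) (by linarith only [hp]) (by linarith only [hRb])
    have h2 : sin (1.133 : ℝ) = cos (π / 2 - 1.133) := by rw [cos_pi_div_two_sub]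
    have h3 : cos (π / 2 - 1.133) ≤ cos 0.4377 :=
      cos_le_cos_of_nonneg_of_le_pi (by norm_num) (by linarith only [hp]) (by linarith only [hp])
    have h4 := cos_le' (x := 0.4377) (by norm_num) (by norm_num)
    norm_num at h1 h2 h3 h4 ⊢
    linarith only [h4, h3, h2, h1, hp', hp]
  have hRc : R ≤ 0.558 := by linarith only [hs2R, hRa, hp', hp]
  have hsR : sin R ≤ 0.5296 := by
    have h1 : sin R ≤ sin 0.558 :=
      sin_le_sin_of_le_of_le_pi_div_two (by linarith only [hR0, hp', hp]) (by linarith only [hp]) hRc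
    have h2 := sin_le' (x := 0.558) (by norm_num) (by norm_num)
    norm_num at h1 h2 ⊢
    linarith only [h2, h1, hp', hp]
  have hx := tan_pos' hR0 hR1
  have hm := tanh_pos hI0
  have hm1 : tanh I < 1 := tanh_lt_one I
  have htx := tan_sq_le hR0 hR1 hsR (by norm_num)
  have htt := t_xm (I := I) hR0 hR1
  have hTx := T_xm (I := I) hR0 hR1
  have hmI := tanh_le hI0.le
  have hup := h.sl₁.up_rel hR0 hR1 hI0 i₁
  have hn1 := h.sl₁.norm_sq
  have hq2 := h.sl₂.sinh_sq_le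
  have hρ1 : ρ₁ ^ 2 ≤ 1.21 := by
    have := pow_le_pow_left₀ h.sl₁.ρ0 i₁.ρ1 2
    norm_num at this ⊢
    linarith only [this]
  have hρ2 : ρ₂ ^ 2 ≤ 1.21 := by
    have := pow_le_pow_left₀ h.sl₂.ρ0 i₂.ρ1 2
    norm_num at this ⊢
    linarith only [this]
  obtain ⟨x, hxe⟩ : ∃ x, x = tan R := ⟨_, rfl⟩
  obtain ⟨m, hme⟩ : ∃ m, m = tanh I := ⟨_, rfl⟩
  obtain ⟨q, hqe⟩ : ∃ q, q = tt R I ^ 2 := ⟨_, rfl⟩
  rw [mul_pow, ← hqe] at hn1 hq2
  rw [← hxe, ← hme, ← hqe] at htt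
  rw [← hxe] at hx htx
  rw [← hme] at hm hm1 hmI
  rw [← hxe, ← hme] at hTx
  have hq0 : 0 ≤ q := by rw [hqe]; positivity
  have hX : x ^ 2 ≤ 0.3901 := by
    norm_num at htx ⊢
    linarith only [htx, hp', hp]
  have hm2 : m ^ 2 ≤ 1 := by
    have := pow_le_pow_left₀ hm.le hm1.le 2
    linarith only [this]
  have hq := q_le htt hX (by norm_num) hm2
  have hsh1 : sinh p₁ ^ 2 ≤ 1.21 * q - 0.48 := by
    have := mul_le_mul_of_nonneg_right hρ1 hq0
    linarith only [this, hn1, hs2]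
  have hsh2 : sinh p₂ ^ 2 ≤ 1.21 * q := hq2.trans (mul_le_mul_of_nonneg_right hρ2 hq0)
  have hs10 := h.sl₁.sinh0
  have hs20 := h.sl₂.sinh0
  -- `sinh p₁ ≤ 1.015 m`
  have k1 : sinh p₁ ≤ 1.015 * m := by
    apply abs_le_of_sq_le_sq' _ (by positivity) |>.2
    rw [mul_pow]
    have := sq_nonneg m
    norm_num at hq hsh1 ⊢
    linarith only [hsh1, hq, hq0, hp', hp]
  have k2 : 3.985 * m ≤ sinh p₂ := by
    have h1 := le_sinh h.sl₁.p0
    have h2 := le_sinh h.sl₂.p0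
    have h3 := h.hI
    have h4 := mul_le_mul_of_nonneg_right ha hI0.le
    linarith only [h4, h3, h2, h1, k1, hmI]
  have k3 : m ^ 2 ≤ 0.0318 := by
    have h1 := pow_le_pow_left₀ (by positivity) k2 2
    rw [mul_pow] at h1
    have := sq_nonneg m
    norm_num at h1 hq hsh2 ⊢
    linarith only [hsh2, hq, h1, hp', hp]
  have k4 : m ≤ 0.1784 := by
    apply abs_le_of_sq_le_sq' _ (by norm_num) |>.2
    norm_num at k3 ⊢
    linarith only [k3, hp', hp]
  -- `x ≥ 0.6`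
  have k5 : 0.6 ≤ x := by
    apply abs_le_of_sq_le_sq' _ hx.le |>.2
    have h1 : 0.48 ≤ 1.21 * q := by
      have := sq_nonneg (sinh p₁)
      linarith only [this, hsh1]
    have h2 : 0 ≤ q * (x * m) ^ 2 := by positivity
    norm_num at h1 k3 ⊢
    linarith only [k3, h1, h2, htt, hp', hp]
  -- `T ≤ 0.44`
  have k6 : TT R I ≤ 0.44 := by
    have h1 : TT R I * (x ^ 2 - (x * m) ^ 2) ≤ 0.44 * (x ^ 2 - (x * m) ^ 2) := by
      rw [hTx]
      have h2 : m * (1 + x ^ 2) ≤ 0.1784 * 1.3901 :=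
        mul_le_mul k4 (by linarith only [htx, hp', hp]) (by positivity) (by norm_num)
      have h3 : 0.6 * (1 - 0.0318) ≤ x * (1 - m ^ 2) :=
        mul_le_mul k5 (by linarith only [k3]) (by norm_num) hx.le
      have h4 : m * (1 + x ^ 2) ≤ 0.44 * (x * (1 - m ^ 2)) := by
        norm_num at h2 h3 ⊢
        linarith only [h3, h2, hp', hp]
      have h5 := mul_le_mul_of_nonneg_left h4 hx.le
      linarith only [h5]
    have h6 : 0 < x ^ 2 - (x * m) ^ 2 := by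
      have : 0 < x ^ 2 * (1 - m ^ 2) := mul_pos (by positivity) (by linarith only [k3, hp', hp])
      linarith only [this]
    exact le_of_mul_le_mul_right h1 h6
  -- contradiction
  have k7 : 0.6929 ≤ cosh p₁ * sin r₁ := by
    have := le_mul_of_one_le_left (show 0 ≤ sin r₁ by linarith only [hs1, hp', hp]) (one_le_cosh p₁)
    linarith only [this, hs1]
  have k8 : sinh p₁ * cos r₁ ≤ 0.182 := by
    have := mul_le_of_le_one_right hs10 (cos_le_one r₁)
    linarith only [this, k4, k1, hp', hp]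
  have k9 : 0.6929 * (1 - 1.04 * 0.44) ≤ cosh p₁ * sin r₁ * (1 - 1.04 * TT R I) :=
    mul_le_mul k7 (by linarith only [k6]) (by norm_num) (by linarith only [k7, hp', hp])
  have k10 : (TT R I + 1.04) * (sinh p₁ * cos r₁) ≤ (0.44 + 1.04) * 0.182 :=
    mul_le_mul (by linarith only [k6]) k8 (mul_nonneg hs10 h.sl₁.cosr) (by norm_num)
  norm_num at k9 k10
  linarith only [k10, k9, hup, hp', hp]

/-- `tan r < 1/1.04` at an end with `a ≥ 4`. -/
theorem Vx.tan4 (h : Vx a R I ρ₁ β₁ p₁ r₁ 0 β₂ p₂ r₂) (ha : 4 ≤ a) (i₁ : In ρ₁ β₁) :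
    1.04 * sin r₁ < cos r₁ := by
  by_contra hcon
  push Not at hcon
  have hp := pi_gt_d4
  have hp' := pi_lt_d4
  have hR0 := h.R0
  have hR1 := h.R1
  have hI0 := h.I0
  have hT0 := h.T0
  obtain ⟨hs1, hr1, hs2⟩ := big_r h.sl₁.r0 h.sl₁.r1 hcon
  obtain ⟨e1, e2⟩ := h.sl₂.zero
  have hRc : R ≤ 0.5943 := by
    have h3 := mul_le_mul_of_nonneg_right ha hR0.le
    have h4 := h.hR
    linarith only [h4, h3, e2, hr1, hp', hp]
  have hsR : sin R ≤ 0.5601 := by
    have h1 : sin R ≤ sin 0.5943 :=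
      sin_le_sin_of_le_of_le_pi_div_two (by linarith only [hR0, hp', hp]) (by linarith only [hp]) hRc
    have h2 := sin_le' (x := 0.5943) (by norm_num) (by norm_num)
    norm_num at h1 h2 ⊢
    linarith only [h2, h1, hp', hp]
  have hx := tan_pos' hR0 hR1
  have hm := tanh_pos hI0
  have hm1 : tanh I < 1 := tanh_lt_one I
  have htx := tan_sq_le hR0 hR1 hsR (by norm_num)
  have htt := t_xm (I := I) hR0 hR1
  have hTx := T_xm (I := I) hR0 hR1
  have hmI := tanh_le hI0.le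
  have hup := h.sl₁.up_rel hR0 hR1 hI0 i₁
  have hn1 := h.sl₁.norm_sq
  have hρ1 : ρ₁ ^ 2 ≤ 1.21 := by
    have := pow_le_pow_left₀ h.sl₁.ρ0 i₁.ρ1 2
    norm_num at this ⊢
    linarith only [this]
  obtain ⟨x, hxe⟩ : ∃ x, x = tan R := ⟨_, rfl⟩
  obtain ⟨m, hme⟩ : ∃ m, m = tanh I := ⟨_, rfl⟩
  obtain ⟨q, hqe⟩ : ∃ q, q = tt R I ^ 2 := ⟨_, rfl⟩
  rw [mul_pow, ← hqe] at hn1
  rw [← hxe, ← hme, ← hqe] at htt
  rw [← hxe] at hx htx
  rw [← hme] at hm hm1 hmI
  rw [← hxe, ← hme] at hTx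
  have hq0 : 0 ≤ q := by rw [hqe]; positivity
  have hX : x ^ 2 ≤ 0.4573 := by
    norm_num at htx ⊢
    linarith only [htx, hp', hp]
  have hm2 : m ^ 2 ≤ 1 := by
    have := pow_le_pow_left₀ hm.le hm1.le 2
    linarith only [this]
  have hq := q_le htt hX (by norm_num) hm2
  have hsh1 : sinh p₁ ^ 2 ≤ 1.21 * q - 0.48 := by
    have := mul_le_mul_of_nonneg_right hρ1 hq0
    linarith only [this, hn1, hs2]
  have hs10 := h.sl₁.sinh0
  have k2 : 4 * m ≤ sinh p₁ := by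
    have h1 := le_sinh h.sl₁.p0
    have h3 := h.hI
    have h4 := mul_le_mul_of_nonneg_right ha hI0.le
    linarith only [h4, h3, h1, hmI, e1]
  have k3 : m ^ 2 ≤ 0.005 := by
    have h1 := pow_le_pow_left₀ (by positivity) k2 2
    rw [mul_pow] at h1
    have := sq_nonneg m
    norm_num at h1 hq hsh1 ⊢
    linarith only [hsh1, hq, h1, hp', hp]
  have k4 : m ≤ 0.0708 := by
    apply abs_le_of_sq_le_sq' _ (by norm_num) |>.2
    norm_num at k3 ⊢
    linarith only [k3, hp', hp]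
  have k1 : sinh p₁ ≤ 0.28 := by
    apply abs_le_of_sq_le_sq' _ (by norm_num) |>.2
    norm_num at hq hsh1 k3 ⊢
    linarith only [k3, hsh1, hq, k4, hm]
  have k5 : 0.62 ≤ x := by
    apply abs_le_of_sq_le_sq' _ hx.le |>.2
    have h1 : 0.48 ≤ 1.21 * q := by
      have := sq_nonneg (sinh p₁)
      linarith only [this, hsh1]
    have h2 : 0 ≤ q * (x * m) ^ 2 := by positivity
    norm_num at h1 k3 ⊢
    linarith only [k3, h1, h2, k1, k2, htt, hm]
  have k6 : TT R I ≤ 0.17 := by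
    have h1 : TT R I * (x ^ 2 - (x * m) ^ 2) ≤ 0.17 * (x ^ 2 - (x * m) ^ 2) := by
      rw [hTx]
      have h2 : m * (1 + x ^ 2) ≤ 0.0708 * 1.4573 :=
        mul_le_mul k4 (by linarith only [htx, hp', hp]) (by positivity) (by norm_num)
      have h3 : 0.62 * (1 - 0.005) ≤ x * (1 - m ^ 2) :=
        mul_le_mul k5 (by linarith only [k3]) (by norm_num) hx.le
      have h4 : m * (1 + x ^ 2) ≤ 0.17 * (x * (1 - m ^ 2)) := by
        norm_num at h2 h3 ⊢
        linarith only [h3, h2, k1, k2, hm]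
      have h5 := mul_le_mul_of_nonneg_left h4 hx.le
      linarith only [h5]
    have h6 : 0 < x ^ 2 - (x * m) ^ 2 := by
      have : 0 < x ^ 2 * (1 - m ^ 2) := mul_pos (by positivity) (by linarith only [k3, hp', hp])
      linarith only [this]
    exact le_of_mul_le_mul_right h1 h6
  have k7 : 0.6929 ≤ cosh p₁ * sin r₁ := by
    have := le_mul_of_one_le_left (show 0 ≤ sin r₁ by linarith only [hs1, hp', hp]) (one_le_cosh p₁)
    linarith only [this, hs1]
  have k8 : sinh p₁ * cos r₁ ≤ 0.28 := by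
    have := mul_le_of_le_one_right hs10 (cos_le_one r₁)
    linarith only [this, k1]
  have k9 : 0.6929 * (1 - 1.04 * 0.17) ≤ cosh p₁ * sin r₁ * (1 - 1.04 * TT R I) :=
    mul_le_mul k7 (by linarith only [k6]) (by norm_num) (by linarith only [k7, k1, k2, hm])
  have k10 : (TT R I + 1.04) * (sinh p₁ * cos r₁) ≤ (0.17 + 1.04) * 0.28 :=
    mul_le_mul (by linarith only [k6]) k8 (mul_nonneg hs10 h.sl₁.cosr) (by norm_num)
  norm_num at k9 k10
  linarith only [k10, k9, k1, k2, hm, hup]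

/-- `|r| < π / 4` from the bounds of the tangent. -/
theorem abs_r_lt {r : ℝ} (h0 : -(π / 2) ≤ r) (h1 : r ≤ π / 2) (h2 : 1.04 * sin r < cos r)
    (h3 : -(1.04 * sin r) < cos r) : |r| < π / 4 := by
  have hp := pi_pos
  have key : ∀ s : ℝ, 0 ≤ s → s ≤ π / 2 → 1.04 * sin s < cos s → s < π / 4 := by
    intro s hs0 hs1 hs
    by_contra hc
    push Not at hc
    have h4 : 0 ≤ sin s := sin_nonneg_of_nonneg_of_le_pi hs0 (by linarith only [hs1, hp])
    have h5 : 0 ≤ sin (s - π / 4) := sin_nonneg_of_nonneg_of_le_pi (by linarith only [hc]) (by linarith only [hs1,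
                                                                                                 hp])
    rw [sin_sub, cos_pi_div_four, sin_pi_div_four] at h5
    have h6 : (0 : ℝ) < √2 / 2 := by positivity
    have h7 : 0 ≤ (sin s - cos s) * (√2 / 2) := by linarith only [h5]
    have h8 := nonneg_of_mul_nonneg_left h7 h6
    linarith only [h8, h4, hs]
  rw [abs_lt]
  rcases le_total 0 r with h | h
  · exact ⟨by linarith only [h, hp], key r h h1 h2⟩
  · have := key (-r) (by linarith only [h]) (by linarith only [h0]) (by rw [sin_neg, cos_neg]; linarith only [h3])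
    exact ⟨by linarith only [this], by linarith only [h, hp]⟩

/-- Everything about a slot of an open node with `a ≥ 5`. -/
theorem Vx.open5 (h : Vx a R I ρ₁ β₁ p₁ r₁ ρ₂ β₂ p₂ r₂) (ha : 5 ≤ a) (i₁ : In ρ₁ β₁)
    (i₂ : In ρ₂ β₂) : 1.04 * sin r₁ < cos r₁ ∧ -(1.04 * sin r₁) < cos r₁ ∧ |r₁| < π / 4 ∧
      (R < π / 4 ∨ r₁ ≤ 0) ∧ 0 < R + r₁ ∧ R - r₁ < π / 2 := by
  have h1 := h.tan5 ha i₁ i₂
  have h2 := h.tan_neg i₁ i₂
  have hp := pi_gt_d4
  exact ⟨h1, h2, abs_r_lt h.sl₁.r0 h.sl₁.r1 h1 h2, Or.inl (by linarith only [h.R5 ha i₁ i₂, hp]),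
    h.Rr5 ha i₁ i₂, h.sr3 (by linarith only [ha]) i₁ i₂⟩

/-- Everything about the slot of an end with `a = 4`. -/
theorem Vx.open4 (h : Vx 4 R I ρ₁ β₁ p₁ r₁ 0 β₂ p₂ r₂) (i₁ : In ρ₁ β₁) (i₂ : In 0 β₂) :
    1.04 * sin r₁ < cos r₁ ∧ -(1.04 * sin r₁) < cos r₁ ∧ |r₁| < π / 4 ∧
      (R < π / 4 ∨ r₁ ≤ 0) ∧ 0 < R + r₁ ∧ R - r₁ < π / 2 := by
  have h1 := h.tan4 le_rfl i₁
  have h2 := h.tan_neg i₁ i₂
  have hp := pi_gt_d4
  obtain ⟨e1, e2⟩ := h.sl₂.zero
  have h3 := h.hR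
  rw [e2] at h3
  refine ⟨h1, h2, abs_r_lt h.sl₁.r0 h.sl₁.r1 h1 h2, ?_, ?_, h.sr3 (by norm_num) i₁ i₂⟩
  · rcases le_or_gt r₁ 0 with h4 | h4
    · exact Or.inr h4
    · left
      linarith only [h4, h3]
  · rcases le_total (TT R I) 1.04 with hT | hT
    · have h4 := h.aRG i₁ i₂ hT
      have h5 := h.GI hT
      have h6 : sin (2 * R) ≤ 1 := sin_le_one _
      linarith only [h6, h5, h4, h3, hp]
    · have := h.sl₁.r_nonneg h.R0 h.R1 h.I0 i₁ hT
      linarith only [this, h3, hp]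

end Pool.Agent.S5.E
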