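import Pool.Agent.S5.E.BxS
import Pool.Agent.S5.G.Nd4

/-!
# Mixed chains, block E: the variable of the edge at an open node
-/

set_option autoImplicit false

namespace Pool.Agent.S5.E

open Real
open Pool.Agent.S3.E (sin_two_pos)

variable {R I ρ β p r : ℝ}

/-- The real part of `y - z / π` is positive. -/
theorem Slot.sy_gt (hs : Slot R I ρ β p r) (h : 0 < R) (h' : R < π / 2) (hI : 0 < I)
    (hi : In ρ β) (hp : 0 < p) (hr : 1.04 * sin r < cos r) (hr' : -(1.04 * sin r) < cos r)
    (hC : R < π / 4 ∨ r ≤ 0) (h1 : 0 < R + r) (h2 : R - r < π / 2) {q z : ℂ} (hqr : q.re = p)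
    (hqi : q.im = r) (hzr : z.re = R) (hzi : z.im = I) :
    0 < (Pool.Agent.S5.G.sy q z - z / Real.pi).re := by
  have hpi := pi_pos
  have hr1 := hs.r1
  have hsh : 0 < sinh p := sinh_pos_iff.2 hp
  have hch := cosh_pos p
  have hT0 := TT_pos h h' hI
  have hcr : 0 < cos r := by
    rcases le_total 0 (sin r) with h1 | h1
    · linarith
    · linarith
  apply Pool.Agent.S5.G.ymv_pos
  · refine ⟨by rw [hzr]; exact h, by rw [hzr]; exact h', by rw [hzi]; exact hI, ?_, ?_, Or.inr ?_⟩
    · apply Pool.Agent.S5.G.up_of
      · rw [hqi, hzr]
        linarith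
      · rw [hqi, hzr]
        linarith
    · apply Pool.Agent.S5.G.rt_of
      · rw [hqr, hzi]
        linarith
      · rw [hqi, hzr]
        linarith
      · rw [hqi, hzr]
        linarith
    · rw [Pool.Agent.S5.G.yp_eq, hqr, hqi, hzr, hzi, ← TT_mul (I := I) h h']
      have hS := sin_two_pos h h'
      have hlo := hs.lo_rel h h' hI hi
      have e1 : sinh (2 * p) = 2 * sinh p * cosh p := sinh_two_mul p
      have e2 : sin (2 * r) = 2 * sin r * cos r := sin_two_mul r
      have key : 0 < sinh p * cosh p + TT R I * (sin r * cos r) := by
        rcases le_total 0 (sin r) with h3 | h3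
        · have : 0 ≤ TT R I * (sin r * cos r) := by positivity
          have := mul_pos hsh hch
          linarith
        · -- `T cosh p sin r ≥ - 0.182 sinh p cos r`
          have h4 : -(0.182 * (sinh p * cos r)) ≤ TT R I * (cosh p * sin r) := by
            have h5 := mul_le_mul_of_nonneg_left hlo hT0.le
            have h6 := mul_le_mul_of_nonneg_right (T_GA hT0.le) (mul_pos hsh hcr).le
            linarith
          have h5 : 0 < (sinh p * cosh p + TT R I * (sin r * cos r)) * cosh p := by
            have h7 := mul_le_mul_of_nonneg_right h4 hcr.le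
            have h8 : cos r * cos r ≤ 1 := by
              have := sin_sq_add_cos_sq r
              have := sq_nonneg (sin r)
              linarith
            have h9 : 0.182 * sinh p * (cos r * cos r) ≤ 0.182 * sinh p * 1 :=
              mul_le_mul_of_nonneg_left h8 (by positivity)
            have h10 : 1 ≤ cosh p * cosh p := by
              have := one_le_cosh p
              have := mul_le_mul this this zero_le_one hch.le
              linarith
            have h11 := mul_le_mul_of_nonneg_left h10 hsh.le
            linarith
          exact pos_of_mul_pos_left h5 hch.le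
      have h3 := mul_pos hS key
      rw [e1, e2]
      linarith
  · rw [hqr, hqi, hzr, hzi]
    exact hs.star h h' hI hi hp hr hr' hC

end Pool.Agent.S5.E
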