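import Pool.Agent.S5.E.Quad3Z
import Pool.Agent.S5.E.BxTwo
import Pool.Agent.S5.E.BxW
import Pool.Agent.S5.E.BxY

/-!
# Mixed chains, block E: the bounds of the slots of a zero
-/

set_option autoImplicit false

namespace Pool.Agent.S5.E

open Complex
open Pool.Agent.S5.E.B2
open Pool.Agent.S3.E (ph tt PP)

namespace Zr

section gen

variable {ι κ : Type*} {m : Bool} {a : ι → ℝ} {nl nr : ι → Option (ι × Bool)}
  {g : ι → κ → ℂ → ℝ} {τ : ℝ} {z : ι → ℂ}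

/-- `Re z - Im q < π / 2` at the vertices with three or more half twists. -/
theorem sr_three (h : Zr m a nl nr g τ z) {i : ι} (ha : 3 ≤ a i) :
    (z i).re - RS (bo m τ z (nl i) * tan (z i)) < Real.pi / 2 ∧
      (z i).re - RS (bo m τ z (nr i) * tan (z i)) < Real.pi / 2 :=
  ⟨(h.vx i).sr3 ha (h.in_slot _) (h.in_slot _), (h.vx i).swap.sr3 ha (h.in_slot _) (h.in_slot _)⟩

private theorem open_aux {a R I' ρ₁ β₁ ρ₂ β₂ p₂ r₂ : ℝ} {w zz : ℂ}
    (hv : Vx a R I' ρ₁ β₁ (PP w) (RS w) ρ₂ β₂ p₂ r₂) (hzr : zz.re = R) (hzi : zz.im = I')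
    (i₁ : In ρ₁ β₁)
    (h : 1.04 * Real.sin (RS w) < Real.cos (RS w) ∧ -(1.04 * Real.sin (RS w)) < Real.cos (RS w) ∧
      |RS w| < Real.pi / 4 ∧ (R < Real.pi / 4 ∨ RS w ≤ 0) ∧ 0 < R + RS w ∧
      R - RS w < Real.pi / 2) (hp : 0 < PP w) :
    |RS w| < Real.pi / 4 ∧ 0 < (Pool.Agent.S5.G.sy (as w) zz - zz / Real.pi).re := by
  obtain ⟨h1, h2, h3, h4, h5, h6⟩ := h
  exact ⟨h3, hv.sl₁.sy_gt hv.R0 hv.R1 hv.I0 i₁ hp h1 h2 h4 h5 h6 (as_re w) (as_im w) hzr hzi⟩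

/-- The left slot of an open node. -/
theorem open_l (h : Zr m a nl nr g τ z) {i : ι} (ha : 5 ≤ a i ∨ (a i = 4 ∧ nr i = none))
    (hp : 0 < PP (bo m τ z (nl i) * tan (z i))) :
    |RS (bo m τ z (nl i) * tan (z i))| < Real.pi / 4 ∧
      0 < (Pool.Agent.S5.G.sy (as (bo m τ z (nl i) * tan (z i))) (z i) - z i / Real.pi).re := by
  have hv := h.vx i
  have i₁ := h.in_slot (nl i)
  have i₂ := h.in_slot (nr i)
  rcases ha with ha | ⟨ha, hn⟩
  · exact open_aux hv rfl rfl i₁ (hv.open5 ha i₁ i₂) hp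
  · rw [ha, hn] at hv
    rw [hn] at i₂
    exact open_aux hv rfl rfl i₁ (Vx.open4 hv i₁ i₂) hp

/-- The right slot of an open node. -/
theorem open_r (h : Zr m a nl nr g τ z) {i : ι} (ha : 5 ≤ a i ∨ (a i = 4 ∧ nl i = none))
    (hp : 0 < PP (bo m τ z (nr i) * tan (z i))) :
    |RS (bo m τ z (nr i) * tan (z i))| < Real.pi / 4 ∧
      0 < (Pool.Agent.S5.G.sy (as (bo m τ z (nr i) * tan (z i))) (z i) - z i / Real.pi).re := by
  have hv := (h.vx i).swap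
  have i₁ := h.in_slot (nr i)
  have i₂ := h.in_slot (nl i)
  rcases ha with ha | ⟨ha, hn⟩
  · exact open_aux hv rfl rfl i₁ (hv.open5 ha i₁ i₂) hp
  · rw [ha, hn] at hv
    rw [hn] at i₂
    exact open_aux hv rfl rfl i₁ (Vx.open4 hv i₁ i₂) hp

end gen

section two

variable {ι : Type*} {a : ι → ℝ} {nl nr : ι → Option (ι × Bool)} {z : ι → ℂ}

private theorem two_aux {R I' ρ₁ β₁ p₁ r₁ ρ₂ β₂ p₂ r₂ x₁ y₁ x₂ y₂ : ℝ}
    (hv : Vx 2 R I' ρ₁ β₁ p₁ r₁ ρ₂ β₂ p₂ r₂) (i₁ : In ρ₁ β₁) (i₂ : In ρ₂ β₂) (hb : 0 ≤ β₁)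
    (hc : β₂ ≤ 0) (hx₁ : ρ₁ * Real.cos β₁ = x₁) (hy₁ : ρ₁ * Real.sin β₁ = y₁)
    (hx₂ : ρ₂ * Real.cos β₂ = x₂) (hy₂ : ρ₂ * Real.sin β₂ = -y₂)
    (k₁ : 0.57 ^ 2 ≤ x₁ ^ 2 + y₁ ^ 2) (t₁ : y₁ ≤ 0.76 * x₁) (k₂ : 0.53 ^ 2 ≤ x₂ ^ 2 + y₂ ^ 2)
    (t₂ : y₂ ≤ 0.777 * x₂) : 0 < r₂ := by
  have e₁ : ρ₁ ^ 2 = x₁ ^ 2 + y₁ ^ 2 := by
    have := Real.sin_sq_add_cos_sq β₁
    rw [← hx₁, ← hy₁]
    linear_combination (-ρ₁ ^ 2) * this
  have e₂ : ρ₂ ^ 2 = x₂ ^ 2 + y₂ ^ 2 := by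
    have := Real.sin_sq_add_cos_sq β₂
    have hy : y₂ = -(ρ₂ * Real.sin β₂) := by linarith
    rw [← hx₂, hy]
    linear_combination (-ρ₂ ^ 2) * this
  have r1 : 0.57 ≤ ρ₁ := by
    apply abs_le_of_sq_le_sq' _ hv.sl₁.ρ0 |>.2
    rw [e₁]
    exact k₁
  have r2 : 0.53 ≤ ρ₂ := by
    apply abs_le_of_sq_le_sq' _ hv.sl₂.ρ0 |>.2
    rw [e₂]
    exact k₂
  refine hv.two_pos hb ?_ ?_ r1 hc ?_ ?_ r2
  · linarith [i₁.βu, Real.arctan_lt_pi_div_two 1.04]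
  · have h1 : ρ₁ * Real.sin β₁ ≤ ρ₁ * (0.76 * Real.cos β₁) := by
      rw [hy₁]
      have : ρ₁ * (0.76 * Real.cos β₁) = 0.76 * x₁ := by
        rw [← hx₁]
        ring
      rw [this]
      exact t₁
    exact le_of_mul_le_mul_left h1 (by linarith)
  · linarith [i₂.βl, Real.arctan_lt_pi_div_two 1.04]
  · have h1 : ρ₂ * -(0.777 * Real.cos β₂) ≤ ρ₂ * Real.sin β₂ := by
      rw [hy₂]
      have : ρ₂ * -(0.777 * Real.cos β₂) = -(0.777 * x₂) := by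
        rw [← hx₂]
        ring
      rw [this]
      linarith
    exact le_of_mul_le_mul_left h1 (by linarith)

/-- The `S` slot of a special vertex has a positive imaginary part at the end. -/
theorem sp_pos (h : Zr true a nl nr (gC a nl nr) 1 z) (hC : B2.Ch a nl nr) (h3 : In3 a nl nr z)
    {i j l : ι} (hi : a i = 2) (hs : Sp nl nr i j l) :
    0 < RS (bo true 1 z (some (l, true)) * tan (z i)) := by
  obtain ⟨j', l', hs', d⟩ := h.ds hC h3 hi (fun x y hT => hT.not_Sp hs) (fun x hE => hs.not_E hE)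
  obtain ⟨rfl, rfl⟩ := hs.uniq hs'
  -- the data
  have key : ∃ x₁ y₁ x₂ y₂ : ℝ, bo true 1 z (some (j', false)) = (x₁ : ℂ) + (y₁ : ℝ) * I ∧
      bo true 1 z (some (l', true)) = (x₂ : ℂ) + ((-y₂ : ℝ) : ℂ) * I ∧
      0.57 ^ 2 ≤ x₁ ^ 2 + y₁ ^ 2 ∧ y₁ ≤ 0.76 * x₁ ∧ 0.53 ^ 2 ≤ x₂ ^ 2 + y₂ ^ 2 ∧
      y₂ ≤ 0.777 * x₂ := by
    have gen : ∀ r₁ r₂ : B2.Rg, 570 ≤ r₁.k0 → r₁.t1 ≤ 760 → 530 ≤ r₂.k0 → r₂.t1 ≤ 777 →
        VD true r₁ r₂ (bo true 1 z (some (j', false))) (bo true 1 z (some (l', true)))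
          (cos (z i)).re (-(cos (z i)).im) →
        ∃ x₁ y₁ x₂ y₂ : ℝ, bo true 1 z (some (j', false)) = (x₁ : ℂ) + (y₁ : ℝ) * I ∧
      bo true 1 z (some (l', true)) = (x₂ : ℂ) + ((-y₂ : ℝ) : ℂ) * I ∧
      0.57 ^ 2 ≤ x₁ ^ 2 + y₁ ^ 2 ∧ y₁ ≤ 0.76 * x₁ ∧ 0.53 ^ 2 ≤ x₂ ^ 2 + y₂ ^ 2 ∧
      y₂ ≤ 0.777 * x₂ := by
      rintro r₁ r₂ c1 c2 c3 c4 ⟨x₁, y₁, x₂, y₂, s1, s2, -⟩
      have e1 := s1.eq
      have e2 := s2.eq
      simp only [sgy, Bool.false_eq_true, if_false, if_true] at e1 e2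
      have c1' : (570 : ℝ) ≤ r₁.k0 := by exact_mod_cast c1
      have c2' : (r₁.t1 : ℝ) ≤ 760 := by exact_mod_cast c2
      have c3' : (530 : ℝ) ≤ r₂.k0 := by exact_mod_cast c3
      have c4' : (r₂.t1 : ℝ) ≤ 777 := by exact_mod_cast c4
      refine ⟨x₁, y₁, x₂, y₂, e1, e2, ?_, ?_, ?_, ?_⟩
      · refine le_trans ?_ s1.reg.lo
        exact pow_le_pow_left₀ (by norm_num) (by linarith) 2
      · refine s1.reg.a1.trans ?_
        exact mul_le_mul_of_nonneg_right (by linarith) s1.reg.x0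
      · refine le_trans ?_ s2.reg.lo
        exact pow_le_pow_left₀ (by norm_num) (by linarith) 2
      · refine s2.reg.a1.trans ?_
        exact mul_le_mul_of_nonneg_right (by linarith) s2.reg.x0
    cases d with
    | PB hm c d => exact gen _ _ (by decide) (by decide) (by decide) (by decide) d
    | TB hm c d => exact gen _ _ (by decide) (by decide) (by decide) (by decide) d
    | SB hm c d => exact gen _ _ (by decide) (by decide) (by decide) (by decide) d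
    | EB hm c hj he d => exact gen _ _ (by decide) (by decide) (by decide) (by decide) d
    | PA hm c d => exact absurd hm (by decide)
    | TA hm c d => exact absurd hm (by decide)
    | SA hm c d => exact absurd hm (by decide)
    | EA hm c hj he d => exact absurd hm (by decide)
  obtain ⟨x₁, y₁, x₂, y₂, b1, b2, k1, t1, k2, t2⟩ := key
  have c1 := h.bo_re (some (j', false))
  have c2 := h.bo_im (some (j', false))
  have c3 := h.bo_re (some (l', true))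
  have c4 := h.bo_im (some (l', true))
  have hre : ∀ x y : ℝ, ((x : ℂ) + (y : ℂ) * I).re = x := fun x y => by simp
  have him : ∀ x y : ℝ, ((x : ℂ) + (y : ℂ) * I).im = y := fun x y => by simp
  rw [b1, hre] at c1
  rw [b1, him] at c2
  rw [b2, hre] at c3
  rw [b2, him] at c4
  have hb : 0 ≤ be true 1 z (some (j', false)) := by
    show 0 ≤ sg false * (ex true false 1 * ph (z j').re (z j').im)
    simp only [sg, Bool.false_eq_true, if_false, one_mul]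
    exact mul_nonneg (h.ex_mem false).1 (h.phpos j').le
  have hc : be true 1 z (some (l', true)) ≤ 0 := by
    show sg true * (ex true true 1 * ph (z l').re (z l').im) ≤ 0
    simp only [sg, if_true]
    have := mul_nonneg (h.ex_mem true).1 (h.phpos l').le
    linarith
  have hv := h.vx i
  rw [hi] at hv
  have i₁ := h.in_slot (some (j', false))
  have i₂ := h.in_slot (some (l', true))
  rcases hs with ⟨n1, n2⟩ | ⟨n1, n2⟩
  · rw [n1, n2] at hv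
    exact two_aux hv i₁ i₂ hb hc c1.symm c2.symm c3.symm c4.symm k1 t1 k2 t2
  · rw [n1, n2] at hv
    exact two_aux hv.swap i₁ i₂ hb hc c1.symm c2.symm c3.symm c4.symm k1 t1 k2 t2

end two

end Zr

end Pool.Agent.S5.E
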