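import Pool.Agent.S5.E.V3B

/-!
# Mixed chains, block E: vertices with four or more twists, crude bounds
-/

set_option autoImplicit false
set_option maxHeartbeats 4000000

namespace Pool.Agent.S5.E

open Real
open Pool.Agent.S3.E (al ph tt k2 s2 cc gg tt_pos tt_sq k2_pos s2_pos one_lt_cc gg_lt_one
  neg_one_lt_gg)

variable {a R I ρ₁ β₁ p₁ r₁ ρ₂ β₂ p₂ r₂ : ℝ}

theorem Vx.R_le4 (h : Vx a R I ρ₁ β₁ p₁ r₁ ρ₂ β₂ p₂ r₂) (ha : 4 ≤ a) (i₁ : In ρ₁ β₁)
    (i₂ : In ρ₂ β₂) (hT : TT R I ≤ 1.04) : R ≤ π / 4 + 0.091 := by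
  have h1 := h.sl₁.r_ge_p h.R0 h.R1 h.I0 i₁ hT
  have h2 := h.sl₂.r_ge_p h.R0 h.R1 h.I0 i₂ hT
  have h3 : a * (R - GA (TT R I) * I) ≤ π := by
    have h4 := h.hR
    have h5 : GA (TT R I) * p₁ + GA (TT R I) * p₂ = GA (TT R I) * (a * I) := by
      rw [h.hI]
      ring
    have h6 : a * (R - GA (TT R I) * I) = a * R - GA (TT R I) * (a * I) := by ring
    rw [h6, ← h5]
    linarith
  have h7 := h.GI hT
  have h8 := sin_le_one (2 * R)
  have h9 : R - GA (TT R I) * I ≤ π / 4 := by
    rcases le_total (R - GA (TT R I) * I) 0 with h10 | h10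
    · linarith [pi_pos]
    · have := mul_le_mul_of_nonneg_right ha h10
      linarith
  linarith

/-- `a ≥ 4`: `|cos z| > 0.64`, `tan φ < 0.627`. -/
theorem Vx.kf4 (h : Vx a R I ρ₁ β₁ p₁ r₁ ρ₂ β₂ p₂ r₂) (ha : 4 ≤ a) (i₁ : In ρ₁ β₁)
    (i₂ : In ρ₂ β₂) : 0.409 < k2 R I ∧ tan R * tanh I < 0.627 := by
  have hx := tan_pos' h.R0 h.R1
  have hm := tanh_pos h.I0
  have hmI := tanh_le h.I0.le
  have hg1 := tan_sq_gg h.R0 h.R1
  have hc := one_lt_cc h.I0
  have hgl := neg_one_lt_gg h.R0 h.R1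
  have hI0 := h.I0
  rcases le_total (TT R I) 1.04 with hT | hT
  · have h1 := h.R_le4 ha i₁ i₂ hT
    have hg : -0.182 ≤ gg R := by
      have e : gg R = -sin (2 * (R - π / 4)) := by
        unfold gg
        have e1 : 2 * (R - π / 4) = 2 * R - π / 2 := by ring
        rw [e1, sin_sub_pi_div_two]
        ring
      rw [e]
      rcases le_total 0 (R - π / 4) with h2 | h2
      · have := sin_le (x := 2 * (R - π / 4)) (by linarith)
        linarith
      · have h3 : sin (2 * (R - π / 4)) ≤ 0 :=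
          sin_nonpos_of_nonpos_of_neg_pi_le (by linarith) (by linarith [h.R0, pi_pos])
        linarith
    have h2 := two_I_le h.R0 h.R1 h.I0
    have h3 : TT R I * sin (2 * R) ≤ 1.04 * 1 :=
      mul_le_mul hT (sin_le_one _) h.S0.le (by norm_num)
    have h4 : tanh I ≤ 0.52 := by linarith
    have h5 : tan R ≤ 1.2023 := by
      by_contra hcon
      push Not at hcon
      nlinarith
    constructor
    · unfold k2
      linarith
    · have := mul_le_mul h5 h4 hm.le (by norm_num)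
      linarith
  · have h1 := h.sl₁.r_nonneg h.R0 h.R1 h.I0 i₁ hT
    have h2 := h.sl₂.r_nonneg h.R0 h.R1 h.I0 i₂ hT
    have h3 := mul_le_mul_of_nonneg_right ha h.R0.le
    have h4 : R ≤ π / 4 := by linarith [h.hR]
    have hg : 0 ≤ gg R := by
      unfold gg
      exact cos_nonneg_of_mem_Icc ⟨by linarith [h.R0, pi_pos], by linarith⟩
    have h5 : tan R ≤ 1 := by
      by_contra hcon
      push Not at hcon
      nlinarith
    have h6 := tt_cg (I := I) h.R0 h.R1
    have h7 : tt R I ^ 2 ≤ 1 := by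
      by_contra hcon
      push Not at hcon
      nlinarith
    have h8 := tt_pos (I := I) h.R0 h.R1
    have h9 : tt R I ≤ 1 := by nlinarith
    have key : ∀ {ρ β p r : ℝ}, Slot R I ρ β p r → In ρ β → p ≤ 1.1 := by
      intro ρ β p r hs hi
      have e1 := hs.sinh_le
      have e2 := le_sinh hs.p0
      have e3 := mul_le_mul hi.ρ1 h9 h8.le (by norm_num)
      linarith
    have h10 := key h.sl₁ i₁
    have h11 := key h.sl₂ i₂
    have h12 := mul_le_mul_of_nonneg_right ha hI0.le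
    have h13 : tanh I ≤ 0.55 := by linarith [h.hI]
    constructor
    · unfold k2
      linarith
    · have := mul_le_mul h5 h13 hm.le (by norm_num)
      linarith

end Pool.Agent.S5.E
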