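import Pool.Agent.S5.E.V3D

/-!
# Mixed chains, block E: diagonal dominance for `a ≥ 3`, the negative case and the final form
-/

set_option autoImplicit false
set_option maxHeartbeats 4000000

namespace Pool.Agent.S5.E

open Real
open Pool.Agent.S3.E (al ph tt k2 s2 cc gg tt_pos tt_sq k2_pos s2_pos al_pos al_lt tan_al one_le_cc
  one_lt_cc gg_lt_one neg_one_lt_gg sinh_two_pos sin_two_pos sinh_two_sq sin_two_sq norm_tanh_sq
  tanh_quadrant proj_cs pos_cs)

theorem arctan_104 : arctan 1.04 ≤ 0.8051 := by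
  have h1 := arctan_add (x := 1) (y := 1 / 51) (by norm_num)
  norm_num at h1
  have h2 := arctan_le (x := 1 / 51) (by norm_num)
  have h3 := arctan_one
  have h4 := pi_lt_d4
  norm_num at h1 h2 ⊢
  rw [← h1]
  linarith only [h2, h4]

theorem mul_cos_le_sin {x : ℝ} (h0 : 0 ≤ x) (h1 : x ≤ π / 2) : x * cos x ≤ sin x := by
  rcases h1.eq_or_lt with h | h
  · rw [h, cos_pi_div_two, sin_pi_div_two]
    norm_num
  · have hc : 0 < cos x := cos_pos_of_mem_Ioo ⟨by linarith only [h, h0], h⟩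
    have := le_tan h0 h
    rw [tan_eq_sin_div_cos, le_div_iff₀ hc] at this
    exact this

theorem al_eq_arctan (R I : ℝ) (h : 0 < al R I) : al R I = arctan (TT R I) := by
  unfold TT
  rw [arctan_tan (by linarith only [pi_pos, h]) (al_lt R I)]

section slot

variable {R I ρ β p r : ℝ}

theorem Slot.tan_ge (hs : Slot R I ρ β p r) (h : 0 < R) (h' : R < π / 2) (hI : 0 < I)
    (hi : In ρ β) (hc : 0 < cos r) : -(GA (TT R I) * tanh p) ≤ tan r := by
  have h1 := hs.r_ge h h' hI hi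
  have h2 : -(π / 2) < r := by
    rcases hs.r0.eq_or_lt with h2 | h2
    · rw [← h2, cos_neg, cos_pi_div_two] at hc
      exact absurd hc (lt_irrefl _)
    · exact h2
  have h3 : r < π / 2 := by
    rcases hs.r1.eq_or_lt with h2 | h2
    · rw [h2, cos_pi_div_two] at hc
      exact absurd hc (lt_irrefl _)
    · exact h2
  rcases h1.eq_or_lt with h4 | h4
  · rw [← h4, tan_arctan]
  · have := tan_lt_tan_of_lt_of_lt_pi_div_two (neg_pi_div_two_lt_arctan _) h3 h4
    rw [tan_arctan] at this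
    exact this.le

/-- `r ≥ α - b₀`. -/
theorem Slot.r_ge_al (hs : Slot R I ρ β p r) (h : 0 < R) (h' : R < π / 2) (hI : 0 < I)
    (hi : In ρ β) (hT : TT R I ≤ 1.04) : al R I - arctan 1.04 ≤ r := by
  refine le_trans ?_ (hs.r_ge h h' hI hi)
  have h0 := TT_pos h h' hI
  have h1 : arctan (-(GA (TT R I))) ≤ arctan (-(GA (TT R I) * tanh p)) := by
    apply arctan_mono
    have h2 := GA_nonneg h0.le hT
    have h3 := (tanh_lt_one p).le
    have := mul_le_mul_of_nonneg_left h3 h2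
    linarith only [this]
  refine le_trans (le_of_eq ?_) h1
  have h2 := arctan_add (x := TT R I) (y := -1.04) (by linarith only [h0])
  rw [arctan_neg, ← al_eq_arctan R I (al_pos h h' hI)] at h2
  rw [← sub_eq_add_neg] at h2
  rw [h2]
  congr 1
  unfold GA
  rw [← neg_div]
  congr 1 <;> ring

/-- `r ≤ α + b₀` if `r > 0`. -/
theorem Slot.r_le_al (hs : Slot R I ρ β p r) (h : 0 < R) (h' : R < π / 2) (hI : 0 < I)
    (hi : In ρ β) (hr : 0 < r) : r ≤ al R I + arctan 1.04 := by
  have hγ : 0 ≤ al R I + β := by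
    by_contra hc
    push Not at hc
    have h1 := hs.e2
    have h2 : 0 < cosh p * sin r :=
      mul_pos (cosh_pos p) (sin_pos_of_pos_of_lt_pi hr (by linarith only [hs.r1, h', h]))
    have h3 : sin (al R I + β) ≤ 0 :=
      sin_nonpos_of_nonpos_of_neg_pi_le hc.le (by linarith only [hs.g0, h', h])
    have h4 := mul_nonpos_of_nonneg_of_nonpos hs.m0 h3
    linarith only [h4, h2, h1]
  have := hs.r_le hγ
  linarith only [hi.βu, this]

end slot

private theorem sq_num {g S t s : ℝ} (hS2 : S ^ 2 = 1 - g ^ 2) (hS : 0 ≤ S) (hg : g ^ 2 ≤ t)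
    (hs : s ^ 2 ≤ 1 - t) : s ≤ S := by
  apply le_of_sq_le_sq _ hS
  rw [hS2]
  linarith only [hs, hg]

private theorem num_a {c g S : ℝ} (hS8 : 0.8 ≤ S) (hg0 : 0 ≤ g) (hS2 : S ^ 2 = 1 - g ^ 2)
    (hc : 1 < c) (hcc : c ≤ 1.4428) : 0.625 * (c - g) < 0.7 * S * c := by
  rcases le_or_gt 0.893 S with h4 | h4
  · (refine lt_of_not_ge fun hng => ?_; linarith only [hng, h4, hS2, hg0,
      mul_nonneg (sub_nonneg.2 hc.le) (sub_nonneg.2 h4),
      mul_nonneg (sub_nonneg.2 hc.le) (sub_nonneg.2 hcc), mul_pos (sub_pos.2 hc) (sub_pos.2 hc),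
      mul_nonneg (sub_nonneg.2 hS2.le) (sub_nonneg.2 hc.le),
      mul_nonneg (sub_nonneg.2 hS2.ge) (sub_nonneg.2 hc.le),
      mul_nonneg (sub_nonneg.2 hS8) (sub_nonneg.2 h4),
      mul_nonneg (sub_nonneg.2 hS8) (sub_nonneg.2 hg0),
      mul_nonneg (sub_nonneg.2 hng) (sub_nonneg.2 hS8),
      mul_nonneg (sq_nonneg (g)) (sub_nonneg.2 hcc)])
  · have hg4 : 0.44 ≤ g := by
      apply le_of_sq_le_sq _ hg0
      linarith only [h4, hcc, hc, hS2, mul_nonneg (sub_nonneg.2 hS8) (sub_nonneg.2 h4.le)]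
    (refine lt_of_not_ge fun hng => ?_; linarith only [hng, hg4, hcc, hc, hS8,
      mul_nonneg (sub_nonneg.2 hS8) (sub_nonneg.2 hg0),
      mul_nonneg (sub_nonneg.2 hS8) (sub_nonneg.2 hS8),
      mul_nonneg (sub_nonneg.2 hng) (sub_nonneg.2 hS8),
      mul_nonneg (sq_nonneg (S)) (sub_nonneg.2 hc.le)])

private theorem num_b {c g S TQ TG : ℝ} (hg0 : 0 ≤ g) (hc : 1 < c) (hTQ0 : 0 ≤ TQ) (hTG0 : 0 ≤ TG)
    (hb : 0.75 * TQ + 1.5 * TG ≤ 0.8) (hS : 0 ≤ S) (h3 : 0.625 * (c - g) < 0.7 * S * c) :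
    5 / 4 * ((c - g) / 2) < 3 / 2 * (S * (c - ((c - g) / 2 * TQ + TG))) := by
  have h1 : 0.7 * c ≤ 1.5 * (c - ((c - g) / 2 * TQ + TG)) := by
    have h2 : 0 ≤ g * TQ := mul_nonneg hg0 hTQ0
    have h3 := mul_le_mul_of_nonneg_left hb (by linarith only [hc] : 0 ≤ c)
    have h4 : 0 ≤ (c - 1) * TG := mul_nonneg (by linarith only [hc]) hTG0
    linarith only [h4, h3, h2]
  have h2 : S * (0.7 * c) ≤ S * (1.5 * (c - ((c - g) / 2 * TQ + TG))) :=
    mul_le_mul_of_nonneg_left h1 hS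
  linarith only [h2, h3]

private theorem num_c {c g S TQ TG : ℝ} (hc : 1 < c) (hTQ : TQ ≤ 1.0402)
    (hS9 : 0.97 ≤ S) (hγ : 0.5 * (1 + -g) < S * (1.5 - 0.75 * (1 + -g) * TQ - 1.5 * TG)) :
    1 * ((c - g) / 2) < 3 / 2 * (S * (c - ((c - g) / 2 * TQ + TG))) := by
  have h1 : 0 ≤ (c - 1) * (S * (1.5 - 0.75 * TQ) - 0.5) := by
    apply mul_nonneg (by linarith only [hc])
    have h2 : 0.7 ≤ 1.5 - 0.75 * TQ := by linarith only [hTQ]
    have h3 := mul_le_mul hS9 h2 (by norm_num) (by linarith only [hS9])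
    linarith only [h3]
  have e : 3 / 2 * (S * (c - ((c - g) / 2 * TQ + TG))) - 1 * ((c - g) / 2) =
      (c - 1) * (S * (1.5 - 0.75 * TQ) - 0.5) +
      (S * (1.5 - 0.75 * (1 + -g) * TQ - 1.5 * TG) - 0.5 * (1 + -g)) := by ring
  linarith only [h1, hγ]

section vertex

variable {a R I ρ₁ β₁ p₁ r₁ ρ₂ β₂ p₂ r₂ : ℝ}

theorem Vx.two_delta (h : Vx a R I ρ₁ β₁ p₁ r₁ ρ₂ β₂ p₂ r₂) (ha : 3 ≤ a) (i₁ : In ρ₁ β₁)
    (i₂ : In ρ₂ β₂) (hT : TT R I ≤ 1.04) (hr : 0 < r₁) : 3 * R - 1.6102 ≤ π - 2 * r₁ := by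
  have h1 := h.sl₁.r_le_al h.R0 h.R1 h.I0 i₁ hr
  have h2 := h.sl₂.r_ge_al h.R0 h.R1 h.I0 i₂ hT
  have h3 := mul_le_mul_of_nonneg_right ha h.R0.le
  have h4 := arctan_104
  linarith only [h.hR, h4, h3, h2, h1]

theorem Vx.cc_le (h : Vx a R I ρ₁ β₁ p₁ r₁ ρ₂ β₂ p₂ r₂) (hT : TT R I ≤ 1.04) :
    cc I ≤ 1.4428 := by
  have h1 := TT_sq (I := I) h.R0 h.R1
  have h2 := one_lt_cc h.I0
  have h3 : TT R I ^ 2 ≤ 1.0816 := by linarith only [hT,
                                        mul_nonneg (sub_nonneg.2 hT) (sub_nonneg.2 h.T0.le)]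
  have h4 := sq_nonneg (gg R)
  have h5 : 0 ≤ 1 - gg R ^ 2 := by
    (refine le_of_not_gt fun hng => ?_; linarith only [h2, h1,
      mul_pos (sub_pos.2 h2) (sub_pos.2 h2), mul_nonneg (sq_nonneg (TT R I)) (sub_nonneg.2 hng.le)])
  (refine le_of_not_gt fun hng => ?_; linarith only [hng, h3, h2, h1,
    mul_pos (sub_pos.2 hng) (sub_pos.2 hng), mul_nonneg (sq_nonneg (gg R)) (sq_nonneg (TT R I))])

theorem Vx.s2_le (h : Vx a R I ρ₁ β₁ p₁ r₁ ρ₂ β₂ p₂ r₂) (ha : 3 ≤ a) (i₁ : In ρ₁ β₁)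
    (i₂ : In ρ₂ β₂) (hT : TT R I ≤ 1.04) : s2 R I ≤ 1 := by
  have h1 := TT_sq (I := I) h.R0 h.R1
  have h2 := one_lt_cc h.I0
  have h3 : TT R I ^ 2 ≤ 1.0816 := by linarith only [hT,
                                        mul_nonneg (sub_nonneg.2 hT) (sub_nonneg.2 h.T0.le)]
  have h4 := sq_nonneg (gg R)
  have hg := (h.g_ge ha i₁ i₂).1
  have h5 : 0 ≤ 1 - gg R ^ 2 := by
    (refine le_of_not_gt fun hng => ?_; linarith only [h2, h1,
      mul_pos (sub_pos.2 h2) (sub_pos.2 h2), mul_nonneg (sq_nonneg (TT R I)) (sub_nonneg.2 hng.le)])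
  have h6 : cc I ^ 2 ≤ (2 + gg R) ^ 2 := by linarith only [hg, h3, h1,
                                              mul_nonneg (sub_nonneg.2 h3) (sub_nonneg.2 h5),
                                              mul_nonneg (sq_nonneg (2 + gg R)) (sub_nonneg.2 h5),
                                              mul_nonneg (sq_nonneg (2 + gg R)) (sub_nonneg.2 hg),
                                              mul_nonneg (sq_nonneg (gg R)) (sq_nonneg (TT R I)),
                                              mul_nonneg (sq_nonneg (gg R)) (sq_nonneg (gg R))]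
  have h7 := le_of_sq_le_sq h6 (by linarith only [hg])
  unfold s2
  linarith only [h7]

/-- The common part: `T M < c`. -/
theorem Vx.TM (h : Vx a R I ρ₁ β₁ p₁ r₁ ρ₂ β₂ p₂ r₂) (ha : 3 ≤ a) (i₁ : In ρ₁ β₁)
    (i₂ : In ρ₂ β₂) (hT : TT R I ≤ 1.04) :
    TT R I * (s2 R I * QT (TT R I) + GA (TT R I)) < cc I := by
  have h1 := QT_alpha h.T0.le
  have h2 := QT_T h.T0.le hT
  have h3 := one_lt_cc h.I0
  have hg := (h.g_ge ha i₁ i₂).1
  have h4 : 0 ≤ TT R I * QT (TT R I) := mul_nonneg h.T0.le (QT_pos h.T0.le).le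
  have h5 : 0 ≤ (cc I - 1) * (1 - TT R I * QT (TT R I) / 2) :=
    mul_nonneg (by linarith only [h3]) (by linarith only [h2])
  have h6 : 0 ≤ (gg R + 0.64) * (TT R I * QT (TT R I)) := mul_nonneg (by linarith only [hg]) h4
  unfold s2
  linarith only [h6, h5, h1]

theorem Vx.dom_neg (h : Vx a R I ρ₁ β₁ p₁ r₁ ρ₂ β₂ p₂ r₂) (ha : 3 ≤ a) (i₁ : In ρ₁ β₁)
    (i₂ : In ρ₂ β₂) (c₁ : 0 < cos r₁) (c₂ : 0 < cos r₂) (hr₂ : r₂ < 0) :
    s2 R I * ‖Complex.tanh ((p₁ : ℂ) + (r₁ : ℂ) * Complex.I)‖ -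
        (Complex.tanh ((p₁ : ℂ) + (r₁ : ℂ) * Complex.I)).im +
      (s2 R I * ‖Complex.tanh ((p₂ : ℂ) + (r₂ : ℂ) * Complex.I)‖ -
        (Complex.tanh ((p₂ : ℂ) + (r₂ : ℂ) * Complex.I)).im) <
      a / 2 * (cc I * sin (2 * R)) := by
  have hp3 : (3.1415 : ℝ) < π := pi_gt_d4
  have hp4 : π < (3.1416 : ℝ) := pi_lt_d4
  have hT : TT R I ≤ 1.04 := by
    by_contra hc
    push Not at hc
    have := h.sl₂.r_nonneg h.R0 h.R1 h.I0 i₂ hc.le
    linarith only [this, hr₂]
  have hTM := h.TM ha i₁ i₂ hT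
  have hcc := h.cc_le hT
  have hs1 := h.s2_le ha i₁ i₂ hT
  have hs0 := s2_pos (I := I) h.R0 h.R1
  have hT0 := h.T0
  have hG0 := GA_nonneg hT0.le hT
  have hQ0 := QT_pos hT0.le
  have hQ1 := one_le_QT hT0.le hT
  have hQ2 := QT_sq hT0.le hT
  have hS0 := h.S0
  have hc1 := one_lt_cc h.I0
  have hg1 := gg_lt_one h.R0 h.R1
  have hg := (h.g_ge ha i₁ i₂).1
  have hI0 := h.I0
  have hR0 := h.R0
  have hI2 := two_I_le h.R0 h.R1 h.I0
  have hp1 := h.sl₁.p0
  have hp2 := h.sl₂.p0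
  have hu1 := tanh_le hp1
  have hu2 := tanh_le hp2
  have hm0 : 0 < s2 R I * QT (TT R I) + GA (TT R I) := by
    have := mul_pos hs0 hQ0
    linarith only [this, hG0]
  -- slot 2
  have e2 := slot_E2 (σ := s2 R I) hp2 c₂ (tan_nonpos_of_nonpos_of_neg_pi_div_two_le hr₂.le h.sl₂.r0)
    (h.sl₂.tan_ge h.R0 h.R1 h.I0 i₂ c₂) hG0 hQ0.le hQ2 hs0.le
  have e2' : (s2 R I * QT (TT R I) + GA (TT R I)) * tanh p₂ ≤
      (s2 R I * QT (TT R I) + GA (TT R I)) * p₂ := mul_le_mul_of_nonneg_left hu2 hm0.le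
  set M := s2 R I * QT (TT R I) + GA (TT R I) with hM
  set σ := s2 R I with hσ
  set T := TT R I with hTd
  set S := sin (2 * R) with hSd
  set N₁ := ‖Complex.tanh ((p₁ : ℂ) + (r₁ : ℂ) * Complex.I)‖ with hN₁
  set N₂ := ‖Complex.tanh ((p₂ : ℂ) + (r₂ : ℂ) * Complex.I)‖ with hN₂
  set J₁ := (Complex.tanh ((p₁ : ℂ) + (r₁ : ℂ) * Complex.I)).im with hJ₁
  set J₂ := (Complex.tanh ((p₂ : ℂ) + (r₂ : ℂ) * Complex.I)).im with hJ₂
  have hmS : 0 < M * S := mul_pos hm0 hS0
  have hσM : σ ≤ M := by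
    have := mul_le_mul_of_nonneg_left hQ1 hs0.le
    linarith only [this, hG0]
  rcases le_or_gt r₁ (π / 4) with hr₁ | hr₁
  · -- easy case
    have e1 : σ * N₁ - J₁ ≤ M * p₁ := by
      rcases le_or_gt 0 r₁ with h0 | h0
      · have e1 := slot_E1 (σ := σ) hp1 h0 hr₁ hs0.le hs1
        have e3 : σ * tanh p₁ ≤ M * p₁ :=
          mul_le_mul hσM hu1 (tanh_nonneg hp1) hm0.le
        linarith only [e3, e1]
      · have e1 := slot_E2 (σ := σ) hp1 c₁
          (tan_nonpos_of_nonpos_of_neg_pi_div_two_le h0.le h.sl₁.r0)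
          (h.sl₁.tan_ge h.R0 h.R1 h.I0 i₁ c₁) hG0 hQ0.le hQ2 hs0.le
        have e3 : M * tanh p₁ ≤ M * p₁ := mul_le_mul_of_nonneg_left hu1 hm0.le
        rw [← hM] at e1
        linarith only [e3, e1]
    have e3 : M * p₁ + M * p₂ = M * (a * I) := by rw [h.hI]; ring
    have e4 : M * (a * I) ≤ a / 2 * (M * T) * S := by
      have h1 : M * (2 * I) ≤ M * (T * S) := mul_le_mul_of_nonneg_left hI2 hm0.le
      have h2 : a / 2 * (M * (2 * I)) ≤ a / 2 * (M * (T * S)) :=
        mul_le_mul_of_nonneg_left h1 (by linarith only [ha])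
      linarith only [h2]
    have e5 : a / 2 * (M * T) * S < a / 2 * (cc I * S) := by
      have h1 : M * T * S < cc I * S := mul_lt_mul_of_pos_right (by linarith only [hTM]) hS0
      have h2 : a / 2 * (M * T * S) < a / 2 * (cc I * S) :=
        mul_lt_mul_of_pos_left h1 (by linarith only [ha])
      linarith only [h2]
    linarith only [e5, e4, e3, e1, e2, e2']
  · -- `r₁ > π/4`
    have hr0 : 0 < r₁ := by linarith only [hr₁, hp4, hp3]
    have hδ := h.two_delta ha i₁ i₂ hT hr0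
    have hr1 : r₁ < π / 2 := by
      rcases h.sl₁.r1.eq_or_lt with h2 | h2
      · rw [h2, cos_pi_div_two] at c₁
        exact absurd c₁ (lt_irrefl _)
      · exact h2
    have hco : cos (2 * r₁) ≤ 0 :=
      cos_nonpos_of_pi_div_two_le_of_le (by linarith only [hr₁]) (by linarith only [hr1, hδ, hR0,
                                                                       hp3])
    have hmc : (π - 2 * r₁) * (-cos (2 * r₁)) ≤ sin (2 * r₁) := by
      have := mul_cos_le_sin (x := π - 2 * r₁) (by linarith only [hr1]) (by linarith only [hr₁])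
      rw [cos_pi_sub, sin_pi_sub] at this
      exact this
    have hS2 : S ^ 2 = 1 - gg R ^ 2 := sin_two_sq R
    have h3R : 3 * R ≤ a * R := mul_le_mul_of_nonneg_right ha hR0.le
    have hσe : σ = (cc I - gg R) / 2 := rfl
    have hp2' : p₂ ≤ a * I := by linarith only [h.hI, hp1]
    have e4 : M * p₂ ≤ a / 2 * (M * T) * S := by
      have h0 : M * p₂ ≤ M * (a * I) := mul_le_mul_of_nonneg_left hp2' hm0.le
      have h1 : M * (2 * I) ≤ M * (T * S) := mul_le_mul_of_nonneg_left hI2 hm0.le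
      have h2 : a / 2 * (M * (2 * I)) ≤ a / 2 * (M * (T * S)) :=
        mul_le_mul_of_nonneg_left h1 (by linarith only [ha])
      linarith only [h2, h0]
    have fin : ∀ K : ℝ, σ * N₁ - J₁ ≤ K * σ → K * σ < 3 / 2 * (S * (cc I - T * M)) →
        σ * N₁ - J₁ + (σ * N₂ - J₂) < a / 2 * (cc I * S) := by
      intro K hK1 hK2
      have h1 : 0 < S * (cc I - T * M) := mul_pos hS0 (by linarith only [hTM])
      have h2 : 3 / 2 * (S * (cc I - T * M)) ≤ a / 2 * (S * (cc I - T * M)) :=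
        mul_le_mul_of_nonneg_right (by linarith only [ha]) h1.le
      have e5 : a / 2 * (S * (cc I - T * M)) = a / 2 * (cc I * S) - a / 2 * (M * T) * S := by ring
      linarith only [h2, hK2, hK1, e4, e2, e2']
    have hMe : T * M = (cc I - gg R) / 2 * (T * QT T) + T * GA T := by
      rw [hM, hσe]
      ring
    have hQT := QT_T hT0.le hT
    have hTQ0 : 0 ≤ T * QT T := mul_nonneg hT0.le hQ0.le
    have hTG0 : 0 ≤ T * GA T := mul_nonneg hT0.le hG0
    rcases le_or_gt 0 (gg R) with hg0 | hg0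
    · -- `g ≥ 0`
      have hsin : 1 / 2 ≤ sin r₁ ^ 2 := by
        have h1 := cos_two_mul r₁
        have h2 := sin_sq r₁
        linarith only [h2, h1, hco]
      have htt : sin r₁ ^ 2 ≤ 1.21 * tt R I ^ 2 := by
        have h1 := h.sl₁.sin_sq_le
        rw [mul_pow] at h1
        have h2 := mul_le_mul_of_nonneg_right (i₁.sq h.sl₁.ρ0) (sq_nonneg (tt R I))
        linarith only [h2, h1]
      have htk := tt_cg (I := I) h.R0 h.R1
      have hg6 : gg R ≤ 0.6 := by
        have h1 : 0.413 ≤ tt R I ^ 2 := by linarith only [htt, hsin, hp4, hp3]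
        have h2 : 0.413 * (cc I + gg R) ≤ tt R I ^ 2 * (cc I + gg R) :=
          mul_le_mul_of_nonneg_right h1 (by linarith only [hg, hc1, hp4, hp3])
        rw [htk] at h2
        norm_num at h2 ⊢
        linarith only [h2, hcc, hp4, hp3]
      have hδ2 : 0.3608 ≤ π - 2 * r₁ := by
        rcases le_or_gt 0.657 R with hR | hR
        · linarith only [hR, hδ]
        · have hgl : 0.2538 ≤ gg R := by
            have h5 : sin (π / 2 - 2 * R) = gg R := by
              unfold gg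
              exact sin_pi_div_two_sub _
            have h6 : sin 0.2567 ≤ sin (π / 2 - 2 * R) :=
              sin_le_sin_of_le_of_le_pi_div_two (by linarith only [hp3]) (by linarith only [hR0]) (by linarith only [hR,
                                                                                                        hp4,
                                                                                                        hp3])
            have h7 := sin_ge' (x := 0.2567) (by norm_num) (by norm_num)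
            norm_num at h7 h6 ⊢
            linarith only [h6, h7, h5, hp4, hp3]
          have h1 : tt R I ^ 2 ≤ 0.701 := by
            by_contra hcon
            push Not at hcon
            have h2 : 0.701 * (cc I + gg R) < tt R I ^ 2 * (cc I + gg R) :=
              mul_lt_mul_of_pos_right hcon (by linarith only [hg, hc1, hp4, hp3])
            rw [htk] at h2
            norm_num at h2 hgl hcc
            linarith only [hcc, hgl, h2, hp4, hp3]
          have h3 : 0.15 ≤ cos r₁ ^ 2 := by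
            have := sin_sq_add_cos_sq r₁
            linarith only [this, h1, htt, hp4, hp3]
          have h4 : 0.38 ≤ cos r₁ := le_of_sq_le_sq (by norm_num at h3 ⊢; linarith only [h3, hp4,
                                                                            hp3]) c₁.le
          have h5 : cos r₁ ≤ π / 2 - r₁ := by
            rw [← sin_pi_div_two_sub]
            exact sin_le (by linarith only [hr1])
          linarith only [h5, h4, hp4, hp3]
      have hσ7 : σ ≤ 0.7215 := by rw [hσe]; linarith only [hg0, hcc, hp4, hp3]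
      refine fin (5 / 4) ?_ ?_
      · apply slot_K (m := 1 / 2) c₁ hco hs0.le (by norm_num) (by norm_num)
        · intro w
          linarith only [sq_nonneg (w / 2 - 3 / 4)]
        · have h1 : σ * (1 / 2) * (-cos (2 * r₁)) ≤ (π - 2 * r₁) * (-cos (2 * r₁)) :=
            mul_le_mul_of_nonneg_right (by linarith only [hδ2, hg0, hσe, hcc, hp4, hp3]) (by linarith only [hco])
          linarith only [h1, hmc]
      · have hS8 : 0.8 ≤ S :=
          sq_num (t := 0.6 ^ 2) hS2 hS0.le (pow_le_pow_left₀ hg0 hg6 2) (by norm_num)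
        rw [hσe, hMe]
        exact num_b hg0 hc1 hTQ0 hTG0 (QT_beta hT0.le) hS0.le (num_a hS8 hg0 hS2 hc1 hcc)
    · -- `g < 0`
      have hR4 : π / 4 < R := by
        by_contra hcon
        push Not at hcon
        have : 0 ≤ gg R := by
          unfold gg
          exact cos_nonneg_of_mem_Icc ⟨by linarith only [hR0, hp4, hp3], by linarith only [hcon]⟩
        linarith only [this, hg0]
      have hyR : -gg R ≤ 2 * R - π / 2 := by
        have h5 : sin (2 * R - π / 2) = -gg R := by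
          unfold gg
          exact sin_sub_pi_div_two _
        rw [← h5]
        exact sin_le (by linarith only [hR4])
      have hr₂l := h.sl₂.r_ge' h.R0 h.R1 h.I0 i₂ hT
      have hr₂p := h.sl₂.r_ge_p h.R0 h.R1 h.I0 i₂ hT
      have hr₂G : -r₂ ≤ GA T := by
        have := mul_le_mul_of_nonneg_left (tanh_lt_one p₂).le hG0
        linarith only [this, hr₂l]
      have hy1 : -gg R ≤ 2 / 3 * (-r₂) := by linarith only [h.hR, hyR, h3R, hr₁]
      have hr₂3 : -r₂ ≤ 0.309 := by
        have hGI := h.GI hT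
        have hS1 : S ≤ 1 := sin_le_one _
        have h1 : GA T * p₂ ≤ GA T * (a * I) := mul_le_mul_of_nonneg_left hp2' hG0
        have h2 : -r₂ ≤ a * 0.091 := by
          have h3 : a * (GA T * I) ≤ a * 0.091 :=
            mul_le_mul_of_nonneg_left (by linarith only [hS1, hGI]) (by linarith only [ha])
          linarith only [h3, h1, hr₂p]
        have h4 : a * (π / 4) ≤ a * R := mul_le_mul_of_nonneg_left hR4.le (by linarith only [ha])
        have h5 : a * 0.785375 ≤ a * (π / 4) := mul_le_mul_of_nonneg_left (by linarith only [hp3]) (by linarith only [ha])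
        linarith only [h.hR, h5, h4, h2, hr₁, hp4, hp3]
      have hσδ : σ ≤ π - 2 * r₁ := by rw [hσe]; linarith only [hyR, hR4, hδ, hcc, hp4, hp3]
      refine fin 1 ?_ ?_
      · apply slot_K (m := 1) c₁ hco hs0.le (by norm_num) (by norm_num)
        · intro w
          linarith only [sq_nonneg w]
        · have h1 : σ * 1 * (-cos (2 * r₁)) ≤ (π - 2 * r₁) * (-cos (2 * r₁)) :=
            mul_le_mul_of_nonneg_right (by linarith only [hyR, hR4, hσe, hδ, hcc, hp4, hp3]) (by linarith only [hco])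
          linarith only [h1, hmc]
      · have hγ := QT_gamma (T := T) (y := -gg R) (S := S) hT0.le hT (by linarith only [hg0]) hS0
          (by rw [hS2]; ring) (by linarith only [hr₂3, hy1]) (by linarith only [hy1, hr₂G])
        have hy2 : gg R ^ 2 ≤ 0.206 ^ 2 := by
          rw [← neg_sq]
          exact pow_le_pow_left₀ (by linarith only [hg0]) (by linarith only [hr₂3, hy1]) 2
        have hS9 : 0.97 ≤ S := sq_num (t := 0.206 ^ 2) hS2 hS0.le hy2 (by norm_num)
        rw [hσe, hMe]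
        exact num_c hc1 hQT hS9 hγ

theorem Vx.dom3 (h : Vx a R I ρ₁ β₁ p₁ r₁ ρ₂ β₂ p₂ r₂) (ha : 3 ≤ a) (i₁ : In ρ₁ β₁)
    (i₂ : In ρ₂ β₂) (c₁ : 0 < cos r₁) (c₂ : 0 < cos r₂) {z : ℂ} (hz : z.re = R)
    (hz' : z.im = I) :
    s2 R I * (‖Complex.tanh ((p₁ : ℂ) + (r₁ : ℂ) * Complex.I)‖ +
        ‖Complex.tanh ((p₂ : ℂ) + (r₂ : ℂ) * Complex.I)‖) <
      ‖(a : ℂ) * (Complex.cos z * Complex.sin z) -
        Complex.I * (Complex.tanh ((p₁ : ℂ) + (r₁ : ℂ) * Complex.I) +
          Complex.tanh ((p₂ : ℂ) + (r₂ : ℂ) * Complex.I))‖ := by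
  have key := re_N z (Complex.tanh ((p₁ : ℂ) + (r₁ : ℂ) * Complex.I) +
          Complex.tanh ((p₂ : ℂ) + (r₂ : ℂ) * Complex.I)) a
  rw [hz, hz', Complex.add_im] at key
  rcases lt_or_ge r₂ 0 with h2 | h2
  · have := h.dom_neg ha i₁ i₂ c₁ c₂ h2
    linarith only [this, key]
  rcases lt_or_ge r₁ 0 with h1 | h1
  · have := h.swap.dom_neg ha i₂ i₁ c₂ c₁ h1
    linarith only [this, key]
  have h3 := mul_le_mul_of_nonneg_right ha h.R0.le
  exact dom3_pos h.R0 h.R1 h.I0 ha (h.K3 ha i₁ i₂).le h.sl₁.p0 h.sl₂.p0 h1 h2 h.sl₁.r1 h.sl₂.r1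
    (by linarith only [h.hR, h3]) hz hz' (den_pos c₁) (den_pos c₂)

end vertex

end Pool.Agent.S5.E
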