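import Pool.Agent.S5.E.Quad3Z
import Pool.Agent.S5.E.V3E
import Pool.Agent.S5.E.V.Out3

/-!
# Mixed chains, block E: the strict inequalities at the vertices with three or more twists
-/

set_option autoImplicit false

namespace Pool.Agent.S5.E

open Complex
open Pool.Agent.S5.E.B2
open Pool.Agent.S5.E.V (Kd rC rC5 KF out3 out3E out3S k2_xm)
open Pool.Agent.S3.E (al ph tt k2 s2 cc gg PP tan_ph ph_lt norm_cos_sq)
open Pool.Agent.S5.G (CrtM)

namespace Zr

section gen

variable {ι κ : Type*} {m : Bool} {a : ι → ℝ} {nl nr : ι → Option (ι × Bool)}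
  {g : ι → κ → ℂ → ℝ} {τ : ℝ} {z : ι → ℂ}

/-- The signs of a slot. -/
theorem be_sgn (h : Zr m a nl nr g τ z) (j : ι) (s : Bool) :
    0 ≤ (if s then -(be m τ z (some (j, s))) else be m τ z (some (j, s))) := by
  have h0 : 0 ≤ ex m s τ * ph (z j).re (z j).im := mul_nonneg (h.ex_mem s).1 (h.phpos j).le
  cases s
  · simp only [Bool.false_eq_true, if_false]
    show 0 ≤ sg false * (ex m false τ * ph (z j).re (z j).im)
    simpa [sg] using h0
  · simp only [if_true]
    show 0 ≤ -(sg true * (ex m true τ * ph (z j).re (z j).im))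
    simpa [sg] using h0

/-- The crude data of a slot. -/
theorem kdC (h : Zr m a nl nr g τ z) (j : ι) (s : Bool) :
    Kd s rC (ro m τ z (some (j, s))) (be m τ z (some (j, s))) :=
  V.In.kd (h.in_slot (some (j, s))) (h.ro_pos j s).ne' (h.be_sgn j s)

theorem ro_ge (h : Zr m a nl nr g τ z) (j : ι) (s : Bool) :
    0.49 ≤ ro m τ z (some (j, s)) := by
  rcases (h.in_slot (some (j, s))).ρ0 with h1 | h1
  · exact absurd h1 (h.ro_pos j s).ne'
  · exact h1

/-- The angle of a slot of a vertex with three or more twists. -/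
theorem al_lt_slot (h : Zr m a nl nr g τ z) {i : ι} (ha : 3 ≤ a i) :
    (∀ j s, nl i = some (j, s) →
      al (z i).re (z i).im + be m τ z (some (j, s)) < Real.pi / 2) ∧
    (∀ j s, nr i = some (j, s) →
      al (z i).re (z i).im + be m τ z (some (j, s)) < Real.pi / 2) := by
  have hv := h.vx i
  have i₁ := h.in_slot (nl i)
  have i₂ := h.in_slot (nr i)
  constructor
  · intro j s hs
    rw [hs] at hv i₁
    exact hv.A3 ha i₁ i₂ (h.ro_ge j s)
  · intro j s hs
    rw [hs] at hv i₂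
    exact hv.swap.A3 ha i₂ i₁ (h.ro_ge j s)

theorem be_gt (h : Zr m a nl nr g τ z) (j : ι) (s : Bool) :
    -(Real.pi / 2) < be m τ z (some (j, s)) := by
  have h1 := (h.in_slot (some (j, s))).βl
  have h2 := Real.arctan_lt_pi_div_two 1.04
  linarith

/-- The real parts. -/
theorem wall3 (h : Zr m a nl nr g τ z) {i : ι} (ha : 3 ≤ a i) :
    (nl i ≠ none → 0 < (bo m τ z (nl i) * tan (z i)).re) ∧
      (nr i ≠ none → 0 < (bo m τ z (nr i) * tan (z i)).re) := by
  obtain ⟨h1, h2⟩ := h.al_lt_slot ha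
  constructor
  · intro hne
    obtain ⟨⟨j, s⟩, hj⟩ := Option.ne_none_iff_exists'.1 hne
    rw [hj]
    exact h.w_re_pos (h1 j s hj) (by linarith [h.be_gt j s, h.alpos i])
  · intro hne
    obtain ⟨⟨j, s⟩, hj⟩ := Option.ne_none_iff_exists'.1 hne
    rw [hj]
    exact h.w_re_pos (h2 j s hj) (by linarith [h.be_gt j s, h.alpos i])

theorem cosr3 (h : Zr m a nl nr g τ z) {i : ι} (ha : 3 ≤ a i) :
    0 < Real.cos (RS (bo m τ z (nl i) * tan (z i))) ∧
      0 < Real.cos (RS (bo m τ z (nr i) * tan (z i))) := by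
  have key : ∀ w : ℂ, (w = 0 ∨ 0 < w.re) → 0 < Real.cos (RS w) := by
    rintro w (hw | hw)
    · have h0 : RS w = 0 := by
        have := congrArg Complex.im as_zero
        rw [as_im] at this
        rw [hw, this]
        simp
      rw [h0, Real.cos_zero]
      exact one_pos
    · exact Real.cos_pos_of_mem_Ioo (abs_lt.1 (abs_RS_lt hw))
  obtain ⟨h1, h2⟩ := h.wall3 ha
  constructor
  · apply key
    by_cases hn : nl i = none
    · left
      rw [hn]
      show (0 : ℂ) * tan (z i) = 0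
      ring
    · exact Or.inr (h1 hn)
  · apply key
    by_cases hn : nr i = none
    · left
      rw [hn]
      show (0 : ℂ) * tan (z i) = 0
      ring
    · exact Or.inr (h2 hn)

/-- Diagonal dominance. -/
theorem dom3 (h : Zr m a nl nr g τ z) {i : ι} (ha : 3 ≤ a i) :
    s2 (z i).re (z i).im * (‖tanh (as (bo m τ z (nl i) * tan (z i)))‖ +
        ‖tanh (as (bo m τ z (nr i) * tan (z i)))‖) <
      ‖(a i : ℂ) * (cos (z i) * sin (z i)) - I * (tanh (as (bo m τ z (nl i) * tan (z i))) +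
          tanh (as (bo m τ z (nr i) * tan (z i))))‖ := by
  obtain ⟨c1, c2⟩ := h.cosr3 ha
  exact (h.vx i).dom3 ha (h.in_slot _) (h.in_slot _) c1 c2 rfl rfl

/-- The bounds in terms of `x` and `m`. -/
theorem kf3 (h : Zr m a nl nr g τ z) {i : ι} (ha : a i = 3 ∨ 4 ≤ a i) :
    KF 525 7770 (Real.tan (z i).re) (Real.tanh (z i).im) ∧
    ((nl i ≠ none ∧ nr i ≠ none) → KF 530 7770 (Real.tan (z i).re) (Real.tanh (z i).im)) ∧
    ((∃ j, nl i = some (j, false) ∨ nr i = some (j, false)) →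
      KF 590 6270 (Real.tan (z i).re) (Real.tanh (z i).im)) := by
  have ha3 : 3 ≤ a i := by rcases ha with h | h <;> linarith
  have up : ∀ {k f k' f' : ℕ} {x y : ℝ}, KF k f x y → k' ≤ k → f ≤ f' → KF k' f' x y := by
    intro k f k' f' x y hk h1 h2
    have h1' : ((k' : ℝ)) ≤ k := by exact_mod_cast h1
    have h2' : ((f : ℝ)) ≤ f' := by exact_mod_cast h2
    refine ⟨lt_of_le_of_lt ?_ hk.1, lt_of_lt_of_le hk.2 ?_⟩
    · exact pow_le_pow_left₀ (by positivity) (by linarith) 2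
    · linarith
  have hv := h.vx i
  have i₁ := h.in_slot (nl i)
  have i₂ := h.in_slot (nr i)
  obtain ⟨c1, c2⟩ := h.cosr3 ha3
  have hne := h.N.ne i
  rcases ha with ha | ha
  · have e3 : a i = ((3 : ℕ) : ℝ) := by rw [ha]; norm_num
    rw [e3] at hv
    rcases h1 : nl i with _ | ⟨j, s⟩
    · rcases h2 : nr i with _ | ⟨j', s'⟩
      · exact absurd hne (by simp [h1, h2])
      · rw [h1] at hv i₁ c1
        rw [h2] at hv i₂ c2
        obtain ⟨q1, q2⟩ := out3E hv.swap i₂ i₁ c2 (h.kdC j' s')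
        refine ⟨q1, fun hh => absurd rfl hh.1, ?_⟩
        rintro ⟨k, hk | hk⟩
        · exact absurd hk (by simp)
        · apply q2
          rw [Option.some.injEq, Prod.mk.injEq] at hk
          exact hk.2
    · rcases h2 : nr i with _ | ⟨j', s'⟩
      · rw [h1] at hv i₁ c1
        rw [h2] at hv i₂ c2
        obtain ⟨q1, q2⟩ := out3E hv i₁ i₂ c1 (h.kdC j s)
        refine ⟨q1, fun hh => absurd rfl hh.2, ?_⟩
        rintro ⟨k, hk | hk⟩
        · apply q2
          rw [Option.some.injEq, Prod.mk.injEq] at hk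
          exact hk.2
        · exact absurd hk (by simp)
      · rw [h1] at hv i₁ c1
        rw [h2] at hv i₂ c2
        obtain ⟨q1, q2⟩ := out3 hv i₁ i₂ c1 c2 (h.kdC j s) (h.kdC j' s')
        refine ⟨up q1 (by norm_num) le_rfl, fun _ => q1, ?_⟩
        rintro ⟨k, hk⟩
        apply q2
        rw [Option.some.injEq, Prod.mk.injEq, Option.some.injEq, Prod.mk.injEq] at hk
        rcases hk with hk | hk
        · exact Or.inl hk.2
        · exact Or.inr hk.2
  · have q := hv.kf4 ha i₁ i₂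
    have q' : KF 590 6270 (Real.tan (z i).re) (Real.tanh (z i).im) := by
      constructor
      · rw [← k2_xm (h.pos i).1 (h.pos i).2.1]
        refine lt_trans ?_ q.1
        norm_num
      · refine lt_of_lt_of_eq q.2 ?_
        norm_num
    exact ⟨up q' (by norm_num) (by norm_num), fun _ => up q' (by norm_num) (by norm_num),
      fun _ => q'⟩

theorem k2_cos (i : ι) : (cos (z i)).re ^ 2 + (-(cos (z i)).im) ^ 2 = k2 (z i).re (z i).im := by
  rw [← norm_cos_sq, Complex.sq_norm, Complex.normSq_apply]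
  ring

/-- From the bounds to the region. -/
theorem inR_of_KF (h : Zr m a nl nr g τ z) {i : ι} (ha : 3 ≤ a i) {k f t : ℕ}
    (hk : ((k : ℝ) / 1000) ^ 2 < (1 + Real.tan (z i).re ^ 2)⁻¹ +
      Real.tanh (z i).im ^ 2 * (1 - Real.tanh (z i).im ^ 2)⁻¹)
    (hf : Real.tan (z i).re * Real.tanh (z i).im < (f : ℝ) / 10000) (ht : f = 10 * t) :
    InR ⟨k, 1000, 0, t, 0⟩ (cos (z i)).re (-(cos (z i)).im) := by
  have hv := h.vx i
  have i₁ := h.in_slot (nl i)
  have i₂ := h.in_slot (nr i)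
  have h1 := hv.K3 ha i₁ i₂
  rw [← k2_xm (h.pos i).1 (h.pos i).2.1] at hk
  have hre := h.re_pos i
  have h0 := h.v0 i
  have hc : 0 < Real.cos (ph (z i).re (z i).im) :=
    Real.cos_pos_of_mem_Ioo ⟨by linarith [h.phpos i, Real.pi_pos], h.phlt i⟩
  refine ⟨hre.le, h0.le, ?_, ?_, ?_, ?_, ?_⟩
  · rw [k2_cos]
    exact hk.le
  · rw [k2_cos]
    have e : (((1000 : ℕ) : ℝ) / 1000) ^ 2 = 1 := by norm_num
    rw [e]
    exact h1.le
  · show ((0 : ℕ) : ℝ) / 1000 * _ ≤ _
    rw [Nat.cast_zero, zero_div, zero_mul]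
    exact h0.le
  · show _ ≤ (t : ℝ) / 1000 * _
    rw [h.cos_re, h.cos_im]
    have e1 : Real.sin (ph (z i).re (z i).im) =
        Real.tan (ph (z i).re (z i).im) * Real.cos (ph (z i).re (z i).im) :=
      (Real.tan_mul_cos hc.ne').symm
    rw [e1, tan_ph]
    have e2 : (f : ℝ) / 10000 = (t : ℝ) / 1000 := by
      rw [ht]
      push_cast
      ring
    rw [e2] at hf
    have e3 := mul_le_mul_of_nonneg_right hf.le hc.le
    have e4 := mul_le_mul_of_nonneg_left e3 (h.norm_pos i).le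
    linarith
  · show ((0 : ℕ) : ℝ) / 1000 ≤ _
    rw [Nat.cast_zero, zero_div]
    exact mul_nonneg hre.le h0.le

/-- The region of the vertices with three or more twists with an `A` edge. -/
theorem regA3 (h : Zr m a nl nr g τ z) {i : ι} (ha : a i = 3 ∨ 4 ≤ a i)
    (hA : ∃ j, nl i = some (j, false) ∨ nr i = some (j, false)) :
    InR rA3 (cos (z i)).re (-(cos (z i)).im) := by
  have ha3 : 3 ≤ a i := by rcases ha with h | h <;> linarith
  obtain ⟨h1, h2⟩ := (h.kf3 ha).2.2 hA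
  exact h.inR_of_KF ha3 h1 h2 rfl

/-- The norm of the neighbour in a slot of kind `S`. -/
theorem ro_ge5 (h : Zr m a nl nr g τ z) {j : ι} {s : Bool} (hj : 0.525 ≤ ‖cos (z j)‖) :
    0.525 ≤ ro m τ z (some (j, s)) := by
  obtain ⟨e0, e1⟩ := h.ex_mem s
  show 0.525 ≤ ‖cos (z j)‖ ^ (ex m s τ)
  rcases le_total 1 ‖cos (z j)‖ with h1 | h1
  · calc (0.525 : ℝ) ≤ 1 := by norm_num
      _ ≤ ‖cos (z j)‖ ^ (ex m s τ) := Real.one_le_rpow h1 e0
  · calc (0.525 : ℝ) ≤ ‖cos (z j)‖ ^ (1 : ℝ) := by rw [Real.rpow_one]; exact hj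
      _ ≤ ‖cos (z j)‖ ^ (ex m s τ) := Real.rpow_le_rpow_of_exponent_ge (h.norm_pos j) h1 e1

theorem kd5 (h : Zr m a nl nr g τ z) {j : ι} {s : Bool} (hj : 0.525 ≤ ‖cos (z j)‖) :
    Kd s rC5 (ro m τ z (some (j, s))) (be m τ z (some (j, s))) := by
  have h1 := h.kdC j s
  refine ⟨?_, h1.2, h1.3, h1.4⟩
  have e : ((rC5.k0 : ℕ) : ℝ) / 1000 = 0.525 := by norm_num [rC5]
  rw [e]
  exact h.ro_ge5 hj

/-- The region of the vertices with three or more twists, if the same sign neighbours have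
`|cos z| ≥ 0.525`. -/
theorem regS3 (h : Zr m a nl nr g τ z) {i : ι} (ha : a i = 3 ∨ 4 ≤ a i)
    (hS : ∀ j, (nl i = some (j, true) ∨ nr i = some (j, true)) → 0.525 ≤ ‖cos (z j)‖) :
    InR rS3 (cos (z i)).re (-(cos (z i)).im) := by
  have ha3 : 3 ≤ a i := by rcases ha with h | h <;> linarith
  obtain ⟨q1, q2, q3⟩ := h.kf3 ha
  have hk : (((530 : ℕ) : ℝ) / 1000) ^ 2 < (1 + Real.tan (z i).re ^ 2)⁻¹ +
      Real.tanh (z i).im ^ 2 * (1 - Real.tanh (z i).im ^ 2)⁻¹ := by
    by_cases hb : nl i ≠ none ∧ nr i ≠ none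
    · exact (q2 hb).1
    · rcases ha with ha | ha
      · by_cases hA : ∃ j, nl i = some (j, false) ∨ nr i = some (j, false)
        · refine lt_trans ?_ (q3 hA).1
          norm_num
        · have e3 : a i = ((3 : ℕ) : ℝ) := by rw [ha]; norm_num
          have hv := h.vx i
          have i₁ := h.in_slot (nl i)
          have i₂ := h.in_slot (nr i)
          obtain ⟨c1, c2⟩ := h.cosr3 ha3
          have hne := h.N.ne i
          rw [e3] at hv
          rcases h1 : nl i with _ | ⟨j, s⟩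
          · rcases h2 : nr i with _ | ⟨j', s'⟩
            · exact absurd hne (by simp [h1, h2])
            · rw [h1] at hv i₁ c1
              rw [h2] at hv i₂ c2
              cases s'
              · exact absurd ⟨j', Or.inr h2⟩ hA
              · exact out3S hv.swap i₂ i₁ c2 (h.kd5 (hS j' (Or.inr h2)))
          · rcases h2 : nr i with _ | ⟨j', s'⟩
            · rw [h1] at hv i₁ c1
              rw [h2] at hv i₂ c2
              cases s
              · exact absurd ⟨j, Or.inl h1⟩ hA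
              · exact out3S hv i₁ i₂ c1 (h.kd5 (hS j (Or.inl h1)))
            · exact absurd ⟨by rw [h1]; simp, by rw [h2]; simp⟩ hb
      · rw [← k2_xm (h.pos i).1 (h.pos i).2.1]
        refine lt_trans ?_ ((h.vx i).kf4 ha (h.in_slot _) (h.in_slot _)).1
        norm_num
  exact h.inR_of_KF ha3 hk q1.2 rfl

theorem norm_ge5 (h : Zr m a nl nr g τ z) {i : ι} (ha : a i = 3 ∨ 4 ≤ a i) :
    0.525 ≤ ‖cos (z i)‖ := by
  have h1 := (h.kf3 ha).1.1
  rw [← k2_xm (h.pos i).1 (h.pos i).2.1, ← norm_cos_sq] at h1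
  have h2 := h.norm_pos i
  by_contra hc
  push Not at hc
  norm_num at h1 hc
  nlinarith

end gen

section cls

variable {ι : Type*} {m : Bool} {a : ι → ℝ} {nl nr : ι → Option (ι × Bool)} {τ : ℝ} {z : ι → ℂ}

/-- `In3`. -/
theorem in3 (h : Zr m a nl nr (gC a nl nr) τ z) (hC : Ch a nl nr)
    (h4 : ∀ i, 3 ≤ a i → a i = 3 ∨ 4 ≤ a i) : In3 a nl nr z := by
  refine ⟨fun i hi => ?_, fun i j hi hj => h.regA3 (h4 i hi) ⟨j, hj⟩⟩
  refine h.regS3 (h4 i hi) fun j hj => ?_
  have hji := h.N.symm i j true hj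
  rcases hC.a2 j with h2 | h3
  · have hreg := h.reg j
    have key : ∀ {r : Rg}, 525 ≤ r.k0 → InR r (cos (z j)).re (-(cos (z j)).im) →
        0.525 ≤ ‖cos (z j)‖ := by
      intro r hr hin
      have e1 := hin.lo
      rw [k2_cos, ← norm_cos_sq] at e1
      have e2 : (525 : ℝ) ≤ r.k0 := by exact_mod_cast hr
      have e3 := h.norm_pos j
      by_contra hc
      push Not at hc
      have e4 : (0.525 : ℝ) ^ 2 ≤ ((r.k0 : ℝ) / 1000) ^ 2 :=
        pow_le_pow_left₀ (by norm_num) (by linarith) 2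
      nlinarith
    rcases hC.ty h2 with ⟨j', k', hT, c⟩ | ⟨j', l', hs, -, -, c⟩ | ⟨j', l', hs, -, -, -, c⟩ |
      ⟨j', l', hs, -, -, c⟩ | ⟨j', l', hs, -, -, c⟩ | ⟨j', hE⟩
    · exact absurd hji hT.noS
    · rw [c] at hreg
      exact key (by decide) hreg
    · rw [c] at hreg
      exact key (by decide) hreg
    · rw [c] at hreg
      exact key (by decide) hreg
    · rw [c] at hreg
      exact key (by decide) hreg
    · exact absurd hji hE.noS
  · exact h.norm_ge5 (h4 j h3)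

/-- The strict inequalities. -/
theorem strV3 (h : Zr m a nl nr (gC a nl nr) τ z) (hC : Ch a nl nr)
    (h4 : ∀ i, 3 ≤ a i → a i = 3 ∨ 4 ≤ a i) {i : ι} (hi : 3 ≤ a i) :
    StrV m a nl nr (gC a nl nr) τ z i := by
  have hr := (h.in3 hC h4).s3 i hi
  have hv := h.vx i
  have hK := hv.K3 hi (h.in_slot _) (h.in_slot _)
  have hL := hv.L3 hi (h.in_slot _) (h.in_slot _)
  have e := norm_cos_sq (z i)
  have hn := h.norm_pos i
  have hre := h.re_pos i
  have h0 := h.v0 i
  have ha1 : -(cos (z i)).im ≤ ((777 : ℕ) : ℝ) / 1000 * (cos (z i)).re := hr.a1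
  norm_num at ha1
  refine ⟨⟨?_, ?_, ?_⟩, ?_, h.wall3 hi, h.dom3 hi⟩
  · norm_num
    nlinarith
  · norm_num
    nlinarith
  · norm_num
    linarith
  · refine strFree hi ?_ hre h0 (by norm_num; linarith)
    rw [k2_cos]
    linarith

end cls

end Zr

section chain

variable {R : ℕ} {a : ℕ → ℕ} {S : ℕ → Bool}

theorem aF_cases {i : Fin (R + 1)} (hi : 3 ≤ aF R a i) : aF R a i = 3 ∨ 4 ≤ aF R a i := by
  rw [three_aF] at hi
  rcases hi.eq_or_lt with h3 | h3
  · left
    unfold aF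
    rw [← h3]
    norm_num
  · right
    unfold aF
    exact_mod_cast h3

/-- **The critical point of an admissible chain**, from `φ < π / 4` at the vertices with two
twists (`harg`). -/
theorem exists_crt'' (h : Adm R a S)
    (harg : ∀ z, Zr true (aF R a) (nlF R S) (nrF R S) (gC (aF R a) (nlF R S) (nrF R S)) 1 z →
      ∀ i, aF R a i = 2 → -(cos (z i)).im < (cos (z i)).re) :
    ∃ (z ql qr : ℕ → ℂ) (zF : Fin (R + 1) → ℂ), CrtM R a S z ql qr ∧
      Zr true (aF R a) (nlF R S) (nrF R S) (gC (aF R a) (nlF R S) (nrF R S)) 1 zF ∧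
      (∀ i : Fin (R + 1), z i = zF i) ∧
      (∀ i : Fin (R + 1), ql i = as (bo true 1 zF (nlF R S i) * tan (zF i))) ∧
      (∀ i : Fin (R + 1), qr i = as (bo true 1 zF (nrF R S i) * tan (zF i))) :=
  exists_crt' h (fun _ _ _ hz => hz.in3 (ch_of_adm h) fun _ hi => aF_cases hi)
    (fun _ _ _ hz _ hi => hz.strV3 (ch_of_adm h) (fun _ hj => aF_cases hj) hi) harg

end chain

end Pool.Agent.S5.E
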