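import Pool.Agent.S3.E.Ash

/-!
# Mixed chains, block E: the inverse hyperbolic sine on the right half plane
-/

set_option autoImplicit false

namespace Pool.Agent.S5.E

open Complex
open Pool.Agent.S3.E

/-- Imaginary part of `arsinh w` for `w` in the closed right half plane. -/
noncomputable def RS (w : ℂ) : ℝ := Real.arcsin (w.im / Real.cosh (PP w))

/-- `arsinh w` for `w` in the closed right half plane (continuous on the whole plane). -/
noncomputable def as (w : ℂ) : ℂ := (PP w : ℂ) + (RS w : ℂ) * Complex.I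

theorem as_re (w : ℂ) : (as w).re = PP w := by
  unfold as
  simp

theorem as_im (w : ℂ) : (as w).im = RS w := by
  unfold as
  simp

theorem PP_conj (w : ℂ) : PP ((starRingEnd ℂ) w) = PP w := by
  unfold PP
  have h1 : ‖1 + (starRingEnd ℂ) w ^ 2‖ = ‖1 + w ^ 2‖ := by
    have : 1 + (starRingEnd ℂ) w ^ 2 = (starRingEnd ℂ) (1 + w ^ 2) := by simp
    rw [this, RCLike.norm_conj]
  rw [RCLike.norm_conj, h1]

theorem RS_conj (w : ℂ) : RS ((starRingEnd ℂ) w) = -RS w := by
  unfold RS
  rw [PP_conj, conj_im, neg_div, Real.arcsin_neg]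

theorem as_conj (w : ℂ) : as ((starRingEnd ℂ) w) = (starRingEnd ℂ) (as w) := by
  apply Complex.ext
  · rw [as_re, PP_conj, conj_re, as_re]
  · rw [as_im, RS_conj, conj_im, as_im]

/-- On the upper half plane. -/
theorem RS_eq {w : ℂ} (h : 0 ≤ w.im) : RS w = RR w := by
  unfold RS
  have h1 := cosh_sin_eq h
  have h2 : w.im / Real.cosh (PP w) = Real.sin (RR w) := by
    rw [← h1]
    have := (Real.cosh_pos (PP w)).ne'
    field_simp
  rw [h2, Real.arcsin_sin (by linarith [RR_nonneg w, Real.pi_pos]) (RR_le w)]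

theorem as_eq {w : ℂ} (h : 0 ≤ w.im) : as w = ash w := by
  unfold as ash
  rw [RS_eq h]

theorem RS_le (w : ℂ) : RS w ≤ Real.pi / 2 := Real.arcsin_le_pi_div_two _

theorem neg_le_RS (w : ℂ) : -(Real.pi / 2) ≤ RS w := Real.neg_pi_div_two_le_arcsin _

theorem continuous_PP : Continuous PP := by
  have h := Complex.continuous_re.comp continuous_ash
  refine h.congr fun w => ?_
  simp [ash_re]

theorem continuous_as : Continuous as := by
  unfold as RS
  have h1 : Continuous fun w : ℂ => w.im / Real.cosh (PP w) :=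
    Complex.continuous_im.div (Real.continuous_cosh.comp continuous_PP)
      fun w => (Real.cosh_pos _).ne'
  exact (continuous_ofReal.comp continuous_PP).add
    ((continuous_ofReal.comp (Real.continuous_arcsin.comp h1)).mul continuous_const)

theorem as_zero : as 0 = 0 := by
  rw [as_eq (by simp), ash_zero]

/-- Reduction to the upper half plane. -/
theorem as_cases (w : ℂ) : (0 ≤ w.im ∧ as w = ash w) ∨
    (0 ≤ ((starRingEnd ℂ) w).im ∧ as w = (starRingEnd ℂ) (ash ((starRingEnd ℂ) w))) := by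
  rcases le_total 0 w.im with h | h
  · left
    exact ⟨h, as_eq h⟩
  · right
    have h1 : 0 ≤ ((starRingEnd ℂ) w).im := by
      rw [conj_im]
      linarith
    refine ⟨h1, ?_⟩
    rw [← as_eq h1, as_conj, Complex.conj_conj]

theorem sinh_as {w : ℂ} (h : 0 ≤ w.re) : sinh (as w) = w := by
  rcases as_cases w with ⟨h1, h2⟩ | ⟨h1, h2⟩
  · rw [h2, sinh_ash h h1]
  · rw [h2, Complex.sinh_conj, sinh_ash (by rw [conj_re]; exact h) h1, Complex.conj_conj]

private theorem sinh_form (p r : ℝ) : sinh ((p : ℂ) + (r : ℂ) * I) =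
    ((Real.sinh p * Real.cos r : ℝ) : ℂ) + ((Real.cosh p * Real.sin r : ℝ) : ℂ) * I := by
  rw [sinh_add, cosh_mul_I, sinh_mul_I]
  push_cast
  ring

theorem sinh_cos_RS {w : ℂ} (h : 0 ≤ w.re) : Real.sinh (PP w) * Real.cos (RS w) = w.re := by
  have h1 := congrArg re (sinh_as h)
  unfold as at h1
  rw [sinh_form] at h1
  simpa only [add_re, ofReal_re, mul_re, I_re, mul_zero, ofReal_im, I_im, mul_one, sub_self,
    add_zero] using h1

theorem cosh_sin_RS {w : ℂ} (h : 0 ≤ w.re) : Real.cosh (PP w) * Real.sin (RS w) = w.im := by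
  have h1 := congrArg im (sinh_as h)
  unfold as at h1
  rw [sinh_form] at h1
  simpa only [add_im, ofReal_re, mul_im, I_re, mul_zero, ofReal_im, I_im, mul_one, zero_add,
    add_zero] using h1

theorem cosh_as_ne {w : ℂ} (h : 0 < w.re) : cosh (as w) ≠ 0 := by
  rcases as_cases w with ⟨h1, h2⟩ | ⟨h1, h2⟩
  · rw [h2]
    exact cosh_ash_ne h
  · rw [h2, Complex.cosh_conj]
    intro h3
    exact cosh_ash_ne (by rw [conj_re]; exact h) ((map_eq_zero (starRingEnd ℂ)).1 h3)

theorem abs_RS_lt {w : ℂ} (h : 0 < w.re) : |RS w| < Real.pi / 2 := by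
  have h1 : 0 < Real.cos (RS w) := by
    have h2 := sinh_cos_RS h.le
    have h3 : 0 ≤ Real.cos (RS w) := Real.cos_nonneg_of_mem_Icc ⟨neg_le_RS w, RS_le w⟩
    rcases h3.eq_or_lt with h4 | h4
    · rw [← h4, mul_zero] at h2
      exact absurd h2 h.ne
    · exact h4
  rw [abs_lt]
  constructor
  · rcases (neg_le_RS w).eq_or_lt with h2 | h2
    · rw [← h2, Real.cos_neg, Real.cos_pi_div_two] at h1
      exact absurd h1 (lt_irrefl _)
    · exact h2
  · rcases (RS_le w).eq_or_lt with h2 | h2
    · rw [h2, Real.cos_pi_div_two] at h1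
      exact absurd h1 (lt_irrefl _)
    · exact h2

theorem hasStrictDerivAt_as {w : ℂ} (h : 0 < w.re) :
    HasStrictDerivAt as (1 / cosh (as w)) w := by
  have h1 : ∀ᶠ y in nhds w, sinh (as y) = y := by
    have o1 : IsOpen {z : ℂ | 0 < z.re} := isOpen_lt continuous_const continuous_re
    filter_upwards [o1.mem_nhds h] with y hy
    exact sinh_as (le_of_lt hy)
  have h2 := HasStrictDerivAt.of_local_left_inverse continuous_as.continuousAt
    (Complex.hasStrictDerivAt_sinh (as w)) (cosh_as_ne h) h1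
  rw [one_div]
  exact h2

/-- `cosh 2p + cos 2r > 0`. -/
theorem cosh_add_cos_RS_pos {w : ℂ} (h : 0 < w.re) :
    0 < Real.cosh (2 * PP w) + Real.cos (2 * RS w) := by
  have h0 := abs_lt.1 (abs_RS_lt h)
  rw [Real.cosh_two_mul, Real.cos_two_mul, Real.cosh_sq]
  have h1 : 0 < Real.cos (RS w) := Real.cos_pos_of_mem_Ioo h0
  have h2 : 0 < Real.cos (RS w) ^ 2 := by positivity
  nlinarith [sq_nonneg (Real.sinh (PP w))]

end Pool.Agent.S5.E
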