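import Pool.Agent.S5.E.AsmS
import Pool.Agent.S5.E.B2.Geo
import Pool.Agent.S5.G.Shapes

/-!
# Mixed chains, block E: the assembly

From the strict inequalities at all zeros (`Str`) to the critical point of the chain (`CrtM`).
-/

set_option autoImplicit false

namespace Pool.Agent.S5.E

open Complex
open scoped ComplexConjugate
open Pool.Agent.S5.E.B2
open Pool.Agent.S3.E (al ph tt k2 s2 cc gg PP cos_polar two_cosh ph_lt al_lt PP_pos)
open Pool.Agent.S5.G (kp kp_true kp_false CrtM)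

/-- The condition at the end of an edge between vertices of the same sign: `κ` is the number of the
neighbour, `q` the slot. -/
def Quad (κ q : ℂ) : Prop := 0 < (κ + I * cosh q).re ∧ 0 < (κ + I * cosh q).im

/-- The constraints. -/
noncomputable def gF (R : ℕ) (a : ℕ → ℕ) (S : ℕ → Bool) (i : Fin (R + 1)) (k : Fin 5) (w : ℂ) : ℝ :=
  gR (cls (aF R a) (nlF R S) (nrF R S) i) k w

section gen

variable {ι κ : Type*}

theorem bo_one (z : ι → ℂ) {j : ι} {s : Bool} (h : cos (z j) ≠ 0) :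
    bo true 1 z (some (j, s)) = kp s (cos (z j)) := by
  have e : ex true s 1 = 1 := by cases s <;> simp [ex]
  have h' : kp s (cos (z j)) ≠ 0 := Pool.Agent.S5.G.kp_ne h
  show exp ((ex true s 1 : ℂ) * log (cj s (cos (z j)))) = kp s (cos (z j))
  have e2 : cj s (cos (z j)) = kp s (cos (z j)) := rfl
  rw [e, e2, ofReal_one, one_mul, exp_log h']

namespace Zr

variable {m : Bool} {a : ι → ℝ} {nl nr : ι → Option (ι × Bool)} {g : ι → κ → ℂ → ℝ} {τ : ℝ}
  {z : ι → ℂ}

theorem arg_cos (h : Zr m a nl nr g τ z) (i : ι) : (cos (z i)).arg = -ph (z i).re (z i).im := by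
  have h1 := h.phpos i
  have h2 := h.phlt i
  rw [cos_polar (h.pos i).1 (h.pos i).2.1, ← ofReal_neg, Complex.arg_real_mul _ (h.norm_pos i),
    Complex.arg_exp_mul_I, toIocMod_eq_self]
  constructor
  · linarith [Real.pi_pos]
  · linarith [Real.pi_pos]

/-- The imaginary part of an `A` slot. -/
theorem RS_pos (h : Zr m a nl nr g τ z) {i j : ι}
    (hw : 0 < (bo m τ z (some (j, false)) * tan (z i)).re) :
    0 < RS (bo m τ z (some (j, false)) * tan (z i)) := by
  have hbe : 0 ≤ be m τ z (some (j, false)) := by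
    show 0 ≤ sg false * (ex m false τ * ph (z j).re (z j).im)
    simp only [sg, Bool.false_eq_true, if_false, one_mul]
    exact mul_nonneg (h.ex_mem false).1 (h.phpos j).le
  have hbe2 : be m τ z (some (j, false)) < Real.pi / 2 := by
    show sg false * (ex m false τ * ph (z j).re (z j).im) < Real.pi / 2
    simp only [sg, Bool.false_eq_true, if_false, one_mul]
    have h1 := (h.ex_mem false).2
    have h2 := (h.phpos j).le
    have h3 := h.phlt j
    nlinarith
  have him : 0 < (bo m τ z (some (j, false)) * tan (z i)).im := by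
    rw [h.w_im]
    refine mul_pos (mul_pos (h.ro_pos j false) (h.ttpos i)) (Real.sin_pos_of_pos_of_lt_pi ?_ ?_)
    · linarith [h.alpos i]
    · linarith [al_lt (z i).re (z i).im]
  unfold RS
  exact Real.arcsin_pos.2 (div_pos him (Real.cosh_pos _))

/-- The condition `Quad` at a vertex with two twists. -/
theorem quad_two (h : Zr m a nl nr g τ z) {i : ι} (hi : a i = 2) {x₁ y₁ x₂ y₂ : ℝ} {so : Bool}
    (hs : bo m τ z (nl i) + bo m τ z (nr i) =
      ((x₁ : ℂ) + y₁ * I) + ((x₂ : ℂ) + (sgy so y₂ : ℝ) * I))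
    (hV : V2 so x₁ y₁ x₂ y₂ (cos (z i)).re (-(cos (z i)).im)) :
    Quad (bo m τ z (nl i)) (as (bo m τ z (nl i) * tan (z i))) ∧
      Quad (bo m τ z (nr i)) (as (bo m τ z (nr i) * tan (z i))) := by
  have h1 := h.eqn i
  rw [hi] at h1
  push_cast at h1
  obtain ⟨c1, c2⟩ := two_cosh h1 (h.sinh_l i) (h.sinh_r i) (h.cos_ne i) (h.sin_ne i)
  have hc := h.cos_ne i
  have hX : cos (z i) ^ 2 ≠ 0 := pow_ne_zero 2 hc
  obtain ⟨u, hu⟩ : ∃ u, u = (cos (z i)).re := ⟨_, rfl⟩
  obtain ⟨v, hv⟩ : ∃ v, v = -(cos (z i)).im := ⟨_, rfl⟩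
  obtain ⟨Y, hY⟩ : ∃ Y, Y = y₁ + sgy so y₂ := ⟨_, rfl⟩
  obtain ⟨n, hn⟩ : ∃ n, n = (x₁ + x₂) ^ 2 + Y ^ 2 := ⟨_, rfl⟩
  rw [← hu, ← hv] at hV
  have hQ := hV.qd hY hn
  have hn0 : 0 < n := by
    have := hV.x10
    have := hV.x20
    rw [hn]
    positivity
  obtain ⟨A, hA⟩ : ∃ A, A = ((u ^ 2 - v ^ 2) * (x₁ + x₂) - 2 * u * v * Y) / n := ⟨_, rfl⟩
  obtain ⟨B, hB⟩ : ∃ B, B = ((u ^ 2 - v ^ 2) * Y + 2 * u * v * (x₁ + x₂)) / n := ⟨_, rfl⟩
  rw [← hA, ← hB] at hQ
  have hA0 := hQ.a0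
  have hB0 := hQ.b0
  have hA' : A * n = (u ^ 2 - v ^ 2) * (x₁ + x₂) - 2 * u * v * Y := by
    rw [hA, div_mul_cancel₀ _ hn0.ne']
  have hB' : B * n = (u ^ 2 - v ^ 2) * Y + 2 * u * v * (x₁ + x₂) := by
    rw [hB, div_mul_cancel₀ _ hn0.ne']
  -- `X = s (A - i B)`
  have eX : cos (z i) ^ 2 = (((x₁ + x₂ : ℝ) : ℂ) + (Y : ℝ) * I) * ((A : ℂ) - (B : ℂ) * I) := by
    have e0 : cos (z i) = (u : ℂ) - (v : ℂ) * I := by
      rw [hu, hv]
      apply Complex.ext <;> simp
    have hn1 : (n : ℂ) ≠ 0 := by exact_mod_cast hn0.ne'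
    apply mul_right_cancel₀ hn1
    have eA : (A : ℂ) * n = ((u : ℂ) ^ 2 - v ^ 2) * (x₁ + x₂) - 2 * u * v * Y := by
      exact_mod_cast congrArg (fun t : ℝ => (t : ℂ)) hA'
    have eB : (B : ℂ) * n = ((u : ℂ) ^ 2 - v ^ 2) * Y + 2 * u * v * (x₁ + x₂) := by
      exact_mod_cast congrArg (fun t : ℝ => (t : ℂ)) hB'
    have en : (n : ℂ) = ((x₁ : ℂ) + x₂) ^ 2 + (Y : ℂ) ^ 2 := by
      exact_mod_cast congrArg (fun t : ℝ => (t : ℂ)) hn
    rw [e0]
    push_cast
    have eI : I ^ 2 = -1 := I_sq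
    linear_combination (((u : ℂ) - v * I) ^ 2) * en - (((x₁ : ℂ) + x₂) + Y * I) * eA +
      (((x₁ : ℂ) + x₂) + Y * I) * I * eB + ((v : ℂ) ^ 2 * (((x₁ : ℂ) + x₂) ^ 2 + (Y : ℂ) ^ 2) +
        (2 * u * v * ((x₁ : ℂ) + x₂) * Y + (u ^ 2 - v ^ 2) * Y ^ 2)) * eI
  have es : bo m τ z (nl i) + bo m τ z (nr i) = ((x₁ + x₂ : ℝ) : ℂ) + (Y : ℝ) * I := by
    rw [hs, hY]
    push_cast
    ring
  have key : ∀ b q : ℂ, 2 * cos (z i) ^ 2 * cosh q =
      I * (2 * cos (z i) ^ 2 * b - (bo m τ z (nl i) + bo m τ z (nr i))) → Quad b q := by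
    intro b q hq
    have e1 : (b + I * cosh q) * (2 * ((A : ℂ) - (B : ℂ) * I)) = 1 := by
      have hs0 : ((x₁ + x₂ : ℝ) : ℂ) + (Y : ℝ) * I ≠ 0 := by
        intro h0
        rw [h0, zero_mul] at eX
        exact hX eX
      apply mul_left_cancel₀ hs0
      have e2 : (b + I * cosh q) * (2 * cos (z i) ^ 2) = bo m τ z (nl i) + bo m τ z (nr i) := by
        linear_combination I * hq + (2 * cos (z i) ^ 2 * b - (bo m τ z (nl i) + bo m τ z (nr i))) * I_sq
      rw [es, eX] at e2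
      linear_combination e2
    obtain ⟨t, ht⟩ : ∃ t, t = b + I * cosh q := ⟨_, rfl⟩
    unfold Quad
    rw [← ht] at e1 ⊢
    have d1 := congrArg Complex.re e1
    have d2 := congrArg Complex.im e1
    simp only [Complex.mul_re, Complex.mul_im, Complex.sub_re, Complex.sub_im, Complex.ofReal_re,
      Complex.ofReal_im, Complex.I_re, Complex.I_im, Complex.re_ofNat, Complex.im_ofNat,
      Complex.one_re, Complex.one_im, mul_zero, mul_one, zero_mul, sub_zero, zero_sub,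
      add_zero, zero_add, sub_self] at d1 d2
    have hN : 0 < 2 * (A ^ 2 + B ^ 2) := by positivity
    have f1 : t.re * (2 * (A ^ 2 + B ^ 2)) = A := by linear_combination A * d1 - B * d2
    have f2 : t.im * (2 * (A ^ 2 + B ^ 2)) = B := by linear_combination B * d1 + A * d2
    constructor
    · by_contra h0
      push Not at h0
      have := mul_nonpos_of_nonpos_of_nonneg h0 hN.le
      linarith
    · by_contra h0
      push Not at h0
      have := mul_nonpos_of_nonpos_of_nonneg h0 hN.le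
      linarith
  exact ⟨key _ _ c1, key _ _ c2⟩

end Zr

end gen

section chain

variable {R : ℕ} {a : ℕ → ℕ} {S : ℕ → Bool}

/-- A zero of the full system gives the critical point. -/
theorem crtM_of (h : Adm R a S) {zF : Fin (R + 1) → ℂ}
    (hZ : Zr true (aF R a) (nlF R S) (nrF R S) (gF R a S) 1 zF)
    (hw : ∀ i, (nlF R S i ≠ none → 0 < (bo true 1 zF (nlF R S i) * tan (zF i)).re) ∧
      (nrF R S i ≠ none → 0 < (bo true 1 zF (nrF R S i) * tan (zF i)).re))
    (harg : ∀ i, ph (zF i).re (zF i).im < Real.pi / 4)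
    (hq : ∀ i j, (nlF R S i = some (j, true) →
        Quad (cos (zF j)) (as (bo true 1 zF (nlF R S i) * tan (zF i)))) ∧
      (nrF R S i = some (j, true) →
        Quad (cos (zF j)) (as (bo true 1 zF (nrF R S i) * tan (zF i)))))
    {z ql qr : ℕ → ℂ} (ez : ∀ i : Fin (R + 1), z i = zF i)
    (el : ∀ i : Fin (R + 1), ql i = as (bo true 1 zF (nlF R S i) * tan (zF i)))
    (er : ∀ i : Fin (R + 1), qr i = as (bo true 1 zF (nrF R S i) * tan (zF i))) :
    CrtM R a S z ql qr := by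
  have hR := h.hR
  -- neighbours
  have hl : ∀ (i : ℕ) (hi : i < R), nlF R S ⟨i + 1, by omega⟩ = some (⟨i, by omega⟩, S i) :=
    fun i hi => nlF_iff.2 ⟨rfl, rfl⟩
  have hr : ∀ (i : ℕ) (hi : i < R), nrF R S ⟨i, by omega⟩ = some (⟨i + 1, by omega⟩, S i) :=
    fun i hi => nrF_iff.2 ⟨rfl, rfl⟩
  have Ez : ∀ (i : ℕ) (hi : i ≤ R), z i = zF ⟨i, by omega⟩ := fun i hi => ez ⟨i, by omega⟩
  have El : ∀ (i : ℕ) (hi : i < R), ql (i + 1) =
      as (bo true 1 zF (some (⟨i, by omega⟩, S i)) * tan (zF ⟨i + 1, by omega⟩)) := by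
    intro i hi
    rw [← hl i hi]
    exact el ⟨i + 1, by omega⟩
  have Er : ∀ (i : ℕ) (hi : i < R), qr i =
      as (bo true 1 zF (some (⟨i + 1, by omega⟩, S i)) * tan (zF ⟨i, by omega⟩)) := by
    intro i hi
    rw [← hr i hi]
    exact er ⟨i, by omega⟩
  have wl : ∀ (i : ℕ) (hi : i < R),
      0 < (bo true 1 zF (some (⟨i, by omega⟩, S i)) * tan (zF ⟨i + 1, by omega⟩)).re := by
    intro i hi
    rw [← hl i hi]
    exact (hw ⟨i + 1, by omega⟩).1 (by rw [hl i hi]; simp)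
  have wr : ∀ (i : ℕ) (hi : i < R),
      0 < (bo true 1 zF (some (⟨i + 1, by omega⟩, S i)) * tan (zF ⟨i, by omega⟩)).re := by
    intro i hi
    rw [← hr i hi]
    exact (hw ⟨i, by omega⟩).2 (by rw [hr i hi]; simp)
  refine
    { hR := hR
      ha := h.ha
      hmid := h.hmid
      hfst := h.hfst
      hlst := h.hlst
      zre := ?_
      zim := ?_
      arg := ?_
      l0 := ?_
      rR := ?_
      sl := ?_
      sr := ?_
      lre := ?_
      lim := ?_
      limo := ?_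
      rre := ?_
      rim := ?_
      rimo := ?_
      ssl := ?_
      ssr := ?_
      eq := ?_ }
  · intro i hi
    rw [Ez i hi]
    exact ⟨(hZ.pos _).1, (hZ.pos _).2.1⟩
  · intro i hi
    rw [Ez i hi]
    exact (hZ.pos _).2.2
  · intro i hi
    rw [Ez i hi, hZ.arg_cos]
    exact ⟨by linarith [harg ⟨i, by omega⟩], by linarith [hZ.phpos ⟨i, by omega⟩]⟩
  · have h1 : ql 0 = as (bo true 1 zF (nlF R S ⟨0, by omega⟩) * tan (zF ⟨0, by omega⟩)) :=
      el ⟨0, by omega⟩
    have h2 : nlF R S ⟨0, by omega⟩ = none := nlF_none.2 rfl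
    rw [h1, h2]
    show as (0 * _) = 0
    rw [zero_mul, as_zero]
  · have h1 : qr R = as (bo true 1 zF (nrF R S ⟨R, by omega⟩) * tan (zF ⟨R, by omega⟩)) :=
      er ⟨R, by omega⟩
    have h2 : nrF R S ⟨R, by omega⟩ = none := nrF_none.2 rfl
    rw [h1, h2]
    show as (0 * _) = 0
    rw [zero_mul, as_zero]
  · intro i hi
    rw [El i hi, sinh_as (wl i hi).le, bo_one _ (hZ.cos_ne _), Ez i hi.le, Ez (i + 1) hi]
  · intro i hi
    rw [Er i hi, sinh_as (wr i hi).le, bo_one _ (hZ.cos_ne _), Ez i hi.le, Ez (i + 1) hi]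
  · intro i hi
    rw [El i hi, as_re]
    exact PP_pos (wl i hi)
  · intro i hi
    rw [El i hi, as_im]
    exact abs_lt.1 (abs_RS_lt (wl i hi))
  · intro i hi hS
    have h1 := wl i hi
    rw [El i hi, as_im]
    rw [hS] at h1 ⊢
    exact hZ.RS_pos h1
  · intro i hi
    rw [Er i hi, as_re]
    exact PP_pos (wr i hi)
  · intro i hi
    rw [Er i hi, as_im]
    exact abs_lt.1 (abs_RS_lt (wr i hi))
  · intro i hi hS
    have h1 := wr i hi
    rw [Er i hi, as_im]
    rw [hS] at h1 ⊢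
    exact hZ.RS_pos h1
  · intro i hi hS
    have h1 := (hq ⟨i + 1, by omega⟩ ⟨i, by omega⟩).1 (by rw [hl i hi, hS])
    rw [hl i hi] at h1
    rw [El i hi, Ez i hi.le]
    exact h1
  · intro i hi hS
    have h1 := (hq ⟨i, by omega⟩ ⟨i + 1, by omega⟩).2 (by rw [hr i hi, hS])
    rw [hr i hi] at h1
    rw [Er i hi, Ez (i + 1) hi]
    exact h1
  · intro i hi
    have h1 := hZ.eqn ⟨i, by omega⟩
    have h2 : ql i = as (bo true 1 zF (nlF R S ⟨i, by omega⟩) * tan (zF ⟨i, by omega⟩)) :=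
      el ⟨i, by omega⟩
    have h3 : qr i = as (bo true 1 zF (nrF R S ⟨i, by omega⟩) * tan (zF ⟨i, by omega⟩)) :=
      er ⟨i, by omega⟩
    rw [Ez i hi, h2, h3]
    have h4 : ((aF R a ⟨i, by omega⟩ : ℝ) : ℂ) = (a i : ℂ) := by simp [aF]
    rw [h4] at h1
    exact h1

/-- **The critical point of an admissible chain.** -/
theorem exists_crtM (h : Adm R a S)
    (hs : ∀ m τ z, Zr m (aF R a) (nlF R S) (nrF R S) (gF R a S) τ z →
      Str m (aF R a) (nlF R S) (nrF R S) (gF R a S) τ z)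
    (harg : ∀ z, Zr true (aF R a) (nlF R S) (nrF R S) (gF R a S) 1 z →
      ∀ i, ph (z i).re (z i).im < Real.pi / 4)
    (hV : ∀ z, Zr true (aF R a) (nlF R S) (nrF R S) (gF R a S) 1 z → ∀ i j l : Fin (R + 1),
      aF R a i = 2 → Sp (nlF R S) (nrF R S) i j l → ∃ x₁ y₁ x₂ y₂,
        V2 true x₁ y₁ x₂ y₂ (cos (z i)).re (-(cos (z i)).im) ∧
        bo true 1 z (some (j, false)) = (x₁ : ℂ) + (y₁ : ℝ) * I ∧
        bo true 1 z (some (l, true)) = (x₂ : ℂ) + (sgy true y₂ : ℝ) * I)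
    (hss : ∀ z, Zr true (aF R a) (nlF R S) (nrF R S) (gF R a S) 1 z →
      ∀ i j : Fin (R + 1), 3 ≤ aF R a i → (nlF R S i = some (j, true) →
        Quad (cos (z j)) (as (bo true 1 z (nlF R S i) * tan (z i)))) ∧
      (nrF R S i = some (j, true) →
        Quad (cos (z j)) (as (bo true 1 z (nrF R S i) * tan (z i))))) :
    ∃ (z ql qr : ℕ → ℂ) (zF : Fin (R + 1) → ℂ), CrtM R a S z ql qr ∧
      Zr true (aF R a) (nlF R S) (nrF R S) (gF R a S) 1 zF ∧
      (∀ i : Fin (R + 1), z i = zF i) ∧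
      (∀ i : Fin (R + 1), ql i = as (bo true 1 zF (nlF R S i) * tan (zF i))) ∧
      (∀ i : Fin (R + 1), qr i = as (bo true 1 zF (nrF R S i) * tan (zF i))) := by
  have hC := ch_of_adm h
  have ha2 : ∀ i, 2 ≤ aF R a i := by
    intro i
    rcases hC.a2 i with h1 | h1 <;> linarith
  obtain ⟨zF, hZ⟩ := exists_crit (κ := Fin 5) (g := gF R a S) hC.N ha2
    (fun i k => continuous_gR _ k) hs (start_cls hC.N hC.a2)
  have hS := hs true 1 zF hZ
  refine ⟨fun n => if hn : n ≤ R then zF ⟨n, by omega⟩ else 0,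
    fun n => if hn : n ≤ R then
      as (bo true 1 zF (nlF R S ⟨n, by omega⟩) * tan (zF ⟨n, by omega⟩)) else 0,
    fun n => if hn : n ≤ R then
      as (bo true 1 zF (nrF R S ⟨n, by omega⟩) * tan (zF ⟨n, by omega⟩)) else 0, zF, ?_, hZ,
    fun i => dif_pos (by omega), fun i => dif_pos (by omega), fun i => dif_pos (by omega)⟩
  refine crtM_of h hZ hS.w (harg zF hZ) ?_ (fun i => dif_pos (by omega))
    (fun i => dif_pos (by omega)) (fun i => dif_pos (by omega))
  intro i j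
  rcases hC.a2 i with hi | hi
  · have gen : ∀ l, Sp (nlF R S) (nrF R S) i l j →
        Quad (bo true 1 zF (nlF R S i)) (as (bo true 1 zF (nlF R S i) * tan (zF i))) ∧
        Quad (bo true 1 zF (nrF R S i)) (as (bo true 1 zF (nrF R S i) * tan (zF i))) := by
      intro l hsp
      obtain ⟨x₁, y₁, x₂, y₂, hv, e1, e2⟩ := hV zF hZ i l j hi hsp
      refine hZ.quad_two hi ?_ hv
      rcases hsp with ⟨h1, h2⟩ | ⟨h1, h2⟩
      · rw [h1, h2, e1, e2]
      · rw [h1, h2, e1, e2, add_comm]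
    have hbo : bo true 1 zF (some (j, true)) = cos (zF j) := by
      rw [bo_one _ (hZ.cos_ne j), kp_true]
    constructor
    · intro h1
      rcases hC.two i hi with ⟨x, y, h2⟩ | ⟨x, y, h2⟩ | ⟨x, h2⟩
      · exact absurd (Or.inl h1) h2.noS
      · have e := h2.eqS (Or.inl h1)
        subst e
        have h3 := (gen x h2).1
        rw [h1, hbo] at h3
        rw [h1, hbo]
        exact h3
      · exact absurd (Or.inl h1) h2.noS
    · intro h1
      rcases hC.two i hi with ⟨x, y, h2⟩ | ⟨x, y, h2⟩ | ⟨x, h2⟩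
      · exact absurd (Or.inr h1) h2.noS
      · have e := h2.eqS (Or.inr h1)
        subst e
        have h3 := (gen x h2).2
        rw [h1, hbo] at h3
        rw [h1, hbo]
        exact h3
      · exact absurd (Or.inr h1) h2.noS
  · exact hss zF hZ i j hi

end chain

end Pool.Agent.S5.E
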