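import Pool.Agent.S5.Adm
import Pool.Agent.S5.E.B2.Cls

/-!
# Mixed chains, block E: the combinatorics of an admissible chain
-/

set_option autoImplicit false

namespace Pool.Agent.S5.E

open Pool.Agent.S5.E.B2

/-- The number of the half twists. -/
def aF (R : ℕ) (a : ℕ → ℕ) (i : Fin (R + 1)) : ℝ := (a i : ℝ)

/-- The left neighbour. -/
def nlF (R : ℕ) (S : ℕ → Bool) (i : Fin (R + 1)) : Option (Fin (R + 1) × Bool) :=
  if (i : ℕ) = 0 then none else some (⟨(i : ℕ) - 1, by omega⟩, S ((i : ℕ) - 1))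

/-- The right neighbour. -/
def nrF (R : ℕ) (S : ℕ → Bool) (i : Fin (R + 1)) : Option (Fin (R + 1) × Bool) :=
  if h : (i : ℕ) = R then none else some (⟨(i : ℕ) + 1, by omega⟩, S i)

section

variable {R : ℕ} {a : ℕ → ℕ} {S : ℕ → Bool}

theorem nlF_iff {i j : Fin (R + 1)} {s : Bool} :
    nlF R S i = some (j, s) ↔ (j : ℕ) + 1 = i ∧ s = S j := by
  unfold nlF
  split_ifs with h
  · constructor
    · intro h'; exact absurd h' (by simp)
    · rintro ⟨h1, -⟩; omega
  · rw [Option.some.injEq, Prod.mk.injEq]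
    constructor
    · rintro ⟨rfl, rfl⟩
      refine ⟨?_, rfl⟩
      show (i : ℕ) - 1 + 1 = i
      omega
    · rintro ⟨h1, rfl⟩
      have e : (i : ℕ) - 1 = j := by omega
      refine ⟨Fin.ext e, by rw [e]⟩

theorem nrF_iff {i j : Fin (R + 1)} {s : Bool} :
    nrF R S i = some (j, s) ↔ (i : ℕ) + 1 = j ∧ s = S i := by
  unfold nrF
  split_ifs with h
  · constructor
    · intro h'; exact absurd h' (by simp)
    · rintro ⟨h1, -⟩
      have := j.isLt
      omega
  · rw [Option.some.injEq, Prod.mk.injEq]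
    constructor
    · rintro ⟨rfl, rfl⟩
      exact ⟨rfl, rfl⟩
    · rintro ⟨h1, rfl⟩
      exact ⟨Fin.ext h1, rfl⟩

theorem nlF_none {i : Fin (R + 1)} : nlF R S i = none ↔ (i : ℕ) = 0 := by
  unfold nlF
  split_ifs with h
  · exact ⟨fun _ => h, fun _ => rfl⟩
  · constructor
    · intro h'; exact absurd h' (by simp)
    · intro h'; exact absurd h' h

theorem nrF_none {i : Fin (R + 1)} : nrF R S i = none ↔ (i : ℕ) = R := by
  unfold nrF
  split_ifs with h
  · exact ⟨fun _ => h, fun _ => rfl⟩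
  · constructor
    · intro h'; exact absurd h' (by simp)
    · intro h'; exact absurd h' h

theorem nbr_of_adm (h : Adm R a S) : Nbr (nlF R S) (nrF R S) := by
  constructor
  · intro i
    have := h.hR
    by_cases h0 : (i : ℕ) = 0
    · right
      rw [Ne, nrF_none]
      omega
    · left
      rw [Ne, nlF_none]
      exact h0
  · intro i j s hij
    rw [nlF_iff, nrF_iff] at hij ⊢
    rcases hij with ⟨h1, h2⟩ | ⟨h1, h2⟩
    · right
      exact ⟨h1, h2⟩
    · left
      exact ⟨h1, h2⟩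

theorem aF_two {i : Fin (R + 1)} : aF R a i = 2 ↔ a i = 2 := by
  unfold aF
  norm_cast

theorem three_aF {i : Fin (R + 1)} : 3 ≤ aF R a i ↔ 3 ≤ a i := by
  unfold aF
  norm_cast

theorem ch_of_adm (h : Adm R a S) : Ch (aF R a) (nlF R S) (nrF R S) := by
  have hR := h.hR
  have a2' : ∀ i : Fin (R + 1), aF R a i = 2 ∨ 3 ≤ aF R a i := by
    intro i
    rw [aF_two, three_aF]
    have := h.ha i (by omega)
    omega
  refine ⟨nbr_of_adm h, a2', ?_, ?_, ?_⟩
  · intro i hi
    rw [aF_two] at hi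
    have hiR := i.isLt
    by_cases h0 : (i : ℕ) = 0
    · right; right
      have hS : S 0 = false := by
        rcases hS : S 0 with _ | _
        · rfl
        · have := h.hfst hS
          rw [h0] at hi
          omega
      refine ⟨⟨1, by omega⟩, Or.inr ⟨nlF_none.2 h0, nrF_iff.2 ⟨?_, ?_⟩⟩⟩
      · show (i : ℕ) + 1 = 1
        omega
      · rw [h0, hS]
    · by_cases hl : (i : ℕ) = R
      · right; right
        have hS : S (R - 1) = false := by
          rcases hS : S (R - 1) with _ | _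
          · rfl
          · have := h.hlst (R - 1) (by omega) hS
            have e : R - 1 + 1 = i := by omega
            rw [e] at this
            omega
        refine ⟨⟨R - 1, by omega⟩, Or.inl ⟨nlF_iff.2 ⟨?_, ?_⟩, nrF_none.2 hl⟩⟩
        · show R - 1 + 1 = (i : ℕ)
          omega
        · exact hS.symm
      · have e1 : (i : ℕ) - 1 + 1 = i := by omega
        have hl' : nlF R S i = some (⟨(i : ℕ) - 1, by omega⟩, S ((i : ℕ) - 1)) := nlF_iff.2 ⟨e1, rfl⟩
        have hr' : nrF R S i = some (⟨(i : ℕ) + 1, by omega⟩, S i) := nrF_iff.2 ⟨rfl, rfl⟩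
        rcases hS : S ((i : ℕ) - 1) with _ | _ <;> rcases hS' : S i with _ | _
        · left
          exact ⟨_, _, by rw [hl', hS], by rw [hr', hS']⟩
        · right; left
          exact ⟨_, _, Or.inl ⟨by rw [hl', hS], by rw [hr', hS']⟩⟩
        · right; left
          exact ⟨_, _, Or.inr ⟨by rw [hl', hS], by rw [hr', hS']⟩⟩
        · have := h.hmid ((i : ℕ) - 1) (by omega) hS (by rw [e1]; exact hS')
          rw [e1] at this
          omega
  · -- `le3`
    intro i j l hi hsp hj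
    rw [aF_two] at hi
    rw [three_aF] at hj ⊢
    have hiR := i.isLt
    rcases hsp with ⟨h1, h2⟩ | ⟨h1, h2⟩
    · rw [nlF_iff] at h1
      rw [nrF_iff] at h2
      have hl := l.isLt
      have e : (l : ℕ) = j + 2 := by omega
      have := h.hspr j (by omega) (by rw [h1.1]; exact hi) (by rw [h1.1]; exact h2.2.symm)
      rw [e]
      omega
    · rw [nlF_iff] at h1
      rw [nrF_iff] at h2
      have hj' := j.isLt
      have e : (j : ℕ) = l + 2 := by omega
      have := h.hspl l (by omega) (by rw [h1.1]; exact hi) h1.2.symm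
      rw [e] at hj
      omega
  · -- `ss`
    intro i j l hi hsp hl
    rw [aF_two] at hi hl ⊢
    have hiR := i.isLt
    rcases hsp with ⟨h1, h2⟩ | ⟨h1, h2⟩
    · rw [nlF_iff] at h1
      rw [nrF_iff] at h2
      have hl' := l.isLt
      obtain ⟨⟨c1, c2, c3⟩, -⟩ := h.hss i (by omega) h2.2.symm hi (by rw [h2.1]; exact hl)
      have e : (i : ℕ) - 1 = j := by omega
      rw [e] at c2
      refine ⟨c2, ⟨(i : ℕ) - 2, by omega⟩, Or.inr ⟨nlF_iff.2 ⟨?_, c3.symm⟩, nrF_iff.2 ⟨h1.1, h1.2⟩⟩⟩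
      show (i : ℕ) - 2 + 1 = j
      omega
    · rw [nlF_iff] at h1
      rw [nrF_iff] at h2
      have hj' := j.isLt
      obtain ⟨-, ⟨c1, c2, c3⟩⟩ := h.hss l (by omega) h1.2.symm hl (by rw [h1.1]; exact hi)
      have e : (l : ℕ) + 2 = j := by omega
      rw [e] at c2 c3
      refine ⟨c2, ⟨(j : ℕ) + 1, by omega⟩, Or.inl ⟨nlF_iff.2 ⟨h2.1, h2.2⟩, nrF_iff.2 ⟨rfl, c3.symm⟩⟩⟩

end

end Pool.Agent.S5.E
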