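import Pool.Agent.S5.E.Top

/-!
# Mixed chains, block E: the derivative of the system
-/

set_option autoImplicit false

namespace Pool.Agent.S5.E

open Complex

variable {ι : Type*} {m : Bool}

/-- `d b/b` in the direction `v`. -/
noncomputable def lam (m : Bool) (τ : ℝ) (z v : ι → ℂ) (o : Option (ι × Bool)) : ℂ :=
  match o with
  | none => 0
  | some (j, s) => (ex m s τ : ℂ) * cj s (-(tan (z j) * v j))

/-- The conjugation as a real linear map. -/
noncomputable def cjL (s : Bool) : ℂ →L[ℝ] ℂ :=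
  if s then ContinuousLinearMap.id ℝ ℂ else conjCLE.toContinuousLinearMap

theorem cjL_apply (s : Bool) (w : ℂ) : cjL s w = cj s w := by
  cases s
  · show (conjCLE.toContinuousLinearMap : ℂ →L[ℝ] ℂ) w = (starRingEnd ℂ) w
    simp
  · rfl

theorem cj_mul (s : Bool) (x y : ℂ) : cj s (x * y) = cj s x * cj s y := by
  cases s
  · exact map_mul (starRingEnd ℂ) x y
  · rfl

theorem cj_neg (s : Bool) (x : ℂ) : cj s (-x) = -cj s x := by
  cases s
  · exact map_neg (starRingEnd ℂ) x
  · rfl

theorem cj_div (s : Bool) (x y : ℂ) : cj s (x / y) = cj s x / cj s y := by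
  cases s
  · exact map_div₀ (starRingEnd ℂ) x y
  · rfl

theorem cj_eq_zero {s : Bool} {x : ℂ} : cj s x = 0 ↔ x = 0 := by
  cases s
  · exact map_eq_zero (starRingEnd ℂ)
  · exact Iff.rfl

/-- The derivative of the exponent. -/
noncomputable def exL {ι : Type*} (m s : Bool) : (ℝ × (ι → ℂ)) →L[ℝ] ℂ :=
  if s = m then ofRealCLM.comp (ContinuousLinearMap.fst ℝ ℝ (ι → ℂ)) else 0

theorem exL_apply {ι : Type*} (m s : Bool) (v : ι → ℂ) : exL m s ((0 : ℝ), v) = 0 := by
  unfold exL
  split_ifs <;> simp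

theorem hasStrictFDerivAt_ex {ι : Type*} [Fintype ι] (m s : Bool) (x : ℝ × (ι → ℂ)) :
    HasStrictFDerivAt (fun x : ℝ × (ι → ℂ) => (ex m s x.1 : ℂ)) (exL m s) x := by
  unfold ex exL
  by_cases h : s = m
  · simp only [h, if_true]
    exact ofRealCLM.hasStrictFDerivAt.comp x hasStrictFDerivAt_fst
  · simp only [h, if_false]
    exact hasStrictFDerivAt_const _ _

private theorem der_comp {E : Type*} [NormedAddCommGroup E] [NormedSpace ℝ E] {g : E → ℂ}
    {g' : E →L[ℝ] ℂ} {x : E} (hg : HasStrictFDerivAt g g' x) {f : ℂ → ℂ} {f' : ℂ}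
    (hf : HasStrictDerivAt f f' (g x)) : HasStrictFDerivAt (fun y => f (g y)) (f' • g') x := by
  have h := (hf.complexToReal_fderiv).comp x hg
  refine h.congr_fderiv ?_
  ext v
  simp

private theorem der_slot [Fintype ι] {τ : ℝ} {z : ι → ℂ} (i : ι) (o : Option (ι × Bool))
    (hc : ∀ i, 0 < (cos (z i)).re) (hs : ∀ i, sin (z i) ≠ 0)
    (hl : o ≠ none → 0 < (bo m τ z o * tan (z i)).re) :
    ∃ L : (ℝ × (ι → ℂ)) →L[ℝ] ℂ,
      HasStrictFDerivAt (fun x : ℝ × (ι → ℂ) => as (bo m x.1 x.2 o * tan (x.2 i))) L (τ, z) ∧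
      ∀ v, L (0, v) = tanh (as (bo m τ z o * tan (z i))) *
        (v i / (sin (z i) * cos (z i)) + lam m τ z v o) := by
  cases o with
  | none =>
    refine ⟨0, ?_, ?_⟩
    · have : (fun x : ℝ × (ι → ℂ) => as (bo m x.1 x.2 none * tan (x.2 i))) = fun _ => as 0 := by
        funext x
        simp [bo]
      rw [this]
      exact hasStrictFDerivAt_const _ _
    · intro v
      simp [bo, as_zero]
  | some js =>
    obtain ⟨j, s⟩ := js
    have h1 := hl (by simp)
    have hci : cos (z i) ≠ 0 := by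
      intro h0
      have := hc i
      rw [h0] at this
      simp at this
    have hcj : cos (z j) ≠ 0 := by
      intro h0
      have := hc j
      rw [h0] at this
      simp at this
    have hτ : HasStrictFDerivAt (fun x : ℝ × (ι → ℂ) => (ex m s x.1 : ℂ))
        (exL m s) (τ, z) := hasStrictFDerivAt_ex m s (τ, z)
    have hz : ∀ k : ι, HasStrictFDerivAt (fun x : ℝ × (ι → ℂ) => x.2 k)
        ((ContinuousLinearMap.proj k).comp (ContinuousLinearMap.snd ℝ ℝ (ι → ℂ))) (τ, z) :=
      fun k => (ContinuousLinearMap.hasStrictFDerivAt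
        ((ContinuousLinearMap.proj (R := ℝ) (φ := fun _ : ι => ℂ) k).comp
          (ContinuousLinearMap.snd ℝ ℝ (ι → ℂ))))
    have hcos := der_comp (hz j) (hasStrictDerivAt_cos (z j))
    have hconj := ((cjL s).hasStrictFDerivAt (x := cos (z j))).comp (τ, z) hcos
    have hsl : cjL s (cos (z j)) ∈ slitPlane := by
      left
      rw [cjL_apply, cj_re]
      exact hc j
    have hlog := der_comp hconj (hasStrictDerivAt_log (x := cjL s (cos (z j))) hsl)
    have hprod := hτ.mul hlog
    have hexp := der_comp hprod (hasStrictDerivAt_exp _)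
    have htan := der_comp (hz i) (hasStrictDerivAt_tan hci)
    have hw := hexp.mul htan
    have hbo : bo m τ z (some (j, s)) = exp ((ex m s τ : ℂ) * log (cjL s (cos (z j)))) := by
      rw [cjL_apply]
      rfl
    have hash := der_comp hw (hasStrictDerivAt_as (w := exp ((ex m s τ : ℂ) * log (cjL s (cos (z j)))) *
      tan (z i)) (by rw [← hbo]; exact h1))
    refine ⟨_, hash.congr_of_eventuallyEq (Filter.Eventually.of_forall fun x => ?_), ?_⟩
    · show as (exp ((ex m s x.1 : ℂ) * log (cjL s (cos (x.2 j)))) * tan (x.2 i)) =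
        as (bo m x.1 x.2 (some (j, s)) * tan (x.2 i))
      rw [cjL_apply]
      rfl
    intro v
    have hcj' : cj s (cos (z j)) ≠ 0 := by
      intro h0
      exact hcj (cj_eq_zero.1 h0)
    have hth : tanh (as (bo m τ z (some (j, s)) * tan (z i))) =
        bo m τ z (some (j, s)) * tan (z i) / cosh (as (bo m τ z (some (j, s)) * tan (z i))) := by
      rw [tanh_eq_sinh_div_cosh, sinh_as h1.le]
    rw [hth]
    simp only [lam]
    simp only [_root_.smul_apply, _root_.add_apply,
      ContinuousLinearMap.comp_apply, ContinuousLinearMap.coe_snd',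
      ContinuousLinearMap.proj_apply, smul_eq_mul, exL_apply, mul_zero, add_zero]
    simp only [cjL_apply, cj_mul, cj_neg, Function.comp, tan_eq_sin_div_cos (z j), cj_div]
    have hE : cexp (((fun x : ℝ × (ι → ℂ) => (ex m s x.1 : ℂ)) *
        fun y : ℝ × (ι → ℂ) => log (cj s (cos (y.2 j)))) (τ, z)) = bo m τ z (some (j, s)) := rfl
    have hE' : cexp ((ex m s τ : ℂ) * log (cj s (cos (z j)))) = bo m τ z (some (j, s)) := rfl
    rw [hE, hE']
    generalize hq : cosh (as (bo m τ z (some (j, s)) * tan (z i))) = q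
    rw [tan_eq_sin_div_cos (z i)]
    generalize cj s (cos (z j)) = c at hcj' ⊢
    have hsi := hs i
    field_simp

theorem GG_deriv [Fintype ι] (m : Bool) (a : ι → ℝ) (nl nr : ι → Option (ι × Bool)) {τ : ℝ} {z : ι → ℂ}
    (hc : ∀ i, 0 < (cos (z i)).re) (hs : ∀ i, sin (z i) ≠ 0)
    (hl : ∀ i, nl i ≠ none → 0 < (bo m τ z (nl i) * tan (z i)).re)
    (hr : ∀ i, nr i ≠ none → 0 < (bo m τ z (nr i) * tan (z i)).re) :
    ∃ F' : (ℝ × (ι → ℂ)) →L[ℝ] (ι → ℂ),
      HasStrictFDerivAt (fun x : ℝ × (ι → ℂ) => GG m a nl nr x.1 x.2) F' (τ, z) ∧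
      ∀ v i, F' (0, v) i = (a i : ℂ) * v i - I *
        (tanh (as (bo m τ z (nl i) * tan (z i))) * (v i / (sin (z i) * cos (z i)) + lam m τ z v (nl i)) +
          tanh (as (bo m τ z (nr i) * tan (z i))) *
            (v i / (sin (z i) * cos (z i)) + lam m τ z v (nr i))) := by
  choose L hL hLv using fun i => der_slot i (nl i) hc hs (hl i)
  choose R hR hRv using fun i => der_slot i (nr i) hc hs (hr i)
  have hz : ∀ k : ι, HasStrictFDerivAt (fun x : ℝ × (ι → ℂ) => x.2 k)
      ((ContinuousLinearMap.proj k).comp (ContinuousLinearMap.snd ℝ ℝ (ι → ℂ))) (τ, z) :=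
    fun k => (ContinuousLinearMap.hasStrictFDerivAt
      ((ContinuousLinearMap.proj (R := ℝ) (φ := fun _ : ι => ℂ) k).comp
        (ContinuousLinearMap.snd ℝ ℝ (ι → ℂ))))
  have hG : ∀ i : ι, HasStrictFDerivAt (fun x : ℝ × (ι → ℂ) => GG m a nl nr x.1 x.2 i)
      ((a i : ℂ) • ((ContinuousLinearMap.proj i).comp (ContinuousLinearMap.snd ℝ ℝ (ι → ℂ))) -
        I • (L i + R i)) (τ, z) := by
    intro i
    have h1 := (hz i).const_smul (a i : ℂ)
    have h2 := ((hL i).add (hR i)).const_smul I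
    have h3 := (h1.sub_const (Real.pi : ℂ)).sub h2
    exact h3
  refine ⟨ContinuousLinearMap.pi fun i => _, hasStrictFDerivAt_pi.2 hG, ?_⟩
  intro v i
  simp only [ContinuousLinearMap.pi_apply, _root_.sub_apply, _root_.smul_apply, _root_.add_apply,
    ContinuousLinearMap.comp_apply, ContinuousLinearMap.coe_snd', ContinuousLinearMap.proj_apply,
    smul_eq_mul, hLv i v, hRv i v]

end Pool.Agent.S5.E
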