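import Pool.Agent.S3.E.Sl
import Pool.Agent.S3.E.SlB
import Pool.Agent.S3.E.SlC
import Pool.Agent.S5.E.Top

/-!
# Mixed chains, block E: from a zero of the system to the vertex equations
-/

set_option autoImplicit false

namespace Pool.Agent.S5.E

open Complex
open Pool.Agent.S3.E (al ph tt k2 s2 cc gg PP re_cos_pos GeoC_cos_re GeoC_cos_im norm_cos_eq k2_pos
  cos_polar tan_polar al_pos al_lt tt_pos ph_pos ph_lt PP_nonneg PP_pos)

variable {ι κ : Type*} {m : Bool}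

/-- Real part and norm of a power. -/
private theorem Sys_exp {τ : ℝ} {c : ℂ} (h0 : 0 ≤ τ) (h1 : τ ≤ 1) (hcr : 0 < c.re)
    (hcn : ‖c‖ ≤ 1.1) : 0 < (exp ((τ : ℂ) * log c)).re ∧ ‖exp ((τ : ℂ) * log c)‖ ≤ 1.1 := by
  have hc0 : c ≠ 0 := by
    intro h
    rw [h] at hcr
    simp at hcr
  have hcp : 0 < ‖c‖ := norm_pos_iff.mpr hc0
  have ha1 : |arg c| < Real.pi / 2 := Complex.abs_arg_lt_pi_div_two_iff.mpr (Or.inl hcr)
  have hxr : ((τ : ℂ) * log c).re = τ * Real.log ‖c‖ := by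
    rw [Complex.re_ofReal_mul, Complex.log_re]
  have hxi : ((τ : ℂ) * log c).im = τ * arg c := by
    rw [Complex.im_ofReal_mul, Complex.log_im]
  have ht : |τ * arg c| < Real.pi / 2 := by
    rw [abs_mul, abs_of_nonneg h0]
    calc τ * |arg c| ≤ 1 * |arg c| := mul_le_mul_of_nonneg_right h1 (abs_nonneg _)
      _ = |arg c| := one_mul _
      _ < Real.pi / 2 := ha1
  rw [abs_lt] at ht
  constructor
  · rw [Complex.exp_re, hxi]
    exact mul_pos (Real.exp_pos _) (Real.cos_pos_of_mem_Ioo ht)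
  · rw [Complex.norm_exp, hxr]
    have h2 : Real.exp (τ * Real.log ‖c‖) ≤ Real.exp (Real.log 1.1) := by
      apply Real.exp_le_exp.mpr
      have h3 : Real.log ‖c‖ ≤ Real.log 1.1 := Real.log_le_log hcp hcn
      have h4 : 0 ≤ Real.log 1.1 := Real.log_nonneg (by norm_num)
      calc τ * Real.log ‖c‖ ≤ τ * Real.log 1.1 := mul_le_mul_of_nonneg_left h3 h0
        _ ≤ 1 * Real.log 1.1 := mul_le_mul_of_nonneg_right h1 h4
        _ = Real.log 1.1 := one_mul _
    rwa [Real.exp_log (by norm_num)] at h2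

theorem norm_cj (s : Bool) (w : ℂ) : ‖cj s w‖ = ‖w‖ := by
  cases s
  · exact RCLike.norm_conj w
  · rfl

/-- The two real equations of a zero. -/
theorem Sys_eqs {a : ι → ℝ} {nl nr : ι → Option (ι × Bool)} {τ : ℝ} {z : ι → ℂ}
    (h0 : GG m a nl nr τ z = 0) (i : ι) :
    a i * (z i).re + RS (bo m τ z (nl i) * tan (z i)) + RS (bo m τ z (nr i) * tan (z i)) = Real.pi ∧
      a i * (z i).im = PP (bo m τ z (nl i) * tan (z i)) + PP (bo m τ z (nr i) * tan (z i)) := by
  have h := congrFun h0 i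
  have h1 : (a i : ℂ) * z i - (Real.pi : ℂ) -
    Complex.I * (as (bo m τ z (nl i) * Complex.tan (z i)) +
      as (bo m τ z (nr i) * Complex.tan (z i))) = 0 := h
  have hre := congrArg Complex.re h1
  have him := congrArg Complex.im h1
  simp only [Complex.sub_re, Complex.sub_im,
    Complex.ofReal_re, Complex.ofReal_im, Complex.mul_re, Complex.mul_im, Complex.I_re,
    Complex.I_im, Complex.add_re, Complex.add_im, as_re, as_im, Complex.zero_re,
    Complex.zero_im] at hre him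
  constructor
  · linarith
  · linarith

theorem Sys_bo {τ : ℝ} {z : ι → ℂ} (hx : ((τ, z) : ℝ × (ι → ℂ)) ∈ TopA ι) (j : ι) (s : Bool) :
    0 < (bo m τ z (some (j, s))).re ∧ ‖bo m τ z (some (j, s))‖ ≤ 1.1 := by
  have hp := TopA_pos hx j
  have hn := (hx.2 j).2.2.1
  exact Sys_exp (ex_mem hx.1.1 hx.1.2).1 (ex_mem hx.1.1 hx.1.2).2 (by rw [cj_re]; exact hp)
    (by rw [norm_cj]; exact hn)

/-- `R < π/2`. -/
private theorem Sys_R {τ : ℝ} {z : ι → ℂ} (hx : ((τ, z) : ℝ × (ι → ℂ)) ∈ TopA ι) (i : ι) :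
    (z i).re < Real.pi / 2 := by
  have hre : 0 < (cos (z i)).re := TopA_pos hx i
  have h2 : (z i).re ≤ Real.pi / 2 := (hx.2 i).1.2.1
  rcases lt_or_eq_of_le h2 with h | h
  · exact h
  · rw [GeoC_cos_re, h, Real.cos_pi_div_two, zero_mul] at hre
    exact absurd hre (lt_irrefl _)

/-- `I > 0`. -/
private theorem Sys_I {a : ι → ℝ} {nl nr : ι → Option (ι × Bool)} {g : ι → κ → ℂ → ℝ} {τ : ℝ}
    {z : ι → ℂ} (hN : Nbr nl nr) (hx : ((τ, z) : ℝ × (ι → ℂ)) ∈ KK m nl nr g)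
    (h0 : GG m a nl nr τ z = 0) (i : ι) : 0 < (z i).im := by
  obtain ⟨hA, -, hW⟩ := hx
  obtain ⟨⟨h1, h2, h3, -⟩, -⟩ : (0 ≤ (z i).re ∧ (z i).re ≤ Real.pi / 2 ∧ 0 ≤ (z i).im ∧
    (z i).im ≤ 2) ∧ _ := hA.2 i
  obtain ⟨h7, h8⟩ : 0 ≤ (bo m τ z (nl i) * Complex.tan (z i)).re ∧
      0 ≤ (bo m τ z (nr i) * Complex.tan (z i)).re := hW i
  have hR := Sys_R hA i
  obtain ⟨e1, e2⟩ := Sys_eqs h0 i
  by_contra hI
  have hI0 : (z i).im = 0 := le_antisymm (not_lt.mp hI) h3
  have hP1 := PP_nonneg (bo m τ z (nl i) * tan (z i))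
  have hP2 := PP_nonneg (bo m τ z (nr i) * tan (z i))
  rw [hI0, mul_zero] at e2
  have hz : z i = ((z i).re : ℂ) := by
    apply Complex.ext
    · simp
    · simp [hI0]
  have htan : tan (z i) = ((Real.tan (z i).re : ℝ) : ℂ) := by
    rw [hz]
    simp
  have ht0 : 0 ≤ Real.tan (z i).re := Real.tan_nonneg_of_nonneg_of_le_pi_div_two h1 h2
  -- a slot with a neighbour gives `tan R = 0`
  have key : ∀ o : Option (ι × Bool), o ≠ none → 0 ≤ (bo m τ z o * tan (z i)).re →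
      PP (bo m τ z o * tan (z i)) = 0 → Real.tan (z i).re = 0 := by
    intro o ho hre hP
    obtain ⟨⟨j, s⟩, rfl⟩ := Option.ne_none_iff_exists'.mp ho
    obtain ⟨hb, -⟩ := Sys_bo hA j s
    by_contra hne
    have htp : 0 < Real.tan (z i).re := lt_of_le_of_ne ht0 (Ne.symm hne)
    have : 0 < (bo m τ z (some (j, s)) * tan (z i)).re := by
      rw [htan, Complex.re_mul_ofReal]
      exact mul_pos hb htp
    have := PP_pos this
    linarith
  have ht : Real.tan (z i).re = 0 := by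
    rcases hN.ne i with h | h
    · exact key _ h h7 (by linarith)
    · exact key _ h h8 (by linarith)
  have hRR : ∀ o : Option (ι × Bool), RS (bo m τ z o * tan (z i)) = 0 := by
    intro o
    rw [htan, ht, Complex.ofReal_zero, mul_zero, ← as_im, as_zero, Complex.zero_im]
  have hR0 : (z i).re = 0 := by
    by_contra hne
    have hp : 0 < (z i).re := lt_of_le_of_ne h1 (Ne.symm hne)
    have := Real.tan_pos_of_pos_of_lt_pi_div_two hp hR
    linarith
  rw [hRR, hRR, hR0] at e1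
  linarith [Real.pi_pos]

/-- `R > 0`. -/
private theorem Sys_R0 {a : ι → ℝ} {nl nr : ι → Option (ι × Bool)} {g : ι → κ → ℂ → ℝ} {τ : ℝ}
    {z : ι → ℂ} (hN : Nbr nl nr)
    (ha : ∀ i, 2 ≤ a i) (hx : ((τ, z) : ℝ × (ι → ℂ)) ∈ KK m nl nr g) (h0 : GG m a nl nr τ z = 0)
    (i : ι) : 0 < (z i).re := by
  have hI := Sys_I hN hx h0 i
  obtain ⟨hA, -, hW⟩ := hx
  obtain ⟨⟨h1, h2, h3, -⟩, -⟩ : (0 ≤ (z i).re ∧ (z i).re ≤ Real.pi / 2 ∧ 0 ≤ (z i).im ∧
    (z i).im ≤ 2) ∧ _ := hA.2 i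
  obtain ⟨h7, h8⟩ : 0 ≤ (bo m τ z (nl i) * Complex.tan (z i)).re ∧
      0 ≤ (bo m τ z (nr i) * Complex.tan (z i)).re := hW i
  obtain ⟨e1, e2⟩ := Sys_eqs h0 i
  by_contra hR
  have hR0 : (z i).re = 0 := le_antisymm (not_lt.mp hR) h1
  rw [hR0, mul_zero] at e1
  have hz : z i = ((z i).im : ℂ) * I := by
    apply Complex.ext
    · simp [hR0]
    · simp
  have htan : tan (z i) = ((Real.tanh (z i).im : ℝ) : ℂ) * I := by
    rw [hz, Complex.tan_mul_I]
    simp
  have hRl1 := RS_le (bo m τ z (nl i) * tan (z i))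
  have hRl2 := RS_le (bo m τ z (nr i) * tan (z i))
  have hr1 : RS (bo m τ z (nl i) * tan (z i)) = Real.pi / 2 := by linarith
  have hr2 : RS (bo m τ z (nr i) * tan (z i)) = Real.pi / 2 := by linarith
  have hsh : 0 < Real.sinh (z i).im := Real.sinh_pos_iff.mpr hI
  have hch : 1 ≤ Real.cosh (z i).im := Real.one_le_cosh _
  have hth : Real.tanh (z i).im = Real.sinh (z i).im / Real.cosh (z i).im :=
    Real.tanh_eq_sinh_div_cosh _
  have hth0 : 0 < Real.tanh (z i).im := by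
    rw [hth]
    positivity
  have hth1 : Real.tanh (z i).im < 1 := Real.tanh_lt_one _
  have hths : Real.tanh (z i).im ≤ Real.sinh (z i).im := by
    rw [hth]
    exact div_le_self hsh.le hch
  -- `cosh p ≤ 1.1 tanh I`
  have key : ∀ o : Option (ι × Bool), 0 ≤ (bo m τ z o * Complex.tan (z i)).re →
      RS (bo m τ z o * tan (z i)) = Real.pi / 2 →
      Real.cosh (PP (bo m τ z o * tan (z i))) ≤ 1.1 * Real.tanh (z i).im := by
    intro o hre ho
    have him : (bo m τ z o * tan (z i)).im = (bo m τ z o).re * Real.tanh (z i).im := by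
      rw [htan, ← mul_assoc, Complex.mul_I_im, Complex.re_mul_ofReal]
    cases o with
    | none =>
      exfalso
      have hb0 : bo m τ z none = 0 := rfl
      rw [hb0, zero_mul, ← as_im, as_zero, Complex.zero_im] at ho
      linarith [Real.pi_pos]
    | some js =>
      obtain ⟨j, s⟩ := js
      obtain ⟨hb, hbn⟩ := Sys_bo hA j s
      have h := cosh_sin_RS hre
      rw [ho, Real.sin_pi_div_two, mul_one, him] at h
      rw [h]
      apply mul_le_mul_of_nonneg_right _ hth0.le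
      exact le_trans (Complex.re_le_norm _) hbn
  have k1 := key _ h7 hr1
  have k2 := key _ h8 hr2
  have hP1 := PP_nonneg (bo m τ z (nl i) * tan (z i))
  have hP2 := PP_nonneg (bo m τ z (nr i) * tan (z i))
  have fin : ∀ p : ℝ, (z i).im ≤ p → Real.cosh p ≤ 1.1 * Real.tanh (z i).im → False := by
    intro p hp hc
    have hsp : Real.sinh (z i).im ≤ Real.sinh p := Real.sinh_le_sinh.mpr hp
    have hc1 : 1 ≤ Real.cosh p := Real.one_le_cosh p
    have hid := Real.cosh_sq p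
    nlinarith
  have h2I : 2 * (z i).im ≤ a i * (z i).im := mul_le_mul_of_nonneg_right (ha i) h3
  rcases le_total (PP (bo m τ z (nl i) * tan (z i))) (PP (bo m τ z (nr i) * tan (z i))) with h | h
  · exact fin _ (by linarith) k2
  · exact fin _ (by linarith) k1

theorem zero_pos {a : ι → ℝ} {nl nr : ι → Option (ι × Bool)} {g : ι → κ → ℂ → ℝ} {τ : ℝ}
    {z : ι → ℂ} (hN : Nbr nl nr)
    (ha : ∀ i, 2 ≤ a i) (hx : ((τ, z) : ℝ × (ι → ℂ)) ∈ KK m nl nr g) (h0 : GG m a nl nr τ z = 0) :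
    ∀ i, 0 < (z i).re ∧ (z i).re < Real.pi / 2 ∧ 0 < (z i).im :=
  fun i => ⟨Sys_R0 hN ha hx h0 i, Sys_R hx.1 i, Sys_I hN hx h0 i⟩

/-- One slot of a zero. -/
theorem Sys_slot {τ : ℝ} {z : ι → ℂ} (hτ0 : 0 ≤ τ) (hτ1 : τ ≤ 1)
    (hp : ∀ i, 0 < (z i).re ∧ (z i).re < Real.pi / 2 ∧ 0 < (z i).im)
    (hcos : ∀ i, 0 < ‖cos (z i)‖) (i : ι) (o : Option (ι × Bool))
    (hre : 0 ≤ (bo m τ z o * tan (z i)).re) :
    Slot (z i).re (z i).im (ro m τ z o) (be m τ z o) (PP (bo m τ z o * tan (z i)))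
      (RS (bo m τ z o * tan (z i))) := by
  obtain ⟨hR0, hR1, hI⟩ := hp i
  have hal0 := al_pos hR0 hR1 hI
  have hal1 := al_lt (z i).re (z i).im
  have htt := tt_pos (R := (z i).re) (I := (z i).im) hR0 hR1
  have hro : 0 ≤ ro m τ z o := by
    cases o with
    | none => exact le_rfl
    | some j => exact Real.rpow_nonneg (norm_nonneg _) _
  have hbe : |be m τ z o| < Real.pi / 2 := by
    cases o with
    | none => change |(0 : ℝ)| < _; rw [abs_zero]; linarith [Real.pi_pos]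
    | some js =>
      obtain ⟨j, s⟩ := js
      obtain ⟨hR0, hR1, hI⟩ := hp j
      have h1 := ph_pos hR0 hR1 hI
      have h2 := ph_lt (z j).re (z j).im
      obtain ⟨e0, e1⟩ := ex_mem (m := m) (s := s) hτ0 hτ1
      show |sg s * (ex m s τ * ph (z j).re (z j).im)| < Real.pi / 2
      rw [abs_mul, abs_sg, one_mul, abs_of_nonneg (mul_nonneg e0 h1.le)]
      calc ex m s τ * ph (z j).re (z j).im ≤ 1 * ph (z j).re (z j).im :=
            mul_le_mul_of_nonneg_right e1 h1.le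
        _ = ph (z j).re (z j).im := one_mul _
        _ < Real.pi / 2 := h2
  rw [abs_lt] at hbe
  have hpol : bo m τ z o * tan (z i) =
      ((ro m τ z o * tt (z i).re (z i).im : ℝ) : ℂ) *
        exp (((al (z i).re (z i).im + be m τ z o : ℝ) : ℂ) * I) := by
    rw [bo_polar (fun j _ _ => ⟨(hp j).1, (hp j).2.1⟩), tan_polar hR0 hR1]
    push_cast
    rw [add_mul, Complex.exp_add]
    ring
  have hwre : (bo m τ z o * tan (z i)).re =
      ro m τ z o * tt (z i).re (z i).im * Real.cos (al (z i).re (z i).im + be m τ z o) := by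
    rw [hpol, Complex.re_ofReal_mul, Complex.exp_ofReal_mul_I_re]
  have hwim : (bo m τ z o * tan (z i)).im =
      ro m τ z o * tt (z i).re (z i).im * Real.sin (al (z i).re (z i).im + be m τ z o) := by
    rw [hpol, Complex.im_ofReal_mul, Complex.exp_ofReal_mul_I_im]
  refine ⟨PP_nonneg _, neg_le_RS _, RS_le _, hro, by linarith, ?_, ?_, ?_⟩
  · cases o with
    | none =>
      change al (z i).re (z i).im + 0 ≤ _
      linarith
    | some js =>
      obtain ⟨j, s⟩ := js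
      by_contra hlt
      have hlt' := not_le.mp hlt
      have hc : Real.cos (al (z i).re (z i).im + be m τ z (some (j, s))) < 0 := by
        apply Real.cos_neg_of_pi_div_two_lt_of_lt hlt'
        linarith [hbe.2, Real.pi_pos]
      have hrop : 0 < ro m τ z (some (j, s)) := Real.rpow_pos_of_pos (hcos j) _
      have := mul_neg_of_pos_of_neg (mul_pos hrop htt) hc
      rw [← hwre] at this
      linarith
  · rw [sinh_cos_RS hre, hwre]
  · rw [cosh_sin_RS hre, hwim]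

theorem zero_vx {a : ι → ℝ} {nl nr : ι → Option (ι × Bool)} {g : ι → κ → ℂ → ℝ} {τ : ℝ}
    {z : ι → ℂ} (hN : Nbr nl nr)
    (ha : ∀ i, 2 ≤ a i) (hx : ((τ, z) : ℝ × (ι → ℂ)) ∈ KK m nl nr g) (h0 : GG m a nl nr τ z = 0)
    (i : ι) :
    Vx (a i) (z i).re (z i).im
      (ro m τ z (nl i)) (be m τ z (nl i)) (PP (bo m τ z (nl i) * tan (z i))) (RS (bo m τ z (nl i) * tan (z i)))
      (ro m τ z (nr i)) (be m τ z (nr i)) (PP (bo m τ z (nr i) * tan (z i)))
      (RS (bo m τ z (nr i) * tan (z i))) := by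
  have hp := zero_pos hN ha hx h0
  have hcos : ∀ i, 0 < ‖cos (z i)‖ := by
    intro i
    have : (0.49 : ℝ) ≤ ‖cos (z i)‖ := (hx.1.2 i).2.1
    have h49 : (0 : ℝ) < 0.49 := by norm_num
    linarith
  obtain ⟨e1, e2⟩ := Sys_eqs h0 i
  exact ⟨ha i, (hp i).1, (hp i).2.1, (hp i).2.2, Sys_slot hx.1.1.1 hx.1.1.2 hp hcos i _ (hx.2.2 i).1,
    Sys_slot hx.1.1.1 hx.1.1.2 hp hcos i _ (hx.2.2 i).2, e1, e2⟩

end Pool.Agent.S5.E
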