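import Pool.Agent.S3.E.Crit
import Pool.Agent.S3.E.Two
import Pool.Agent.S5.E.Der
import Pool.Agent.S5.E.Sys

/-!
# Mixed chains, block E: the homotopy
-/

set_option autoImplicit false

namespace Pool.Agent.S5.E

open Complex Topology
open Pool.Agent.S3.E (al ph tt k2 s2 cc gg PP ash re_cos_pos GeoC_cos_re GeoC_cos_im norm_cos_eq
  norm_cos_sq norm_sin_sq k2_pos s2_pos cos_polar tan_polar al_pos al_lt tt_pos ph_pos ph_lt
  PP_nonneg PP_pos cont_method start_vertex start_facts ash_zero neg_one_lt_gg)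

variable {ι κ : Type*} {m : Bool}

/-- Everything about a zero of the system. -/
structure Zr (m : Bool) (a : ι → ℝ) (nl nr : ι → Option (ι × Bool)) (g : ι → κ → ℂ → ℝ) (τ : ℝ)
    (z : ι → ℂ) : Prop where
  N : Nbr nl nr
  a2 : ∀ i, 2 ≤ a i
  K : ((τ, z) : ℝ × (ι → ℂ)) ∈ KK m nl nr g
  Z : GG m a nl nr τ z = 0

/-- The strict inequalities. -/
structure Str (m : Bool) (a : ι → ℝ) (nl nr : ι → Option (ι × Bool)) (g : ι → κ → ℂ → ℝ) (τ : ℝ)
    (z : ι → ℂ) : Prop where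
  im : ∀ i, (z i).im < 2
  k : ∀ i, 0.49 < ‖cos (z i)‖ ∧ ‖cos (z i)‖ < 1.1 ∧ -(cos (z i)).im < 1.04 * (cos (z i)).re
  g : ∀ i k, 0 < g i k (z i)
  w : ∀ i, (nl i ≠ none → 0 < (bo m τ z (nl i) * tan (z i)).re) ∧
    (nr i ≠ none → 0 < (bo m τ z (nr i) * tan (z i)).re)
  dom : ∀ i, s2 (z i).re (z i).im * (‖tanh (as (bo m τ z (nl i) * tan (z i)))‖ +
        ‖tanh (as (bo m τ z (nr i) * tan (z i)))‖) <
      ‖(a i : ℂ) * (cos (z i) * sin (z i)) - I * (tanh (as (bo m τ z (nl i) * tan (z i))) +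
          tanh (as (bo m τ z (nr i) * tan (z i))))‖

namespace Zr

variable {a : ι → ℝ} {nl nr : ι → Option (ι × Bool)} {g : ι → κ → ℂ → ℝ} {τ : ℝ} {z : ι → ℂ}

theorem τ0 (h : Zr m a nl nr g τ z) : 0 ≤ τ := h.K.1.1.1

theorem τ1 (h : Zr m a nl nr g τ z) : τ ≤ 1 := h.K.1.1.2

theorem pos (h : Zr m a nl nr g τ z) (i : ι) :
    0 < (z i).re ∧ (z i).re < Real.pi / 2 ∧ 0 < (z i).im := zero_pos h.N h.a2 h.K h.Z i

theorem vx (h : Zr m a nl nr g τ z) (i : ι) :
    Vx (a i) (z i).re (z i).im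
      (ro m τ z (nl i)) (be m τ z (nl i)) (PP (bo m τ z (nl i) * tan (z i))) (RS (bo m τ z (nl i) * tan (z i)))
      (ro m τ z (nr i)) (be m τ z (nr i)) (PP (bo m τ z (nr i) * tan (z i)))
      (RS (bo m τ z (nr i) * tan (z i))) := zero_vx h.N h.a2 h.K h.Z i

theorem k2pos (h : Zr m a nl nr g τ z) (i : ι) : 0 < k2 (z i).re (z i).im :=
  k2_pos (h.pos i).1 (h.pos i).2.1

theorem norm_pos (h : Zr m a nl nr g τ z) (i : ι) : 0 < ‖cos (z i)‖ := by
  rw [norm_cos_eq]; exact Real.sqrt_pos.2 (h.k2pos i)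

theorem phpos (h : Zr m a nl nr g τ z) (i : ι) : 0 < ph (z i).re (z i).im :=
  ph_pos (h.pos i).1 (h.pos i).2.1 (h.pos i).2.2

theorem cos_ne (h : Zr m a nl nr g τ z) (i : ι) : cos (z i) ≠ 0 := norm_pos_iff.1 (h.norm_pos i)

theorem sin_ne (h : Zr m a nl nr g τ z) (i : ι) : sin (z i) ≠ 0 := by
  intro h0
  have h1 := norm_sin_sq (z i)
  rw [h0, norm_zero] at h1
  have h2 := s2_pos (I := (z i).im) (h.pos i).1 (h.pos i).2.1
  norm_num at h1
  linarith

theorem re_pos (h : Zr m a nl nr g τ z) (i : ι) : 0 < (cos (z i)).re := TopA_pos h.K.1 i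

theorem ex_mem (h : Zr m a nl nr g τ z) (s : Bool) : 0 ≤ ex m s τ ∧ ex m s τ ≤ 1 :=
  Pool.Agent.S5.E.ex_mem h.τ0 h.τ1

theorem ro_pos (h : Zr m a nl nr g τ z) (j : ι) (s : Bool) : 0 < ro m τ z (some (j, s)) :=
  Real.rpow_pos_of_pos (h.norm_pos j) _

theorem ro_nonneg (h : Zr m a nl nr g τ z) (o : Option (ι × Bool)) : 0 ≤ ro m τ z o := by
  cases o with
  | none => simp [ro]
  | some js => exact (h.ro_pos js.1 js.2).le

theorem ttpos (h : Zr m a nl nr g τ z) (i : ι) : 0 < tt (z i).re (z i).im :=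
  tt_pos (h.pos i).1 (h.pos i).2.1

theorem alpos (h : Zr m a nl nr g τ z) (i : ι) : 0 < al (z i).re (z i).im :=
  al_pos (h.pos i).1 (h.pos i).2.1 (h.pos i).2.2

theorem bo_eq (h : Zr m a nl nr g τ z) (o : Option (ι × Bool)) :
    bo m τ z o = (ro m τ z o : ℂ) * exp ((be m τ z o : ℂ) * I) :=
  bo_polar (fun j _ _ => ⟨(h.pos j).1, (h.pos j).2.1⟩)

theorem norm_bo (h : Zr m a nl nr g τ z) (o : Option (ι × Bool)) : ‖bo m τ z o‖ = ro m τ z o := by
  rw [h.bo_eq, norm_mul, norm_exp_ofReal_mul_I, mul_one, norm_real, Real.norm_eq_abs,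
    abs_of_nonneg (h.ro_nonneg o)]

theorem bo_re (h : Zr m a nl nr g τ z) (o : Option (ι × Bool)) :
    (bo m τ z o).re = ro m τ z o * Real.cos (be m τ z o) := by
  rw [h.bo_eq, re_ofReal_mul, exp_ofReal_mul_I_re]

theorem bo_im (h : Zr m a nl nr g τ z) (o : Option (ι × Bool)) :
    (bo m τ z o).im = ro m τ z o * Real.sin (be m τ z o) := by
  rw [h.bo_eq, im_ofReal_mul, exp_ofReal_mul_I_im]

theorem w_eq (h : Zr m a nl nr g τ z) (i : ι) (o : Option (ι × Bool)) :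
    bo m τ z o * tan (z i) = ((ro m τ z o * tt (z i).re (z i).im : ℝ) : ℂ) *
      exp (((al (z i).re (z i).im + be m τ z o : ℝ) : ℂ) * I) := by
  rw [h.bo_eq, tan_polar (h.pos i).1 (h.pos i).2.1]
  push_cast
  rw [add_mul, Complex.exp_add]
  ring

theorem w_re (h : Zr m a nl nr g τ z) (i : ι) (o : Option (ι × Bool)) :
    (bo m τ z o * tan (z i)).re = ro m τ z o * tt (z i).re (z i).im *
      Real.cos (al (z i).re (z i).im + be m τ z o) := by
  rw [h.w_eq, re_ofReal_mul, exp_ofReal_mul_I_re]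

theorem w_im (h : Zr m a nl nr g τ z) (i : ι) (o : Option (ι × Bool)) :
    (bo m τ z o * tan (z i)).im = ro m τ z o * tt (z i).re (z i).im *
      Real.sin (al (z i).re (z i).im + be m τ z o) := by
  rw [h.w_eq, im_ofReal_mul, exp_ofReal_mul_I_im]

/-- `Re w > 0` from the strict inequality of the angle. -/
theorem w_re_pos (h : Zr m a nl nr g τ z) {i j : ι} {s : Bool}
    (h1 : al (z i).re (z i).im + be m τ z (some (j, s)) < Real.pi / 2)
    (h2 : -(Real.pi / 2) < al (z i).re (z i).im + be m τ z (some (j, s))) :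
    0 < (bo m τ z (some (j, s)) * tan (z i)).re := by
  rw [h.w_re]
  exact mul_pos (mul_pos (h.ro_pos j s) (h.ttpos i)) (Real.cos_pos_of_mem_Ioo ⟨h2, h1⟩)

/-- Slot equation. -/
theorem sinh_l (h : Zr m a nl nr g τ z) (i : ι) :
    sinh (as (bo m τ z (nl i) * tan (z i))) * cos (z i) = bo m τ z (nl i) * sin (z i) := by
  rw [sinh_as (h.K.2.2 i).1, tan_eq_sin_div_cos, mul_assoc, div_mul_cancel₀ _ (h.cos_ne i)]

theorem sinh_r (h : Zr m a nl nr g τ z) (i : ι) :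
    sinh (as (bo m τ z (nr i) * tan (z i))) * cos (z i) = bo m τ z (nr i) * sin (z i) := by
  rw [sinh_as (h.K.2.2 i).2, tan_eq_sin_div_cos, mul_assoc, div_mul_cancel₀ _ (h.cos_ne i)]

theorem eqn (h : Zr m a nl nr g τ z) (i : ι) :
    (a i : ℂ) * z i = (Real.pi : ℂ) + I * (as (bo m τ z (nl i) * tan (z i)) +
      as (bo m τ z (nr i) * tan (z i))) := by
  have h1 : GG m a nl nr τ z i = 0 := congrFun h.Z i
  unfold GG at h1
  linear_combination h1

theorem interior [Finite ι] [Finite κ] (h : Zr m a nl nr g τ z) (hg : ∀ i k, Continuous (g i k))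
    (hs : Str m a nl nr g τ z) :
    ∀ᶠ y in 𝓝 ((τ, z) : ℝ × (ι → ℂ)), y.1 ∈ Set.Icc (0 : ℝ) 1 → y ∈ KK m nl nr g :=
  KK_interior m nl nr hg (fun i => ⟨(h.pos i).1, (h.pos i).2.1, (h.pos i).2.2, hs.im i⟩) hs.k hs.g
    hs.w

theorem lam_le (h : Zr m a nl nr g τ z) (v : ι → ℂ) {M : ℝ} (hM0 : 0 ≤ M)
    (hM : ∀ j, ‖tan (z j) * v j‖ ≤ M) (o : Option (ι × Bool)) : ‖lam m τ z v o‖ ≤ M := by
  cases o with
  | none => simpa [lam] using hM0
  | some js =>
    obtain ⟨j, s⟩ := js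
    simp only [lam]
    rw [norm_mul, norm_cj, norm_neg, norm_real, Real.norm_eq_abs, abs_of_nonneg (h.ex_mem s).1]
    have h1 := hM j
    have h2 := norm_nonneg (tan (z j) * v j)
    have h3 := (h.ex_mem s).2
    have h4 := (h.ex_mem s).1
    nlinarith

/-- Injectivity of the Jacobian. -/
theorem inj [Finite ι] (h : Zr m a nl nr g τ z)
    (hdom : ∀ i, s2 (z i).re (z i).im * (‖tanh (as (bo m τ z (nl i) * tan (z i)))‖ +
        ‖tanh (as (bo m τ z (nr i) * tan (z i)))‖) <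
      ‖(a i : ℂ) * (cos (z i) * sin (z i)) - I * (tanh (as (bo m τ z (nl i) * tan (z i))) +
          tanh (as (bo m τ z (nr i) * tan (z i))))‖) (v : ι → ℂ)
    (hv : ∀ i, (a i : ℂ) * v i - I *
        (tanh (as (bo m τ z (nl i) * tan (z i))) * (v i / (sin (z i) * cos (z i)) + lam m τ z v (nl i)) +
          tanh (as (bo m τ z (nr i) * tan (z i))) *
            (v i / (sin (z i) * cos (z i)) + lam m τ z v (nr i))) = 0) : v = 0 := by
  by_contra hne
  obtain ⟨i0, hi0⟩ := Function.ne_iff.1 hne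
  have : Nonempty ι := ⟨i0⟩
  obtain ⟨n, hm⟩ := Finite.exists_max (fun j => ‖tan (z j) * v j‖)
  have htan : ∀ j, tan (z j) ≠ 0 := by
    intro j
    rw [tan_eq_sin_div_cos]
    exact div_ne_zero (h.sin_ne j) (h.cos_ne j)
  have hpos : 0 < ‖tan (z n) * v n‖ := by
    refine lt_of_lt_of_le ?_ (hm i0)
    exact norm_pos_iff.2 (mul_ne_zero (htan i0) hi0)
  set M := ‖tan (z n) * v n‖ with hM
  set T₁ := tanh (as (bo m τ z (nl n) * tan (z n))) with hT1
  set T₂ := tanh (as (bo m τ z (nr n) * tan (z n))) with hT2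
  set L₁ := lam m τ z v (nl n)
  set L₂ := lam m τ z v (nr n)
  have hL1 : ‖L₁‖ ≤ M := h.lam_le v hpos.le hm _
  have hL2 : ‖L₂‖ ≤ M := h.lam_le v hpos.le hm _
  have hs := h.sin_ne n
  have hc := h.cos_ne n
  obtain ⟨u, hu⟩ : ∃ u, v n = u * (sin (z n) * cos (z n)) :=
    ⟨v n / (sin (z n) * cos (z n)), (div_mul_cancel₀ _ (mul_ne_zero hs hc)).symm⟩
  have hu' : v n / (sin (z n) * cos (z n)) = u := by
    rw [hu, mul_div_assoc, div_self (mul_ne_zero hs hc), mul_one]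
  have h1 : (a n : ℂ) * v n - I * (T₁ * (v n / (sin (z n) * cos (z n)) + L₁) +
      T₂ * (v n / (sin (z n) * cos (z n)) + L₂)) = 0 := hv n
  rw [hu', hu] at h1
  have ht : tan (z n) * v n = u * sin (z n) ^ 2 := by
    rw [tan_eq_sin_div_cos, hu]
    field_simp
  have h2 : ((a n : ℂ) * (cos (z n) * sin (z n)) - I * (T₁ + T₂)) * (tan (z n) * v n) =
      sin (z n) ^ 2 * (I * (T₁ * L₁ + T₂ * L₂)) := by
    rw [ht]
    linear_combination (sin (z n)) ^ 2 * h1
  have h3 := congrArg norm h2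
  rw [norm_mul _ (tan (z n) * v n), norm_mul (sin (z n) ^ 2), norm_pow, norm_sin_sq, norm_mul I,
    norm_I, one_mul] at h3
  have h4 : ‖T₁ * L₁ + T₂ * L₂‖ ≤ (‖T₁‖ + ‖T₂‖) * M := by
    calc ‖T₁ * L₁ + T₂ * L₂‖ ≤ ‖T₁‖ * ‖L₁‖ + ‖T₂‖ * ‖L₂‖ := by
          rw [← norm_mul, ← norm_mul]; exact norm_add_le _ _
      _ ≤ ‖T₁‖ * M + ‖T₂‖ * M := by
          gcongr
      _ = _ := by ring
  have h5 := hdom n
  have h6 := s2_pos (I := (z n).im) (h.pos n).1 (h.pos n).2.1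
  have h7 : ‖(a n : ℂ) * (cos (z n) * sin (z n)) - I * (T₁ + T₂)‖ * M ≤
      s2 (z n).re (z n).im * ((‖T₁‖ + ‖T₂‖) * M) := by
    rw [h3]
    exact mul_le_mul_of_nonneg_left h4 h6.le
  have h8 := mul_lt_mul_of_pos_right h5 hpos
  linarith

end Zr

theorem bo_zero (z : ι → ℂ) (o : Option (ι × Bool)) :
    bo false 0 z o = if o = none then 0 else 1 := by
  rcases o with _ | ⟨j, s⟩
  · simp [bo]
  · cases s <;> simp [bo, ex]

/-- The start: the vertices are decoupled for `τ = 0`. -/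
theorem start [Finite ι] {a : ι → ℝ} {nl nr : ι → Option (ι × Bool)} {g : ι → κ → ℂ → ℝ}
    (hN : Nbr nl nr) (ha : ∀ i, a i = 2 ∨ 3 ≤ a i)
    (hgs : ∀ i (w : ℂ), 0 < w.re → w.re < Real.pi / 2 → 0 < w.im → 0 < (tan w).re →
      0 < (tan w).im → ((nl i ≠ none ∧ nr i ≠ none ∧
          (a i : ℂ) * w = (Real.pi : ℂ) + I * (ash (tan w) + ash (tan w))) ∨
        ((nl i = none ∨ nr i = none) ∧ (a i : ℂ) * w = (Real.pi : ℂ) + I * ash (tan w))) →
      ∀ k, 0 ≤ g i k w) :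
    ∃ z : ι → ℂ, ((0 : ℝ), z) ∈ KK false nl nr g ∧ GG false a nl nr 0 z = 0 := by
  classical
  have key : ∀ i, ∃ w : ℂ, (0 < w.re ∧ w.re < Real.pi / 2 ∧ 0 < w.im) ∧ 0 < (tan w).re ∧
      0 < (tan w).im ∧ (a i : ℂ) * w = (Real.pi : ℂ) +
        I * (ash ((if nl i = none then 0 else 1) * tan w) +
          ash ((if nr i = none then 0 else 1) * tan w)) ∧ ∀ k, 0 ≤ g i k w := by
    intro i
    have hi : 2 ≤ a i := by rcases ha i with h | h <;> linarith
    have hne := hN.ne i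
    by_cases hb : nl i = none
    · by_cases hc : nr i = none
      · exact absurd hne (by simp [hb, hc])
      · obtain ⟨w, h1, h2, h3, h4, h5, h6⟩ := start_vertex hi (Or.inl rfl)
        refine ⟨w, ⟨h1, h2, h3⟩, h4, h5, ?_, ?_⟩
        · simp only [hb, hc, if_true, if_false, zero_mul, one_mul, ash_zero, zero_add]
          simpa using h6
        · exact hgs i w h1 h2 h3 h4 h5 (Or.inr ⟨Or.inl hb, by simpa using h6⟩)
    · by_cases hc : nr i = none
      · obtain ⟨w, h1, h2, h3, h4, h5, h6⟩ := start_vertex hi (Or.inl rfl)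
        refine ⟨w, ⟨h1, h2, h3⟩, h4, h5, ?_, ?_⟩
        · simp only [hb, hc, if_true, if_false, zero_mul, one_mul, ash_zero, add_zero]
          simpa using h6
        · exact hgs i w h1 h2 h3 h4 h5 (Or.inr ⟨Or.inr hc, by simpa using h6⟩)
      · obtain ⟨w, h1, h2, h3, h4, h5, h6⟩ := start_vertex hi (Or.inr rfl)
        have h7 : (a i : ℂ) * w = (Real.pi : ℂ) + I * (ash (tan w) + ash (tan w)) := by
          rw [h6]
          push_cast
          ring
        refine ⟨w, ⟨h1, h2, h3⟩, h4, h5, ?_, ?_⟩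
        · simp only [hb, hc, if_false, one_mul]
          exact h7
        · exact hgs i w h1 h2 h3 h4 h5 (Or.inl ⟨hb, hc, h7⟩)
  choose z hz1 hz2 hz3 hz4 hz5 using key
  refine ⟨z, ⟨⟨⟨le_rfl, zero_le_one⟩, fun i => ?_⟩, fun i k => hz5 i k, fun i => ?_⟩, ?_⟩
  · obtain ⟨h1, h2, h3⟩ := hz1 i
    have hne : ¬ (nl i = none ∧ nr i = none) := by
      have := hN.ne i
      tauto
    obtain ⟨h4, h5, h6⟩ := start_facts (ha i) h1 h2 h3 (hz2 i) (hz3 i) _ _ hne (hz4 i)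
    have h7 := norm_cos_sq (z i)
    have h8 : 0 ≤ ‖cos (z i)‖ := norm_nonneg _
    have h9 : 0 < ph (z i).re (z i).im := ph_pos h1 h2 h3
    have h10 : (cos (z i)).re = ‖cos (z i)‖ * Real.cos (ph (z i).re (z i).im) := by
      conv_lhs => rw [cos_polar h1 h2]
      rw [← ofReal_neg, re_ofReal_mul, exp_ofReal_mul_I_re, Real.cos_neg]
    have h11 : (cos (z i)).im = -(‖cos (z i)‖ * Real.sin (ph (z i).re (z i).im)) := by
      conv_lhs => rw [cos_polar h1 h2]
      rw [← ofReal_neg, im_ofReal_mul, exp_ofReal_mul_I_im, Real.sin_neg]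
      ring
    have h12 := Pool.Agent.S3.E.Zr.sin_le_cos h9.le h6
    have h13 : 0 ≤ Real.sin (ph (z i).re (z i).im) :=
      Real.sin_nonneg_of_nonneg_of_le_pi h9.le (by linarith [Real.pi_pos])
    refine ⟨⟨h1.le, h2.le, h3.le, ?_⟩, ?_, ?_, ?_⟩
    · have h14 := neg_one_lt_gg h1 h2
      have h15 : cc (z i).im < 3 := by unfold k2 at h5; linarith
      show (z i).im ≤ 2
      by_contra hc
      push Not at hc
      have h16 : 1 + (2 * (z i).im) ^ 2 / 2 ≤ Real.cosh (2 * (z i).im) := by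
        have h17 : Real.cosh (2 * (z i).im) = 1 + 2 * Real.sinh (z i).im ^ 2 := by
          rw [Real.cosh_two_mul, Real.cosh_sq]; ring
        have h18 : (z i).im ≤ Real.sinh (z i).im := Real.self_le_sinh_iff.2 h3.le
        nlinarith
      unfold cc at h15
      nlinarith
    · show (0.49 : ℝ) ≤ ‖cos (z i)‖
      norm_num; nlinarith
    · show ‖cos (z i)‖ ≤ 1.1
      norm_num; nlinarith
    · show -(cos (z i)).im ≤ 1.04 * (cos (z i)).re
      rw [h10, h11]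
      norm_num
      nlinarith [mul_le_mul_of_nonneg_left h12 h8, mul_nonneg h8 (h13.trans h12)]
  · constructor
    · show 0 ≤ (bo false 0 z (nl i) * tan (z i)).re
      rw [bo_zero]
      split_ifs
      · simp
      · rw [one_mul]; exact (hz2 i).le
    · show 0 ≤ (bo false 0 z (nr i) * tan (z i)).re
      rw [bo_zero]
      split_ifs
      · simp
      · rw [one_mul]; exact (hz2 i).le
  · funext i
    simp only [GG, bo_zero]
    have h5 : ∀ (o : Option (ι × Bool)), as ((if o = none then 0 else 1) * tan (z i)) =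
        ash ((if o = none then 0 else 1) * tan (z i)) := by
      intro o
      apply as_eq
      split_ifs
      · simp
      · rw [one_mul]; exact (hz3 i).le
    rw [h5, h5, hz4 i]
    simp

/-- Existence of a zero at `τ = 1`, if all zeros in the region satisfy the strict inequalities. -/
theorem exists_zero [Fintype ι] [Finite κ] {a : ι → ℝ} {nl nr : ι → Option (ι × Bool)}
    {g : ι → κ → ℂ → ℝ} (hN : Nbr nl nr) (ha : ∀ i, 2 ≤ a i) (hg : ∀ i k, Continuous (g i k))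
    (hs : ∀ τ z, Zr m a nl nr g τ z → Str m a nl nr g τ z)
    (h0 : ∃ z : ι → ℂ, ((0 : ℝ), z) ∈ KK m nl nr g ∧ GG m a nl nr 0 z = 0) :
    ∃ z : ι → ℂ, Zr m a nl nr g 1 z := by
  obtain ⟨z, hz, hz'⟩ := cont_method (fun x : ℝ × (ι → ℂ) => GG m a nl nr x.1 x.2) (KK m nl nr g)
    (KK_compact m nl nr hg) (fun x hx => hx.1.1) (GG_continuousOn m a nl nr g) (by
      rintro ⟨τ, z⟩ hx h0
      have h : Zr m a nl nr g τ z := ⟨hN, ha, hx, h0⟩
      have hstr := hs τ z h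
      refine ⟨h.interior hg hstr, ?_⟩
      obtain ⟨F', hF, hF'⟩ := GG_deriv m a nl nr (τ := τ) (z := z) h.re_pos h.sin_ne
        (fun i => (hstr.w i).1) (fun i => (hstr.w i).2)
      refine ⟨F', hF, fun v hv => h.inj hstr.dom v fun i => ?_⟩
      rw [← hF' v i, hv]
      rfl) h0
  exact ⟨z, hN, ha, hz, hz'⟩

/-- The end of the first stage is the start of the second one. -/
theorem bo_switch (z : ι → ℂ) (o : Option (ι × Bool)) : bo true 0 z o = bo false 1 z o := by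
  rcases o with _ | ⟨j, s⟩
  · rfl
  · cases s <;> simp [bo, ex]

theorem switch {a : ι → ℝ} {nl nr : ι → Option (ι × Bool)} {g : ι → κ → ℂ → ℝ} {z : ι → ℂ}
    (h : Zr false a nl nr g 1 z) : ((0 : ℝ), z) ∈ KK true nl nr g ∧ GG true a nl nr 0 z = 0 := by
  refine ⟨⟨⟨⟨le_rfl, zero_le_one⟩, h.K.1.2⟩, h.K.2.1, fun i => ?_⟩, ?_⟩
  · show 0 ≤ (bo true 0 z (nl i) * tan (z i)).re ∧ 0 ≤ (bo true 0 z (nr i) * tan (z i)).re
    rw [bo_switch, bo_switch]
    exact h.K.2.2 i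
  · funext i
    have h1 := congrFun h.Z i
    unfold GG at h1 ⊢
    rw [bo_switch, bo_switch]
    exact h1

/-- Existence: two stages. -/
theorem exists_crit [Fintype ι] [Finite κ] {a : ι → ℝ} {nl nr : ι → Option (ι × Bool)}
    {g : ι → κ → ℂ → ℝ} (hN : Nbr nl nr) (ha : ∀ i, 2 ≤ a i) (hg : ∀ i k, Continuous (g i k))
    (hs : ∀ m τ z, Zr m a nl nr g τ z → Str m a nl nr g τ z)
    (h0 : ∃ z : ι → ℂ, ((0 : ℝ), z) ∈ KK false nl nr g ∧ GG false a nl nr 0 z = 0) :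
    ∃ z : ι → ℂ, Zr true a nl nr g 1 z := by
  obtain ⟨z, hz⟩ := exists_zero hN ha hg (hs false) h0
  exact exists_zero hN ha hg (hs true) ⟨z, switch hz⟩

end Pool.Agent.S5.E
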