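import Pool.Agent.S5.E.AsmC
import Pool.Agent.S5.E.Homot

/-!
# Mixed chains, block E: the start of the homotopy

For `τ = 0` an inner vertex with two twists has `cos² z = exp (- i π / 3)`.
-/

set_option autoImplicit false

namespace Pool.Agent.S5.E

open Complex
open Pool.Agent.S5.E.B2
open Pool.Agent.S3.E (al ph tt k2 s2 cc gg PP ash norm_cos_sq cos_polar ph_pos
  start_facts ash_zero sinh_ash two_quartic)

private theorem AsmS_re {w : ℂ} (h1 : 0 < w.re) (h2 : w.re < Real.pi / 2) : 0 < (cos w).re := by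
  rw [Pool.Agent.S3.E.GeoC_cos_re]
  exact mul_pos (Real.cos_pos_of_mem_Ioo ⟨by linarith [Real.pi_pos], h2⟩) (Real.cosh_pos _)

/-- An inner vertex with two twists at the start. -/
private theorem AsmS_two {w : ℂ} (h1 : 0 < w.re) (h2 : w.re < Real.pi / 2) (h3 : 0 < w.im)
    (h4 : 0 < (tan w).re) (h5 : 0 < (tan w).im)
    (he : (2 : ℂ) * w = (Real.pi : ℂ) + I * (ash (tan w) + ash (tan w))) :
    0 < (cos w).re ∧ 0 < -(cos w).im ∧ (cos w).re ^ 2 = 3 / 4 ∧ (-(cos w).im) ^ 2 = 1 / 4 := by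
  have hu : 0 < (cos w).re := AsmS_re h1 h2
  have hc : cos w ≠ 0 := by
    intro h
    rw [h] at hu
    simp at hu
  have hs : sin w ≠ 0 := by
    intro h
    rw [tan_eq_sin_div_cos, h, zero_div] at h4
    simp at h4
  have hq : sinh (ash (tan w)) * cos w = 1 * sin w := by
    rw [sinh_ash h4.le h5.le, one_mul, tan_mul_cos hc]
  have h6 := two_quartic he hq hq hc hs
  have hv : 0 < -(cos w).im := by
    rw [Pool.Agent.S3.E.GeoC_cos_im]
    have s1 := Real.sin_pos_of_pos_of_lt_pi h1 (by linarith [Real.pi_pos])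
    have s2 := Real.sinh_pos_iff.2 h3
    have := mul_pos s1 s2
    linarith
  obtain ⟨u, hu'⟩ : ∃ u, u = (cos w).re := ⟨_, rfl⟩
  obtain ⟨v, hv'⟩ : ∃ v, v = -(cos w).im := ⟨_, rfl⟩
  have hcw : cos w = ⟨u, -v⟩ := by
    apply Complex.ext
    · rw [hu']
    · rw [hv']; ring
  rw [← hu'] at hu ⊢
  rw [← hv'] at hv ⊢
  have hX : cos w ^ 2 = ⟨u ^ 2 - v ^ 2, -(2 * u * v)⟩ := by
    rw [hcw, _root_.sq]
    apply Complex.ext
    · rw [Complex.mul_re]; ring
    · rw [Complex.mul_im]; ring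
  have h7 : (cos w ^ 2) ^ 2 - cos w ^ 2 + 1 = 0 := by linear_combination h6 / 4
  rw [hX] at h7
  have e1 := congrArg Complex.re h7
  have e2 := congrArg Complex.im h7
  simp only [_root_.sq, Complex.add_re, Complex.sub_re, Complex.mul_re, Complex.one_re,
    Complex.zero_re, Complex.add_im, Complex.sub_im, Complex.mul_im, Complex.one_im,
    Complex.zero_im] at e1 e2
  have huv : 0 < u * v := mul_pos hu hv
  have e3 : u ^ 2 - v ^ 2 = 1 / 2 := by
    have h8 : (u * v) * (2 * (u ^ 2 - v ^ 2) - 1) = 0 := by nlinarith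
    rcases mul_eq_zero.1 h8 with h9 | h9
    · linarith
    · linarith
  have e4 : (2 * u * v) ^ 2 = 3 / 4 := by nlinarith
  have e5 : u ^ 2 + v ^ 2 = 1 := by
    have h8 : (u ^ 2 + v ^ 2) ^ 2 = 1 := by nlinarith
    have h9 : 0 ≤ u ^ 2 + v ^ 2 := by positivity
    nlinarith
  exact ⟨hu, hv, by linarith, by linarith⟩

/-- The value `exp (- i π / 6)` satisfies the constraints. -/
private theorem AsmS_g {r : Rg} {w : ℂ} (k0 : r.k0 ≤ 1000) (k1 : 1000 ≤ r.k1) (t0 : r.t0 ≤ 500)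
    (t1 : 600 ≤ r.t1) (m : r.m ≤ 400) (hu : 0 < (cos w).re) (hv : 0 < -(cos w).im)
    (hu2 : (cos w).re ^ 2 = 3 / 4) (hv2 : (-(cos w).im) ^ 2 = 1 / 4) (k : Fin 5) : 0 ≤ gR r k w := by
  have k0' : (r.k0 : ℝ) ≤ 1000 := by exact_mod_cast k0
  have k1' : (1000 : ℝ) ≤ r.k1 := by exact_mod_cast k1
  have t0' : (r.t0 : ℝ) ≤ 500 := by exact_mod_cast t0
  have t1' : (600 : ℝ) ≤ r.t1 := by exact_mod_cast t1
  have m' : (r.m : ℝ) ≤ 400 := by exact_mod_cast m
  have n0 : (0 : ℝ) ≤ r.k0 := r.k0.cast_nonneg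
  have n1 : (0 : ℝ) ≤ r.t0 := r.t0.cast_nonneg
  have hv3 : -(cos w).im = 1 / 2 := by
    nlinarith
  have hu3 : (0.866 : ℝ) ≤ (cos w).re := by
    by_contra h
    push Not at h
    nlinarith
  have hu4 : (cos w).re ≤ 0.8661 := by
    by_contra h
    push Not at h
    nlinarith
  fin_cases k
  · show 0 ≤ (cos w).re ^ 2 + (-(cos w).im) ^ 2 - ((r.k0 : ℝ) / 1000) ^ 2
    have : ((r.k0 : ℝ) / 1000) ^ 2 ≤ 1 ^ 2 := pow_le_pow_left₀ (by positivity) (by linarith) 2
    linarith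
  · show 0 ≤ ((r.k1 : ℝ) / 1000) ^ 2 - ((cos w).re ^ 2 + (-(cos w).im) ^ 2)
    have : (1 : ℝ) ^ 2 ≤ ((r.k1 : ℝ) / 1000) ^ 2 := pow_le_pow_left₀ (by norm_num) (by linarith) 2
    linarith
  · show 0 ≤ -(cos w).im - (r.t0 : ℝ) / 1000 * (cos w).re
    have : (r.t0 : ℝ) / 1000 * (cos w).re ≤ 0.5 * 0.8661 :=
      mul_le_mul (by linarith) hu4 hu.le (by norm_num)
    rw [hv3]
    norm_num at this ⊢
    linarith
  · show 0 ≤ (r.t1 : ℝ) / 1000 * (cos w).re - (-(cos w).im)
    have : 0.6 * 0.866 ≤ (r.t1 : ℝ) / 1000 * (cos w).re :=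
      mul_le_mul (by linarith) hu3 (by norm_num) (by linarith)
    rw [hv3]
    norm_num at this ⊢
    linarith
  · show 0 ≤ (cos w).re * (-(cos w).im) - (r.m : ℝ) / 1000
    rw [hv3]
    norm_num at hu3 ⊢
    linarith

/-- The constraints of `rFree`. -/
private theorem AsmS_free {w : ℂ} (h1 : 0 < w.re) (h2 : w.re < Real.pi / 2) (h3 : 0 < w.im)
    (hk : k2 w.re w.im ≤ 1) (hp : ph w.re w.im ≤ Real.pi / 4) (k : Fin 5) : 0 ≤ gR rFree k w := by
  have hu : 0 < (cos w).re := AsmS_re h1 h2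
  have h9 : 0 < ph w.re w.im := ph_pos h1 h2 h3
  have h10 : (cos w).re = ‖cos w‖ * Real.cos (ph w.re w.im) := by
    conv_lhs => rw [cos_polar h1 h2]
    rw [← ofReal_neg, re_ofReal_mul, exp_ofReal_mul_I_re, Real.cos_neg]
  have h11 : -(cos w).im = ‖cos w‖ * Real.sin (ph w.re w.im) := by
    conv_lhs => rw [cos_polar h1 h2]
    rw [← ofReal_neg, im_ofReal_mul, exp_ofReal_mul_I_im, Real.sin_neg]
    ring
  have h12 := Pool.Agent.S3.E.Zr.sin_le_cos h9.le hp
  have h13 : 0 ≤ Real.sin (ph w.re w.im) :=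
    Real.sin_nonneg_of_nonneg_of_le_pi h9.le (by linarith [Real.pi_pos])
  have h8 : 0 ≤ ‖cos w‖ := norm_nonneg _
  have hv : 0 ≤ -(cos w).im := by rw [h11]; exact mul_nonneg h8 h13
  have hvu : -(cos w).im ≤ (cos w).re := by
    rw [h10, h11]
    exact mul_le_mul_of_nonneg_left h12 h8
  have hn : (cos w).re ^ 2 + (-(cos w).im) ^ 2 = k2 w.re w.im := by
    rw [← norm_cos_sq, Complex.sq_norm, Complex.normSq_apply]
    ring
  fin_cases k
  · show 0 ≤ (cos w).re ^ 2 + (-(cos w).im) ^ 2 - (((0 : ℕ) : ℝ) / 1000) ^ 2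
    have e1 := sq_nonneg (cos w).re
    have e2 := sq_nonneg (-(cos w).im)
    rw [Nat.cast_zero, zero_div]
    linarith
  · show 0 ≤ (((1200 : ℕ) : ℝ) / 1000) ^ 2 - ((cos w).re ^ 2 + (-(cos w).im) ^ 2)
    rw [hn]
    norm_num
    linarith
  · show 0 ≤ -(cos w).im - ((0 : ℕ) : ℝ) / 1000 * (cos w).re
    rw [Nat.cast_zero, zero_div, zero_mul]
    linarith
  · show 0 ≤ ((1100 : ℕ) : ℝ) / 1000 * (cos w).re - (-(cos w).im)
    norm_num
    linarith
  · show 0 ≤ (cos w).re * (-(cos w).im) - ((0 : ℕ) : ℝ) / 1000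
    rw [Nat.cast_zero, zero_div, sub_zero]
    exact mul_nonneg hu.le hv

section

variable {ι : Type*}

/-- The cases of the region. -/
theorem cls_cases (a : ι → ℝ) (nl nr : ι → Option (ι × Bool)) (i : ι) :
    cls a nl nr i = rFree ∨ (a i = 2 ∧ nl i ≠ none ∧ nr i ≠ none ∧
      (cls a nl nr i).k0 ≤ 1000 ∧ 1000 ≤ (cls a nl nr i).k1 ∧ (cls a nl nr i).t0 ≤ 500 ∧
      600 ≤ (cls a nl nr i).t1 ∧ (cls a nl nr i).m ≤ 400) := by
  classical
  have hSp : ∀ j l, Sp nl nr i j l → nl i ≠ none ∧ nr i ≠ none := by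
    rintro j l (⟨h1, h2⟩ | ⟨h1, h2⟩) <;> rw [h1, h2] <;> simp
  by_cases h2 : a i = 2
  · by_cases hT : ∃ j k, IsT nl nr i j k
    · right
      obtain ⟨j, k, h⟩ := hT
      have e : cls a nl nr i = rT := cls_T h2 h
      rw [e]
      refine ⟨h2, by rw [h.1]; simp, by rw [h.2]; simp, by decide, by decide, by decide, by decide, by decide⟩
    · by_cases h33 : ∃ j l, Sp nl nr i j l ∧ 3 ≤ a j
      · right
        obtain ⟨j, l, h, hj⟩ := h33
        rw [cls_S33 h2 h hj]
        exact ⟨h2, (hSp _ _ h).1, (hSp _ _ h).2, by decide, by decide, by decide, by decide, by decide⟩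
      · by_cases h3E : ∃ j l, Sp nl nr i j l ∧ IsE nl nr j i
        · right
          have e : cls a nl nr i = rS3E := by
            unfold cls
            rw [if_pos h2, if_neg hT, if_neg h33, if_pos h3E]
          obtain ⟨j, l, h, hj⟩ := h3E
          rw [e]
          exact ⟨h2, (hSp _ _ h).1, (hSp _ _ h).2, by decide, by decide, by decide, by decide, by decide⟩
        · by_cases hP : ∃ j l, Sp nl nr i j l ∧ ∃ k, Sp nl nr j i k
          · right
            have e : cls a nl nr i = rP := by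
              unfold cls
              rw [if_pos h2, if_neg hT, if_neg h33, if_neg h3E, if_pos hP]
            obtain ⟨j, l, h, hj⟩ := hP
            rw [e]
            exact ⟨h2, (hSp _ _ h).1, (hSp _ _ h).2, by decide, by decide, by decide, by decide, by decide⟩
          · by_cases hS : ∃ j l, Sp nl nr i j l
            · right
              have e : cls a nl nr i = rS3T := by
                unfold cls
                rw [if_pos h2, if_neg hT, if_neg h33, if_neg h3E, if_neg hP, if_pos hS]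
              obtain ⟨j, l, h⟩ := hS
              rw [e]
              exact ⟨h2, (hSp _ _ h).1, (hSp _ _ h).2, by decide, by decide, by decide, by decide, by decide⟩
            · left
              unfold cls
              rw [if_pos h2, if_neg hT, if_neg h33, if_neg h3E, if_neg hP, if_neg hS]
  · left
    unfold cls
    rw [if_neg h2]

/-- The start of the homotopy. -/
theorem start_cls [Finite ι] {a : ι → ℝ} {nl nr : ι → Option (ι × Bool)}
    (hN : Nbr nl nr) (ha : ∀ i, a i = 2 ∨ 3 ≤ a i) :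
    ∃ z : ι → ℂ, ((0 : ℝ), z) ∈ KK false nl nr (fun i k w => gR (cls a nl nr i) k w) ∧
      GG false a nl nr 0 z = 0 := by
  refine start hN ha ?_
  intro i w h1 h2 h3 h4 h5 he k
  show 0 ≤ gR (cls a nl nr i) k w
  rcases cls_cases a nl nr i with h | ⟨hi, hl, hr, c1, c2, c3, c4, c5⟩
  · rw [h]
    have hf : 1 / 4 ≤ k2 w.re w.im ∧ k2 w.re w.im ≤ 1 ∧ ph w.re w.im ≤ Real.pi / 4 := by
      rcases he with ⟨-, -, he⟩ | ⟨-, he⟩
      · exact start_facts (ha i) h1 h2 h3 h4 h5 False False (by simp) (by simpa using he)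
      · exact start_facts (ha i) h1 h2 h3 h4 h5 True False (by simp) (by simpa [ash_zero] using he)
    exact AsmS_free h1 h2 h3 hf.2.1 hf.2.2 k
  · rcases he with ⟨-, -, he⟩ | ⟨he, -⟩
    · rw [hi] at he
      push_cast at he
      obtain ⟨d1, d2, d3, d4⟩ := AsmS_two h1 h2 h3 h4 h5 he
      exact AsmS_g c1 c2 c3 c4 c5 d1 d2 d3 d4 k
    · rcases he with he | he
      · exact absurd he hl
      · exact absurd he hr

end

end Pool.Agent.S5.E
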