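import Mathlib

/-!
# Mixed chains, block E: numerical helpers
-/

set_option autoImplicit false

namespace Pool.Agent.S5.E

open Real

theorem exp_lo' (x y : ℝ) (hx : 0 ≤ x)
    (h : y ≤ ∑ i ∈ Finset.range 7, x ^ i / i.factorial) : y ≤ exp x :=
  h.trans (Real.sum_le_exp_of_nonneg hx 7)

theorem exp_hi' (x y : ℝ) (hx : 0 ≤ x) (hx1 : x ≤ 1)
    (h : (∑ m ∈ Finset.range 7, x ^ m / m.factorial) + x ^ 7 * (7 + 1) / ((Nat.factorial 7 : ℕ) * 7) ≤ y) :
    exp x ≤ y := by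
  refine (Real.exp_bound' hx hx1 (n := 7) (by norm_num)).trans ?_
  simpa using h

theorem sinh_lo' {x E : ℝ} (hE : 0 < E) (h : E ≤ exp x) : (E - E⁻¹) / 2 ≤ sinh x := by
  rw [sinh_eq, exp_neg]
  have : (exp x)⁻¹ ≤ E⁻¹ := inv_anti₀ hE h
  linarith

theorem sinh_hi' {x E : ℝ} (h : exp x ≤ E) : sinh x ≤ (E - E⁻¹) / 2 := by
  rw [sinh_eq, exp_neg]
  have : E⁻¹ ≤ (exp x)⁻¹ := inv_anti₀ (exp_pos x) h
  linarith

theorem cosh_lo' {x E : ℝ} (hE : 1 ≤ E) (h : E ≤ exp x) : (E + E⁻¹) / 2 ≤ cosh x := by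
  rw [cosh_eq, exp_neg]
  have h0 : 0 < exp x := exp_pos x
  have hE0 : 0 < E := by linarith
  have h2 : E + E⁻¹ ≤ exp x + (exp x)⁻¹ := by
    have e : exp x + (exp x)⁻¹ - (E + E⁻¹) = (exp x - E) * (E * exp x - 1) / (E * exp x) := by
      field_simp
      ring
    have h3 : 0 ≤ (exp x - E) * (E * exp x - 1) / (E * exp x) := by
      apply div_nonneg
      · apply mul_nonneg (by linarith)
        nlinarith
      · positivity
    linarith
  linarith

theorem cosh_hi' {x E : ℝ} (hx : 0 ≤ x) (h : exp x ≤ E) : cosh x ≤ (E + E⁻¹) / 2 := by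
  rw [cosh_eq, exp_neg]
  have h1 : 1 ≤ exp x := one_le_exp hx
  have h0 : 0 < exp x := exp_pos x
  have hE : 0 < E := h0.trans_le h
  have h2 : exp x + (exp x)⁻¹ ≤ E + E⁻¹ := by
    have e : E + E⁻¹ - (exp x + (exp x)⁻¹) = (E - exp x) * (E * exp x - 1) / (E * exp x) := by
      field_simp
      ring
    have h3 : 0 ≤ (E - exp x) * (E * exp x - 1) / (E * exp x) := by
      apply div_nonneg
      · apply mul_nonneg (by linarith)
        nlinarith
      · positivity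
    linarith
  linarith

/-- Taylor bounds of `cos` on `[0, ∞)`. -/
theorem cos_ge (x : ℝ) : 1 - x ^ 2 / 2 ≤ cos x := by
  have := one_sub_sq_div_two_le_cos (x := x)
  linarith

theorem cos_le' {x : ℝ} (hx : 0 ≤ x) (h1 : x ≤ 1) : cos x ≤ 1 - x ^ 2 / 2 + x ^ 4 * (5 / 96) := by
  have h := abs_le.1 (cos_bound (x := x) (by rw [abs_of_nonneg hx]; exact h1))
  rw [abs_of_nonneg hx] at h
  linarith [h.2]

theorem cos_ge' {x : ℝ} (hx : 0 ≤ x) (h1 : x ≤ 1) : 1 - x ^ 2 / 2 - x ^ 4 * (5 / 96) ≤ cos x := by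
  have h := abs_le.1 (cos_bound (x := x) (by rw [abs_of_nonneg hx]; exact h1))
  rw [abs_of_nonneg hx] at h
  linarith [h.1]

theorem sin_le' {x : ℝ} (hx : 0 ≤ x) (h1 : x ≤ 1) : sin x ≤ x - x ^ 3 / 6 + x ^ 5 / 100 := by
  have h := abs_le.1 (sin_bound (x := x) (by rw [abs_of_nonneg hx]; exact h1))
  rw [abs_of_nonneg hx] at h
  linarith [h.2]

theorem sin_ge' {x : ℝ} (hx : 0 ≤ x) (h1 : x ≤ 1) : x - x ^ 3 / 6 - x ^ 5 / 100 ≤ sin x := by
  have h := abs_le.1 (sin_bound (x := x) (by rw [abs_of_nonneg hx]; exact h1))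
  rw [abs_of_nonneg hx] at h
  linarith [h.1]

/-- `sinh 0.57 ≤ 0.6025`. -/
theorem sinh_57 : sinh 0.57 ≤ 0.6025 := by
  have h : exp 0.57 ≤ 1.7683 := by
    apply exp_hi' _ _ (by norm_num) (by norm_num)
    norm_num [Finset.sum_range_succ, Nat.factorial]
  have := sinh_hi' h
  norm_num at this ⊢
  linarith

/-- `sinh 0.756 ≤ 0.8306`. -/
theorem sinh_756 : sinh 0.756 ≤ 0.8306 := by
  have h : exp 0.756 ≤ 2.1299 := by
    apply exp_hi' _ _ (by norm_num) (by norm_num)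
    norm_num [Finset.sum_range_succ, Nat.factorial]
  have := sinh_hi' h
  norm_num at this ⊢
  linarith

end Pool.Agent.S5.E
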