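import Pool.Agent.S5.E.V3A
import Pool.Agent.S5.E.Num

/-!
# Mixed chains, block E: the inequality of the variable of the edge at an open node
-/

set_option autoImplicit false

namespace Pool.Agent.S5.E

open Real
open Pool.Agent.S3.E (al ph tt k2 s2 cc gg tt_pos tt_sq k2_pos s2_pos al_pos al_lt tan_al one_le_cc
  one_lt_cc gg_lt_one neg_one_lt_gg sinh_two_pos sin_two_pos sinh_two_sq sin_two_sq)

variable {R I ρ β p r : ℝ}

/-- The upper relation of a slot. -/
theorem Slot.up_rel (hs : Slot R I ρ β p r) (h : 0 < R) (h' : R < π / 2) (hI : 0 < I)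
    (hi : In ρ β) : cosh p * sin r * (1 - 1.04 * TT R I) ≤ (TT R I + 1.04) * (sinh p * cos r) := by
  have hal := al_pos h h' hI
  have hc : 0 < cos (al R I) := cos_pos_of_mem_Ioo ⟨by linarith [pi_pos], al_lt R I⟩
  have hT : TT R I * cos (al R I) = sin (al R I) := tan_mul_cos hc.ne'
  rw [hs.e1, hs.e2]
  have h1 : sin (al R I + β) * (1 - 1.04 * TT R I) ≤ (TT R I + 1.04) * cos (al R I + β) := by
    have h2 : 0 ≤ ((TT R I + 1.04) * cos (al R I + β) -
        sin (al R I + β) * (1 - 1.04 * TT R I)) * cos (al R I) := by
      have h3 : ((TT R I + 1.04) * cos (al R I + β) -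
          sin (al R I + β) * (1 - 1.04 * TT R I)) * cos (al R I) =
          (1.04 * cos β - sin β) * (sin (al R I) ^ 2 + cos (al R I) ^ 2) := by
        rw [sin_add, cos_add]
        linear_combination ((cos (al R I) * cos β - sin (al R I) * sin β) +
          1.04 * (sin (al R I) * cos β + cos (al R I) * sin β)) * hT
      rw [h3, sin_sq_add_cos_sq, mul_one]
      linarith [hi.up]
    have h4 := nonneg_of_mul_nonneg_left h2 hc
    linarith
  have h2 := mul_le_mul_of_nonneg_left h1 hs.m0
  linarith

/-- The lower relation of a slot. -/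
theorem Slot.lo_rel (hs : Slot R I ρ β p r) (h : 0 < R) (h' : R < π / 2) (hI : 0 < I)
    (hi : In ρ β) : -(GA (TT R I) * (sinh p * cos r)) ≤ cosh p * sin r := by
  have h1 := gam_lo h h' hI (B := 1.04) (by norm_num) hi.lo
  have h3 : (tan (al R I) - 1.04) / (1 + tan (al R I) * 1.04) = -(GA (TT R I)) := by
    unfold GA TT
    rw [← neg_div]
    congr 1 <;> ring
  rw [h3] at h1
  rw [hs.e1, hs.e2]
  have h2 := mul_le_mul_of_nonneg_left h1 hs.m0
  linarith

/-- The inequality of `ymv_pos`. -/
theorem Slot.star (hs : Slot R I ρ β p r) (h : 0 < R) (h' : R < π / 2) (hI : 0 < I)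
    (hi : In ρ β) (hp : 0 < p) (hr : 1.04 * sin r < cos r) (hr' : -(1.04 * sin r) < cos r)
    (hC : R < π / 4 ∨ r ≤ 0) :
    exp (-(2 * p)) * (sin (2 * R) * cos (2 * R)) <
      cosh (2 * I) * (sin (2 * R) * cos (2 * r)) + sinh (2 * I) * (cos (2 * R) * sin (2 * r)) := by
  have hS := sin_two_pos h h'
  have hT := TT_mul (I := I) h h'
  have hT0 := TT_pos h h' hI
  have hup := hs.up_rel h h' hI hi
  have hlo := hs.lo_rel h h' hI hi
  have hsh : 0 < sinh p := sinh_pos_iff.2 hp
  have hch := cosh_pos p
  have hlt : sinh p < cosh p := sinh_lt_cosh p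
  have hcr : 0 < cos r := by
    rcases le_total 0 (sin r) with h1 | h1
    · linarith
    · linarith
  have h2I : 1 ≤ cosh (2 * I) := one_le_cosh _
  have hcc : 0 < cos r ^ 2 - sin r ^ 2 := by
    have h1 : 0 < (cos r - sin r) * (cos r + sin r) := by
      apply mul_pos
      · rcases le_total 0 (sin r) with h1 | h1
        · linarith
        · linarith
      · rcases le_total 0 (sin r) with h1 | h1
        · linarith
        · linarith
    linarith
  -- the key inequality
  have key : cos (2 * R) * (cosh p - sinh p) <
      (cosh p + sinh p) * (cos r ^ 2 - sin r ^ 2 + 2 * TT R I * cos (2 * R) * (sin r * cos r)) := by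
    rcases le_or_gt 0 (cos (2 * R)) with hc | hc
    · -- linear in `cos 2R`
      have hc1 : cos (2 * R) < 1 := gg_lt_one h h'
      have hE : 0 ≤ sinh p * cos r * (cos r + TT R I * sin r) +
          cosh p * sin r * (TT R I * cos r - sin r) := by
        rcases le_or_gt 0 (sin r) with hs0 | hs0
        · have h1 : 0 ≤ (TT R I + 1.04) * (sinh p * cos r * (cos r + TT R I * sin r) +
              cosh p * sin r * (TT R I * cos r - sin r)) := by
            have h2 : 0 ≤ cos r + TT R I * sin r := by positivity
            have h3 := mul_le_mul_of_nonneg_right hup h2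
            have h4 : 0 ≤ cosh p * sin r * ((1 + TT R I ^ 2) * (cos r - 1.04 * sin r)) := by
              apply mul_nonneg (by positivity)
              exact mul_nonneg (by positivity) (by linarith)
            linarith
          exact nonneg_of_mul_nonneg_right h1 (by linarith)
        · have hG := GA (TT R I)
          -- `T ≤ 1.04` or the slot has a nonnegative sine
          have h0 : TT R I ≤ 1.04 := by
            by_contra hcon
            push Not at hcon
            have h1 : GA (TT R I) ≤ 0 := by
              unfold GA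
              exact div_nonpos_of_nonpos_of_nonneg (by linarith) (by linarith)
            have h2 : 0 ≤ -(GA (TT R I) * (sinh p * cos r)) := by
              have := mul_nonneg (neg_nonneg.2 h1) (mul_pos hsh hcr).le
              linarith
            have h3 : cosh p * sin r < 0 := mul_neg_of_pos_of_neg hch hs0
            linarith
          have hGe : (1 + 1.04 * TT R I) * GA (TT R I) = 1.04 - TT R I := by
            unfold GA
            have : 0 < 1 + 1.04 * TT R I := by positivity
            field_simp
          have hk : 0 < 1 + 1.04 * TT R I := by positivity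
          -- `B (T cos r - sin r) ≥ - G A (T cos r - sin r)`
          have h2 : 0 ≤ TT R I * cos r - sin r := by
            have := mul_pos hT0 hcr
            linarith
          have h3 := mul_le_mul_of_nonneg_right hlo h2
          have h4 : 0 ≤ (1 + 1.04 * TT R I) * (sinh p * cos r * (cos r + TT R I * sin r) -
              GA (TT R I) * (sinh p * cos r) * (TT R I * cos r - sin r)) := by
            have e : (1 + 1.04 * TT R I) * (sinh p * cos r * (cos r + TT R I * sin r) -
                GA (TT R I) * (sinh p * cos r) * (TT R I * cos r - sin r)) =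
                sinh p * cos r * ((1 + TT R I ^ 2) * (cos r + 1.04 * sin r)) := by
              linear_combination (-(sinh p * cos r) * (TT R I * cos r - sin r)) * hGe
            rw [e]
            exact mul_nonneg (mul_pos hsh hcr).le (mul_nonneg (by positivity) (by linarith))
          have h5 := nonneg_of_mul_nonneg_right h4 hk
          linarith
      have h0 : 0 < (1 - cos (2 * R)) * ((cosh p + sinh p) * (cos r ^ 2 - sin r ^ 2)) :=
        mul_pos (by linarith) (mul_pos (by linarith) hcc)
      have h1 := mul_nonneg hc hE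
      have h2 := sin_sq_add_cos_sq r
      have e : (cosh p + sinh p) * (cos r ^ 2 - sin r ^ 2 +
          2 * TT R I * cos (2 * R) * (sin r * cos r)) - cos (2 * R) * (cosh p - sinh p) =
          (1 - cos (2 * R)) * ((cosh p + sinh p) * (cos r ^ 2 - sin r ^ 2)) +
          2 * (cos (2 * R) * (sinh p * cos r * (cos r + TT R I * sin r) +
          cosh p * sin r * (TT R I * cos r - sin r))) := by
        linear_combination (cos (2 * R) * (cosh p - sinh p)) * h2
      linarith
    · rcases hC with hC | hC
      · exfalso
        have := cos_pos_of_mem_Ioo (x := 2 * R) ⟨by linarith, by linarith⟩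
        linarith
      · have hs0 : sin r ≤ 0 := sin_nonpos_of_nonpos_of_neg_pi_le hC (by linarith [hs.r0, pi_pos])
        have h1 : cos (2 * R) * (cosh p - sinh p) < 0 := mul_neg_of_neg_of_pos hc (by linarith)
        have h2 : 0 ≤ cos (2 * R) * (sin r * cos r) :=
          mul_nonneg_of_nonpos_of_nonpos hc.le (mul_nonpos_of_nonpos_of_nonneg hs0 hcr.le)
        have h3 : 0 ≤ 2 * TT R I * (cos (2 * R) * (sin r * cos r)) := by positivity
        have h4 : 0 ≤ (cosh p + sinh p) * (cos r ^ 2 - sin r ^ 2 +
            2 * TT R I * cos (2 * R) * (sin r * cos r)) :=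
          mul_nonneg (by linarith) (by linarith)
        linarith
  -- back to the exponential
  have he : exp (-(2 * p)) = (cosh p - sinh p) * (cosh p - sinh p) := by
    rw [cosh_sub_sinh, ← exp_add]
    congr 1
    ring
  have he2 : (cosh p - sinh p) * (cosh p + sinh p) = 1 := by
    rw [cosh_sub_sinh, cosh_add_sinh, ← exp_add]
    simp
  have hd : 0 < cosh p - sinh p := by linarith
  have k1 := mul_lt_mul_of_pos_left key hd
  have k2 : exp (-(2 * p)) * cos (2 * R) < cos r ^ 2 - sin r ^ 2 +
      2 * TT R I * cos (2 * R) * (sin r * cos r) := by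
    rw [he]
    calc (cosh p - sinh p) * (cosh p - sinh p) * cos (2 * R) =
        (cosh p - sinh p) * (cos (2 * R) * (cosh p - sinh p)) := by ring
      _ < _ := k1
      _ = (cosh p - sinh p) * (cosh p + sinh p) * (cos r ^ 2 - sin r ^ 2 +
          2 * TT R I * cos (2 * R) * (sin r * cos r)) := by ring
      _ = _ := by rw [he2, one_mul]
  have e1 : cos (2 * r) = cos r ^ 2 - sin r ^ 2 := by
    rw [cos_two_mul']
  have e2 : sin (2 * r) = 2 * (sin r * cos r) := by
    rw [sin_two_mul]
    ring
  have k3 : cos r ^ 2 - sin r ^ 2 ≤ cosh (2 * I) * (cos r ^ 2 - sin r ^ 2) :=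
    le_mul_of_one_le_left hcc.le h2I
  have k4 : exp (-(2 * p)) * cos (2 * R) < cosh (2 * I) * (cos r ^ 2 - sin r ^ 2) +
      2 * TT R I * cos (2 * R) * (sin r * cos r) := by linarith
  have k5 := mul_lt_mul_of_pos_left k4 hS
  rw [e1, e2, ← hT]
  linarith

end Pool.Agent.S5.E
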