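import Pool.Agent.S5.E.V3A
import Pool.Agent.S5.E.Num

/-!
# Mixed chains, block E: upper bound of `φ`, the step lemma

With `x = tan R`, `m = tanh I`, `F = x m = tan φ`, `T = tan α`, `u_j = tanh p_j`: if `F ≥ f₀` and
`x² ≤ X` then `T ≥ T₀`, `|t|² ≤ q`, `u_j ≤ t_P`, `tan r_j ≥ G u_j` and
`u₁ + u₂ = τ (1 + u₁ u₂)`, `τ = tanh (a I)`, which gives a lower bound of `r₁ + r₂ = π - a R`.
-/

set_option autoImplicit false

namespace Pool.Agent.S5.E

open Real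
open Pool.Agent.S3.E (al ph tt k2 s2 cc gg tt_pos tt_sq k2_pos s2_pos al_pos al_lt tan_al one_le_cc
  one_lt_cc gg_lt_one neg_one_lt_gg sinh_two_pos sin_two_pos sinh_two_sq sin_two_sq GeoX_k2 GeoX_s2
  GeoX_sin_pos GeoX_cos_pos)

theorem tan_pos' {R : ℝ} (h : 0 < R) (h' : R < π / 2) : 0 < tan R :=
  tan_pos_of_pos_of_lt_pi_div_two h h'

/-- `T (x² - F²) = F (1 + x²)`. -/
theorem T_xm {R I : ℝ} (h : 0 < R) (h' : R < π / 2) :
    TT R I * (tan R ^ 2 - (tan R * tanh I) ^ 2) = (tan R * tanh I) * (1 + tan R ^ 2) := by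
  have hs := GeoX_sin_pos h h'
  have hc := GeoX_cos_pos h h'
  have hch := cosh_pos I
  have e1 : TT R I = sinh (2 * I) / sin (2 * R) := tan_al R I
  rw [e1, sinh_two_mul, sin_two_mul, tan_eq_sin_div_cos, tanh_eq_sinh_div_cosh]
  have h1 := cosh_sq I
  have h2 := sin_sq_add_cos_sq R
  field_simp
  rw [h1]
  have h3 : cos R ^ 2 = 1 - sin R ^ 2 := by linarith only [h2]
  rw [h3]
  ring

/-- `|t|² (1 + F²) = x² + m²`. -/
theorem t_xm {R I : ℝ} (h : 0 < R) (h' : R < π / 2) :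
    tt R I ^ 2 * (1 + (tan R * tanh I) ^ 2) = tan R ^ 2 + tanh I ^ 2 := by
  have hc := GeoX_cos_pos h h'
  have hch := cosh_pos I
  rw [tt_sq h h']
  have h1 := cosh_sq I
  have h2 := sin_sq_add_cos_sq R
  have hk : k2 R I = cos R ^ 2 * cosh I ^ 2 * (1 + (tan R * tanh I) ^ 2) := by
    rw [GeoX_k2, tan_eq_sin_div_cos, tanh_eq_sinh_div_cosh]
    field_simp
    rw [h1]
    have h3 : cos R ^ 2 = 1 - sin R ^ 2 := by linarith only [h2]
    rw [h3]
    ring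
  have hs : s2 R I = cos R ^ 2 * cosh I ^ 2 * (tan R ^ 2 + tanh I ^ 2) := by
    rw [GeoX_s2, tan_eq_sin_div_cos, tanh_eq_sinh_div_cosh]
    field_simp
    rw [h1]
    have h3 : cos R ^ 2 = 1 - sin R ^ 2 := by linarith only [h2]
    rw [h3]
    ring
  rw [hk, hs]
  have : 0 < 1 + (tan R * tanh I) ^ 2 := by positivity
  field_simp

theorem tanh_three (I : ℝ) : tanh (3 * I) * (1 + 3 * tanh I ^ 2) = 3 * tanh I + tanh I ^ 3 := by
  have hch := cosh_pos I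
  have h1 := cosh_sq I
  have hc3 : cosh (3 * I) = cosh I * (1 + 4 * sinh I ^ 2) := by
    rw [cosh_three_mul]
    linear_combination (4 * cosh I) * h1
  have hs3 : sinh (3 * I) = sinh I * (3 + 4 * sinh I ^ 2) := by
    rw [sinh_three_mul]
    ring
  have h5 : 0 < 1 + 4 * sinh I ^ 2 := by positivity
  have h6 : (1 + 3 * (sinh I / cosh I) ^ 2) * cosh I ^ 2 = 1 + 4 * sinh I ^ 2 := by
    field_simp
    linear_combination h1
  have h7 : (3 * (sinh I / cosh I) + (sinh I / cosh I) ^ 3) * cosh I ^ 3 =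
      sinh I * (3 + 4 * sinh I ^ 2) := by
    field_simp
    linear_combination 3 * sinh I * h1
  rw [tanh_eq_sinh_div_cosh, tanh_eq_sinh_div_cosh, hc3, hs3]
  have h8 : sinh I * (3 + 4 * sinh I ^ 2) / (cosh I * (1 + 4 * sinh I ^ 2)) *
      (1 + 3 * (sinh I / cosh I) ^ 2) * cosh I ^ 3 =
      (3 * (sinh I / cosh I) + (sinh I / cosh I) ^ 3) * cosh I ^ 3 := by
    rw [h7]
    calc sinh I * (3 + 4 * sinh I ^ 2) / (cosh I * (1 + 4 * sinh I ^ 2)) *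
        (1 + 3 * (sinh I / cosh I) ^ 2) * cosh I ^ 3 =
        sinh I * (3 + 4 * sinh I ^ 2) / (cosh I * (1 + 4 * sinh I ^ 2)) *
        ((1 + 3 * (sinh I / cosh I) ^ 2) * cosh I ^ 2) * cosh I := by ring
      _ = sinh I * (3 + 4 * sinh I ^ 2) := by
        rw [h6]
        field_simp
  exact mul_right_cancel₀ (pow_ne_zero 3 hch.ne') h8

theorem tanh_three_ge {I m τ : ℝ} (hmI : m ≤ tanh I)
    (hτ : τ * (1 + 3 * m ^ 2) ≤ 3 * m + m ^ 3) : τ ≤ tanh (3 * I) := by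
  have h1 := tanh_three I
  set n := tanh I with hn
  have h2 : (3 * m + m ^ 3) * (1 + 3 * n ^ 2) ≤ (3 * n + n ^ 3) * (1 + 3 * m ^ 2) := by
    have h3 : (3 * n + n ^ 3) * (1 + 3 * m ^ 2) - (3 * m + m ^ 3) * (1 + 3 * n ^ 2) =
        (n - m) * ((n - m) ^ 2 + 3 * (1 - m * n) ^ 2) := by ring
    have h4 : 0 ≤ (n - m) * ((n - m) ^ 2 + 3 * (1 - m * n) ^ 2) :=
      mul_nonneg (by linarith only [hmI]) (by positivity)
    linarith only [h4]
  have h5 : τ * ((1 + 3 * m ^ 2) * (1 + 3 * n ^ 2)) ≤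
      tanh (3 * I) * ((1 + 3 * m ^ 2) * (1 + 3 * n ^ 2)) := by
    calc τ * ((1 + 3 * m ^ 2) * (1 + 3 * n ^ 2)) = τ * (1 + 3 * m ^ 2) * (1 + 3 * n ^ 2) := by ring
      _ ≤ (3 * m + m ^ 3) * (1 + 3 * n ^ 2) := mul_le_mul_of_nonneg_right hτ (by positivity)
      _ ≤ (3 * n + n ^ 3) * (1 + 3 * m ^ 2) := h2
      _ = tanh (3 * I) * ((1 + 3 * m ^ 2) * (1 + 3 * n ^ 2)) := by rw [← h1]; ring
  exact le_of_mul_le_mul_right h5 (by positivity)

/-- From `3 R + arctan s ≤ π` to a bound of `tan R`. -/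
theorem R_step3 {R s x : ℝ} (hx0 : 0 < x) (h1 : 1 < 3 * x ^ 2)
    (hn : x * (3 - x ^ 2) < s * (3 * x ^ 2 - 1)) (hR0 : 0 < R) (hR1 : R < π / 2)
    (h : 3 * R + arctan s ≤ π) : tan R < x := by
  by_contra hc
  push Not at hc
  set θ := arctan x with hθ
  have hθR : θ ≤ R := by
    rw [hθ, ← arctan_tan (by linarith only [hR1, hR0]) hR1]
    exact arctan_mono hc
  have hct : 0 < cos θ := cos_arctan_pos x
  have hst : sin θ = x * cos θ := by
    rw [hθ, ← tan_mul_cos (cos_arctan_pos x).ne', tan_arctan]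
  have hsq := sin_sq_add_cos_sq θ
  have h2 : cos θ ^ 2 * (1 + x ^ 2) = 1 := by
    rw [hst] at hsq
    linear_combination hsq
  have hc3 : cos (3 * θ) * (1 + x ^ 2) = cos θ * (1 - 3 * x ^ 2) := by
    rw [cos_three_mul]
    linear_combination (4 * cos θ) * h2
  have hs3 : sin (3 * θ) * (1 + x ^ 2) = cos θ * (x * (3 - x ^ 2)) := by
    rw [sin_three_mul, hst]
    linear_combination (-4 * x ^ 3 * cos θ) * h2
  have hx2 : 0 < 1 + x ^ 2 := by positivity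
  have hneg : cos (3 * θ) < 0 := by
    have : cos (3 * θ) * (1 + x ^ 2) < 0 := by
      rw [hc3]
      exact mul_neg_of_pos_of_neg hct (by linarith only [h1])
    by_contra hcon
    push Not at hcon
    have := mul_nonneg hcon hx2.le
    linarith [this]
  -- `arctan s ≤ π - 3θ < π/2`
  have h3 : arctan s ≤ π - 3 * θ := by linarith only [hθR, h]
  have hθ0 : 0 < θ := arctan_pos.2 hx0
  have h4 : π - 3 * θ < π / 2 := by
    by_contra hcon
    push Not at hcon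
    have := cos_nonneg_of_mem_Icc (x := 3 * θ) ⟨by linarith only [hθ0, hR1, hR0], by linarith only [hcon]⟩
    linarith only [this, hneg]
  have h5 : s ≤ tan (π - 3 * θ) := by
    have h6 : tan (arctan s) ≤ tan (π - 3 * θ) := by
      rcases h3.eq_or_lt with h7 | h7
      · rw [h7]
      · exact (tan_lt_tan_of_lt_of_lt_pi_div_two (neg_pi_div_two_lt_arctan s) h4 h7).le
    rwa [tan_arctan] at h6
  rw [tan_eq_sin_div_cos, sin_pi_sub, cos_pi_sub, le_div_iff₀ (by linarith only [hneg])] at h5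
  have h6 : s * (3 * x ^ 2 - 1) ≤ x * (3 - x ^ 2) := by
    have h7 : s * -cos (3 * θ) * (1 + x ^ 2) ≤ sin (3 * θ) * (1 + x ^ 2) :=
      mul_le_mul_of_nonneg_right h5 hx2.le
    rw [hs3] at h7
    have h8 : s * -cos (3 * θ) * (1 + x ^ 2) = cos θ * (s * (3 * x ^ 2 - 1)) := by
      linear_combination (-s) * hc3
    rw [h8] at h7
    exact le_of_mul_le_mul_left h7 hct
  linarith only [h6, hn]

/-- The slot bound `tanh p ≤ t_P`. -/
theorem Slot.tanh_le_of {R I ρ β p r S q t : ℝ} (hs : Slot R I ρ β p r) (hρ : ρ ^ 2 ≤ S)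
    (hq : tt R I ^ 2 ≤ q) (ht : 0 ≤ t) (ht1 : t < 1) (hn : S * q * (1 - t ^ 2) ≤ t ^ 2) :
    tanh p ≤ t := by
  have h1 := hs.sinh_sq_le
  rw [mul_pow] at h1
  have h2 : ρ ^ 2 * tt R I ^ 2 ≤ S * q := mul_le_mul hρ hq (sq_nonneg _) ((sq_nonneg ρ).trans hρ)
  have h3 : sinh p ^ 2 ≤ S * q := h1.trans h2
  have hch := cosh_pos p
  have h4 : 0 < 1 - t ^ 2 := by linarith only [ht1,
                                  mul_nonneg (sub_nonneg.2 ht) (sub_nonneg.2 ht1.le)]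
  have h5 : sinh p ^ 2 * (1 - t ^ 2) ≤ t ^ 2 :=
    (mul_le_mul_of_nonneg_right h3 h4.le).trans hn
  rw [tanh_eq_sinh_div_cosh, div_le_iff₀ hch]
  apply abs_le_of_sq_le_sq' _ (by positivity) |>.2
  rw [mul_pow, cosh_sq]
  linarith only [h5]

/-- `|t|² ≤ q`. -/
theorem tt_le_q {x m t2 f X q : ℝ} (ht : t2 * (1 + (x * m) ^ 2) = x ^ 2 + m ^ 2) (hm : 0 ≤ m)
    (hm1 : m < 1) (hf0 : 0 < f) (hf : f ≤ x * m) (hX : x ^ 2 ≤ X) (hX1 : 1 ≤ X)
    (hq : 1 ≤ q) (hn : X ^ 2 + f ^ 2 ≤ q * (1 + f ^ 2) * X) : t2 ≤ q := by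
  have hF : f ^ 2 ≤ (x * m) ^ 2 := pow_le_pow_left₀ hf0.le hf 2
  have hm2 : m ^ 2 < 1 := by linarith only [hm1, mul_nonneg (sub_nonneg.2 hm) (sub_nonneg.2 hm1.le)]
  have hX0 : 0 < X := by linarith only [hX1]
  -- `x² + m² ≤ X + (xm)²/X`
  have h1 : (x ^ 2 + m ^ 2) * X ≤ X ^ 2 + (x * m) ^ 2 := by
    have h2 : 0 ≤ (X - x ^ 2) * (X - m ^ 2) := mul_nonneg (by linarith only [hX]) (by linarith only [hm2,
                                                                                        hX1])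
    linarith only [h2]
  have h3 : X ^ 2 + (x * m) ^ 2 ≤ q * (1 + (x * m) ^ 2) * X := by
    have h4 : 0 ≤ ((x * m) ^ 2 - f ^ 2) * (q * X - 1) :=
      mul_nonneg (by linarith only [hF]) (by (refine le_of_not_gt fun hng => ?_; linarith only [hng,
                                               hn, hX1,
                                               mul_nonneg (sub_nonneg.2 hX) (sub_nonneg.2 hX1),
                                               mul_nonneg (sq_nonneg (f)) (sub_nonneg.2 hng.le),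
                                               mul_nonneg (sq_nonneg (x)) (sub_nonneg.2 hX1)]))
    linarith only [h4, hn]
  have h5 : 0 < (1 + (x * m) ^ 2) * X := by positivity
  have h6 : t2 * ((1 + (x * m) ^ 2) * X) ≤ q * ((1 + (x * m) ^ 2) * X) := by
    calc t2 * ((1 + (x * m) ^ 2) * X) = (x ^ 2 + m ^ 2) * X := by rw [← ht]; ring
      _ ≤ q * (1 + (x * m) ^ 2) * X := h1.trans h3
      _ = q * ((1 + (x * m) ^ 2) * X) := by ring
  exact le_of_mul_le_mul_right h6 h5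

/-- `T ≥ T₀`. -/
theorem T_ge {x F T f X T₀ : ℝ} (hT : T * (x ^ 2 - F ^ 2) = F * (1 + x ^ 2)) (hf0 : 0 < f)
    (hf : f ≤ F) (hFx : F ^ 2 < x ^ 2) (hX : x ^ 2 ≤ X) (hT0 : 0 ≤ T₀)
    (hn : T₀ * (X - f ^ 2) ≤ f * (1 + X)) : T₀ ≤ T := by
  have hF0 : 0 < F := hf0.trans_le hf
  have hF : f ^ 2 ≤ F ^ 2 := pow_le_pow_left₀ hf0.le hf 2
  have h1 : 0 < x ^ 2 - F ^ 2 := by linarith only [hFx]
  have h2 : T₀ * (x ^ 2 - F ^ 2) ≤ F * (1 + x ^ 2) := by
    rcases le_total T₀ F with h3 | h3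
    · have h4 : T₀ * (x ^ 2 - F ^ 2) ≤ F * (x ^ 2 - F ^ 2) := mul_le_mul_of_nonneg_right h3 h1.le
      have h5 : F * (x ^ 2 - F ^ 2) ≤ F * (1 + x ^ 2) :=
        mul_le_mul_of_nonneg_left (by linarith only [sq_nonneg F]) hF0.le
      linarith only [h5, h4]
    · -- `(T₀ - F) x² ≤ (T₀ - F) X ≤ F + T₀ F²`
      have h4 : (T₀ - F) * x ^ 2 ≤ (T₀ - F) * X := mul_le_mul_of_nonneg_left hX (by linarith only [h3])
      have h5 : T₀ * f ^ 2 ≤ T₀ * F ^ 2 := mul_le_mul_of_nonneg_left hF hT0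
      have h6 : f * (1 + X) ≤ F * (1 + X) :=
        mul_le_mul_of_nonneg_right hf (by linarith only [sq_nonneg x, hX])
      linarith only [h6, h5, h4, hn]
  rw [← hT] at h2
  exact le_of_mul_le_mul_right h2 h1

/-- `G ≤ (T - B)/(1 + T B)` from `T₀ ≤ T`. -/
theorem gam_lo' {R I β B T₀ G : ℝ} (hR : 0 < R) (hR1 : R < π / 2) (hI : 0 < I) (hB : 0 ≤ B)
    (hβ : -(B * cos β) ≤ sin β) (hT0 : 0 ≤ T₀) (hT : T₀ ≤ TT R I)
    (hc : 0 ≤ cos (al R I + β)) (hG : G * (1 + T₀ * B) ≤ T₀ - B) :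
    G * cos (al R I + β) ≤ sin (al R I + β) := by
  refine le_trans (mul_le_mul_of_nonneg_right ?_ hc) (gam_lo hR hR1 hI hB hβ)
  have e : tan (al R I) = TT R I := rfl
  rw [e]
  have hTp := TT_pos hR hR1 hI
  have h1 : 0 < 1 + TT R I * B := by positivity
  have h2 : 0 < 1 + T₀ * B := by positivity
  rw [le_div_iff₀ h1]
  have h3 : G * (1 + T₀ * B) * (1 + TT R I * B) ≤ (T₀ - B) * (1 + TT R I * B) :=
    mul_le_mul_of_nonneg_right hG h1.le
  have h4 : (T₀ - B) * (1 + TT R I * B) ≤ (TT R I - B) * (1 + T₀ * B) := by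
    have : 0 ≤ (TT R I - T₀) * (1 + B ^ 2) := mul_nonneg (by linarith only [hT]) (by positivity)
    linarith only [this]
  have h5 : G * (1 + TT R I * B) * (1 + T₀ * B) ≤ (TT R I - B) * (1 + T₀ * B) := by
    calc G * (1 + TT R I * B) * (1 + T₀ * B) = G * (1 + T₀ * B) * (1 + TT R I * B) := by ring
      _ ≤ _ := h3.trans h4
  exact le_of_mul_le_mul_right h5 h2

/-- `tanh (p₁ + p₂)`. -/
theorem tanh_sum (p₁ p₂ : ℝ) :
    tanh p₁ + tanh p₂ = tanh (p₁ + p₂) * (1 + tanh p₁ * tanh p₂) := by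
  have h1 := cosh_pos p₁
  have h2 := cosh_pos p₂
  have h3 := cosh_pos (p₁ + p₂)
  rw [tanh_eq_sinh_div_cosh, tanh_eq_sinh_div_cosh, tanh_eq_sinh_div_cosh, sinh_add]
  rw [cosh_add] at h3 ⊢
  field_simp

/-- Lower bound of `u₁ u₂`. -/
theorem prod_ge {u v τ τ₀ t π₀ : ℝ} (hu : u ≤ t) (hv : v ≤ t) (ht1 : t < 1)
    (ht0 : 0 ≤ t) (hτ1 : τ < 1) (hs : u + v = τ * (1 + u * v)) (hτ : τ₀ ≤ τ)
    (hn : π₀ * (1 - t * τ₀) ≤ t * (τ₀ - t)) : π₀ ≤ u * v := by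
  have h1 : 0 ≤ (t - u) * (t - v) := mul_nonneg (by linarith only [hu]) (by linarith only [hv])
  have h2 : 0 < 1 - t * τ := by linarith only [ht1,
                                  mul_nonneg (sub_nonneg.2 ht0) (sub_nonneg.2 hτ1.le)]
  have h3 : t * (τ - t) ≤ u * v * (1 - t * τ) := by linarith only [h1, hs,
                                                      mul_nonneg (sub_nonneg.2 ht1.le) (sub_nonneg.2 hs.le),
                                                      mul_nonneg (sub_nonneg.2 ht1.le) (sub_nonneg.2 hs.ge)]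
  have h20 : 0 < 1 - t * τ₀ := by linarith only [h2,
                                    mul_nonneg (sub_nonneg.2 ht0) (sub_nonneg.2 hτ)]
  have h4 : π₀ * (1 - t * τ₀) * (1 - t * τ) ≤ t * (τ₀ - t) * (1 - t * τ) :=
    mul_le_mul_of_nonneg_right hn h2.le
  have h5 : t * (τ₀ - t) * (1 - t * τ) ≤ t * (τ - t) * (1 - t * τ₀) := by
    have : 0 ≤ (τ - τ₀) * (t * (1 - t ^ 2)) :=
      mul_nonneg (by linarith only [hτ]) (mul_nonneg ht0 (by linarith only [ht1,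
                                                               mul_nonneg (sub_nonneg.2 ht1.le) (sub_nonneg.2 ht0)]))
    linarith only [this]
  have h6 : t * (τ - t) * (1 - t * τ₀) ≤ u * v * (1 - t * τ) * (1 - t * τ₀) :=
    mul_le_mul_of_nonneg_right h3 h20.le
  have h7 : π₀ * ((1 - t * τ₀) * (1 - t * τ)) ≤ u * v * ((1 - t * τ₀) * (1 - t * τ)) := by
    linarith only [h6, h5, h4]
  exact le_of_mul_le_mul_right h7 (mul_pos h20 h2)

/-- The lower bound of the sum of two arctangents. -/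
theorem sum_arctan_ge {u v G τ₀ π₀ s : ℝ} (hu : 0 ≤ u) (hv : 0 ≤ v) (hu1 : u < 1) (hv1 : v < 1)
    (hG : 0 ≤ G) (hG1 : G < 1) (hs : τ₀ * (1 + u * v) ≤ u + v) (hπ : π₀ ≤ u * v)
    (hπ0 : 0 ≤ π₀) (hτ0 : 0 ≤ τ₀) (hn : s * (1 - G ^ 2 * π₀) ≤ G * τ₀ * (1 + π₀)) :
    arctan s ≤ arctan (G * u) + arctan (G * v) := by
  have huv : u * v < 1 := by linarith only [hu1, mul_nonneg (sub_nonneg.2 hu) (sub_nonneg.2 hv1.le)]
  have hG2 : G ^ 2 < 1 := by linarith only [hG1, mul_nonneg (sub_nonneg.2 hG) (sub_nonneg.2 hG1.le)]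
  have h0 : 0 ≤ u * v := mul_nonneg hu hv
  have h1 : G * u * (G * v) < 1 := by linarith only [hG2,
                                        mul_nonneg (sq_nonneg (G)) (sub_nonneg.2 huv.le)]
  rw [arctan_add h1]
  apply arctan_mono
  rw [le_div_iff₀ (by linarith only [h1])]
  have h2 : 0 < 1 - G ^ 2 * π₀ := by linarith only [h1,
                                       mul_nonneg (sq_nonneg (G)) (sub_nonneg.2 hπ)]
  have h3 : 0 < 1 - G * u * (G * v) := by linarith only [h1]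
  have h4 : s * (1 - G * u * (G * v)) * (1 - G ^ 2 * π₀) ≤
      (G * u + G * v) * (1 - G ^ 2 * π₀) := by
    have h5 : s * (1 - G ^ 2 * π₀) * (1 - G * u * (G * v)) ≤
        G * τ₀ * (1 + π₀) * (1 - G * u * (G * v)) := mul_le_mul_of_nonneg_right hn h3.le
    have h6 : G * τ₀ * (1 + π₀) * (1 - G * u * (G * v)) ≤
        G * τ₀ * (1 + u * v) * (1 - G ^ 2 * π₀) := by
      have h7 : 0 ≤ G * τ₀ * ((u * v - π₀) * (1 + G ^ 2)) := by
        apply mul_nonneg (mul_nonneg hG hτ0) (mul_nonneg (by linarith only [hπ]) (by positivity))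
      linarith only [h7]
    have h8 : G * τ₀ * (1 + u * v) * (1 - G ^ 2 * π₀) ≤ (G * u + G * v) * (1 - G ^ 2 * π₀) := by
      apply mul_le_mul_of_nonneg_right _ h2.le
      linarith only [mul_nonneg (sub_nonneg.2 hG) (sub_nonneg.2 hs)]
    linarith only [h8, h6, h5]
  exact le_of_mul_le_mul_right h4 h2

section step

variable {a R I ρ₁ β₁ p₁ r₁ ρ₂ β₂ p₂ r₂ : ℝ}

theorem Vx.tanh_aI (h : Vx a R I ρ₁ β₁ p₁ r₁ ρ₂ β₂ p₂ r₂) (ha : 3 ≤ a) {f X m₀ τ₀ : ℝ}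
    (hf0 : 0 < f) (hf : f ≤ tan R * tanh I) (hX : tan R ^ 2 ≤ X) (hm0 : 0 ≤ m₀)
    (hm : m₀ ^ 2 * X ≤ f ^ 2) (hτ : τ₀ * (1 + 3 * m₀ ^ 2) ≤ 3 * m₀ + m₀ ^ 3) :
    τ₀ * (1 + tanh p₁ * tanh p₂) ≤ tanh p₁ + tanh p₂ := by
  have hx := tan_pos' h.R0 h.R1
  have hmI := tanh_pos h.I0
  have h1 : m₀ ≤ tanh I := by
    apply abs_le_of_sq_le_sq' _ hmI.le |>.2
    have h2 : f ^ 2 ≤ (tan R * tanh I) ^ 2 := pow_le_pow_left₀ hf0.le hf 2
    have h3 : (tan R * tanh I) ^ 2 ≤ X * tanh I ^ 2 := by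
      rw [mul_pow]
      exact mul_le_mul_of_nonneg_right hX (sq_nonneg _)
    have h4 : m₀ ^ 2 * X ≤ tanh I ^ 2 * X := by linarith only [h3, h2, hm]
    have hX0 : 0 < X := lt_of_lt_of_le (by positivity) hX
    exact le_of_mul_le_mul_right h4 hX0
  have h2 := tanh_three_ge h1 hτ
  have h3 : tanh (3 * I) ≤ tanh (p₁ + p₂) := by
    rw [← h.hI]
    exact tanh_mono (mul_le_mul_of_nonneg_right ha h.I0.le)
  rw [tanh_sum]
  apply mul_le_mul_of_nonneg_right (h2.trans h3)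
  have := tanh_nonneg h.sl₁.p0
  have := tanh_nonneg h.sl₂.p0
  positivity

/-- The step: a better bound of `tan R`. -/
theorem Vx.step (h : Vx a R I ρ₁ β₁ p₁ r₁ ρ₂ β₂ p₂ r₂) (ha : 3 ≤ a)
    {S B f X m₀ τ₀ T₀ G q t π₀ s x : ℝ} (hρ₁ : ρ₁ ^ 2 ≤ S) (hρ₂ : ρ₂ ^ 2 ≤ S)
    (hβ₁ : -(B * cos β₁) ≤ sin β₁) (hβ₂ : -(B * cos β₂) ≤ sin β₂) (hB : 0 ≤ B)
    (hf : f ≤ tan R * tanh I) (hX : tan R ^ 2 ≤ X)
    (hf0 : 0 < f) (hX1 : 1 ≤ X)
    (hm0 : 0 ≤ m₀) (hm : m₀ ^ 2 * X ≤ f ^ 2) (hτ : τ₀ * (1 + 3 * m₀ ^ 2) ≤ 3 * m₀ + m₀ ^ 3)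
    (hτ0 : 0 ≤ τ₀) (hT0 : 0 ≤ T₀) (hT : T₀ * (X - f ^ 2) ≤ f * (1 + X))
    (hG0 : 0 ≤ G) (hG1 : G < 1) (hG : G * (1 + T₀ * B) ≤ T₀ - B)
    (hq1 : 1 ≤ q) (hq : X ^ 2 + f ^ 2 ≤ q * (1 + f ^ 2) * X)
    (ht0 : 0 ≤ t) (ht1 : t < 1) (ht : S * q * (1 - t ^ 2) ≤ t ^ 2)
    (hπ0 : 0 ≤ π₀) (hπ : π₀ * (1 - t * τ₀) ≤ t * (τ₀ - t))
    (hs : s * (1 - G ^ 2 * π₀) ≤ G * τ₀ * (1 + π₀))
    (hx0 : 0 < x) (hx1 : 1 < 3 * x ^ 2) (hx : x * (3 - x ^ 2) < s * (3 * x ^ 2 - 1)) :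
    tan R < x := by
  have hxR := tan_pos' h.R0 h.R1
  have hmI := tanh_pos h.I0
  have hm1 : tanh I < 1 := tanh_lt_one I
  have hq' : tt R I ^ 2 ≤ q := tt_le_q (t_xm h.R0 h.R1) hmI.le hm1 hf0 hf hX hX1 hq1 hq
  have hu := h.sl₁.tanh_le_of hρ₁ hq' ht0 ht1 ht
  have hv := h.sl₂.tanh_le_of hρ₂ hq' ht0 ht1 ht
  have hsum := h.tanh_aI ha hf0 hf hX hm0 hm hτ
  have hsum' := tanh_sum p₁ p₂
  have hu0 := tanh_nonneg h.sl₁.p0
  have hv0 := tanh_nonneg h.sl₂.p0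
  have hτ' : τ₀ ≤ tanh (p₁ + p₂) := by
    rw [hsum'] at hsum
    exact le_of_mul_le_mul_right hsum (by positivity)
  have hprod := prod_ge hu hv ht1 ht0 (tanh_lt_one _) hsum' hτ' hπ
  have hFx : (tan R * tanh I) ^ 2 < tan R ^ 2 := by
    rw [mul_pow]
    have : tanh I ^ 2 < 1 := by (refine lt_of_not_ge fun hng => ?_; linarith only [mul_pos (sub_pos.2 hxR) (sub_pos.2 hm1),
                                  mul_pos (sub_pos.2 hf0) (sub_pos.2 hm1),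
                                  mul_nonneg (sub_nonneg.2 hf) (sub_nonneg.2 hm1.le),
                                  mul_nonneg (sub_nonneg.2 hng) (sub_nonneg.2 hxR.le)])
    have h2 : 0 < tan R ^ 2 := by positivity
    linarith only [mul_pos (sub_pos.2 this) (sub_pos.2 h2)]
  have hTT : T₀ ≤ TT R I := T_ge (T_xm h.R0 h.R1) hf0 hf hFx hX hT0 hT
  have c₁ : 0 ≤ cos (al R I + β₁) := cos_nonneg_of_mem_Icc ⟨h.sl₁.g0, h.sl₁.g1⟩
  have c₂ : 0 ≤ cos (al R I + β₂) := cos_nonneg_of_mem_Icc ⟨h.sl₂.g0, h.sl₂.g1⟩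
  have l₁ := h.sl₁.lo (gam_lo' h.R0 h.R1 h.I0 hB hβ₁ hT0 hTT c₁ hG)
  have l₂ := h.sl₂.lo (gam_lo' h.R0 h.R1 h.I0 hB hβ₂ hT0 hTT c₂ hG)
  have hsa := sum_arctan_ge hu0 hv0 (tanh_lt_one _) (tanh_lt_one _) hG0 hG1 hsum hprod hπ0 hτ0 hs
  apply R_step3 hx0 hx1 hx h.R0 h.R1
  have h3 := mul_le_mul_of_nonneg_right ha h.R0.le
  linarith only [h.hR, h3, hsa, l₂, l₁]

/-- The end of the iteration. -/
theorem Vx.stop (h : Vx a R I ρ₁ β₁ p₁ r₁ ρ₂ β₂ p₂ r₂) (ha : 3 ≤ a)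
    {S f X m₀ τ₀ q t : ℝ} (hρ₁ : ρ₁ ^ 2 ≤ S) (hρ₂ : ρ₂ ^ 2 ≤ S)
    (hf : f ≤ tan R * tanh I) (hX : tan R ^ 2 ≤ X)
    (hf0 : 0 < f) (hX1 : 1 ≤ X)
    (hm0 : 0 ≤ m₀) (hm : m₀ ^ 2 * X ≤ f ^ 2) (hτ : τ₀ * (1 + 3 * m₀ ^ 2) ≤ 3 * m₀ + m₀ ^ 3)
    (hq1 : 1 ≤ q) (hq : X ^ 2 + f ^ 2 ≤ q * (1 + f ^ 2) * X)
    (ht0 : 0 ≤ t) (ht1 : t < 1) (ht : S * q * (1 - t ^ 2) ≤ t ^ 2)
    (hn : 2 * t < τ₀ * (1 + t ^ 2)) : False := by
  have hmI := tanh_pos h.I0
  have hm1 : tanh I < 1 := tanh_lt_one I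
  have hq' : tt R I ^ 2 ≤ q := tt_le_q (t_xm h.R0 h.R1) hmI.le hm1 hf0 hf hX hX1 hq1 hq
  have hu := h.sl₁.tanh_le_of hρ₁ hq' ht0 ht1 ht
  have hv := h.sl₂.tanh_le_of hρ₂ hq' ht0 ht1 ht
  have hsum := h.tanh_aI ha hf0 hf hX hm0 hm hτ
  have hsum' := tanh_sum p₁ p₂
  have hu0 := tanh_nonneg h.sl₁.p0
  have hv0 := tanh_nonneg h.sl₂.p0
  -- `(u + v)/(1 + uv) ≤ 2t/(1 + t²)`
  have h1 : (tanh p₁ + tanh p₂) * (1 + t ^ 2) ≤ 2 * t * (1 + tanh p₁ * tanh p₂) := by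
    have e1 : 0 ≤ (t - tanh p₁) * (1 - t * tanh p₂) :=
      mul_nonneg (by linarith only [hu]) (by (refine le_of_not_gt fun hng => ?_; linarith only [ht1,
                                               mul_nonneg (sub_nonneg.2 ht0) (sub_nonneg.2 hv),
                                               mul_nonneg (sub_nonneg.2 ht0) (sub_nonneg.2 ht1.le),
                                               mul_pos (sub_pos.2 hng) (sub_pos.2 hm1),
                                               mul_pos (sub_pos.2 hng) (sub_pos.2 hmI)]))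
    have e2 : 0 ≤ (t - tanh p₂) * (1 - t * tanh p₁) :=
      mul_nonneg (by linarith only [hv]) (by (refine le_of_not_gt fun hng => ?_; linarith only [ht1,
                                               mul_nonneg (sub_nonneg.2 ht0) (sub_nonneg.2 hu),
                                               mul_nonneg (sub_nonneg.2 ht0) (sub_nonneg.2 ht1.le),
                                               mul_pos (sub_pos.2 hng) (sub_pos.2 hm1),
                                               mul_pos (sub_pos.2 hng) (sub_pos.2 hmI)]))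
    linarith only [e2, e1]
  have h2 : 0 < 1 + tanh p₁ * tanh p₂ := by positivity
  have h3 : τ₀ * (1 + t ^ 2) * (1 + tanh p₁ * tanh p₂) ≤ 2 * t * (1 + tanh p₁ * tanh p₂) := by
    have h4 := mul_le_mul_of_nonneg_right hsum (by positivity : 0 ≤ 1 + t ^ 2)
    linarith only [h4, h1]
  have h4 := le_of_mul_le_mul_right h3 h2
  linarith only [h4, hn]

end step

end Pool.Agent.S5.E
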