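import Pool.Agent.S5.E.BxS
import Pool.Agent.S5.E.V3P

/-!
# Mixed chains, block E: bounds at the open nodes, from the crude bounds of the slots
-/

set_option autoImplicit false

namespace Pool.Agent.S5.E

open Real
open Pool.Agent.S3.E (al ph tt k2 s2 cc gg tt_pos tt_sq k2_pos s2_pos al_pos al_lt tan_al one_le_cc
  one_lt_cc gg_lt_one neg_one_lt_gg sinh_two_pos sin_two_pos sinh_two_sq sin_two_sq)

variable {a R I ρ₁ β₁ p₁ r₁ ρ₂ β₂ p₂ r₂ : ℝ}

/-- `a (R - G I) ≤ π` if `T ≤ 1.04`. -/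
theorem Vx.aRG (h : Vx a R I ρ₁ β₁ p₁ r₁ ρ₂ β₂ p₂ r₂) (i₁ : In ρ₁ β₁) (i₂ : In ρ₂ β₂)
    (hT : TT R I ≤ 1.04) : a * (R - GA (TT R I) * I) ≤ π := by
  have h1 := h.sl₁.r_ge_p h.R0 h.R1 h.I0 i₁ hT
  have h2 := h.sl₂.r_ge_p h.R0 h.R1 h.I0 i₂ hT
  have h4 := h.hR
  have h5 : GA (TT R I) * p₁ + GA (TT R I) * p₂ = GA (TT R I) * (a * I) := by
    rw [← mul_add, h.hI]
  linarith

/-- `a G I ≤ 0.7` if `T ≤ 1.04`. -/
theorem Vx.aGI (h : Vx a R I ρ₁ β₁ p₁ r₁ ρ₂ β₂ p₂ r₂) (i₁ : In ρ₁ β₁) (i₂ : In ρ₂ β₂)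
    (hT : TT R I ≤ 1.04) : GA (TT R I) * (a * I) ≤ 0.7 := by
  have h1 := h.aRG i₁ i₂ hT
  have h2 := h.GI hT
  have h3 : sin (2 * R) ≤ 2 * R := sin_le (by linarith [h.R0])
  have ha : 0 ≤ a := by linarith [h.a2]
  have h4 : a * (GA (TT R I) * I) ≤ a * (0.091 * sin (2 * R)) := mul_le_mul_of_nonneg_left h2 ha
  have h5 : a * sin (2 * R) ≤ a * (2 * R) := mul_le_mul_of_nonneg_left h3 ha
  have hp := pi_lt_d4
  linarith

/-- `- r ≤ 0.7`. -/
theorem Vx.neg_r (h : Vx a R I ρ₁ β₁ p₁ r₁ ρ₂ β₂ p₂ r₂) (i₁ : In ρ₁ β₁) (i₂ : In ρ₂ β₂) :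
    -0.7 ≤ r₁ := by
  rcases le_total (TT R I) 1.04 with hT | hT
  · have h1 := h.sl₁.r_ge_p h.R0 h.R1 h.I0 i₁ hT
    have h2 := h.aGI i₁ i₂ hT
    have h3 : GA (TT R I) * p₁ ≤ GA (TT R I) * (a * I) := by
      apply mul_le_mul_of_nonneg_left _ (GA_nonneg h.T0.le hT)
      rw [h.hI]
      linarith [h.sl₂.p0]
    linarith
  · have := h.sl₁.r_nonneg h.R0 h.R1 h.I0 i₁ hT
    linarith

theorem Vx.tan_neg (h : Vx a R I ρ₁ β₁ p₁ r₁ ρ₂ β₂ p₂ r₂) (i₁ : In ρ₁ β₁) (i₂ : In ρ₂ β₂) :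
    -(1.04 * sin r₁) < cos r₁ := by
  have h1 := h.neg_r i₁ i₂
  have hp := pi_gt_d4
  have hc := h.sl₁.cosr
  rcases le_total 0 r₁ with h0 | h0
  · have h2 : 0 ≤ sin r₁ := sin_nonneg_of_nonneg_of_le_pi h0 (by linarith [h.sl₁.r1])
    rcases h2.eq_or_lt with h3 | h3
    · have h4 := sin_sq_add_cos_sq r₁
      rw [← h3] at h4 ⊢
      have : 0 < cos r₁ := by
        rcases hc.eq_or_lt with h5 | h5
        · rw [← h5] at h4
          norm_num at h4
        · exact h5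
      linarith
    · linarith
  · have h2 : sin (-r₁) ≤ sin 0.7 :=
      sin_le_sin_of_le_of_le_pi_div_two (by linarith) (by linarith) (by linarith)
    have h3 : cos 0.7 ≤ cos (-r₁) := cos_le_cos_of_nonneg_of_le_pi (by linarith) (by linarith)
      (by linarith)
    rw [sin_neg] at h2
    rw [cos_neg] at h3
    have h4 := sin_le' (x := 0.7) (by norm_num) (by norm_num)
    have h5 := cos_ge' (x := 0.7) (by norm_num) (by norm_num)
    norm_num at h4 h5 h2 h3 ⊢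
    linarith

/-- `R - r < π / 2`, `a ≥ 3`. -/
theorem Vx.sr3 (h : Vx a R I ρ₁ β₁ p₁ r₁ ρ₂ β₂ p₂ r₂) (ha : 3 ≤ a) (i₁ : In ρ₁ β₁)
    (i₂ : In ρ₂ β₂) : R - r₁ < π / 2 := by
  have hp := pi_gt_d4
  have hp' := pi_lt_d4
  rcases le_total (TT R I) 1.04 with hT | hT
  · have h1 := h.sl₁.r_ge_p h.R0 h.R1 h.I0 i₁ hT
    have h2 := h.aRG i₁ i₂ hT
    have h3 := h.GI hT
    have h4 : sin (2 * R) ≤ 1 := sin_le_one _
    have hG := GA_nonneg h.T0.le hT
    have hy0 : 0 ≤ GA (TT R I) * I := mul_nonneg hG h.I0.le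
    have h5 : GA (TT R I) * p₁ ≤ GA (TT R I) * (a * I) := by
      apply mul_le_mul_of_nonneg_left _ hG
      rw [h.hI]
      linarith [h.sl₂.p0]
    obtain ⟨y, hy⟩ : ∃ y, y = GA (TT R I) * I := ⟨_, rfl⟩
    rw [← hy] at h2 h3 hy0
    have h6 : GA (TT R I) * (a * I) = a * y := by rw [hy]; ring
    have h7 : y ≤ 0.091 := by linarith
    rcases le_total a 7.7 with h8 | h8
    · by_contra hc
      push Not at hc
      have h9 : π / 2 ≤ R + a * y := by linarith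
      have h10 : a * (π / 2) ≤ a * (R + a * y) := mul_le_mul_of_nonneg_left h9 (by linarith)
      have h11 : a * (R + a * y) ≤ π + a * y + a * (a * y) := by linarith
      have h12 : a * y ≤ a * 0.091 := mul_le_mul_of_nonneg_left h7 (by linarith)
      have h13 : a * (a * y) ≤ a * (a * 0.091) := mul_le_mul_of_nonneg_left h12 (by linarith)
      have h14 : 0 ≤ (a - 3) * (7.7 - a) := mul_nonneg (by linarith) (by linarith)
      nlinarith
    · have h9 := h.aGI i₁ i₂ hT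
      have h10 : R ≤ 0.5 := by
        rcases le_total 0 (R - y) with h11 | h11
        · have h12 := mul_le_mul_of_nonneg_right h8 h11
          linarith
        · linarith
      linarith
  · have h1 := h.sl₁.r_nonneg h.R0 h.R1 h.I0 i₁ hT
    have h2 := h.R_le' ha i₁ i₂ hT
    linarith

/-- `R ≤ 0.7194`, `a ≥ 5`. -/
theorem Vx.R5 (h : Vx a R I ρ₁ β₁ p₁ r₁ ρ₂ β₂ p₂ r₂) (ha : 5 ≤ a) (i₁ : In ρ₁ β₁)
    (i₂ : In ρ₂ β₂) : R ≤ 0.7195 := by
  have hp' := pi_lt_d4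
  rcases le_total (TT R I) 1.04 with hT | hT
  · have h2 := h.aRG i₁ i₂ hT
    have h3 := h.GI hT
    have h4 : sin (2 * R) ≤ 1 := sin_le_one _
    rcases le_total 0 (R - GA (TT R I) * I) with h5 | h5
    · have := mul_le_mul_of_nonneg_right ha h5
      linarith
    · linarith
  · have h1 := h.sl₁.r_nonneg h.R0 h.R1 h.I0 i₁ hT
    have h2 := h.sl₂.r_nonneg h.R0 h.R1 h.I0 i₂ hT
    have h3 := mul_le_mul_of_nonneg_right ha h.R0.le
    linarith [h.hR]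

/-- `|t| cos α ≤ tan R`. -/
private theorem tr_le {R I : ℝ} (h : 0 < R) (h' : R < π / 2) (hI : 0 < I) :
    tt R I * cos (al R I) ≤ tan R := by
  have hx := tan_pos' h h'
  have ht := tt_pos (I := I) h h'
  have hc : 0 < cos (al R I) := by
    unfold al
    exact cos_arctan_pos _
  have h3 : TT R I * cos (al R I) = sin (al R I) := tan_mul_cos hc.ne'
  have h4 := sin_sq_add_cos_sq (al R I)
  have h1 := T_xm (I := I) h h'
  have h2 := t_xm (I := I) h h'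
  have hm := tanh_pos hI
  have hm1 : tanh I < 1 := tanh_lt_one I
  have hT0 := TT_pos h h' hI
  obtain ⟨x, hxe⟩ : ∃ x, x = tan R := ⟨_, rfl⟩
  obtain ⟨m, hme⟩ : ∃ m, m = tanh I := ⟨_, rfl⟩
  obtain ⟨c, hce⟩ : ∃ c, c = cos (al R I) := ⟨_, rfl⟩
  obtain ⟨t, hte⟩ : ∃ t, t = tt R I := ⟨_, rfl⟩
  obtain ⟨T, hTe⟩ : ∃ T, T = TT R I := ⟨_, rfl⟩
  rw [← hxe] at hx ⊢
  rw [← hte] at ht ⊢
  rw [← hce] at hc ⊢
  rw [← hme] at hm hm1
  rw [← hTe] at hT0
  rw [← h3, ← hce, ← hTe] at h4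
  rw [← hxe, ← hme, ← hTe] at h1
  rw [← hxe, ← hme, ← hte] at h2
  have hm2 : m ^ 2 < 1 := by
    have := pow_lt_pow_left₀ hm1 hm.le (n := 2) two_ne_zero
    linarith
  -- `T x (1 - m²) = m (1 + x²)`
  have h5 : T * (x * (1 - m ^ 2)) = m * (1 + x ^ 2) := by
    have : (T * (x * (1 - m ^ 2))) * x = (m * (1 + x ^ 2)) * x := by linear_combination h1
    exact mul_right_cancel₀ hx.ne' this
  -- `m ≤ T x`
  have h6 : m ≤ T * x := by
    have h7 : T * (x * (1 - m ^ 2)) ≤ T * x := by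
      apply mul_le_mul_of_nonneg_left _ hT0.le
      have : 0 ≤ x * m ^ 2 := by positivity
      linarith
    have h8 : m ≤ m * (1 + x ^ 2) := by
      have : 0 ≤ m * x ^ 2 := by positivity
      linarith
    linarith
  -- `(t c)² (1 + T²) = t² ≤ x² + m² ≤ x² (1 + T²)`
  have h7 : t ^ 2 ≤ x ^ 2 + m ^ 2 := by
    rw [← h2]
    have : 0 ≤ t ^ 2 * (x * m) ^ 2 := by positivity
    linarith
  have h8 : m ^ 2 ≤ (T * x) ^ 2 := pow_le_pow_left₀ hm.le h6 2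
  have h9 : (t * c) ^ 2 * (1 + T ^ 2) ≤ x ^ 2 * (1 + T ^ 2) := by
    have e : (t * c) ^ 2 * (1 + T ^ 2) = t ^ 2 * ((T * c) ^ 2 + c ^ 2) := by ring
    rw [e, h4]
    linarith
  have h10 : (t * c) ^ 2 ≤ x ^ 2 := le_of_mul_le_mul_right h9 (by positivity)
  exact abs_le_of_sq_le_sq' h10 hx.le |>.2

/-- `R + r > 0`, `a ≥ 5`. -/
theorem Vx.Rr5 (h : Vx a R I ρ₁ β₁ p₁ r₁ ρ₂ β₂ p₂ r₂) (ha : 5 ≤ a) (i₁ : In ρ₁ β₁)
    (i₂ : In ρ₂ β₂) : 0 < R + r₁ := by
  by_contra hcon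
  push Not at hcon
  have hp := pi_gt_d4
  have hp' := pi_lt_d4
  have hR0 := h.R0
  have hR1 := h.R1
  have hI0 := h.I0
  have hT0 := h.T0
  have hT : TT R I ≤ 1.04 := by
    by_contra hc
    push Not at hc
    have := h.sl₁.r_nonneg hR0 hR1 hI0 i₁ hc.le
    linarith
  have hal := al_pos hR0 hR1 hI0
  have hc : 0 < cos (al R I) := cos_pos_of_mem_Ioo ⟨by linarith, al_lt R I⟩
  have hTc : TT R I * cos (al R I) = sin (al R I) := tan_mul_cos hc.ne'
  -- bounds of `cos β`, `sin β`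
  have hb1 := i₁.lo
  have hcb : 0 < cos β₁ := cos_pos_of_mem_Ioo ⟨by linarith [i₁.βl, arctan_lt_pi_div_two 1.04],
    by linarith [i₁.βu, arctan_lt_pi_div_two 1.04]⟩
  have hsc := sin_sq_add_cos_sq β₁
  have hkey : -(TT R I * cos β₁) - sin β₁ ≤ 0.7212 - 0.693 * TT R I := by
    rcases le_total 0 (sin β₁) with hs | hs
    · have : 0 ≤ TT R I * cos β₁ := by positivity
      linarith
    · have h1 : (-sin β₁) ^ 2 ≤ (1.04 * cos β₁) ^ 2 := pow_le_pow_left₀ (by linarith) (by linarith) 2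
      rw [neg_sq, mul_pow] at h1
      have h2 : 0.693 ≤ cos β₁ := by
        apply abs_le_of_sq_le_sq' _ hcb.le |>.2
        norm_num at h1 ⊢
        linarith
      have h3 : -sin β₁ ≤ 0.7212 := by
        apply abs_le_of_sq_le_sq' _ (by norm_num) |>.2
        rw [neg_sq]
        have h4 : 0.693 ^ 2 ≤ cos β₁ ^ 2 := pow_le_pow_left₀ (by norm_num) h2 2
        norm_num at h4 ⊢
        linarith
      have h4 := mul_le_mul_of_nonneg_left h2 hT0.le
      linarith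
  have hY : 0 ≤ 0.7212 - 0.693 * TT R I := by linarith
  -- `sin R ≤ 1.1 tan R (0.7212 - 0.693 T)`
  have h1 : sin R ≤ sin (-r₁) :=
    sin_le_sin_of_le_of_le_pi_div_two (by linarith) (by linarith [h.sl₁.r0]) (by linarith)
  have hsR : 0 < sin R := sin_pos_of_pos_of_lt_pi hR0 (by linarith)
  have hcR : 0 < cos R := cos_pos_of_mem_Ioo ⟨by linarith, hR1⟩
  have h2 : sin (-r₁) ≤ cosh p₁ * sin (-r₁) :=
    le_mul_of_one_le_left (by linarith) (one_le_cosh _)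
  have h3 : cosh p₁ * sin (-r₁) = ρ₁ * tt R I * (cos (al R I) *
      (-(TT R I * cos β₁) - sin β₁)) := by
    have := h.sl₁.e2
    rw [sin_add, ← hTc] at this
    rw [sin_neg]
    linear_combination -this
  have htt := tt_pos (I := I) hR0 hR1
  have h4 : ρ₁ * tt R I * (cos (al R I) * (-(TT R I * cos β₁) - sin β₁)) ≤
      1.1 * tan R * (0.7212 - 0.693 * TT R I) := by
    have h5 : ρ₁ * (tt R I * cos (al R I)) ≤ 1.1 * tan R :=
      mul_le_mul i₁.ρ1 (tr_le hR0 hR1 hI0) (mul_pos htt hc).le (by norm_num)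
    have h6 : 0 ≤ ρ₁ * (tt R I * cos (al R I)) := mul_nonneg h.sl₁.ρ0 (mul_pos htt hc).le
    calc ρ₁ * tt R I * (cos (al R I) * (-(TT R I * cos β₁) - sin β₁)) =
        ρ₁ * (tt R I * cos (al R I)) * (-(TT R I * cos β₁) - sin β₁) := by ring
      _ ≤ ρ₁ * (tt R I * cos (al R I)) * (0.7212 - 0.693 * TT R I) :=
        mul_le_mul_of_nonneg_left hkey h6
      _ ≤ _ := mul_le_mul_of_nonneg_right h5 hY
  have h5 : sin R ≤ 1.1 * tan R * (0.7212 - 0.693 * TT R I) := by linarith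
  have h6 : cos R ≤ 1.1 * (0.7212 - 0.693 * TT R I) := by
    rw [tan_eq_sin_div_cos] at h5
    have h7 : sin R * cos R ≤ sin R * (1.1 * (0.7212 - 0.693 * TT R I)) := by
      have h8 := mul_le_mul_of_nonneg_right h5 hcR.le
      have h9 : 1.1 * (sin R / cos R) * (0.7212 - 0.693 * TT R I) * cos R =
          sin R * (1.1 * (0.7212 - 0.693 * TT R I)) := by
        field_simp
      linarith
    exact le_of_mul_le_mul_left h7 hsR
  -- `R ≤ π/5 + δ`
  obtain ⟨δ, hδ⟩ : ∃ δ, δ = GA (TT R I) * I := ⟨_, rfl⟩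
  have hG := GA_nonneg hT0.le hT
  have hδ0 : 0 ≤ δ := by rw [hδ]; exact mul_nonneg hG hI0.le
  have hδ1 : δ ≤ 0.091 := by
    have h3 := h.GI hT
    have h4 : sin (2 * R) ≤ 1 := sin_le_one _
    rw [hδ]
    linarith
  have hδ2 : δ ≤ 0.52 * TT R I := by
    have h7 := two_I_le hR0 hR1 hI0
    have h8 : TT R I * sin (2 * R) ≤ TT R I * 1 := mul_le_mul_of_nonneg_left (sin_le_one _) hT0.le
    have h9 : GA (TT R I) ≤ 1.04 := by
      unfold GA
      rw [div_le_iff₀ (by positivity)]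
      linarith
    have h10 : GA (TT R I) * I ≤ 1.04 * I := mul_le_mul_of_nonneg_right h9 hI0.le
    rw [hδ]
    linarith
  have hRδ : R ≤ 0.6284 + δ := by
    have h7 := h.aRG i₁ i₂ hT
    rw [← hδ] at h7
    rcases le_total 0 (R - δ) with h8 | h8
    · have := mul_le_mul_of_nonneg_right ha h8
      linarith
    · linarith
  have h7 := cos_ge R
  have h8 : R ^ 2 ≤ (0.6284 + δ) ^ 2 := pow_le_pow_left₀ hR0.le hRδ 2
  have h9 : δ * δ ≤ 0.091 * (0.52 * TT R I) := mul_le_mul hδ1 hδ2 hδ0 (by norm_num)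
  nlinarith

end Pool.Agent.S5.E
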