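import Pool.Agent.S5.E.Asm
import Pool.Agent.S5.E.B2.Str2D

/-!
# Mixed chains, block E: the critical point, from the bounds at the vertices with three or more twists
-/

set_option autoImplicit false

namespace Pool.Agent.S5.E

open Complex
open Pool.Agent.S5.E.B2
open Pool.Agent.S3.E (al ph tt k2 s2)
open Pool.Agent.S5.G (CrtM)

namespace Zr

variable {ι κ : Type*} {m : Bool} {a : ι → ℝ} {nl nr : ι → Option (ι × Bool)}
  {g : ι → κ → ℂ → ℝ} {τ : ℝ} {z : ι → ℂ}

theorem ph_lt_of (h : Zr m a nl nr g τ z) {i : ι} (h1 : -(cos (z i)).im < (cos (z i)).re) :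
    ph (z i).re (z i).im < Real.pi / 4 := by
  rw [h.cos_re, h.cos_im] at h1
  have h2 : Real.sin (ph (z i).re (z i).im) < Real.cos (ph (z i).re (z i).im) :=
    lt_of_mul_lt_mul_left h1 (h.norm_pos i).le
  have h3 := h.phlt i
  have h4 := h.phpos i
  by_contra hc
  push Not at hc
  have h5 : 0 ≤ Real.sin (ph (z i).re (z i).im - Real.pi / 4) :=
    Real.sin_nonneg_of_nonneg_of_le_pi (by linarith) (by linarith [Real.pi_pos])
  rw [Real.sin_sub, Real.cos_pi_div_four, Real.sin_pi_div_four] at h5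
  have h6 : (0 : ℝ) < √2 / 2 := by positivity
  have h7 : 0 ≤ (Real.sin (ph (z i).re (z i).im) - Real.cos (ph (z i).re (z i).im)) * (√2 / 2) := by
    linarith
  have h8 := nonneg_of_mul_nonneg_left h7 h6
  linarith

end Zr

section

variable {ι : Type*} {a : ι → ℝ} {nl nr : ι → Option (ι × Bool)} {τ : ℝ} {z : ι → ℂ}

theorem VD_v2 {so : Bool} {r₁ r₂ : Rg} {b₁ b₂ : ℂ} {u v : ℝ} (h : VD so r₁ r₂ b₁ b₂ u v) :
    ∃ x₁ y₁ x₂ y₂, V2 so x₁ y₁ x₂ y₂ u v ∧ b₁ = (x₁ : ℂ) + (y₁ : ℝ) * I ∧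
      b₂ = (x₂ : ℂ) + (sgy so y₂ : ℝ) * I := by
  obtain ⟨x₁, y₁, x₂, y₂, h1, h2, h3⟩ := h
  have e := h1.eq
  simp only [sgy, Bool.false_eq_true, if_false] at e
  exact ⟨x₁, y₁, x₂, y₂, h3, e, h2.eq⟩

/-- The data of the quartic at every special vertex. -/
theorem Zr.v2_of {m : Bool} (h : Zr m a nl nr (gC a nl nr) τ z) (hC : Ch a nl nr)
    (h3 : In3 a nl nr z) {i j l : ι} (hi : a i = 2) (hs : Sp nl nr i j l) :
    ∃ x₁ y₁ x₂ y₂, V2 true x₁ y₁ x₂ y₂ (cos (z i)).re (-(cos (z i)).im) ∧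
      bo m τ z (some (j, false)) = (x₁ : ℂ) + (y₁ : ℝ) * I ∧
      bo m τ z (some (l, true)) = (x₂ : ℂ) + (sgy true y₂ : ℝ) * I := by
  obtain ⟨j', l', hs', d⟩ := h.ds hC h3 hi (fun x y hT => hT.not_Sp hs) (fun x hE => hs.not_E hE)
  obtain ⟨rfl, rfl⟩ := hs.uniq hs'
  cases d with
  | PB hm c d => exact VD_v2 d
  | PA hm c d => exact VD_v2 d
  | TB hm c d => exact VD_v2 d
  | TA hm c d => exact VD_v2 d
  | SB hm c d => exact VD_v2 d
  | SA hm c d => exact VD_v2 d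
  | EB hm c hj he d => exact VD_v2 d
  | EA hm c hj he d => exact VD_v2 d

end

section chain

variable {R : ℕ} {a : ℕ → ℕ} {S : ℕ → Bool}

/-- **The critical point of an admissible chain**, from the bounds at the vertices with three or
more twists (`h3`, `hv`, `hss`) and `φ < π / 4` at the vertices with two twists (`harg`). -/
theorem exists_crt (h : Adm R a S)
    (h3 : ∀ m τ z, Zr m (aF R a) (nlF R S) (nrF R S) (gC (aF R a) (nlF R S) (nrF R S)) τ z →
      In3 (aF R a) (nlF R S) (nrF R S) z)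
    (hv : ∀ m τ z, Zr m (aF R a) (nlF R S) (nrF R S) (gC (aF R a) (nlF R S) (nrF R S)) τ z →
      ∀ i, 3 ≤ aF R a i →
        StrV m (aF R a) (nlF R S) (nrF R S) (gC (aF R a) (nlF R S) (nrF R S)) τ z i)
    (harg : ∀ z, Zr true (aF R a) (nlF R S) (nrF R S) (gC (aF R a) (nlF R S) (nrF R S)) 1 z →
      ∀ i, aF R a i = 2 → -(cos (z i)).im < (cos (z i)).re)
    (hss : ∀ z, Zr true (aF R a) (nlF R S) (nrF R S) (gC (aF R a) (nlF R S) (nrF R S)) 1 z →
      ∀ i j : Fin (R + 1), 3 ≤ aF R a i → (nlF R S i = some (j, true) →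
        Quad (cos (z j)) (as (bo true 1 z (nlF R S i) * tan (z i)))) ∧
      (nrF R S i = some (j, true) →
        Quad (cos (z j)) (as (bo true 1 z (nrF R S i) * tan (z i))))) :
    ∃ (z ql qr : ℕ → ℂ) (zF : Fin (R + 1) → ℂ), CrtM R a S z ql qr ∧
      Zr true (aF R a) (nlF R S) (nrF R S) (gC (aF R a) (nlF R S) (nrF R S)) 1 zF ∧
      (∀ i : Fin (R + 1), z i = zF i) ∧
      (∀ i : Fin (R + 1), ql i = as (bo true 1 zF (nlF R S i) * tan (zF i))) ∧
      (∀ i : Fin (R + 1), qr i = as (bo true 1 zF (nrF R S i) * tan (zF i))) := by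
  have hC := ch_of_adm h
  refine exists_crtM h (fun m τ z hz => ?_) (fun z hz i => ?_) (fun z hz i j l hi hs => ?_) hss
  · refine Str.of_V hz fun i => ?_
    rcases hC.a2 i with hi | hi
    · exact Zr.strV2 hz hC (h3 m τ z hz) hi
    · exact hv m τ z hz i hi
  · apply hz.ph_lt_of
    rcases hC.a2 i with hi | hi
    · exact harg z hz i hi
    · have h1 := ((h3 true 1 z hz).s3 i hi).a1
      have h2 := hz.re_pos i
      have h4 : ((rS3.t1 : ℕ) : ℝ) = 777 := by norm_num [rS3]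
      rw [h4] at h1
      linarith
  · exact Zr.v2_of hz hC (h3 true 1 z hz) hi hs

end chain

end Pool.Agent.S5.E
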