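import Pool.Agent.S5.E.Sl

/-!
# Mixed chains, block E: diagonal dominance for `a ≥ 3` when both `r_j ≥ 0`

The proof is that of `S3/E/D3.lean`, with the hypotheses spelled out.
-/

set_option autoImplicit false

namespace Pool.Agent.S5.E

open Real
open Pool.Agent.S3.E (al ph tt k2 s2 cc gg tt_pos tt_sq k2_pos s2_pos al_pos al_lt tan_al one_le_cc
  one_lt_cc gg_lt_one neg_one_lt_gg sinh_two_pos sin_two_pos sinh_two_sq sin_two_sq norm_tanh_sq
  tanh_quadrant proj_cs pos_cs)

theorem le_of_sq_le_sq {a b : ℝ} (h : a ^ 2 ≤ b ^ 2) (hb : 0 ≤ b) : a ≤ b :=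
  (abs_le_of_sq_le_sq' h hb).2

/-- `‖tanh q‖ ≤ B` if `cos 2r ≥ -u` and `(1 + u)/(1 - u) ≤ B²`. -/
theorem D3_norm {p r u B : ℝ} (h : 0 < cosh (2 * p) + cos (2 * r)) (hu : 0 ≤ u)
    (hu1 : u < 1) (hr : -u ≤ cos (2 * r)) (hB : 0 ≤ B) (hB2 : 1 + u ≤ B ^ 2 * (1 - u)) :
    ‖Complex.tanh ((p : ℂ) + (r : ℂ) * Complex.I)‖ ≤ B := by
  have h1 := norm_tanh_sq p r h
  have hc : 1 ≤ cosh (2 * p) := one_le_cosh _
  have h2 : ‖Complex.tanh ((p : ℂ) + (r : ℂ) * Complex.I)‖ ^ 2 ≤ B ^ 2 := by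
    rw [h1, div_le_iff₀ h]
    have h3 : (cosh (2 * p) - cos (2 * r)) * (1 - u) ≤
        (1 + u) * (cosh (2 * p) + cos (2 * r)) := by nlinarith
    have h4 : (1 + u) * (cosh (2 * p) + cos (2 * r)) ≤
        B ^ 2 * (1 - u) * (cosh (2 * p) + cos (2 * r)) :=
      mul_le_mul_of_nonneg_right hB2 h.le
    have h5 : 0 < 1 - u := by linarith
    have h6 : (cosh (2 * p) - cos (2 * r)) * (1 - u) ≤
        (B ^ 2 * (cosh (2 * p) + cos (2 * r))) * (1 - u) := by linarith
    exact le_of_mul_le_mul_right h6 h5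
  exact le_of_sq_le_sq h2 hB

private theorem D3_S {S g s t : ℝ} (hS : 0 < S) (hS2 : S ^ 2 = 1 - g ^ 2) (hg : g ^ 2 ≤ t)
    (hs : s ^ 2 ≤ 1 - t) : s ≤ S := by
  apply le_of_sq_le_sq _ hS.le
  rw [hS2]
  linarith

/-- the numerical inequality -/
private theorem D3_num {c g S Sh N : ℝ} (hN : 0 ≤ N) (hS : 0 < S) (hS2 : S ^ 2 = 1 - g ^ 2)
    (hSh : 0 ≤ Sh) (hSh2 : Sh ^ 2 = c ^ 2 - 1) (hcg : c + g ≤ 2) (hX : 0 < c * S - g * Sh)
    (hc : 1 ≤ c)
    (hi : g ≤ 0 → -(1 / 2) ≤ g ∧ N ≤ 2)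
    (hii : 0 < g → g ≤ 0.15 → N ≤ 3.4642)
    (hiii : 0.15 < g → g ≤ 0.293 → N ≤ 6.18) :
    (c - g) / 2 * N * √2 < 3 / 2 * (c * S - g * Sh) + N := by
  have hq0 : (0 : ℝ) ≤ √2 := sqrt_nonneg 2
  have hq2 : √2 ^ 2 = (2 : ℝ) := sq_sqrt (by norm_num)
  have hq1 : (1.4142 : ℝ) < √2 := by
    rw [lt_sqrt (by norm_num)]
    norm_num
  have hq3 : √2 < (1.4143 : ℝ) := by
    rw [sqrt_lt' (by norm_num)]
    norm_num
  set q : ℝ := √2 with hq
  by_cases hs : (c - g) * q ≤ 2
  · have : (c - g) / 2 * N * q ≤ N := by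
      have h1 : (c - g) * q * N ≤ 2 * N := mul_le_mul_of_nonneg_right hs hN
      linarith
    linarith
  · push Not at hs
    have hcgq : q < c - g := by
      by_contra hcon
      push Not at hcon
      have : (c - g) * q ≤ q * q := mul_le_mul_of_nonneg_right hcon hq0
      nlinarith
    have hgoal : ((c - g) * q - 2) * N < 3 * (c * S - g * Sh) →
        (c - g) / 2 * N * q < 3 / 2 * (c * S - g * Sh) + N := by
      intro h
      linarith
    apply hgoal
    have hk0 : 0 < (c - g) * q - 2 := by linarith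
    rcases le_or_gt g 0 with hg | hg
    · obtain ⟨hg1, hN2⟩ := hi hg
      have hS1 : 0.866 ≤ S := by
        have h0 : (-g) ^ 2 ≤ (1 / 2) ^ 2 := pow_le_pow_left₀ (by linarith) (by linarith) 2
        rw [neg_sq] at h0
        exact D3_S (t := (1 / 2) ^ 2) hS hS2 h0 (by norm_num)
      have hX1 : 0.866 * c ≤ c * S - g * Sh := by
        have h1 : c * 0.866 ≤ c * S := mul_le_mul_of_nonneg_left hS1 (by linarith)
        have h2 : 0 ≤ -g * Sh := mul_nonneg (by linarith) hSh
        linarith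
      have h3 : ((c - g) * q - 2) * N ≤ ((c - g) * q - 2) * 2 :=
        mul_le_mul_of_nonneg_left hN2 hk0.le
      have h4 : (c - g) * q ≤ (c - g) * 1.4143 := mul_le_mul_of_nonneg_left hq3.le (by linarith)
      have hc2 : c ≤ 5 / 2 := by linarith
      linarith
    · have hg2 : g ≤ 0.293 := by linarith
      have hc2 : c ≤ 2 := by linarith
      have hSh1 : Sh ≤ 0.8661 * c := by
        apply le_of_sq_le_sq _ (by positivity)
        rw [hSh2]
        nlinarith
      have hc1 : 1.4142 < c := by linarith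
      have hX1 : c * (S - 0.8661 * g) ≤ c * S - g * Sh := by
        have h1 : g * Sh ≤ g * (0.8661 * c) := mul_le_mul_of_nonneg_left hSh1 hg.le
        linarith
      have h4 : (c - g) * q ≤ (2 - 2 * g) * 1.4143 := by
        have h5 : (c - g) * q ≤ (c - g) * 1.4143 :=
          mul_le_mul_of_nonneg_left hq3.le (by linarith)
        linarith
      rcases le_or_gt g 0.15 with hg3 | hg3
      · have hN2 := hii hg hg3
        have hS1 : 0.9886 ≤ S :=
          D3_S (t := 0.15 ^ 2) hS hS2 (pow_le_pow_left₀ hg.le hg3 2) (by norm_num)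
        have h6 : 1.4142 * (0.9886 - 0.8661 * 0.15) ≤ c * (S - 0.8661 * g) := by
          apply mul_le_mul hc1.le (by linarith) (by norm_num) (by linarith)
        have h3 : ((c - g) * q - 2) * N ≤ ((c - g) * q - 2) * 3.4642 :=
          mul_le_mul_of_nonneg_left hN2 hk0.le
        linarith
      · have hN2 := hiii hg3 hg2
        have hS1 : 0.956 ≤ S :=
          D3_S (t := 0.293 ^ 2) hS hS2 (pow_le_pow_left₀ hg.le hg2 2) (by norm_num)
        have h6 : 1.4142 * (0.956 - 0.8661 * 0.293) ≤ c * (S - 0.8661 * g) := by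
          apply mul_le_mul hc1.le (by linarith) (by norm_num) (by linarith)
        have h3 : ((c - g) * q - 2) * N ≤ ((c - g) * q - 2) * 6.18 :=
          mul_le_mul_of_nonneg_left hN2 hk0.le
        linarith

theorem dom3_pos {a R I p₁ r₁ p₂ r₂ : ℝ} (hR0 : 0 < R) (hR1 : R < π / 2) (hI0 : 0 < I)
    (ha : 3 ≤ a) (hk : k2 R I ≤ 1) (hp1 : 0 ≤ p₁) (hp2 : 0 ≤ p₂) (hr1 : 0 ≤ r₁) (hr2 : 0 ≤ r₂)
    (hr1' : r₁ ≤ π / 2) (hr2' : r₂ ≤ π / 2) (hrr : r₁ + r₂ ≤ π - 3 * R) {z : ℂ} (hz : z.re = R)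
    (hz' : z.im = I)
    (h₁ : 0 < cosh (2 * p₁) + cos (2 * r₁)) (h₂ : 0 < cosh (2 * p₂) + cos (2 * r₂)) :
    s2 R I * (‖Complex.tanh ((p₁ : ℂ) + (r₁ : ℂ) * Complex.I)‖ +
        ‖Complex.tanh ((p₂ : ℂ) + (r₂ : ℂ) * Complex.I)‖) <
      ‖(a : ℂ) * (Complex.cos z * Complex.sin z) -
        Complex.I * (Complex.tanh ((p₁ : ℂ) + (r₁ : ℂ) * Complex.I) +
          Complex.tanh ((p₂ : ℂ) + (r₂ : ℂ) * Complex.I))‖ := by
  have hp3 : (3.1415 : ℝ) < π := pi_gt_d4
  have hp4 : π < (3.1416 : ℝ) := pi_lt_d4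
  have hq1 := tanh_quadrant hp1 hr1 hr1'
  have hq2 := tanh_quadrant hp2 hr2 hr2'
  set T₁ : ℂ := Complex.tanh ((p₁ : ℂ) + (r₁ : ℂ) * Complex.I) with hT₁
  set T₂ : ℂ := Complex.tanh ((p₂ : ℂ) + (r₂ : ℂ) * Complex.I) with hT₂
  have hn1 : ‖T₁‖ ≤ T₁.re + T₁.im := by
    have := Complex.norm_le_abs_re_add_abs_im T₁
    rwa [abs_of_nonneg hq1.1, abs_of_nonneg hq1.2] at this
  have hn2 : ‖T₂‖ ≤ T₂.re + T₂.im := by
    have := Complex.norm_le_abs_re_add_abs_im T₂
    rwa [abs_of_nonneg hq2.1, abs_of_nonneg hq2.2] at this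
  have hproj := proj_cs z (T₁ + T₂) a
  rw [hz, hz', Complex.add_re, Complex.add_im] at hproj
  refine lt_of_lt_of_le ?_ hproj
  rw [lt_div_iff₀ (by positivity)]
  have hX := pos_cs hR0 hR1 hI0 hk
  have hcg : cc I + gg R ≤ 2 := by
    unfold k2 at hk
    linarith
  have hmain : (cc I - gg R) / 2 * (‖T₁‖ + ‖T₂‖) * √2 <
      3 / 2 * (cc I * sin (2 * R) - gg R * sinh (2 * I)) + (‖T₁‖ + ‖T₂‖) := by
    apply D3_num (by positivity) (sin_two_pos hR0 hR1) (sin_two_sq R) (sinh_two_pos hI0).le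
      (sinh_two_sq I) hcg hX (one_le_cc I)
    · intro hg
      have hR4 : π / 4 ≤ R := by
        by_contra hcon
        push Not at hcon
        have : 0 < gg R := by
          unfold gg
          exact cos_pos_of_mem_Ioo ⟨by linarith, by linarith⟩
        linarith
      refine ⟨?_, ?_⟩
      · have h5 : cos (2 * π / 3) ≤ cos (2 * R) :=
          cos_le_cos_of_nonneg_of_le_pi (by linarith) (by linarith) (by linarith)
        have h6 : cos (2 * π / 3) = -(1 / 2) := by
          have : 2 * π / 3 = π - π / 3 := by ring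
          rw [this, cos_pi_sub, cos_pi_div_three]
        unfold gg
        linarith
      · have hb1 : ‖T₁‖ ≤ 1 := by
          apply D3_norm (u := 0) h₁ le_rfl (by norm_num) _ (by norm_num) (by norm_num)
          rw [neg_zero]
          exact cos_nonneg_of_mem_Icc ⟨by linarith, by linarith⟩
        have hb2 : ‖T₂‖ ≤ 1 := by
          apply D3_norm (u := 0) h₂ le_rfl (by norm_num) _ (by norm_num) (by norm_num)
          rw [neg_zero]
          exact cos_nonneg_of_mem_Icc ⟨by linarith, by linarith⟩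
        linarith
    · intro hg hg2
      have hR7 : 0.7 ≤ R := by
        by_contra hcon
        push Not at hcon
        have h5 : sin (π / 2 - 2 * R) = gg R := by
          unfold gg
          exact sin_pi_div_two_sub _
        have h6 : sin 0.17 ≤ sin (π / 2 - 2 * R) :=
          sin_le_sin_of_le_of_le_pi_div_two (by linarith) (by linarith) (by linarith)
        have h7 := sin_gt_sub_cube (x := 0.17) (by norm_num)
        norm_num at h7 h6
        linarith
      have hu : ∀ r : ℝ, 0 ≤ r → r ≤ π - 3 * R → -(1 / 2) ≤ cos (2 * r) := by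
        intro r hr0 hr
        have h5 : cos (2 * π / 3) ≤ cos (2 * r) :=
          cos_le_cos_of_nonneg_of_le_pi (by linarith) (by linarith) (by linarith)
        have h6 : cos (2 * π / 3) = -(1 / 2) := by
          have : 2 * π / 3 = π - π / 3 := by ring
          rw [this, cos_pi_sub, cos_pi_div_three]
        linarith
      have hb1 : ‖T₁‖ ≤ 1.7321 :=
        D3_norm (u := 1 / 2) h₁ (by norm_num) (by norm_num) (hu r₁ hr1 (by linarith))
          (by norm_num) (by norm_num)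
      have hb2 : ‖T₂‖ ≤ 1.7321 :=
        D3_norm (u := 1 / 2) h₂ (by norm_num) (by norm_num) (hu r₂ hr2 (by linarith))
          (by norm_num) (by norm_num)
      linarith
    · intro hg hg2
      have hR7 : 0.63 ≤ R := by
        by_contra hcon
        push Not at hcon
        have h5 : sin (π / 2 - 2 * R) = gg R := by
          unfold gg
          exact sin_pi_div_two_sub _
        have h6 : sin 0.31 ≤ sin (π / 2 - 2 * R) :=
          sin_le_sin_of_le_of_le_pi_div_two (by linarith) (by linarith) (by linarith)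
        have h7 := sin_gt_sub_cube (x := 0.31) (by norm_num)
        norm_num at h7 h6 hg2
        linarith
      have hu : ∀ r : ℝ, 0 ≤ r → r ≤ π - 3 * R → -(0.81 : ℝ) ≤ cos (2 * r) := by
        intro r hr0 hr
        have h5 : cos (π - 2 * r) ≤ cos 0.638 :=
          cos_le_cos_of_nonneg_of_le_pi (by norm_num) (by linarith) (by linarith)
        rw [cos_pi_sub] at h5
        have h6 := cos_bound (x := 0.638) (by norm_num [abs_le])
        have h7 := (abs_le.1 h6).2
        have h8 : |(0.638 : ℝ)| = 0.638 := abs_of_pos (by norm_num)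
        rw [h8] at h7
        norm_num at h7 h5 ⊢
        linarith
      have hb1 : ‖T₁‖ ≤ 3.09 :=
        D3_norm (u := 0.81) h₁ (by norm_num) (by norm_num) (hu r₁ hr1 (by linarith))
          (by norm_num) (by norm_num)
      have hb2 : ‖T₂‖ ≤ 3.09 :=
        D3_norm (u := 0.81) h₂ (by norm_num) (by norm_num) (hu r₂ hr2 (by linarith))
          (by norm_num) (by norm_num)
      linarith
  have haX : 3 * (cc I * sin (2 * R) - gg R * sinh (2 * I)) ≤
      a * (cc I * sin (2 * R) - gg R * sinh (2 * I)) := mul_le_mul_of_nonneg_right ha hX.le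
  unfold s2
  linarith

end Pool.Agent.S5.E
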