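import Pool.Agent.S3.E.Geo
import Pool.Agent.S3.E.GeoC
import Pool.Agent.S5.E.Ash

/-!
# Mixed chains, block E: definitions

The system of a chain in which the two slots of an edge are of opposite kind (`false`: the neighbour
enters with `conj (cos z)`, as in an alternating chain) or of the same kind (`true`: the neighbour
enters with `cos z`).
-/

set_option autoImplicit false

namespace Pool.Agent.S5.E

open Real
open Pool.Agent.S3.E (al ph tt k2 s2 cc gg PP)

/-- The slot equation `sinh (p + i r) = ρ e^{i β} tan (R + i I)` in the closed right half plane. -/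
structure Slot (R I ρ β p r : ℝ) : Prop where
  p0 : 0 ≤ p
  r0 : -(π / 2) ≤ r
  r1 : r ≤ π / 2
  ρ0 : 0 ≤ ρ
  g0 : -(π / 2) ≤ al R I + β
  g1 : al R I + β ≤ π / 2
  e1 : sinh p * cos r = ρ * tt R I * cos (al R I + β)
  e2 : cosh p * sin r = ρ * tt R I * sin (al R I + β)

/-- The vertex equation `a z = π + i (q₁ + q₂)`, `q_j = p_j + i r_j`, for a vertex with two slots
(a missing neighbour is a slot with `ρ = 0`). -/
structure Vx (a R I ρ₁ β₁ p₁ r₁ ρ₂ β₂ p₂ r₂ : ℝ) : Prop where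
  a2 : 2 ≤ a
  R0 : 0 < R
  R1 : R < π / 2
  I0 : 0 < I
  sl₁ : Slot R I ρ₁ β₁ p₁ r₁
  sl₂ : Slot R I ρ₂ β₂ p₂ r₂
  hR : a * R + r₁ + r₂ = π
  hI : a * I = p₁ + p₂

theorem Vx.swap {a R I ρ₁ β₁ p₁ r₁ ρ₂ β₂ p₂ r₂ : ℝ} (h : Vx a R I ρ₁ β₁ p₁ r₁ ρ₂ β₂ p₂ r₂) :
    Vx a R I ρ₂ β₂ p₂ r₂ ρ₁ β₁ p₁ r₁ :=
  ⟨h.a2, h.R0, h.R1, h.I0, h.sl₂, h.sl₁, by linarith [h.hR], by linarith [h.hI]⟩

/-- The sign of a slot. -/
def sg (s : Bool) : ℝ := if s then -1 else 1

/-- The conjugation of a slot. -/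
noncomputable def cj (s : Bool) (κ : ℂ) : ℂ := if s then κ else (starRingEnd ℂ) κ

/-- The exponent of a slot of kind `s`: in the first stage (`m = false`) the slots of kind `false`
are switched on, in the second stage (`m = true`) those of kind `true`. -/
def ex (m s : Bool) (τ : ℝ) : ℝ := if s = m then τ else (if m then 1 else 0)

section system

variable {ι : Type*}

/-- The coefficient `b` of a slot whose neighbour is `o` (`0` if there is no neighbour). -/
noncomputable def bo (m : Bool) (τ : ℝ) (z : ι → ℂ) (o : Option (ι × Bool)) : ℂ :=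
  match o with
  | none => 0
  | some (j, s) => Complex.exp ((ex m s τ : ℂ) * Complex.log (cj s (Complex.cos (z j))))

/-- `|b|` of a slot. -/
noncomputable def ro (m : Bool) (τ : ℝ) (z : ι → ℂ) (o : Option (ι × Bool)) : ℝ :=
  match o with
  | none => 0
  | some (j, s) => ‖Complex.cos (z j)‖ ^ (ex m s τ)

/-- `arg b` of a slot. -/
noncomputable def be (m : Bool) (τ : ℝ) (z : ι → ℂ) (o : Option (ι × Bool)) : ℝ :=
  match o with
  | none => 0
  | some (j, s) => sg s * (ex m s τ * ph (z j).re (z j).im)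

/-- The system at time `τ`. -/
noncomputable def GG (m : Bool) (a : ι → ℝ) (nl nr : ι → Option (ι × Bool)) (τ : ℝ) (z : ι → ℂ) (i : ι) : ℂ :=
  (a i : ℂ) * z i - (π : ℂ) -
    Complex.I * (as (bo m τ z (nl i) * Complex.tan (z i)) + as (bo m τ z (nr i) * Complex.tan (z i)))

/-- The basic closed region. -/
def TopA (ι : Type*) : Set (ℝ × (ι → ℂ)) :=
  {x | x.1 ∈ Set.Icc (0 : ℝ) 1 ∧ ∀ i,
    (0 ≤ (x.2 i).re ∧ (x.2 i).re ≤ π / 2 ∧ 0 ≤ (x.2 i).im ∧ (x.2 i).im ≤ 2) ∧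
    (0.49 ≤ ‖Complex.cos (x.2 i)‖ ∧ ‖Complex.cos (x.2 i)‖ ≤ 1.1 ∧
      -(Complex.cos (x.2 i)).im ≤ 1.04 * (Complex.cos (x.2 i)).re)}

/-- The compact region; `g` are further constraints. -/
def KK {κ : Type*} (m : Bool) (nl nr : ι → Option (ι × Bool)) (g : ι → κ → ℂ → ℝ) : Set (ℝ × (ι → ℂ)) :=
  {x | x ∈ TopA ι ∧ (∀ i k, 0 ≤ g i k (x.2 i)) ∧ ∀ i,
    (0 ≤ (bo m x.1 x.2 (nl i) * Complex.tan (x.2 i)).re ∧
      0 ≤ (bo m x.1 x.2 (nr i) * Complex.tan (x.2 i)).re)}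

/-- The combinatorics: every vertex has at least one neighbour, and the relation is symmetric. -/
structure Nbr (nl nr : ι → Option (ι × Bool)) : Prop where
  ne : ∀ i, nl i ≠ none ∨ nr i ≠ none
  symm : ∀ i j s, (nl i = some (j, s) ∨ nr i = some (j, s)) → (nl j = some (i, s) ∨ nr j = some (i, s))

end system

end Pool.Agent.S5.E
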