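import Pool.Agent.S5.E.V3B
import Pool.Agent.S5.E.Asm

/-!
# Mixed chains, block E: the condition `Quad` at the vertices with three or more twists
-/

set_option autoImplicit false
set_option maxHeartbeats 4000000

namespace Pool.Agent.S5.E

open Real
open Pool.Agent.S3.E (al ph tt k2 s2 cc gg tt_pos tt_sq k2_pos s2_pos al_pos al_lt tan_al GeoX_k2
  GeoX_sin_pos GeoX_cos_pos)

variable {a R I ρ₁ β₁ p₁ r₁ ρ₂ β₂ p₂ r₂ : ℝ}

/-- `T x (1 - m²) = m (1 + x²)`. -/
theorem T_xm' {R I : ℝ} (h : 0 < R) (h' : R < π / 2) :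
    TT R I * (tan R * (1 - tanh I ^ 2)) = tanh I * (1 + tan R ^ 2) := by
  have h1 := T_xm (I := I) h h'
  have hx := tan_pos' h h'
  have h2 : (TT R I * (tan R * (1 - tanh I ^ 2))) * tan R =
      (tanh I * (1 + tan R ^ 2)) * tan R := by
    linear_combination h1
  exact mul_right_cancel₀ hx.ne' h2

/-- `Re t (1 + F²) = x (1 - m²)`. -/
theorem tr_xm {R I : ℝ} (h : 0 < R) (h' : R < π / 2) :
    tt R I * cos (al R I) * (1 + (tan R * tanh I) ^ 2) = tan R * (1 - tanh I ^ 2) := by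
  have hx := tan_pos' h h'
  have h1 := T_xm' (I := I) h h'
  have h2 := t_xm (I := I) h h'
  have hT : TT R I = tan (al R I) := rfl
  have hc : 0 < cos (al R I) := by
    unfold al
    exact cos_arctan_pos _
  have h3 : TT R I * cos (al R I) = sin (al R I) := by
    rw [hT]
    exact tan_mul_cos hc.ne'
  have h4 := sin_sq_add_cos_sq (al R I)
  have ht := tt_pos (I := I) h h'
  have hm1 : tanh I < 1 := tanh_lt_one I
  have hm2 : -1 < tanh I := neg_one_lt_tanh I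
  have h5 : 0 < 1 - tanh I ^ 2 := by linarith only [mul_pos (sub_pos.2 hm1) (sub_pos.2 hm2)]
  obtain ⟨x, hxe⟩ : ∃ x, x = tan R := ⟨_, rfl⟩
  obtain ⟨m, hme⟩ : ∃ m, m = tanh I := ⟨_, rfl⟩
  obtain ⟨c, hce⟩ : ∃ c, c = cos (al R I) := ⟨_, rfl⟩
  obtain ⟨s, hse⟩ : ∃ s, s = sin (al R I) := ⟨_, rfl⟩
  obtain ⟨t, hte⟩ : ∃ t, t = tt R I := ⟨_, rfl⟩
  obtain ⟨T, hTe⟩ : ∃ T, T = TT R I := ⟨_, rfl⟩
  rw [← hxe, ← hme, ← hce, ← hte]
  rw [← hce] at hc
  rw [← hxe] at hx
  rw [← hxe, ← hme, ← hTe] at h1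
  rw [← hxe, ← hme, ← hte] at h2
  rw [← hTe, ← hce, ← hse] at h3
  rw [← hce, ← hse] at h4
  rw [← hme] at h5
  rw [← hte] at ht
  -- `(t c (1 + F²))² (x² + m²) = (x (1 - m²))² (x² + m²)`
  have h6 : (t * c * (1 + (x * m) ^ 2)) ^ 2 * (x ^ 2 + m ^ 2) =
      (x * (1 - m ^ 2)) ^ 2 * (x ^ 2 + m ^ 2) := by
    have e1 : (x ^ 2 + m ^ 2) * (1 + (x * m) ^ 2) =
        (x * (1 - m ^ 2)) ^ 2 * (1 + T ^ 2) := by
      have : (x * (1 - m ^ 2)) ^ 2 * (1 + T ^ 2) =
          (x * (1 - m ^ 2)) ^ 2 + (T * (x * (1 - m ^ 2))) ^ 2 := by ring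
      rw [this, h1]
      ring
    have e2 : c ^ 2 * (1 + T ^ 2) = 1 := by
      have e3 : c ^ 2 * (1 + T ^ 2) = c ^ 2 + (T * c) ^ 2 := by ring
      rw [e3, h3]
      linarith only [h4]
    calc (t * c * (1 + (x * m) ^ 2)) ^ 2 * (x ^ 2 + m ^ 2) =
        t ^ 2 * (1 + (x * m) ^ 2) * c ^ 2 * ((x ^ 2 + m ^ 2) * (1 + (x * m) ^ 2)) := by ring
      _ = (x ^ 2 + m ^ 2) * (x * (1 - m ^ 2)) ^ 2 * (c ^ 2 * (1 + T ^ 2)) := by
        rw [h2, e1]
        ring
      _ = _ := by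
        rw [e2]
        ring
  have h7 : 0 < x ^ 2 + m ^ 2 := by positivity
  have h8 := mul_right_cancel₀ h7.ne' h6
  have h9 : 0 < t * c * (1 + (x * m) ^ 2) := by positivity
  have h10 : 0 < x * (1 - m ^ 2) := mul_pos hx h5
  exact (pow_left_inj₀ h9.le h10.le (two_ne_zero)).1 h8

/-- `Im t (1 + F²) = m (1 + x²)`. -/
theorem ti_xm {R I : ℝ} (h : 0 < R) (h' : R < π / 2) :
    tt R I * sin (al R I) * (1 + (tan R * tanh I) ^ 2) = tanh I * (1 + tan R ^ 2) := by
  have h1 := T_xm' (I := I) h h'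
  have h2 := tr_xm (I := I) h h'
  have hT : TT R I = tan (al R I) := rfl
  have hc : 0 < cos (al R I) := by
    unfold al
    exact cos_arctan_pos _
  have h3 : TT R I * cos (al R I) = sin (al R I) := by
    rw [hT]
    exact tan_mul_cos hc.ne'
  rw [← h3, ← h1]
  linear_combination TT R I * h2

/-- `2 F² + m² < x²` if `|cos z| < 1`. -/
theorem k_xm {R I : ℝ} (h : 0 < R) (h' : R < π / 2) (hk : k2 R I < 1) :
    2 * (tan R * tanh I) ^ 2 + tanh I ^ 2 < tan R ^ 2 := by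
  have hc := GeoX_cos_pos h h'
  have hch := cosh_pos I
  have h1 := cosh_sq I
  have h2 := sin_sq_add_cos_sq R
  rw [GeoX_k2] at hk
  have h3 : 0 < cos R ^ 2 * cosh I ^ 2 := by positivity
  have e1 : (2 * (tan R * tanh I) ^ 2 + tanh I ^ 2) * (cos R ^ 2 * cosh I ^ 2) =
      2 * (sin R ^ 2 * sinh I ^ 2) + sinh I ^ 2 * cos R ^ 2 := by
    rw [tan_eq_sin_div_cos, tanh_eq_sinh_div_cosh]
    field_simp
  have e2 : tan R ^ 2 * (cos R ^ 2 * cosh I ^ 2) = sin R ^ 2 * cosh I ^ 2 := by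
    rw [tan_eq_sin_div_cos]
    field_simp
  have h4 : (2 * (tan R * tanh I) ^ 2 + tanh I ^ 2) * (cos R ^ 2 * cosh I ^ 2) <
      tan R ^ 2 * (cos R ^ 2 * cosh I ^ 2) := by
    rw [e1, e2, h1]
    have h5 : sin R ^ 2 = 1 - cos R ^ 2 := by linarith only [h2]
    rw [h5]
    linarith only [h1, hk]
  exact lt_of_mul_lt_mul_right h4 h3.le

/-- Algebra of `Vx.quad_im`. -/
private theorem quad_alg {x m F tr ti : ℝ} (hx : 0 < x) (hm : 0 < m) (hm1 : m < 1)
    (hFe : F = x * m) (hk : 2 * F ^ 2 + m ^ 2 < x ^ 2) (hF : F < 0.8086) (hX : x ^ 2 ≤ 4.56)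
    (htr : tr * (1 + F ^ 2) = x * (1 - m ^ 2)) (hti : ti * (1 + F ^ 2) = m * (1 + x ^ 2)) :
    0 < tr ∧ 0 < ti ∧ tr ≤ x ∧ ti ^ 2 - tr ^ 2 < 0.8 ∧ -4.56 ≤ ti ^ 2 - tr ^ 2 := by
  have hF0 : 0 < F := by rw [hFe]; positivity
  have hF2 : F ^ 2 < 0.6539 := by
    have h1 : F ^ 2 < 0.8086 ^ 2 := pow_lt_pow_left₀ hF hF0.le two_ne_zero
    norm_num at h1 ⊢
    linarith only [h1, hm1, hm]
  have hF3 : 0 < 1 + F ^ 2 := by positivity
  have hm2 : m ^ 2 < 1 := by
    have := pow_lt_pow_left₀ hm1 hm.le (n := 2) two_ne_zero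
    linarith only [this]
  have htr0 : 0 < tr := by
    have : 0 < tr * (1 + F ^ 2) := by
      rw [htr]
      exact mul_pos hx (by linarith only [hm2])
    exact pos_of_mul_pos_left this hF3.le
  have hti0 : 0 < ti := by
    have : 0 < ti * (1 + F ^ 2) := by
      rw [hti]
      positivity
    exact pos_of_mul_pos_left this hF3.le
  have htrx : tr ≤ x := by
    have h1 : tr * (1 + F ^ 2) ≤ x * (1 + F ^ 2) := by
      rw [htr]
      apply mul_le_mul_of_nonneg_left _ hx.le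
      linarith only [sq_nonneg F, sq_nonneg m]
    exact le_of_mul_le_mul_right h1 hF3
  have htr2 : tr ^ 2 ≤ 4.56 := (pow_le_pow_left₀ htr0.le htrx 2).trans hX
  refine ⟨htr0, hti0, htrx, ?_, by linarith only [sq_nonneg ti, htr2]⟩
  have h1 : (ti ^ 2 - tr ^ 2) * (1 + F ^ 2) ^ 2 =
      4 * F ^ 2 - (x ^ 2 - m ^ 2) * (1 - F ^ 2) := by
    have : (ti ^ 2 - tr ^ 2) * (1 + F ^ 2) ^ 2 =
        (ti * (1 + F ^ 2)) ^ 2 - (tr * (1 + F ^ 2)) ^ 2 := by ring
    rw [this, htr, hti, hFe]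
    ring
  have h2 : (ti ^ 2 - tr ^ 2) * (1 + F ^ 2) ^ 2 < 0.8 * (1 + F ^ 2) ^ 2 := by
    rw [h1]
    have h3 : 2 * F ^ 2 * (1 - F ^ 2) ≤ (x ^ 2 - m ^ 2) * (1 - F ^ 2) :=
      mul_le_mul_of_nonneg_right (by linarith only [hk]) (by linarith only [hF2, hm1, hm])
    have h4 : 0 < (0.6539 - F ^ 2) * (1 + F ^ 2) := mul_pos (by linarith only [hF2]) hF3
    linarith only [h4, h3, hF3]
  exact lt_of_mul_lt_mul_right h2 (by positivity)

/-- `Im (κ + i cosh q) > 0`. -/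
theorem Vx.quad_im (h : Vx a R I ρ₁ β₁ p₁ r₁ ρ₂ β₂ p₂ r₂) (ha : 3 ≤ a) (i₁ : In ρ₁ β₁)
    (i₂ : In ρ₂ β₂) {u v : ℝ} (hu : ρ₁ * cos β₁ = u) (hv : ρ₁ * sin β₁ = -v)
    (u0 : 0 < u) (v0 : 0 ≤ v) : v < cosh p₁ * cos r₁ := by
  have hR0 := h.R0
  have hR1 := h.R1
  have hI0 := h.I0
  have hx := tan_pos' hR0 hR1
  have hm := tanh_pos hI0
  have hm1 : tanh I < 1 := tanh_lt_one I
  have hk := k_xm hR0 hR1 (h.K3 ha i₁ i₂)
  have hF := h.F3 ha i₁ i₂
  have hX := h.tan_sq ha i₁ i₂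
  have htr := tr_xm (I := I) hR0 hR1
  have hti := ti_xm (I := I) hR0 hR1
  have e1 := h.sl₁.e1
  have e2 := h.sl₁.e2
  have hcr := h.sl₁.cosr
  have hρ := i₁.sq h.sl₁.ρ0
  have huv : u ^ 2 + v ^ 2 ≤ 1.21 := by
    have : u ^ 2 + v ^ 2 = ρ₁ ^ 2 := by
      have h1 := sin_sq_add_cos_sq β₁
      have h2 : v = -(ρ₁ * sin β₁) := by linarith only [hv]
      rw [← hu, h2]
      linear_combination ρ₁ ^ 2 * h1
    linarith only [this, hρ]
  have hvu : v ≤ 1.04 * u := by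
    have h1 := mul_le_mul_of_nonneg_left i₁.lo h.sl₁.ρ0
    have h2 : ρ₁ * -(1.04 * cos β₁) = -(1.04 * u) := by
      rw [← hu]
      ring
    linarith only [h1, hv, hu]
  obtain ⟨tr, htre⟩ : ∃ tr, tr = tt R I * cos (al R I) := ⟨_, rfl⟩
  obtain ⟨ti, htie⟩ : ∃ ti, ti = tt R I * sin (al R I) := ⟨_, rfl⟩
  have hA : sinh p₁ * cos r₁ = u * tr + v * ti := by
    rw [e1, cos_add, htre, htie]
    have h2 : v = -(ρ₁ * sin β₁) := by linarith only [hv]
    rw [← hu, h2]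
    ring
  have hB : cosh p₁ * sin r₁ = u * ti - v * tr := by
    rw [e2, sin_add, htre, htie]
    have h2 : v = -(ρ₁ * sin β₁) := by linarith only [hv]
    rw [← hu, h2]
    ring
  rw [← htre] at htr
  rw [← htie] at hti
  obtain ⟨x, hxe⟩ : ∃ x, x = tan R := ⟨_, rfl⟩
  obtain ⟨m, hme⟩ : ∃ m, m = tanh I := ⟨_, rfl⟩
  rw [← hxe] at hx hX
  rw [← hme] at hm hm1
  rw [← hxe, ← hme] at hk hF htr hti
  obtain ⟨htr0, hti0, -, hΔ, hΔ'⟩ := quad_alg hx hm hm1 rfl hk hF hX htr hti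
  have key : 0 < 1 + (u * tr + v * ti) ^ 2 - (u * ti - v * tr) ^ 2 - v ^ 2 := by
    have h1 : 1 + (u * tr + v * ti) ^ 2 - (u * ti - v * tr) ^ 2 - v ^ 2 =
        1 + (v ^ 2 - u ^ 2) * (ti ^ 2 - tr ^ 2) - v ^ 2 + 4 * (u * v * (tr * ti)) := by ring
    rw [h1]
    have h2 : 0 ≤ 4 * (u * v * (tr * ti)) := by positivity
    have hvu2 : v ^ 2 ≤ 1.0816 * u ^ 2 := by
      have h3 := pow_le_pow_left₀ v0 hvu 2
      rw [mul_pow] at h3
      norm_num at h3 ⊢
      linarith only [h3]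
    have hv2 : v ^ 2 ≤ 0.63 := by linarith only [hvu2, hm, hm1, huv]
    rcases le_or_gt (ti ^ 2 - tr ^ 2) 0 with h3 | h3
    · rcases le_total (v ^ 2) (u ^ 2) with h4 | h4
      · have h5 : 0 ≤ (v ^ 2 - u ^ 2) * (ti ^ 2 - tr ^ 2) :=
          mul_nonneg_of_nonpos_of_nonpos (by linarith only [h4]) h3
        linarith only [h5, h4, h2, hm, hm1, huv]
      · have h5 : -(4.56 * (v ^ 2 - u ^ 2)) ≤ (v ^ 2 - u ^ 2) * (ti ^ 2 - tr ^ 2) := by
          have h7 := mul_le_mul_of_nonneg_left hΔ' (show 0 ≤ v ^ 2 - u ^ 2 by linarith only [h4])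
          linarith only [h7]
        have h6 : v ^ 2 - u ^ 2 ≤ 0.0816 * u ^ 2 := by linarith only [hvu2]
        linarith only [h5, hvu2, h2, hm, hm1, huv]
    · rcases le_total (v ^ 2) (u ^ 2) with h4 | h4
      · have h5 : -(0.8 * (u ^ 2 - v ^ 2)) ≤ (v ^ 2 - u ^ 2) * (ti ^ 2 - tr ^ 2) := by
          have h7 := mul_le_mul_of_nonneg_left hΔ.le (show 0 ≤ u ^ 2 - v ^ 2 by linarith only [h4])
          linarith only [h7]
        have h6 := sq_nonneg v
        linarith only [h6, h5, h2, hm, hm1, huv]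
      · have h5 : 0 ≤ (v ^ 2 - u ^ 2) * (ti ^ 2 - tr ^ 2) := mul_nonneg (by linarith only [h4]) h3.le
        linarith only [h5, hvu2, h2, hm, hm1, huv]
  have h1 : 1 + (u * tr + v * ti) ^ 2 - (u * ti - v * tr) ^ 2 ≤ (cosh p₁ * cos r₁) ^ 2 := by
    rw [← hA, ← hB]
    have h2 := cosh_sq p₁
    have h3 := sin_sq_add_cos_sq r₁
    have h4 : (cosh p₁ * cos r₁) ^ 2 - (1 + (sinh p₁ * cos r₁) ^ 2 - (cosh p₁ * sin r₁) ^ 2) =
        sinh p₁ ^ 2 * sin r₁ ^ 2 := by
      simp only [mul_pow]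
      rw [h2]
      linear_combination h3
    have h5 : 0 ≤ sinh p₁ ^ 2 * sin r₁ ^ 2 := by positivity
    linarith only [h5, h4]
  have h2 : v ^ 2 < (cosh p₁ * cos r₁) ^ 2 := by linarith only [h1, key]
  exact lt_of_pow_lt_pow_left₀ 2 (mul_nonneg (cosh_pos p₁).le hcr) h2

/-- Algebra of `Vx.quad_re`, `x² ≤ 3`. -/
private theorem quad_alg3 {x m F ti s q : ℝ} (hx : 0 < x) (hm : 0 < m) (hm1 : m < 1)
    (hFe : F = x * m) (hF : F < 0.8086) (hx3 : x ^ 2 ≤ 3)
    (hti : ti * (1 + F ^ 2) = m * (1 + x ^ 2)) (hq : q * (1 + F ^ 2) = x ^ 2 + m ^ 2)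
    (ht0 : 0 < ti) (hs0 : 0 ≤ s) (hs : s ≤ 1.21 * q) : s * (ti ^ 2 - 1) < 1 := by
  have hF0 : 0 < F := by rw [hFe]; positivity
  have hF2 : F ^ 2 ≤ 0.65384 := by
    have h1 : F ^ 2 ≤ 0.8086 ^ 2 := pow_le_pow_left₀ hF0.le hF.le 2
    norm_num at h1 ⊢
    linarith only [h1, hm1, hm]
  have hF3 : 0 < 1 + F ^ 2 := by positivity
  have hFe2 : F ^ 2 = m ^ 2 * x ^ 2 := by rw [hFe]; ring
  rcases le_or_gt (x ^ 2) 1 with hx1 | hx1
  · have h5 : ti * (1 + F ^ 2) ≤ 1 * (1 + F ^ 2) := by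
      rw [hti, hFe2]
      have h6 : 0 ≤ (1 - m) * (1 - m * x ^ 2) := by
        refine mul_nonneg (by linarith only [hm1]) ?_
        have := mul_le_mul hm1.le hx1 (sq_nonneg x) zero_le_one
        linarith only [this]
      have e : 1 * (1 + m ^ 2 * x ^ 2) - m * (1 + x ^ 2) = (1 - m) * (1 - m * x ^ 2) := by ring
      linarith only [h6]
    have h6 : ti ≤ 1 := le_of_mul_le_mul_right h5 hF3
    have h7 : ti ^ 2 ≤ 1 := pow_le_one₀ ht0.le h6
    have h8 := mul_nonpos_of_nonneg_of_nonpos hs0 (show ti ^ 2 - 1 ≤ 0 by linarith only [h7])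
    linarith only [h8, hm1, hm]
  · have hq3 : q ≤ 3 := by
      have h5 : q * (1 + F ^ 2) ≤ 3 * (1 + F ^ 2) := by
        rw [hq, hFe2]
        have h6 : m ^ 2 * 1 ≤ m ^ 2 * x ^ 2 := mul_le_mul_of_nonneg_left hx1.le (sq_nonneg m)
        have h7 := sq_nonneg m
        linarith only [h7, h6, hx3]
      exact le_of_mul_le_mul_right h5 hF3
    have hti2 : ti ^ 2 ≤ 1.275 := by
      have h5 : ti ^ 2 * (1 + F ^ 2) ^ 2 ≤ 1.275 * (1 + F ^ 2) ^ 2 := by
        have h6 : ti ^ 2 * (1 + F ^ 2) ^ 2 = (ti * (1 + F ^ 2)) ^ 2 := by ring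
        rw [h6, hti]
        have h7 : 3 * (1 + x ^ 2) ^ 2 ≤ 16 * x ^ 2 := by
          have h8 : 0 ≤ (3 * x ^ 2 - 1) * (3 - x ^ 2) := mul_nonneg (by linarith only [hx1, hm1, hm]) (by linarith only [hx3])
          linarith only [h8]
        have h8 : 3 * (m * (1 + x ^ 2)) ^ 2 ≤ 16 * F ^ 2 := by
          have h9 := mul_le_mul_of_nonneg_left h7 (sq_nonneg m)
          rw [hFe2]
          linarith only [h9]
        have h10 : 16 * F ^ 2 ≤ 3.825 * (1 + F ^ 2) ^ 2 := by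
          have h11 : 0 ≤ (0.65384 - F ^ 2) * (1.52923 - F ^ 2) :=
            mul_nonneg (by linarith only [hF2]) (by linarith only [hF2, hm1, hm])
          linarith only [h11, hF3, hm1, hm]
        linarith only [h10, h8]
      exact le_of_mul_le_mul_right h5 (by positivity)
    have h5 : s * (ti ^ 2 - 1) ≤ 1.21 * 3 * 0.275 := by
      rcases le_total (ti ^ 2 - 1) 0 with h6 | h6
      · have := mul_nonpos_of_nonneg_of_nonpos hs0 h6
        linarith only [this, hm1, hm]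
      · apply mul_le_mul _ (by linarith only [hti2]) h6 (by norm_num)
        linarith only [hq3, hs]
    linarith only [h5, hm1, hm]

/-- `Re (κ + i cosh q) > 0`. -/
theorem Vx.quad_re (h : Vx a R I ρ₁ β₁ p₁ r₁ ρ₂ β₂ p₂ r₂) (ha : a = 3 ∨ 4 ≤ a) (i₁ : In ρ₁ β₁)
    (i₂ : In ρ₂ β₂) {u v : ℝ} (hu : ρ₁ * cos β₁ = u) (hv : ρ₁ * sin β₁ = -v)
    (u0 : 0 < u) (v0 : 0 ≤ v) : sinh p₁ * sin r₁ < u := by
  have ha3 : 3 ≤ a := by rcases ha with h1 | h1 <;> linarith only [h1]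
  have hR0 := h.R0
  have hR1 := h.R1
  have hI0 := h.I0
  have hx := tan_pos' hR0 hR1
  have hm := tanh_pos hI0
  have hm1 : tanh I < 1 := tanh_lt_one I
  have hk := k_xm hR0 hR1 (h.K3 ha3 i₁ i₂)
  have hF := h.F3 ha3 i₁ i₂
  have hX := h.tan_sq ha3 i₁ i₂
  have htr := tr_xm (I := I) hR0 hR1
  have hti := ti_xm (I := I) hR0 hR1
  have htt := t_xm (I := I) hR0 hR1
  have e1 := h.sl₁.e1
  have e2 := h.sl₁.e2
  have hcr := h.sl₁.cosr
  have hs0 := h.sl₁.sinh0
  have hρ := i₁.sq h.sl₁.ρ0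
  have hsle := h.sl₁.sinh_sq_le
  have hvu : v ≤ 1.04 * u := by
    have h1 := mul_le_mul_of_nonneg_left i₁.lo h.sl₁.ρ0
    have h2 : ρ₁ * -(1.04 * cos β₁) = -(1.04 * u) := by
      rw [← hu]
      ring
    linarith only [h1, hv, hu]
  have hch := cosh_pos p₁
  rcases le_or_gt (sin r₁) 0 with hsr | hsr
  · have := mul_nonpos_of_nonneg_of_nonpos hs0 hsr
    linarith only [this, u0]
  have hr0 : 0 < r₁ := by
    by_contra hc
    push Not at hc
    have := sin_nonpos_of_nonpos_of_neg_pi_le hc (by linarith only [h.sl₁.r0, hR1, hR0])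
    linarith only [this, hsr]
  obtain ⟨tr, htre⟩ : ∃ tr, tr = tt R I * cos (al R I) := ⟨_, rfl⟩
  obtain ⟨ti, htie⟩ : ∃ ti, ti = tt R I * sin (al R I) := ⟨_, rfl⟩
  have hA : sinh p₁ * cos r₁ = u * tr + v * ti := by
    rw [e1, cos_add, htre, htie]
    have h2 : v = -(ρ₁ * sin β₁) := by linarith only [hv]
    rw [← hu, h2]
    ring
  have hB : cosh p₁ * sin r₁ = u * ti - v * tr := by
    rw [e2, sin_add, htre, htie]
    have h2 : v = -(ρ₁ * sin β₁) := by linarith only [hv]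
    rw [← hu, h2]
    ring
  rw [← htre] at htr
  rw [← htie] at hti
  have hTm := T_xm' (I := I) hR0 hR1
  have hF3' : 0 < 1 + (tan R * tanh I) ^ 2 := by positivity
  have hTti : ti = TT R I * tr := by
    have h1 : ti * (1 + (tan R * tanh I) ^ 2) = TT R I * tr * (1 + (tan R * tanh I) ^ 2) := by
      rw [hti, ← hTm]
      linear_combination (-TT R I) * htr
    exact mul_right_cancel₀ hF3'.ne' h1
  obtain ⟨htr0, hti0, htrx, -, -⟩ := quad_alg hx hm hm1 rfl hk hF hX htr hti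
  rcases le_or_gt (tan R ^ 2) 3 with hx3 | hx3
  · -- `x² ≤ 3`
    by_contra hcon
    push Not at hcon
    have h1 : cosh p₁ * u ≤ sinh p₁ * (u * ti) := by
      have h2 : cosh p₁ * u ≤ cosh p₁ * (sinh p₁ * sin r₁) := mul_le_mul_of_nonneg_left hcon hch.le
      have h3 : cosh p₁ * (sinh p₁ * sin r₁) = sinh p₁ * (u * ti) - sinh p₁ * (v * tr) := by
        rw [← mul_sub, ← hB]
        ring
      have h4 : 0 ≤ sinh p₁ * (v * tr) := by positivity
      linarith only [h4, h3, h2]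
    have h2 : cosh p₁ ≤ sinh p₁ * ti := by
      have h3 : cosh p₁ * u ≤ sinh p₁ * ti * u := by linarith only [h1]
      exact le_of_mul_le_mul_right h3 u0
    have h3 : cosh p₁ ^ 2 ≤ (sinh p₁ * ti) ^ 2 := pow_le_pow_left₀ hch.le h2 2
    have h4 : 1 ≤ sinh p₁ ^ 2 * (ti ^ 2 - 1) := by
      rw [cosh_sq, mul_pow] at h3
      linarith only [h3]
    have hq0 := sq_nonneg (tt R I)
    rw [mul_pow] at hsle
    have h5 := quad_alg3 hx hm hm1 rfl hF hx3 hti htt hti0 (sq_nonneg (sinh p₁))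
      (hsle.trans (mul_le_mul_of_nonneg_right hρ hq0))
    linarith only [h5, h4]
  · -- `x² > 3`
    have hR3 : π / 3 < R := by
      by_contra hc
      push Not at hc
      have h1 : tan R ≤ tan (π / 3) := by
        rcases hc.eq_or_lt with h2 | h2
        · rw [h2]
        · exact (tan_lt_tan_of_lt_of_lt_pi_div_two (by linarith only [hR1, hR0]) (by linarith only [hR1,
                                                                                       hR0])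
            h2).le
      rw [tan_pi_div_three] at h1
      have h2 := pow_le_pow_left₀ hx.le h1 2
      rw [sq_sqrt (by norm_num : (0 : ℝ) ≤ 3)] at h2
      linarith only [h2, hx3]
    have hT : TT R I < 1.04 := by
      by_contra hc
      push Not at hc
      have := h.R_le' ha3 i₁ i₂ hc
      linarith only [this, hR3]
    have hT0 := h.T0
    have hG := GA_nonneg hT0.le hT.le
    have hr₂ := h.sl₂.r_ge hR0 hR1 hI0 i₂
    rw [arctan_neg] at hr₂
    rcases ha with ha | ha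
    · -- `a = 3`
      have h1 : r₁ < arctan (GA (TT R I) * tanh p₂) := by
        have := h.hR
        rw [ha] at this
        linarith only [this, hr₂, hR3]
      have h2 : tan r₁ ≤ GA (TT R I) * tanh p₂ := by
        rw [← tan_arctan (GA (TT R I) * tanh p₂)]
        exact (tan_lt_tan_of_lt_of_lt_pi_div_two (by linarith only [hr0, hR1, hR0])
          (arctan_lt_pi_div_two _) h1).le
      have h3 : tanh p₂ ≤ 3 * I := by
        have h4 := tanh_le h.sl₂.p0
        have h5 := h.hI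
        rw [ha] at h5
        linarith only [h.sl₁.p0, h5, h4]
      have h4 : tan r₁ ≤ GA (TT R I) * (3 * I) :=
        h2.trans (mul_le_mul_of_nonneg_left h3 hG)
      have hcr' : 0 < cos r₁ := cos_pos_of_mem_Ioo ⟨by linarith only [hr0, hR1, hR0], by
        linarith only [arctan_lt_pi_div_two (GA (TT R I) * tanh p₂), h1]⟩
      have h5 : sinh p₁ * sin r₁ = (u * tr + v * ti) * tan r₁ := by
        rw [← hA, tan_eq_sin_div_cos]
        field_simp
      have h6 : u * tr + v * ti ≤ u * tr * (1 + 1.04 * TT R I) := by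
        have : v * ti ≤ 1.04 * u * ti := mul_le_mul_of_nonneg_right hvu hti0.le
        rw [hTti] at this ⊢
        linarith only [this]
      have h7 : 0 ≤ tan r₁ := (tan_pos_of_pos_of_lt_pi_div_two hr0 (by
        linarith only [arctan_lt_pi_div_two (GA (TT R I) * tanh p₂), h1])).le
      have h8 : (u * tr + v * ti) * tan r₁ ≤
          u * tr * (1 + 1.04 * TT R I) * (GA (TT R I) * (3 * I)) :=
        mul_le_mul h6 h4 h7 (by positivity)
      have h9 : (1 + 1.04 * TT R I) * GA (TT R I) = 1.04 - TT R I := by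
        unfold GA
        have : 0 < 1 + 1.04 * TT R I := by positivity
        field_simp
      have h10 := two_I_le hR0 hR1 hI0
      have h11 : sin (2 * R) ≤ 1 := sin_le_one _
      have h12 : 2 * I ≤ TT R I := by
        have := mul_le_mul_of_nonneg_left h11 hT0.le
        linarith only [this, h10]
      have h13 : (1.04 - TT R I) * (3 * I) ≤ 0.4056 := by
        have h14 : (1.04 - TT R I) * (3 * I) ≤ (1.04 - TT R I) * (1.5 * TT R I) :=
          mul_le_mul_of_nonneg_left (by linarith only [h12]) (by linarith only [hT])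
        linarith only [sq_nonneg (TT R I - 0.52), h14]
      have h14 : tr ≤ 2.136 := by
        apply htrx.trans
        apply abs_le_of_sq_le_sq' _ (by norm_num) |>.2
        norm_num at hX ⊢
        linarith only [hX, hm1, hm]
      have h15 : u * tr * (1 + 1.04 * TT R I) * (GA (TT R I) * (3 * I)) =
          u * tr * ((1.04 - TT R I) * (3 * I)) := by
        rw [← h9]
        ring
      have h16 : u * tr * ((1.04 - TT R I) * (3 * I)) ≤ u * 2.136 * 0.4056 := by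
        apply mul_le_mul _ h13 (mul_nonneg (by linarith only [hT]) (by linarith only [hI0])) (by positivity)
        exact mul_le_mul_of_nonneg_left h14 u0.le
      rw [h5]
      linarith only [h16, h15, h8, u0]
    · -- `a ≥ 4` is impossible
      exfalso
      have h1 : GA (TT R I) * tanh p₂ ≤ 1.04 := by
        have h2 : GA (TT R I) ≤ 1.04 := by
          unfold GA
          rw [div_le_iff₀ (by positivity)]
          linarith only [hT0]
        have h3 := tanh_nonneg h.sl₂.p0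
        have h4 := (tanh_lt_one p₂).le
        calc GA (TT R I) * tanh p₂ ≤ 1.04 * 1 := mul_le_mul h2 h4 h3 (by norm_num)
          _ = 1.04 := by norm_num
      have h2 : arctan (GA (TT R I) * tanh p₂) ≤ 1.04 :=
        (arctan_le (mul_nonneg hG (tanh_nonneg h.sl₂.p0))).trans h1
      have h3 : 4 * R ≤ a * R := mul_le_mul_of_nonneg_right ha hR0.le
      have hp1 := pi_gt_d4
      linarith only [h.hR, hp1, h3, h2, hr₂, hR3, hr0, hm1, hm]

end Pool.Agent.S5.E
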