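import Pool.Agent.S5.E.Quad3
import Pool.Agent.S5.E.Crt

/-!
# Mixed chains, block E: the crude bounds of the slots of a zero, and `Quad` for `a ≥ 3`
-/

set_option autoImplicit false

namespace Pool.Agent.S5.E

open Complex
open Pool.Agent.S5.E.B2
open Pool.Agent.S3.E (al ph tt k2 s2 cc gg PP tan_ph ph_lt)
open Pool.Agent.S5.G (kp_true CrtM)

namespace Zr

variable {ι κ : Type*} {m : Bool} {a : ι → ℝ} {nl nr : ι → Option (ι × Bool)}
  {g : ι → κ → ℂ → ℝ} {τ : ℝ} {z : ι → ℂ}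

/-- `φ ≤ arctan 1.04`. -/
theorem ph_le_b (h : Zr m a nl nr g τ z) (j : ι) : ph (z j).re (z j).im ≤ Real.arctan 1.04 := by
  have h1 := (h.K.1.2 j).2.2.2
  change -(cos (z j)).im ≤ 1.04 * (cos (z j)).re at h1
  rw [h.cos_im, h.cos_re] at h1
  have h2 : Real.sin (ph (z j).re (z j).im) ≤ 1.04 * Real.cos (ph (z j).re (z j).im) := by
    apply le_of_mul_le_mul_left _ (h.norm_pos j)
    linarith
  have h3 : 0 < Real.cos (ph (z j).re (z j).im) :=
    Real.cos_pos_of_mem_Ioo ⟨by linarith [h.phpos j, Real.pi_pos], h.phlt j⟩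
  have h4 : Real.tan (ph (z j).re (z j).im) ≤ 1.04 := by
    rw [Real.tan_eq_sin_div_cos, div_le_iff₀ h3]
    exact h2
  calc ph (z j).re (z j).im = Real.arctan (Real.tan (ph (z j).re (z j).im)) :=
        (Real.arctan_tan (by linarith [h.phpos j, Real.pi_pos]) (h.phlt j)).symm
    _ ≤ Real.arctan 1.04 := Real.arctan_mono h4

/-- The crude bounds of a slot. -/
theorem in_slot (h : Zr m a nl nr g τ z) (o : Option (ι × Bool)) :
    In (ro m τ z o) (be m τ z o) := by
  have hb : (0 : ℝ) < Real.arctan 1.04 := Real.arctan_pos.2 (by norm_num)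
  rcases o with _ | ⟨j, s⟩
  · refine ⟨?_, Or.inl rfl, ?_, ?_⟩
    · show (0 : ℝ) ≤ 1.1
      norm_num
    · show -Real.arctan 1.04 ≤ 0
      linarith
    · show (0 : ℝ) ≤ Real.arctan 1.04
      exact hb.le
  · obtain ⟨e0, e1⟩ := h.ex_mem s
    have hk0 : (0.49 : ℝ) ≤ ‖cos (z j)‖ := (h.K.1.2 j).2.1
    have hk1 : ‖cos (z j)‖ ≤ 1.1 := (h.K.1.2 j).2.2.1
    have hkp := h.norm_pos j
    have hp := h.phpos j
    have hp' := h.ph_le_b j
    have hm0 : 0 ≤ ex m s τ * ph (z j).re (z j).im := mul_nonneg e0 hp.le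
    have hm1 : ex m s τ * ph (z j).re (z j).im ≤ Real.arctan 1.04 := by
      have : ex m s τ * ph (z j).re (z j).im ≤ 1 * ph (z j).re (z j).im :=
        mul_le_mul_of_nonneg_right e1 hp.le
      linarith
    refine ⟨?_, Or.inr ?_, ?_, ?_⟩
    · show ‖cos (z j)‖ ^ (ex m s τ) ≤ 1.1
      rcases le_total 1 ‖cos (z j)‖ with h1 | h1
      · calc ‖cos (z j)‖ ^ (ex m s τ) ≤ ‖cos (z j)‖ ^ (1 : ℝ) :=
              Real.rpow_le_rpow_of_exponent_le h1 e1
          _ ≤ 1.1 := by rw [Real.rpow_one]; exact hk1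
      · calc ‖cos (z j)‖ ^ (ex m s τ) ≤ 1 := Real.rpow_le_one hkp.le h1 e0
          _ ≤ 1.1 := by norm_num
    · show (0.49 : ℝ) ≤ ‖cos (z j)‖ ^ (ex m s τ)
      rcases le_total 1 ‖cos (z j)‖ with h1 | h1
      · calc (0.49 : ℝ) ≤ 1 := by norm_num
          _ ≤ ‖cos (z j)‖ ^ (ex m s τ) := Real.one_le_rpow h1 e0
      · calc (0.49 : ℝ) ≤ ‖cos (z j)‖ ^ (1 : ℝ) := by rw [Real.rpow_one]; exact hk0
          _ ≤ ‖cos (z j)‖ ^ (ex m s τ) := Real.rpow_le_rpow_of_exponent_ge hkp h1 e1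
    · show -Real.arctan 1.04 ≤ sg s * (ex m s τ * ph (z j).re (z j).im)
      cases s
      · simp only [sg, Bool.false_eq_true, if_false, one_mul]
        linarith
      · simp only [sg, if_true, neg_mul, one_mul]
        linarith
    · show sg s * (ex m s τ * ph (z j).re (z j).im) ≤ Real.arctan 1.04
      cases s
      · simp only [sg, Bool.false_eq_true, if_false, one_mul]
        exact hm1
      · simp only [sg, if_true, neg_mul, one_mul]
        linarith

private theorem cosh_form (p r : ℝ) : cosh ((p : ℂ) + (r : ℂ) * I) =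
    ((Real.cosh p * Real.cos r : ℝ) : ℂ) + ((Real.sinh p * Real.sin r : ℝ) : ℂ) * I := by
  rw [cosh_add, cosh_mul_I, sinh_mul_I]
  push_cast
  ring

private theorem quad_aux {R I' ρ₁ β₁ ρ₂ β₂ p₂ r₂ a : ℝ} {w c : ℂ}
    (hv : Vx a R I' ρ₁ β₁ (PP w) (RS w) ρ₂ β₂ p₂ r₂) (ha : a = 3 ∨ 4 ≤ a) (i₁ : In ρ₁ β₁)
    (i₂ : In ρ₂ β₂) (h1 : ρ₁ * Real.cos β₁ = c.re) (h2 : ρ₁ * Real.sin β₁ = c.im)
    (hre : 0 < c.re) (him : c.im ≤ 0) : Quad c (as w) := by
  have ha3 : 3 ≤ a := by rcases ha with h | h <;> linarith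
  have q1 := hv.quad_re (u := c.re) (v := -c.im) ha i₁ i₂ h1 (by linarith) hre (by linarith)
  have q2 := hv.quad_im (u := c.re) (v := -c.im) ha3 i₁ i₂ h1 (by linarith) hre (by linarith)
  unfold Quad as
  rw [cosh_form]
  constructor
  · simp only [add_re, mul_re, I_re, add_im, mul_im, I_im, ofReal_re, ofReal_im, mul_zero, mul_one,
      zero_mul, one_mul, add_zero, sub_zero, zero_sub, zero_add]
    linarith
  · simp only [add_re, mul_re, I_re, add_im, mul_im, I_im, ofReal_re, ofReal_im, mul_zero, mul_one,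
      zero_mul, one_mul, add_zero, sub_zero, zero_add]
    linarith

/-- The condition `Quad` at a vertex with three or more twists. -/
theorem quad_three (h : Zr true a nl nr g 1 z) {i j : ι} (ha : a i = 3 ∨ 4 ≤ a i) :
    (nl i = some (j, true) → Quad (cos (z j)) (as (bo true 1 z (nl i) * tan (z i)))) ∧
      (nr i = some (j, true) → Quad (cos (z j)) (as (bo true 1 z (nr i) * tan (z i)))) := by
  have hb : bo true 1 z (some (j, true)) = cos (z j) := by
    rw [bo_one z (h.cos_ne j), kp_true]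
  have hre := h.bo_re (some (j, true))
  have him := h.bo_im (some (j, true))
  rw [hb] at hre him
  have hv := h.vx i
  have h0 := h.v0 j
  constructor
  · intro hl
    have i₂ := h.in_slot (nr i)
    rw [hl] at hv ⊢
    exact quad_aux hv ha (h.in_slot _) i₂ hre.symm him.symm (h.re_pos j) (by linarith)
  · intro hr
    have i₂ := h.in_slot (nl i)
    rw [hr] at hv ⊢
    exact quad_aux hv.swap ha (h.in_slot _) i₂ hre.symm him.symm (h.re_pos j) (by linarith)

end Zr

section chain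

variable {R : ℕ} {a : ℕ → ℕ} {S : ℕ → Bool}

/-- `hss` of `exists_crt`. -/
theorem hss_chain (z : Fin (R + 1) → ℂ)
    (h : Zr true (aF R a) (nlF R S) (nrF R S) (gC (aF R a) (nlF R S) (nrF R S)) 1 z) :
    ∀ i j : Fin (R + 1), 3 ≤ aF R a i → (nlF R S i = some (j, true) →
        Quad (cos (z j)) (as (bo true 1 z (nlF R S i) * tan (z i)))) ∧
      (nrF R S i = some (j, true) →
        Quad (cos (z j)) (as (bo true 1 z (nrF R S i) * tan (z i)))) := by
  intro i j hi
  refine h.quad_three (j := j) ?_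
  rw [three_aF] at hi
  rcases hi.eq_or_lt with h3 | h3
  · left
    unfold aF
    rw [← h3]
    norm_num
  · right
    unfold aF
    exact_mod_cast h3

/-- `exists_crt` without `hss`. -/
theorem exists_crt' (h : Adm R a S)
    (h3 : ∀ m τ z, Zr m (aF R a) (nlF R S) (nrF R S) (gC (aF R a) (nlF R S) (nrF R S)) τ z →
      In3 (aF R a) (nlF R S) (nrF R S) z)
    (hv : ∀ m τ z, Zr m (aF R a) (nlF R S) (nrF R S) (gC (aF R a) (nlF R S) (nrF R S)) τ z →
      ∀ i, 3 ≤ aF R a i →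
        StrV m (aF R a) (nlF R S) (nrF R S) (gC (aF R a) (nlF R S) (nrF R S)) τ z i)
    (harg : ∀ z, Zr true (aF R a) (nlF R S) (nrF R S) (gC (aF R a) (nlF R S) (nrF R S)) 1 z →
      ∀ i, aF R a i = 2 → -(cos (z i)).im < (cos (z i)).re) :
    ∃ (z ql qr : ℕ → ℂ) (zF : Fin (R + 1) → ℂ), CrtM R a S z ql qr ∧
      Zr true (aF R a) (nlF R S) (nrF R S) (gC (aF R a) (nlF R S) (nrF R S)) 1 zF ∧
      (∀ i : Fin (R + 1), z i = zF i) ∧
      (∀ i : Fin (R + 1), ql i = as (bo true 1 zF (nlF R S i) * tan (zF i))) ∧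
      (∀ i : Fin (R + 1), qr i = as (bo true 1 zF (nrF R S i) * tan (zF i))) :=
  exists_crt h h3 hv harg fun z hz => hss_chain z hz

end chain

end Pool.Agent.S5.E
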