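import Pool.Agent.S3.E.Sl
import Pool.Agent.S3.E.SlB
import Pool.Agent.S3.E.SlC
import Pool.Agent.S5.E.Defs

/-!
# Mixed chains, block E: slot lemmas
-/

set_option autoImplicit false

namespace Pool.Agent.S5.E

open Real
open Pool.Agent.S3.E (al ph tt k2 s2 cc gg tt_pos tt_sq k2_pos s2_pos al_pos al_lt tan_al one_le_cc
  one_lt_cc gg_lt_one neg_one_lt_gg sinh_two_pos sin_two_pos sinh_two_sq sin_two_sq)

theorem tanh_nonneg {x : ℝ} (h : 0 ≤ x) : 0 ≤ tanh x := by
  rw [tanh_eq_sinh_div_cosh]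
  exact div_nonneg (sinh_nonneg_iff.2 h) (cosh_pos x).le

theorem tanh_pos {x : ℝ} (h : 0 < x) : 0 < tanh x := by
  rw [tanh_eq_sinh_div_cosh]
  exact div_pos (sinh_pos_iff.2 h) (cosh_pos x)

theorem tanh_mono {x y : ℝ} (h : x ≤ y) : tanh x ≤ tanh y := by
  rw [tanh_eq_sinh_div_cosh, tanh_eq_sinh_div_cosh, div_le_div_iff₀ (cosh_pos x) (cosh_pos y)]
  have h1 : 0 ≤ sinh (y - x) := sinh_nonneg_iff.2 (by linarith)
  rw [sinh_sub] at h1
  linarith

/-- `x ≤ sinh x`. -/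
theorem le_sinh {x : ℝ} (h : 0 ≤ x) : x ≤ sinh x := Real.self_le_sinh_iff.2 h

/-- `sinh x ≤ x cosh x`. -/
theorem sinh_le_mul_cosh {x : ℝ} (h : 0 ≤ x) : sinh x ≤ x * cosh x := by
  have key : MonotoneOn (fun y : ℝ => y * cosh y - sinh y) (Set.Ici 0) := by
    apply monotoneOn_of_deriv_nonneg (convex_Ici 0)
    · fun_prop
    · fun_prop
    · intro y hy
      rw [interior_Ici] at hy
      have h1 : HasDerivAt (fun y : ℝ => y * cosh y - sinh y) (1 * cosh y + y * sinh y - cosh y) y :=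
        ((hasDerivAt_id' y).mul (hasDerivAt_cosh y)).sub (hasDerivAt_sinh y)
      rw [h1.deriv]
      have h2 : 0 ≤ sinh y := sinh_nonneg_iff.2 (le_of_lt hy)
      have h3 : 0 ≤ y * sinh y := mul_nonneg (le_of_lt hy) h2
      linarith
  have h1 := key (Set.mem_Ici.2 le_rfl) (Set.mem_Ici.2 h) h
  simp only [zero_mul, sinh_zero, sub_zero] at h1
  linarith

/-- `tanh x ≤ x`. -/
theorem tanh_le {x : ℝ} (h : 0 ≤ x) : tanh x ≤ x := by
  rw [tanh_eq_sinh_div_cosh, div_le_iff₀ (cosh_pos x)]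
  exact sinh_le_mul_cosh h

theorem arctan_le {x : ℝ} (h : 0 ≤ x) : arctan x ≤ x := by
  have := le_tan (arctan_nonneg.2 h) (arctan_lt_pi_div_two x)
  rwa [tan_arctan] at this

variable {R I ρ β p r : ℝ}

theorem Slot.m0 (hs : Slot R I ρ β p r) : 0 ≤ ρ * tt R I := mul_nonneg hs.ρ0 (sqrt_nonneg _)

theorem Slot.norm_sq (hs : Slot R I ρ β p r) : sinh p ^ 2 + sin r ^ 2 = (ρ * tt R I) ^ 2 := by
  have e1 := congrArg (fun x => x ^ 2) hs.e1
  have e2 := congrArg (fun x => x ^ 2) hs.e2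
  simp only [mul_pow] at e1 e2
  have h1 := cos_sq_add_sin_sq (al R I + β)
  have h2 := cos_sq_add_sin_sq r
  have h3 := cosh_sq p
  have h4 : sinh p ^ 2 + sin r ^ 2 = sinh p ^ 2 * cos r ^ 2 + cosh p ^ 2 * sin r ^ 2 := by
    rw [h3]
    linear_combination (-sinh p ^ 2) * h2
  rw [h4, e1, e2, mul_pow]
  linear_combination (ρ ^ 2 * tt R I ^ 2) * h1

theorem Slot.sinh_sq_le (hs : Slot R I ρ β p r) : sinh p ^ 2 ≤ (ρ * tt R I) ^ 2 := by
  have h1 := hs.norm_sq
  have h2 := sq_nonneg (sin r)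
  linarith

theorem Slot.sin_sq_le (hs : Slot R I ρ β p r) : sin r ^ 2 ≤ (ρ * tt R I) ^ 2 := by
  have h1 := hs.norm_sq
  have h2 := sq_nonneg (sinh p)
  linarith

theorem Slot.sinh0 (hs : Slot R I ρ β p r) : 0 ≤ sinh p := sinh_nonneg_iff.2 hs.p0

theorem Slot.sinh_le (hs : Slot R I ρ β p r) : sinh p ≤ ρ * tt R I :=
  (abs_le_of_sq_le_sq' hs.sinh_sq_le hs.m0).2

theorem Slot.cosr (hs : Slot R I ρ β p r) : 0 ≤ cos r := cos_nonneg_of_mem_Icc ⟨hs.r0, hs.r1⟩

/-- `ρ = 0` means `p = r = 0`. -/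
theorem Slot.zero (hs : Slot R I 0 β p r) : p = 0 ∧ r = 0 := by
  have h1 := hs.norm_sq
  rw [zero_mul] at h1
  have h2 := sq_nonneg (sinh p)
  have h3 := sq_nonneg (sin r)
  have h4 : sinh p = 0 := by
    have : sinh p ^ 2 = 0 := by linarith
    exact pow_eq_zero_iff (two_ne_zero) |>.1 this
  have h5 : sin r = 0 := by
    have : sin r ^ 2 = 0 := by linarith
    exact pow_eq_zero_iff (two_ne_zero) |>.1 this
  exact ⟨sinh_eq_zero.1 h4, (sin_eq_zero_iff_of_lt_of_lt (by linarith [hs.r0, pi_pos])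
    (by linarith [hs.r1, pi_pos])).1 h5⟩

/-- Lower bound of `r`: if `tan γ ≥ Γ` then `tan r ≥ Γ tanh p`. -/
theorem Slot.lo (hs : Slot R I ρ β p r) {Γ : ℝ} (hΓ : Γ * cos (al R I + β) ≤ sin (al R I + β)) :
    arctan (Γ * tanh p) ≤ r := by
  have h1 : Γ * sinh p * cos r ≤ cosh p * sin r := by
    rw [mul_assoc, hs.e1, hs.e2]
    have := mul_le_mul_of_nonneg_left hΓ hs.m0
    linarith
  rcases hs.r1.eq_or_lt with h2 | h2
  · rw [h2]
    exact (arctan_lt_pi_div_two _).le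
  · rcases hs.r0.eq_or_lt with h3 | h3
    · rw [← h3, cos_neg, cos_pi_div_two, sin_neg, sin_pi_div_two] at h1
      have := cosh_pos p
      linarith
    · have hc : 0 < cos r := cos_pos_of_mem_Ioo ⟨h3, h2⟩
      have h4 : Γ * tanh p ≤ tan r := by
        rw [tan_eq_sin_div_cos, tanh_eq_sinh_div_cosh, mul_div_assoc',
          div_le_div_iff₀ (cosh_pos p) hc]
        linarith
      calc arctan (Γ * tanh p) ≤ arctan (tan r) := arctan_mono h4
        _ = r := arctan_tan h3 h2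

/-- Upper bound of `r`: if `tan γ ≤ Γ` then `tan r ≤ Γ tanh p`. -/
theorem Slot.hi (hs : Slot R I ρ β p r) {Γ : ℝ} (hΓ : sin (al R I + β) ≤ Γ * cos (al R I + β)) :
    r ≤ arctan (Γ * tanh p) := by
  have h1 : cosh p * sin r ≤ Γ * sinh p * cos r := by
    rw [mul_assoc, hs.e1, hs.e2]
    have := mul_le_mul_of_nonneg_left hΓ hs.m0
    linarith
  rcases hs.r0.eq_or_lt with h2 | h2
  · rw [← h2]
    exact (neg_pi_div_two_lt_arctan _).le
  · rcases hs.r1.eq_or_lt with h3 | h3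
    · rw [h3, cos_pi_div_two, sin_pi_div_two] at h1
      have := cosh_pos p
      linarith
    · have hc : 0 < cos r := cos_pos_of_mem_Ioo ⟨h2, h3⟩
      have h4 : tan r ≤ Γ * tanh p := by
        rw [tan_eq_sin_div_cos, tanh_eq_sinh_div_cosh, mul_div_assoc',
          div_le_div_iff₀ hc (cosh_pos p)]
        linarith
      calc r = arctan (tan r) := (arctan_tan h2 h3).symm
        _ ≤ arctan (Γ * tanh p) := arctan_mono h4

/-- `r ≤ γ` if `γ ≥ 0`. -/
theorem Slot.r_le (hs : Slot R I ρ β p r) (h : 0 ≤ al R I + β) : r ≤ al R I + β := by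
  rcases hs.g1.eq_or_lt with h1 | h1
  · rw [h1]
    exact hs.r1
  · have hc : 0 < cos (al R I + β) := cos_pos_of_mem_Ioo ⟨by linarith [pi_pos], h1⟩
    have ht : 0 ≤ tan (al R I + β) := tan_nonneg_of_nonneg_of_le_pi_div_two h h1.le
    have h2 := hs.hi (Γ := tan (al R I + β)) (by
      rw [tan_eq_sin_div_cos, div_mul_cancel₀ _ hc.ne'])
    refine h2.trans ?_
    calc arctan (tan (al R I + β) * tanh p) ≤ arctan (tan (al R I + β)) := by
          apply arctan_mono
          exact mul_le_of_le_one_right ht (tanh_lt_one p).le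
      _ = al R I + β := arctan_tan (by linarith [pi_pos]) h1

/-- The lower bound `tan γ ≥ (T - B)/(1 + T B)`, `T = tan α`, if `tan β ≥ - B`. -/
theorem gam_lo {R I β B : ℝ} (hR : 0 < R) (hR1 : R < π / 2) (hI : 0 < I) (hB : 0 ≤ B)
    (hβ : -(B * cos β) ≤ sin β) :
    (tan (al R I) - B) / (1 + tan (al R I) * B) * cos (al R I + β) ≤ sin (al R I + β) := by
  have hT : 0 < tan (al R I) := by
    rw [tan_al]
    exact div_pos (sinh_two_pos hI) (sin_two_pos hR hR1)
  have hc : 0 < cos (al R I) :=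
    cos_pos_of_mem_Ioo ⟨by linarith [al_pos hR hR1 hI, pi_pos], al_lt R I⟩
  have h1 : 0 < 1 + tan (al R I) * B := by positivity
  rw [div_mul_eq_mul_div, div_le_iff₀ h1]
  have h2 : tan (al R I) * cos (al R I) = sin (al R I) := tan_mul_cos hc.ne'
  have h3 : 0 ≤ (sin (al R I + β) * (1 + tan (al R I) * B) -
      (tan (al R I) - B) * cos (al R I + β)) * cos (al R I) := by
    have h4 : (sin (al R I + β) * (1 + tan (al R I) * B) -
      (tan (al R I) - B) * cos (al R I + β)) * cos (al R I) =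
        (sin β + B * cos β) * (sin (al R I) ^ 2 + cos (al R I) ^ 2) := by
      rw [sin_add, cos_add]
      linear_combination (-(cos (al R I) * cos β) + sin (al R I) * sin β +
        B * (sin (al R I) * cos β + cos (al R I) * sin β)) * h2
    rw [h4, sin_sq_add_cos_sq, mul_one]
    linarith
  have h5 := nonneg_of_mul_nonneg_left h3 hc
  linarith

end Pool.Agent.S5.E
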