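import Pool.Agent.S5.E.Sl

/-!
# Mixed chains, block E: vertices with `a ≥ 3`, bounds of `R`, `I`, `|cos z|`
-/

set_option autoImplicit false

namespace Pool.Agent.S5.E

open Real
open Pool.Agent.S3.E (al ph tt k2 s2 cc gg tt_pos tt_sq k2_pos s2_pos al_pos al_lt tan_al one_le_cc
  one_lt_cc gg_lt_one neg_one_lt_gg sinh_two_pos sin_two_pos sinh_two_sq sin_two_sq)

/-- The crude bounds of the input of a slot. -/
structure In (ρ β : ℝ) : Prop where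
  ρ1 : ρ ≤ 1.1
  ρ0 : ρ = 0 ∨ 0.49 ≤ ρ
  βl : -arctan 1.04 ≤ β
  βu : β ≤ arctan 1.04

namespace In

variable {ρ β : ℝ}

theorem lo (h : In ρ β) : -(1.04 * cos β) ≤ sin β := by
  have h1 : 0 < cos β := cos_pos_of_mem_Ioo ⟨by linarith [h.βl, arctan_lt_pi_div_two 1.04],
    by linarith [h.βu, arctan_lt_pi_div_two 1.04]⟩
  have h2 : tan (-arctan 1.04) ≤ tan β := by
    rcases h.βl.eq_or_lt with h3 | h3
    · rw [h3]
    · exact (tan_lt_tan_of_lt_of_lt_pi_div_two (by linarith [arctan_lt_pi_div_two 1.04])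
        (by linarith [h.βu, arctan_lt_pi_div_two 1.04]) h3).le
  rw [tan_neg, tan_arctan, tan_eq_sin_div_cos β, le_div_iff₀ h1] at h2
  linarith

theorem up (h : In ρ β) : sin β ≤ 1.04 * cos β := by
  have h1 : 0 < cos β := cos_pos_of_mem_Ioo ⟨by linarith [h.βl, arctan_lt_pi_div_two 1.04],
    by linarith [h.βu, arctan_lt_pi_div_two 1.04]⟩
  have h2 : tan β ≤ tan (arctan 1.04) := by
    rcases h.βu.eq_or_lt with h3 | h3
    · rw [h3]
    · exact (tan_lt_tan_of_lt_of_lt_pi_div_two (by linarith [h.βl, arctan_lt_pi_div_two 1.04])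
        (arctan_lt_pi_div_two 1.04) h3).le
  rw [tan_arctan, tan_eq_sin_div_cos β, div_le_iff₀ h1] at h2
  linarith

end In

/-- `tan α`. -/
noncomputable def TT (R I : ℝ) : ℝ := tan (al R I)

theorem TT_pos {R I : ℝ} (h : 0 < R) (h' : R < π / 2) (hI : 0 < I) : 0 < TT R I := by
  unfold TT
  rw [tan_al]
  exact div_pos (sinh_two_pos hI) (sin_two_pos h h')

theorem TT_mul {R I : ℝ} (h : 0 < R) (h' : R < π / 2) : TT R I * sin (2 * R) = sinh (2 * I) := by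
  unfold TT
  rw [tan_al, div_mul_cancel₀ _ (sin_two_pos h h').ne']

/-- `2 I ≤ T sin 2R`. -/
theorem two_I_le {R I : ℝ} (h : 0 < R) (h' : R < π / 2) (hI : 0 < I) :
    2 * I ≤ TT R I * sin (2 * R) := by
  rw [TT_mul h h']
  exact le_sinh (by linarith)

theorem TT_sq {R I : ℝ} (h : 0 < R) (h' : R < π / 2) :
    cc I ^ 2 - 1 = TT R I ^ 2 * (1 - gg R ^ 2) := by
  rw [← sinh_two_sq, ← sin_two_sq, ← TT_mul h h']
  ring

/-- `tan (b₀ - α)`. -/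
noncomputable def GA (T : ℝ) : ℝ := (1.04 - T) / (1 + 1.04 * T)

theorem GA_nonneg {T : ℝ} (h0 : 0 ≤ T) (h : T ≤ 1.04) : 0 ≤ GA T := by
  unfold GA
  exact div_nonneg (by linarith) (by positivity)

/-- `T G ≤ 0.182`. -/
theorem T_GA {T : ℝ} (h0 : 0 ≤ T) : T * GA T ≤ 0.182 := by
  unfold GA
  have h1 : 0 < 1 + 1.04 * T := by positivity
  rw [mul_div_assoc', div_le_iff₀ h1]
  nlinarith [sq_nonneg (T - 0.4254)]

section slot

variable {R I ρ β p r : ℝ}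

/-- `r ≥ - G tanh p`. -/
theorem Slot.r_ge (hs : Slot R I ρ β p r) (h : 0 < R) (h' : R < π / 2) (hI : 0 < I)
    (hi : In ρ β) : arctan (-(GA (TT R I) * tanh p)) ≤ r := by
  have h1 := gam_lo h h' hI (B := 1.04) (by norm_num) hi.lo
  have h2 := hs.lo h1
  have h3 : (tan (al R I) - 1.04) / (1 + tan (al R I) * 1.04) = -(GA (TT R I)) := by
    unfold GA TT
    rw [← neg_div]
    congr 1 <;> ring
  rw [h3, neg_mul] at h2
  exact h2

theorem Slot.r_ge' (hs : Slot R I ρ β p r) (h : 0 < R) (h' : R < π / 2) (hI : 0 < I)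
    (hi : In ρ β) (hT : TT R I ≤ 1.04) : -(GA (TT R I) * tanh p) ≤ r := by
  refine le_trans ?_ (hs.r_ge h h' hI hi)
  rw [arctan_neg, neg_le_neg_iff]
  have h1 : 0 ≤ GA (TT R I) * tanh p :=
    mul_nonneg (GA_nonneg (TT_pos h h' hI).le hT) (tanh_nonneg hs.p0)
  have h2 := arctan_le h1
  exact h2

theorem Slot.r_ge_p (hs : Slot R I ρ β p r) (h : 0 < R) (h' : R < π / 2) (hI : 0 < I)
    (hi : In ρ β) (hT : TT R I ≤ 1.04) : -(GA (TT R I) * p) ≤ r := by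
  refine le_trans ?_ (hs.r_ge' h h' hI hi hT)
  rw [neg_le_neg_iff]
  exact mul_le_mul_of_nonneg_left (tanh_le hs.p0) (GA_nonneg (TT_pos h h' hI).le hT)

/-- `r ≥ 0` if `T ≥ 1.04`. -/
theorem Slot.r_nonneg (hs : Slot R I ρ β p r) (h : 0 < R) (h' : R < π / 2) (hI : 0 < I)
    (hi : In ρ β) (hT : 1.04 ≤ TT R I) : 0 ≤ r := by
  refine le_trans ?_ (hs.r_ge h h' hI hi)
  rw [arctan_nonneg]
  have h1 : GA (TT R I) ≤ 0 := by
    unfold GA
    exact div_nonpos_of_nonpos_of_nonneg (by linarith) (by linarith)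
  have := mul_nonneg_of_nonpos_of_nonpos h1 (neg_nonpos.2 (tanh_nonneg hs.p0))
  linarith

end slot

section vertex

variable {a R I ρ₁ β₁ p₁ r₁ ρ₂ β₂ p₂ r₂ : ℝ}

theorem Vx.T0 (h : Vx a R I ρ₁ β₁ p₁ r₁ ρ₂ β₂ p₂ r₂) : 0 < TT R I := TT_pos h.R0 h.R1 h.I0

theorem Vx.S0 (h : Vx a R I ρ₁ β₁ p₁ r₁ ρ₂ β₂ p₂ r₂) : 0 < sin (2 * R) := sin_two_pos h.R0 h.R1

/-- `R ≤ π/3 + G I` if `T ≤ 1.04`. -/
theorem Vx.R_le (h : Vx a R I ρ₁ β₁ p₁ r₁ ρ₂ β₂ p₂ r₂) (ha : 3 ≤ a) (i₁ : In ρ₁ β₁)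
    (i₂ : In ρ₂ β₂) (hT : TT R I ≤ 1.04) : R ≤ π / 3 + GA (TT R I) * I := by
  have h1 := h.sl₁.r_ge_p h.R0 h.R1 h.I0 i₁ hT
  have h2 := h.sl₂.r_ge_p h.R0 h.R1 h.I0 i₂ hT
  have h3 : a * (R - GA (TT R I) * I) ≤ π := by
    have h4 := h.hR
    have h5 : GA (TT R I) * p₁ + GA (TT R I) * p₂ = GA (TT R I) * (a * I) := by
      rw [← mul_add, h.hI]
    nlinarith
  rcases le_total 0 (R - GA (TT R I) * I) with h4 | h4
  · have := mul_le_mul_of_nonneg_right ha h4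
    linarith
  · linarith [pi_pos]

theorem Vx.R_le' (h : Vx a R I ρ₁ β₁ p₁ r₁ ρ₂ β₂ p₂ r₂) (ha : 3 ≤ a) (i₁ : In ρ₁ β₁)
    (i₂ : In ρ₂ β₂) (hT : 1.04 ≤ TT R I) : R ≤ π / 3 := by
  have h1 := h.sl₁.r_nonneg h.R0 h.R1 h.I0 i₁ hT
  have h2 := h.sl₂.r_nonneg h.R0 h.R1 h.I0 i₂ hT
  have h3 := mul_le_mul_of_nonneg_right ha h.R0.le
  linarith [h.hR]

/-- `G I ≤ 0.091 sin 2R`. -/
theorem Vx.GI (h : Vx a R I ρ₁ β₁ p₁ r₁ ρ₂ β₂ p₂ r₂) (hT : TT R I ≤ 1.04) :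
    GA (TT R I) * I ≤ 0.091 * sin (2 * R) := by
  have h1 := two_I_le h.R0 h.R1 h.I0
  have h2 := GA_nonneg h.T0.le hT
  have h3 := T_GA h.T0.le
  have h4 := mul_le_mul_of_nonneg_left h1 h2
  have h5 := mul_le_mul_of_nonneg_right h3 h.S0.le
  nlinarith

/-- `g ≥ -0.64`. -/
theorem Vx.g_ge (h : Vx a R I ρ₁ β₁ p₁ r₁ ρ₂ β₂ p₂ r₂) (ha : 3 ≤ a) (i₁ : In ρ₁ β₁)
    (i₂ : In ρ₂ β₂) : -0.64 ≤ gg R ∧ R ≤ 1.127 := by
  have hp1 := pi_gt_d4
  have hp2 := pi_lt_d4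
  have hR : R ≤ π / 3 + 0.079 := by
    rcases le_total (TT R I) 1.04 with hT | hT
    · have h1 := h.R_le ha i₁ i₂ hT
      have h2 := h.GI hT
      by_contra hc
      push Not at hc
      have h3 : sin (2 * R) ≤ sin (π / 3) := by
        rw [← sin_pi_sub]
        apply sin_le_sin_of_le_of_le_pi_div_two <;> linarith [h.R1]
      rw [sin_pi_div_three] at h3
      have h4 : √3 ≤ 1.7321 := by
        rw [sqrt_le_left (by norm_num)]
        norm_num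
      linarith
    · have := h.R_le' ha i₁ i₂ hT
      linarith
  refine ⟨?_, by linarith⟩
  have h1 : cos (2 * π / 3 + 0.158) ≤ gg R := by
    unfold gg
    apply cos_le_cos_of_nonneg_of_le_pi <;> linarith [h.R0]
  have h2 : cos (2 * π / 3) = -(1 / 2) := by
    have : 2 * π / 3 = π - π / 3 := by ring
    rw [this, cos_pi_sub, cos_pi_div_three]
  have h3 : sin (2 * π / 3) = √3 / 2 := by
    have : 2 * π / 3 = π - π / 3 := by ring
    rw [this, sin_pi_sub, sin_pi_div_three]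
  rw [cos_add, h2, h3] at h1
  have h4 : √3 ≤ 1.7321 := by
    rw [sqrt_le_left (by norm_num)]
    norm_num
  have h5 : sin (0.158 : ℝ) ≤ 0.158 := sin_le (by norm_num)
  have h6 : (0 : ℝ) ≤ sin 0.158 := sin_nonneg_of_nonneg_of_le_pi (by norm_num) (by linarith)
  have h7 : cos (0.158 : ℝ) ≤ 1 := cos_le_one _
  nlinarith

end vertex

end Pool.Agent.S5.E
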