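import Pool.Agent.S5.E.V3A
import Pool.Agent.S5.E.Num

/-!
# Mixed chains, block E: `0.49 < |cos z| < 1` for `a ≥ 3`
-/

set_option autoImplicit false

namespace Pool.Agent.S5.E

open Real
open Pool.Agent.S3.E (al ph tt k2 s2 cc gg tt_pos tt_sq k2_pos s2_pos al_pos al_lt tan_al one_le_cc
  one_lt_cc gg_lt_one neg_one_lt_gg sinh_two_pos sin_two_pos sinh_two_sq sin_two_sq GeoX_cc)

variable {a R I ρ₁ β₁ p₁ r₁ ρ₂ β₂ p₂ r₂ : ℝ}

/-- `|t|² ≤ c - 1` if `|cos z| ≥ 1`. -/
theorem tt_sq_le_of_one_le {R I : ℝ} (h : 0 < R) (h' : R < π / 2) (hk : 1 ≤ k2 R I) :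
    tt R I ^ 2 ≤ cc I - 1 := by
  rw [tt_sq h h', div_le_iff₀ (k2_pos h h')]
  have h1 := one_le_cc I
  unfold s2
  unfold k2 at *
  linarith only [hk, mul_nonneg (sub_nonneg.2 hk) (sub_nonneg.2 h1)]

private theorem slot_K {R I ρ β p r : ℝ} (hs : Slot R I ρ β p r) (h : 0 < R) (h' : R < π / 2)
    (hi : In ρ β) (hk : 1 ≤ k2 R I) :
    sinh p ^ 2 ≤ 1.21 * (cc I - 1) ∧ sin r ^ 2 ≤ 1.21 * (cc I - 1) := by
  have h1 := tt_sq_le_of_one_le h h' hk
  have h2 : (ρ * tt R I) ^ 2 ≤ 1.21 * (cc I - 1) := by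
    rw [mul_pow]
    have h3 : ρ ^ 2 ≤ 1.21 := by
      have := hi.ρ1
      have := hs.ρ0
      nlinarith
    exact mul_le_mul h3 h1 (sq_nonneg _) (by norm_num)
  exact ⟨hs.sinh_sq_le.trans h2, hs.sin_sq_le.trans h2⟩

/-- `|cos z| < 1` for `a ≥ 3`. -/
theorem Vx.K3 (h : Vx a R I ρ₁ β₁ p₁ r₁ ρ₂ β₂ p₂ r₂) (ha : 3 ≤ a) (i₁ : In ρ₁ β₁)
    (i₂ : In ρ₂ β₂) : k2 R I < 1 := by
  by_contra hk
  push Not at hk
  have hp1 := pi_gt_d4
  obtain ⟨u1, v1⟩ := slot_K h.sl₁ h.R0 h.R1 i₁ hk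
  obtain ⟨u2, v2⟩ := slot_K h.sl₂ h.R0 h.R1 i₂ hk
  have hI := h.I0
  have hcc := GeoX_cc I
  have hc1 := one_lt_cosh.2 hI.ne'
  set x := cosh I with hx
  -- `cosh I ≤ 1.0905`
  have hmax : 1.5 * I ≤ p₁ ∨ 1.5 * I ≤ p₂ := by
    by_contra hcon
    push Not at hcon
    have := mul_le_mul_of_nonneg_right ha hI.le
    linarith only [h.hI, this, hcon.2, hcon.1]
  have hx3 : (2 * x + 1) ^ 2 ≤ 4.84 * (x + 1) := by
    have key : ∀ p : ℝ, 1.5 * I ≤ p → sinh p ^ 2 ≤ 1.21 * (cc I - 1) →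
        (2 * x + 1) ^ 2 ≤ 4.84 * (x + 1) := by
      intro p hp hs
      have h1 : cosh (3 * I) ≤ cosh (2 * p) := by
        rw [cosh_le_cosh, abs_of_nonneg (by linarith only [hI]), abs_of_nonneg (by linarith only [hp,
                                                                                     hI])]
        linarith only [hp]
      rw [cosh_three_mul, cosh_two_mul, cosh_sq, ← hx] at h1
      have h2 : (x - 1) * (2 * x + 1) ^ 2 ≤ (x - 1) * (4.84 * (x + 1)) := by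
        rw [hcc] at hs
        linarith only [h1, hs]
      exact le_of_mul_le_mul_left h2 (by linarith only [hc1])
    rcases hmax with hm | hm
    · exact key p₁ hm u1
    · exact key p₂ hm u2
  have hxb : x ≤ 1.0906 := by
    by_contra hcon
    push Not at hcon
    linarith only [hx3, hcc, mul_nonneg (sub_nonneg.2 hc1.le) (sub_nonneg.2 hx3),
      mul_pos (sub_pos.2 hc1) (sub_pos.2 hc1), mul_nonneg (sub_nonneg.2 u1) (sub_nonneg.2 hcon.le),
      mul_nonneg (sq_nonneg (1 * sinh p₁)) (sub_nonneg.2 hcon.le),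
      mul_nonneg (sq_nonneg (1 * 2 * (1 * x) + 1 * 1)) (sub_nonneg.2 hcon.le),
      mul_nonneg (sq_nonneg (1 * 2 * (1 * x) + 1 * 1)) (sub_nonneg.2 hcc.le),
      mul_nonneg (sq_nonneg (1 * 2 * (1 * x) + 1 * 1)) (sub_nonneg.2 hcc.ge),
      mul_nonneg (sq_nonneg (x)) (sub_nonneg.2 hcc.le),
      mul_nonneg (sq_nonneg (x)) (sub_nonneg.2 hcc.ge)]
  have hc : cc I ≤ 1.379 := by
    rw [hcc]
    linarith only [hxb, hx3, hc1]
  -- `r_j ≤ π/4`
  have hr : ∀ r : ℝ, r ≤ π / 2 → sin r ^ 2 ≤ 1.21 * (cc I - 1) → r ≤ π / 4 := by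
    intro r hr hs
    by_contra hcon
    push Not at hcon
    have h1 : cos (2 * r) < 0 := cos_neg_of_pi_div_two_lt_of_lt (by linarith only [hcon]) (by linarith only [hr,
                                                                                                hxb,
                                                                                                hc1,
                                                                                                hp1])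
    rw [cos_two_mul] at h1
    have h2 := sin_sq_add_cos_sq r
    linarith only [h2, h1, hs, hxb, hx3, hc1, hcc]
  have hr1 := hr r₁ h.sl₁.r1 v1
  have hr2 := hr r₂ h.sl₂.r1 v2
  -- bound of `a`
  have hp : ∀ p : ℝ, 0 ≤ p → sinh p ^ 2 ≤ 1.21 * (cc I - 1) → p ≤ 1.697 * I := by
    intro p hp hs
    have h1 := le_sinh hp
    have h2 := sinh_le_mul_cosh hI.le
    rw [← hx] at h2
    have h3 : cc I - 1 = 2 * sinh I ^ 2 := by
      rw [hcc, hx, cosh_sq]
      ring
    rw [h3] at hs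
    have h4 : 0 < sinh I := sinh_pos_iff.2 hI
    have h5 : sinh p ≤ 1.556 * sinh I := by
      apply abs_le_of_sq_le_sq' _ (by positivity) |>.2
      linarith only [hs, sq_nonneg (sinh I)]
    have h6 : sinh I ≤ I * 1.0906 := h2.trans (mul_le_mul_of_nonneg_left hxb hI.le)
    linarith only [h6, h5, h1, hI]
  have ha2 : a ≤ 3.394 := by
    have h1 := hp p₁ h.sl₁.p0 u1
    have h2 := hp p₂ h.sl₂.p0 u2
    have h3 : a * I ≤ 3.394 * I := by
      rw [h.hI]
      linarith only [h2, h1]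
    exact le_of_mul_le_mul_right h3 hI
  have hR : 0.46 ≤ R := by
    by_contra hcon
    push Not at hcon
    have h1 : a * R ≤ 3.394 * 0.46 := mul_le_mul ha2 hcon.le h.R0.le (by norm_num)
    linarith only [h.hR, h1, hr2, hr1, hxb, hc1, hp1]
  have hg : gg R ≤ 0.6142 := by
    have h1 : gg R ≤ cos 0.92 := by
      unfold gg
      apply cos_le_cos_of_nonneg_of_le_pi (by norm_num)
      · linarith only [h.R1]
      · linarith only [hR]
    have h2 := cos_le' (x := 0.92) (by norm_num) (by norm_num)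
    norm_num at h2 ⊢
    norm_num at h1
    linarith only [h1, h2, hxb, hc1]
  unfold k2 at hk
  linarith only [hg, hxb, hx3, hc1, hcc, hk]

/-- Lower bound of `p` at a slot with `r < 0`. -/
private theorem slot_L {R I ρ β p r : ℝ} (hs : Slot R I ρ β p r) (h : 0 < R) (h' : R < π / 2)
    (hI : 0 < I) (hi : In ρ β) (hT : TT R I ≤ 1.04) (hr : r < 0) (hk : k2 R I ≤ 0.2401) :
    cc I - 0.2401 ≤ sinh p ^ 2 * (1 + GA (TT R I) ^ 2) := by
  have hT0 := TT_pos h h' hI
  have hG := GA_nonneg hT0.le hT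
  have hk0 := k2_pos (I := I) h h'
  have ht : (cc I - 0.2401) ≤ 0.2401 * tt R I ^ 2 := by
    rw [tt_sq h h', mul_div_assoc', le_div_iff₀ hk0]
    have h1 : s2 R I = cc I - k2 R I := by
      unfold s2 k2
      ring
    have h2 := one_le_cc I
    rw [h1]
    (refine le_of_not_gt fun hng => ?_; linarith only [hk,
      mul_nonneg (sub_nonneg.2 hk) (sub_nonneg.2 h2), mul_pos (sub_pos.2 hng) (sub_pos.2 hk0),
      mul_nonneg (sub_nonneg.2 hng.le) (sub_nonneg.2 hk)])
  have hρ : 0.49 ≤ ρ := by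
    rcases hi.ρ0 with h1 | h1
    · rw [h1] at hs
      have := hs.zero.2
      linarith only [this, hr]
    · exact h1
  have htt := tt_pos (I := I) h h'
  -- `sin γ ≥ - G cos γ` and `sin γ < 0`
  have h1 := gam_lo h h' hI (B := 1.04) (by norm_num) hi.lo
  have h3 : (tan (al R I) - 1.04) / (1 + tan (al R I) * 1.04) = -(GA (TT R I)) := by
    unfold GA TT
    rw [← neg_div]
    congr 1 <;> ring
  rw [h3] at h1
  have h4 : sin (al R I + β) < 0 := by
    have h5 := hs.e2
    have h6 : sin r < 0 := sin_neg_of_neg_of_neg_pi_lt hr (by linarith only [hs.r0, h', h])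
    have h7 : cosh p * sin r < 0 := mul_neg_of_pos_of_neg (cosh_pos p) h6
    rw [h5] at h7
    by_contra hcon
    push Not at hcon
    have := mul_nonneg hs.m0 hcon
    linarith only [this, h7]
  have hc0 : 0 ≤ cos (al R I + β) := cos_nonneg_of_mem_Icc ⟨hs.g0, hs.g1⟩
  have h5 : sin (al R I + β) ^ 2 ≤ GA (TT R I) ^ 2 * cos (al R I + β) ^ 2 := by
    have : (-sin (al R I + β)) ^ 2 ≤ (GA (TT R I) * cos (al R I + β)) ^ 2 :=
      pow_le_pow_left₀ (by linarith only [h4]) (by linarith only [h1]) 2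
    rw [mul_pow, neg_sq] at this
    exact this
  have h6 : 1 ≤ cos (al R I + β) ^ 2 * (1 + GA (TT R I) ^ 2) := by
    have := sin_sq_add_cos_sq (al R I + β)
    linarith only [this, h5]
  have h7 : ρ ^ 2 * tt R I ^ 2 * cos (al R I + β) ^ 2 ≤ sinh p ^ 2 := by
    have e1 := congrArg (fun x => x ^ 2) hs.e1
    simp only [mul_pow] at e1
    have h8 : cos r ^ 2 ≤ 1 := cos_sq_le_one r
    have h9 := mul_le_mul_of_nonneg_left h8 (sq_nonneg (sinh p))
    rw [← e1]
    linarith only [h9]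
  have h8 : 0.2401 * tt R I ^ 2 ≤ ρ ^ 2 * tt R I ^ 2 := by
    apply mul_le_mul_of_nonneg_right _ (sq_nonneg _)
    linarith only [hρ, mul_nonneg (sub_nonneg.2 hρ) (sub_nonneg.2 hρ)]
  have h9 : 0 ≤ 1 + GA (TT R I) ^ 2 := by positivity
  calc cc I - 0.2401 ≤ ρ ^ 2 * tt R I ^ 2 := ht.trans h8
    _ ≤ ρ ^ 2 * tt R I ^ 2 * (cos (al R I + β) ^ 2 * (1 + GA (TT R I) ^ 2)) := by
        apply le_mul_of_one_le_right (by positivity) h6
    _ = (ρ ^ 2 * tt R I ^ 2 * cos (al R I + β) ^ 2) * (1 + GA (TT R I) ^ 2) := by ring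
    _ ≤ sinh p ^ 2 * (1 + GA (TT R I) ^ 2) := mul_le_mul_of_nonneg_right h7 h9

private theorem L_fin {I T y : ℝ} (hI : 0.2357 ≤ I) (hT : 2 * I ≤ T * 0.8544)
    (hy : y * (1 + 1.04 * T) = (1.04 - T) * I) (h8 : 0.0198 + 2 * I ^ 2 ≤ 1.7321 * y) : False := by
  have hI0 : 0 < I := by linarith only [hI]
  have hT1 : 2.34 * I ≤ T := by linarith only [hT, hI]
  have hy0 : 0 < y := by
    have := sq_nonneg I
    linarith only [this, h8]
  have h1 : y * (1 + 1.04 * (2.34 * I)) ≤ y * (1 + 1.04 * T) :=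
    mul_le_mul_of_nonneg_left (by linarith only [hT, hI]) hy0.le
  have h2 : (1.04 - T) * I ≤ (1.04 - 2.34 * I) * I :=
    mul_le_mul_of_nonneg_right (by linarith only [hT, hI]) hI0.le
  have h3 : (0.0198 + 2 * I ^ 2) * (1 + 1.04 * (2.34 * I)) ≤
      1.7321 * y * (1 + 1.04 * (2.34 * I)) :=
    mul_le_mul_of_nonneg_right h8 (by positivity)
  have h4 : (0.0198 + 2 * I ^ 2) * (1 + 1.04 * (2.34 * I)) ≤ 1.7321 * ((1.04 - 2.34 * I) * I) := by
    linarith only [h3, h2, h1, hy]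
  have h5 : 0 ≤ (I - 0.2357) * I ^ 2 := mul_nonneg (by linarith only [hI]) (sq_nonneg I)
  have h6 : 0 ≤ (I - 0.2357) ^ 2 := sq_nonneg _
  linarith only [h6, h5, h3, h2, h1, hI0, hy, hI]

private theorem L_aux (h : Vx a R I ρ₁ β₁ p₁ r₁ ρ₂ β₂ p₂ r₂) (ha : 3 ≤ a) (i₁ : In ρ₁ β₁)
    (i₂ : In ρ₂ β₂) (hT : TT R I ≤ 1.04) (hr : r₂ < 0) (hk : k2 R I ≤ 0.2401) : False := by
  have hp1 := pi_gt_d4
  have hp2 := pi_lt_d4
  have hI := h.I0
  have hT0 := h.T0
  have hG := GA_nonneg hT0.le hT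
  have hS0 := h.S0
  have hc1 := one_le_cc I
  have hsl := slot_L h.sl₂ h.R0 h.R1 hI i₂ hT hr hk
  -- `g ≤ -0.5198`
  have hg : gg R ≤ -0.5198 := by
    unfold k2 at hk
    linarith only [hc1, hk]
  have h3u : √3 ≤ 1.7321 := by
    rw [sqrt_le_left (by norm_num)]
    norm_num
  have h3l : 1.732 ≤ √3 := by
    apply le_sqrt_of_sq_le
    norm_num
  have hcos : cos (2 * π / 3) = -(1 / 2) := by
    have : 2 * π / 3 = π - π / 3 := by ring
    rw [this, cos_pi_sub, cos_pi_div_three]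
  have hsin : sin (2 * π / 3) = √3 / 2 := by
    have : 2 * π / 3 = π - π / 3 := by ring
    rw [this, sin_pi_sub, sin_pi_div_three]
  -- `R ≥ π/3 + 0.0108`
  have hR : π / 3 + 0.0108 ≤ R := by
    by_contra hcon
    push Not at hcon
    have h1 : cos (2 * π / 3 + 0.0216) ≤ gg R := by
      unfold gg
      apply cos_le_cos_of_nonneg_of_le_pi <;> linarith [h.R0]
    rw [cos_add, hcos, hsin] at h1
    have h5 : sin (0.0216 : ℝ) ≤ 0.0216 := sin_le (by norm_num)
    have h6 : (0 : ℝ) ≤ sin 0.0216 := sin_nonneg_of_nonneg_of_le_pi (by norm_num) (by linarith only [hp1])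
    have h7 : cos (0.0216 : ℝ) ≤ 1 := cos_le_one _
    linarith only [h7, h5, h1, hg, mul_nonneg (sub_nonneg.2 h3u) (sub_nonneg.2 h6),
      mul_pos (sub_pos.2 hp2) (sub_pos.2 hp2), mul_pos (sub_pos.2 hp1) (sub_pos.2 hp2),
      mul_pos (sub_pos.2 hp1) (sub_pos.2 hp1)]
  -- `S ≤ 0.8544`
  have hS : sin (2 * R) ≤ 0.8544 := by
    have h1 := sin_two_sq R
    have h2 : (0.5198 : ℝ) ^ 2 ≤ gg R ^ 2 := by linarith only [hg,
                                                  mul_nonneg (sub_nonneg.2 hg) (sub_nonneg.2 hg)]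
    (refine le_of_not_gt fun hng => ?_; linarith only [hng, h2, h1, hp2, hp1,
      mul_pos (sub_pos.2 hng) (sub_pos.2 hng)])
  have hGI := h.GI hT
  -- `a ≤ 3.206`
  have haR : a * (R - GA (TT R I) * I) ≤ π := by
    have h1 := h.sl₁.r_ge_p h.R0 h.R1 h.I0 i₁ hT
    have h2 := h.sl₂.r_ge_p h.R0 h.R1 h.I0 i₂ hT
    have h4 := h.hR
    have h5 : GA (TT R I) * p₁ + GA (TT R I) * p₂ = GA (TT R I) * (a * I) := by
      rw [← mul_add, h.hI]
    linarith only [h5, h4, h2, h1]
  have ha2 : a ≤ 3.207 := by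
    by_contra hcon
    push Not at hcon
    have h1 : 0.98 ≤ R - GA (TT R I) * I := by linarith only [hGI, hS, hR, hp2, hp1]
    have h2 : 3.207 * 0.98 ≤ a * (R - GA (TT R I) * I) :=
      mul_le_mul hcon.le h1 (by norm_num) (by linarith only [ha])
    norm_num at h2
    linarith only [h2, haR, hp2, hp1]
  have haI : p₂ ≤ 3.207 * I := by
    have h1 := h.hI
    have h2 := mul_le_mul_of_nonneg_right ha2 hI.le
    linarith only [h.sl₁.p0, h2, h1]
  -- step 0
  have hG1 : GA (TT R I) ≤ 1.04 := by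
    unfold GA
    rw [div_le_iff₀ (by positivity)]
    linarith only [hT0]
  have hI1 : 0.1777 ≤ I := by
    by_contra hcon
    push Not at hcon
    have h1 : p₂ ≤ 0.57 := by linarith only [hcon, haI, hp2, hp1]
    have h2 : sinh p₂ ≤ 0.6025 := (sinh_le_sinh.2 h1).trans sinh_57
    have h3 := h.sl₂.sinh0
    have h4 : sinh p₂ ^ 2 ≤ 0.6025 ^ 2 := pow_le_pow_left₀ h3 h2 2
    have h5 : GA (TT R I) ^ 2 ≤ 1.04 ^ 2 := pow_le_pow_left₀ hG hG1 2
    have h6 : sinh p₂ ^ 2 * (1 + GA (TT R I) ^ 2) ≤ 0.6025 ^ 2 * (1 + 1.04 ^ 2) :=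
      mul_le_mul h4 (by linarith only [h5]) (by positivity) (by positivity)
    norm_num at h6
    linarith only [h6, hsl, hc1, hp2, hp1]
  -- `T ≥ 2.34 I`
  have hTI : 2 * I ≤ TT R I * 0.8544 :=
    (two_I_le h.R0 h.R1 hI).trans (mul_le_mul_of_nonneg_left hS hT0.le)
  have hcI : 1 + 2 * I ^ 2 ≤ cc I := by
    have h1 : cc I = 1 + 2 * sinh I ^ 2 := by
      rw [GeoX_cc, cosh_sq]
      ring
    have h2 := le_sinh hI.le
    have h3 : I ^ 2 ≤ sinh I ^ 2 := pow_le_pow_left₀ hI.le h2 2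
    linarith only [h3, h1]
  -- step 1
  have hI2 : 0.2357 ≤ I := by
    by_contra hcon
    push Not at hcon
    have h1 : p₂ ≤ 0.756 := by linarith only [hcon, haI, hp2, hp1]
    have h2 : sinh p₂ ≤ 0.8306 := (sinh_le_sinh.2 h1).trans sinh_756
    have h3 := h.sl₂.sinh0
    have h4 : sinh p₂ ^ 2 ≤ 0.8306 ^ 2 := pow_le_pow_left₀ h3 h2 2
    have hG2 : GA (TT R I) ≤ 0.4358 := by
      unfold GA
      rw [div_le_iff₀ (by positivity)]
      have : 0.4159 ≤ TT R I := by linarith only [hTI, hI1, hp2, hp1]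
      linarith only [hTI, hI1, hp2, hp1]
    have h5 : GA (TT R I) ^ 2 ≤ 0.4358 ^ 2 := pow_le_pow_left₀ hG hG2 2
    have h6 : sinh p₂ ^ 2 * (1 + GA (TT R I) ^ 2) ≤ 0.8306 ^ 2 * (1 + 0.4358 ^ 2) :=
      mul_le_mul h4 (by linarith only [h5]) (by positivity) (by positivity)
    have h7 : 1.063 ≤ cc I := by
      have h10 : (0.1777 : ℝ) ^ 2 ≤ I ^ 2 := pow_le_pow_left₀ (by norm_num) hI1 2
      linarith only [h10, h6, hcI, hsl, hp2, hp1]
    norm_num at h6 h7
    linarith only [h7, h6, hsl, hp2, hp1]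
  -- step 2
  have hRle := h.R_le ha i₁ i₂ hT
  set y := GA (TT R I) * I with hy
  have hy0 : 0 ≤ y := by rw [hy]; positivity
  have hg2 : -(1 / 2) - 1.7321 * y ≤ gg R := by
    have h1 : cos (2 * π / 3 + 2 * y) ≤ gg R := by
      unfold gg
      apply cos_le_cos_of_nonneg_of_le_pi
      · linarith only [hR, hp2, hp1]
      · linarith only [hGI, hS, hp2, hp1]
      · linarith only [hRle]
    rw [cos_add, hcos, hsin] at h1
    have h5 : sin (2 * y) ≤ 2 * y := sin_le (by positivity)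
    have h6 : (0 : ℝ) ≤ sin (2 * y) := sin_nonneg_of_nonneg_of_le_pi (by positivity) (by linarith only [hGI,
                                                                                           hS, hp2,
                                                                                           hp1])
    have h7 : cos (2 * y) ≤ 1 := cos_le_one _
    have h8 : √3 * sin (2 * y) ≤ 1.7321 * (2 * y) := mul_le_mul h3u h5 h6 (by norm_num)
    linarith only [h8, h7, h1]
  have hyb : y * (1 + 1.04 * TT R I) = (1.04 - TT R I) * I := by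
    rw [hy]
    unfold GA
    have : 1 + 1.04 * TT R I ≠ 0 := by positivity
    field_simp
  have hk' : 2 * k2 R I = cc I + gg R := by
    unfold k2
    ring
  have h8 : 0.0198 + 2 * I ^ 2 ≤ 1.7321 * y := by linarith only [hk', hg2, hcI, hk]
  exact L_fin hI2 hTI hyb h8

/-- `|cos z| > 0.49` for `a ≥ 3`. -/
theorem Vx.L3 (h : Vx a R I ρ₁ β₁ p₁ r₁ ρ₂ β₂ p₂ r₂) (ha : 3 ≤ a) (i₁ : In ρ₁ β₁)
    (i₂ : In ρ₂ β₂) : 0.2401 < k2 R I := by
  by_contra hk
  push Not at hk
  have hp1 := pi_gt_d4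
  have hc1 := one_le_cc I
  have hcos : cos (2 * π / 3) = -(1 / 2) := by
    have : 2 * π / 3 = π - π / 3 := by ring
    rw [this, cos_pi_sub, cos_pi_div_three]
  have hR3 : π / 3 < R := by
    by_contra hcon
    push Not at hcon
    have h1 : cos (2 * π / 3) ≤ gg R := by
      unfold gg
      apply cos_le_cos_of_nonneg_of_le_pi <;> linarith [h.R0]
    rw [hcos] at h1
    unfold k2 at hk
    linarith only [h1, hc1, hk]
  have hT : TT R I ≤ 1.04 := by
    by_contra hcon
    push Not at hcon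
    have := h.R_le' ha i₁ i₂ hcon.le
    linarith only [this, hR3]
  have hsum : r₁ + r₂ < 0 := by
    have h1 := mul_le_mul_of_nonneg_right ha h.R0.le
    linarith only [h.hR, h1, hR3]
  rcases lt_or_ge r₂ 0 with hr | hr
  · exact L_aux h ha i₁ i₂ hT hr hk
  · exact L_aux h.swap ha i₂ i₁ hT (by linarith only [hr, hsum]) hk

end Pool.Agent.S5.E
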