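import Pool.Agent.S5.E.V3Q
import Pool.Agent.S5.E.V3K

/-!
# Mixed chains, block E: `a ≥ 3`, the angle of `b tan z`, bounds of `φ` and `I`
-/

set_option autoImplicit false
set_option maxHeartbeats 4000000

namespace Pool.Agent.S5.E

open Real
open Pool.Agent.S3.E (al ph tt k2 s2 cc gg tt_pos tt_sq k2_pos s2_pos al_pos al_lt tan_al one_le_cc
  one_lt_cc gg_lt_one neg_one_lt_gg sinh_two_pos sin_two_pos sinh_two_sq sin_two_sq GeoX_cc GeoX_gg
  GeoX_sin_pos GeoX_cos_pos tan_ph tt_le_one_of)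

variable {a R I ρ₁ β₁ p₁ r₁ ρ₂ β₂ p₂ r₂ : ℝ}

/-- `|t|² (c + g) = c - g`. -/
theorem tt_cg {R I : ℝ} (h : 0 < R) (h' : R < π / 2) :
    tt R I ^ 2 * (cc I + gg R) = cc I - gg R := by
  have hk := k2_pos (I := I) h h'
  have e : tt R I ^ 2 * k2 R I = s2 R I := by
    rw [tt_sq h h']
    field_simp
  unfold k2 s2 at e
  linarith only [e]

/-- `tan² R = (1 - g)/(1 + g)`. -/
theorem tan_sq_gg {R : ℝ} (h : 0 < R) (h' : R < π / 2) :
    tan R ^ 2 * (1 + gg R) = 1 - gg R := by
  have hc := (GeoX_cos_pos h h').ne'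
  have h1 : 1 + gg R = 2 * cos R ^ 2 := by
    unfold gg
    rw [cos_two_mul]
    ring
  have h3 : 1 - gg R = 2 * sin R ^ 2 := by
    unfold gg
    rw [cos_two_mul, sin_sq]
    ring
  rw [h1, h3, tan_eq_sin_div_cos, div_pow]
  field_simp

theorem Vx.tan_sq (h : Vx a R I ρ₁ β₁ p₁ r₁ ρ₂ β₂ p₂ r₂) (ha : 3 ≤ a) (i₁ : In ρ₁ β₁)
    (i₂ : In ρ₂ β₂) : tan R ^ 2 ≤ 4.56 := by
  have h1 := (h.g_ge ha i₁ i₂).1
  have h2 := tan_sq_gg h.R0 h.R1
  have h3 := sq_nonneg (tan R)
  linarith only [h2, h1, mul_nonneg (sq_nonneg (tan R)) (sub_nonneg.2 h1)]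

/-- `tan² R ≤ 3` if `tan φ ≥ 0.7602`. -/
theorem Vx.tan_sq3 (h : Vx a R I ρ₁ β₁ p₁ r₁ ρ₂ β₂ p₂ r₂) (ha : 3 ≤ a) (i₁ : In ρ₁ β₁)
    (i₂ : In ρ₂ β₂) (hf : 0.7602 ≤ tan R * tanh I) : tan R ^ 2 ≤ 3 := by
  have hx := tan_pos' h.R0 h.R1
  have hm := tanh_pos h.I0
  have hm1 : tanh I < 1 := tanh_lt_one I
  have hFx : (tan R * tanh I) ^ 2 < tan R ^ 2 := by
    rw [mul_pow]
    have : tanh I ^ 2 < 1 := by (refine lt_of_not_ge fun hng => ?_; linarith only [hm1,
                                  mul_pos (sub_pos.2 hx) (sub_pos.2 hm1),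
                                  mul_nonneg (sub_nonneg.2 hf) (sub_nonneg.2 hm1.le),
                                  mul_nonneg (sub_nonneg.2 hng) (sub_nonneg.2 hx.le)])
    have h2 : 0 < tan R ^ 2 := by positivity
    linarith only [mul_pos (sub_pos.2 this) (sub_pos.2 h2)]
  have hT : 1.04 ≤ TT R I :=
    T_ge (T_xm h.R0 h.R1) (by norm_num : (0 : ℝ) < 0.7602) hf hFx (h.tan_sq ha i₁ i₂)
      (by norm_num) (by norm_num)
  have hR := h.R_le' ha i₁ i₂ hT
  have h1 : tan R ≤ tan (π / 3) := by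
    rcases hR.eq_or_lt with h2 | h2
    · rw [h2]
    · exact (tan_lt_tan_of_lt_of_lt_pi_div_two (by linarith only [h.R0, h2])
        (by linarith only [pi_pos]) h2).le
  rw [tan_pi_div_three] at h1
  have h2 := sq_sqrt (show (0 : ℝ) ≤ 3 by norm_num)
  have h3 := pow_le_pow_left₀ hx.le h1 2
  linarith only [h3, h2]

theorem In.sq {ρ β : ℝ} (h : In ρ β) (h0 : 0 ≤ ρ) : ρ ^ 2 ≤ 1.21 := by
  have := h.ρ1
  linarith only [this, mul_nonneg (sub_nonneg.2 h0) (sub_nonneg.2 this)]

/-- `tan φ < 0.8086 < tan 0.68` from the crude bounds. -/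
theorem Vx.F3 (h : Vx a R I ρ₁ β₁ p₁ r₁ ρ₂ β₂ p₂ r₂) (ha : 3 ≤ a) (i₁ : In ρ₁ β₁)
    (i₂ : In ρ₂ β₂) : tan R * tanh I < 0.8086 := by
  by_contra hc
  push Not at hc
  have h1 := h.tan_sq3 ha i₁ i₂ (by linarith only [hc])
  have := h.F68 ha (i₁.sq h.sl₁.ρ0) (i₂.sq h.sl₂.ρ0) i₁.lo i₂.lo h1
  linarith only [this, hc]

/-- `tan φ < 0.7602 < tan 0.65` if `ρ ≤ 1.09` and `tan β ≥ -1.0013`. -/
theorem Vx.F3' (h : Vx a R I ρ₁ β₁ p₁ r₁ ρ₂ β₂ p₂ r₂) (ha : 3 ≤ a) (i₁ : In ρ₁ β₁)
    (i₂ : In ρ₂ β₂) (h₁ : ρ₁ ≤ 1.09) (h₂ : ρ₂ ≤ 1.09) (hβ₁ : -(1.0013 * cos β₁) ≤ sin β₁)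
    (hβ₂ : -(1.0013 * cos β₂) ≤ sin β₂) : tan R * tanh I < 0.7602 := by
  by_contra hc
  push Not at hc
  have h1 := h.tan_sq3 ha i₁ i₂ hc
  have e1 : ρ₁ ^ 2 ≤ 1.1881 := by linarith only [h₁,
                                    mul_nonneg (sub_nonneg.2 h₁) (sub_nonneg.2 h.sl₁.ρ0)]
  have e2 : ρ₂ ^ 2 ≤ 1.1881 := by linarith only [h₂,
                                    mul_nonneg (sub_nonneg.2 h₂) (sub_nonneg.2 h.sl₂.ρ0)]
  have := h.F65 ha e1 e2 hβ₁ hβ₂ h1
  linarith only [this, hc]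

/-- `c < 2.64`, `I < 1`. -/
theorem Vx.I3 (h : Vx a R I ρ₁ β₁ p₁ r₁ ρ₂ β₂ p₂ r₂) (ha : 3 ≤ a) (i₁ : In ρ₁ β₁)
    (i₂ : In ρ₂ β₂) : cc I < 2.64 ∧ I < 1 := by
  have h1 := h.K3 ha i₁ i₂
  have h2 := (h.g_ge ha i₁ i₂).1
  have h3 : cc I < 2.64 := by
    unfold k2 at h1
    linarith only [h2, h1]
  refine ⟨h3, ?_⟩
  by_contra hc
  push Not at hc
  have h4 : 1 ≤ sinh I := hc.trans (le_sinh h.I0.le)
  have h5 : cc I = 1 + 2 * sinh I ^ 2 := by
    rw [GeoX_cc, cosh_sq]
    ring
  linarith only [h5, h4, h3, mul_nonneg (sub_nonneg.2 h4) (sub_nonneg.2 h4)]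

/-- The angle of `b tan z` is `< π/2`. -/
theorem Vx.A3 (h : Vx a R I ρ₁ β₁ p₁ r₁ ρ₂ β₂ p₂ r₂) (ha : 3 ≤ a) (i₁ : In ρ₁ β₁)
    (i₂ : In ρ₂ β₂) (hρ : 0.49 ≤ ρ₁) : al R I + β₁ < π / 2 := by
  by_contra hcon
  push Not at hcon
  have hγ : al R I + β₁ = π / 2 := le_antisymm h.sl₁.g1 hcon
  have hR0 := h.R0
  have hR1 := h.R1
  have hI0 := h.I0
  have hp1 := pi_gt_d4
  have hp2 := pi_lt_d4
  have htt := tt_pos (I := I) hR0 hR1
  have hT0 := h.T0
  have hc := one_lt_cc hI0
  have hg := gg_lt_one hR0 hR1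
  have hg' := (h.g_ge ha i₁ i₂).1
  -- `T ≥ 1/1.04`
  have hTl : 1 ≤ 1.04 * TT R I := by
    have e1 : al R I = π / 2 - β₁ := by linarith only [hcon, hγ]
    have hc' : 0 < cos (al R I) :=
      cos_pos_of_mem_Ioo ⟨by linarith only [al_pos hR0 hR1 hI0, hp2, hp1], al_lt R I⟩
    have e2 : TT R I = sin (al R I) / cos (al R I) := tan_eq_sin_div_cos _
    have e3 : sin (al R I) = cos β₁ := by rw [e1, sin_pi_div_two_sub]
    have e4 : cos (al R I) = sin β₁ := by rw [e1, cos_pi_div_two_sub]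
    rw [e2, mul_div_assoc', le_div_iff₀ hc', e3, e4]
    linarith only [i₁.up]
  have hTsq := TT_sq (I := I) hR0 hR1
  have hT2 : 0.92 ≤ TT R I ^ 2 := by linarith only [hTl,
                                       mul_nonneg (sub_nonneg.2 hT0.le) (sub_nonneg.2 hTl),
                                       mul_pos (sub_pos.2 hp2) (sub_pos.2 hp2),
                                       mul_pos (sub_pos.2 hp1) (sub_pos.2 hp2),
                                       mul_pos (sub_pos.2 hp1) (sub_pos.2 hp1)]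
  have h1g : 0 ≤ 1 - gg R ^ 2 := by (refine le_of_not_gt fun hng => ?_; linarith only [hTsq,
                                      mul_pos (sub_pos.2 hc) (sub_pos.2 hc),
                                      mul_pos (sub_pos.2 hp2) (sub_pos.2 hc),
                                      mul_pos (sub_pos.2 hp1) (sub_pos.2 hc),
                                      mul_nonneg (sq_nonneg (TT R I)) (sub_nonneg.2 hng.le)])
  have hTc : 0.92 * (1 - gg R ^ 2) ≤ cc I ^ 2 - 1 := by
    rw [hTsq]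
    exact mul_le_mul_of_nonneg_right hT2 h1g
  -- `r₂ ≥ -0.04`
  have hr₂ : -0.04 ≤ r₂ := by
    rcases le_total (TT R I) 1.04 with hT | hT
    · have h1 := h.sl₂.r_ge' hR0 hR1 hI0 i₂ hT
      have h2 : GA (TT R I) ≤ 0.04 := by
        unfold GA
        rw [div_le_iff₀ (by positivity)]
        linarith only [hTl, hp2, hp1]
      have h3 := GA_nonneg hT0.le hT
      have h4 := tanh_nonneg h.sl₂.p0
      have h5 := (tanh_lt_one p₂).le
      have h6 : GA (TT R I) * tanh p₂ ≤ 0.04 * 1 := mul_le_mul h2 h5 h4 (by norm_num)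
      linarith only [h6, h1]
    · have := h.sl₂.r_nonneg hR0 hR1 hI0 i₂ hT
      linarith only [this, hp2, hp1]
  have htk := tt_cg (I := I) hR0 hR1
  have e1 := h.sl₁.e1
  have e2 := h.sl₁.e2
  rw [hγ, cos_pi_div_two, mul_zero] at e1
  rw [hγ, sin_pi_div_two, mul_one] at e2
  rcases mul_eq_zero.mp e1 with hp | hr
  · have hp₁ : p₁ = 0 := sinh_eq_zero.mp hp
    rw [hp₁, cosh_zero, one_mul] at e2
    -- (*)
    have hstar : (cc I - 1) * (2 * cc I + 1) ^ 2 * (cc I + gg R) ≤ 2.42 * (cc I - gg R) := by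
      have h1 : 3 * I ≤ p₂ := by
        have := h.hI
        have := mul_le_mul_of_nonneg_right ha hI0.le
        linarith [this, hp₁]
      have h2 : sinh (3 * I) ^ 2 ≤ sinh p₂ ^ 2 :=
        pow_le_pow_left₀ (sinh_nonneg_iff.2 (by linarith only [hI0])) (sinh_le_sinh.2 h1) 2
      have h3 := h.sl₂.sinh_sq_le
      rw [mul_pow] at h3
      have h4 : ρ₂ ^ 2 * tt R I ^ 2 ≤ 1.21 * tt R I ^ 2 :=
        mul_le_mul_of_nonneg_right (i₂.sq h.sl₂.ρ0) (sq_nonneg _)
      have h5 : 2 * sinh (3 * I) ^ 2 = (cc I - 1) * (2 * cc I + 1) ^ 2 := by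
        have e5 : cc I = 1 + 2 * sinh I ^ 2 := by
          rw [GeoX_cc, cosh_sq]
          ring
        rw [e5, sinh_three_mul]
        ring
      have h6 : (cc I - 1) * (2 * cc I + 1) ^ 2 ≤ 2.42 * tt R I ^ 2 := by
        rw [← h5]
        linarith only [h4, h3, h2]
      have h7 : 0 < cc I + gg R := by linarith only [hg', hc, hp2, hp1]
      have h8 := mul_le_mul_of_nonneg_right h6 h7.le
      have h9 : 2.42 * tt R I ^ 2 * (cc I + gg R) = 2.42 * (cc I - gg R) := by
        rw [mul_assoc, htk]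
      linarith only [h8, htk]
    rcases le_or_gt 0 (gg R) with hg0 | hg0
    · -- `c - g ≤ (c - 1)(1 + 1.087 (c + 1))`
      have h1 : 0.92 * (1 - gg R) ≤ (cc I - 1) * (cc I + 1) := by (refine le_of_not_gt fun hng => ?_; linarith only [hTc,
                                                                    mul_nonneg (sub_nonneg.2 hg.le) (sub_nonneg.2 hg0),
                                                                    mul_pos (sub_pos.2 hng) (sub_pos.2 hp2),
                                                                    mul_pos (sub_pos.2 hng) (sub_pos.2 hp1)])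
      have h2 : 0.92 * (cc I - gg R) ≤ (cc I - 1) * (0.92 + (cc I + 1)) := by linarith only [h1]
      have h3 : 9 ≤ (2 * cc I + 1) ^ 2 := by linarith only [hTc, h1g, hc]
      have h4 : (cc I - 1) * (9 * cc I) ≤ (cc I - 1) * ((2 * cc I + 1) ^ 2 * (cc I + gg R)) := by
        apply mul_le_mul_of_nonneg_left _ (by linarith only [hc])
        exact mul_le_mul h3 (by linarith only [hg0]) (by linarith only [hc, hp2, hp1]) (by positivity)
      have h5 : (cc I - 1) * (0.92 * (9 * cc I)) ≤ (cc I - 1) * (2.42 * (1.92 + cc I)) := by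
        linarith only [h4, h1, hstar]
      have h6 := le_of_mul_le_mul_left h5 (by linarith only [hc])
      linarith only [h6, hc, hp2, hp1]
    · have htt1 : 1 ≤ tt R I := by
        have : 1 ≤ tt R I ^ 2 := by
          by_contra hn
          push Not at hn
          have h7 : 0 < cc I + gg R := by linarith only [hg', hc, hp2, hp1]
          linarith only [hn, htk, mul_pos (sub_pos.2 hc) (sub_pos.2 hn),
            mul_pos (sub_pos.2 hp2) (sub_pos.2 hg0), mul_pos (sub_pos.2 hp1) (sub_pos.2 hg0),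
            mul_nonneg (sq_nonneg (tt R I)) (sub_nonneg.2 hg0.le)]
        (refine le_of_not_gt fun hng => ?_; linarith only [this,
          mul_pos (sub_pos.2 hng) (sub_pos.2 htt), mul_pos (sub_pos.2 hng) (sub_pos.2 hp2),
          mul_pos (sub_pos.2 hng) (sub_pos.2 hp1)])
      have hsr : 0.49 ≤ sin r₁ := by
        rw [e2]
        (refine le_of_not_gt fun hng => ?_; linarith only [htt1,
          mul_nonneg (sub_nonneg.2 hρ) (sub_nonneg.2 htt.le),
          mul_pos (sub_pos.2 hng) (sub_pos.2 hp2), mul_pos (sub_pos.2 hng) (sub_pos.2 hp1)])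
      have hr₁ : 0.49 ≤ r₁ := by
        rcases le_or_gt 0 r₁ with h1 | h1
        · exact hsr.trans (sin_le h1)
        · exfalso
          have : sin r₁ < 0 := sin_neg_of_neg_of_neg_pi_lt h1 (by linarith only [h.sl₁.r0, hp2, hp1])
          linarith only [this, hsr, hp2, hp1]
      have h3R : 3 * R ≤ a * R := mul_le_mul_of_nonneg_right ha hR0.le
      have hR2 : 2 * R ≤ π / 2 + 0.2242 := by linarith only [h.hR, h3R, hr₁, hr₂, hp2, hp1]
      have hgl : -0.2242 ≤ gg R := by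
        have h1 : cos (π / 2 + 0.2242) ≤ gg R := by
          unfold gg
          apply cos_le_cos_of_nonneg_of_le_pi <;> linarith
        rw [add_comm, cos_add_pi_div_two] at h1
        have h2 : sin (0.2242 : ℝ) ≤ 0.2242 := sin_le (by norm_num)
        linarith only [h2, h1]
      have hcl : 1.36 ≤ cc I := by (refine le_of_not_gt fun hng => ?_; linarith only [hng, hgl, hTc,
                                     mul_nonneg (sub_nonneg.2 hg0.le) (sub_nonneg.2 hgl),
                                     mul_pos (sub_pos.2 hp2) (sub_pos.2 hp2),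
                                     mul_pos (sub_pos.2 hp1) (sub_pos.2 hp2),
                                     mul_pos (sub_pos.2 hp1) (sub_pos.2 hp1),
                                     mul_pos (sub_pos.2 hng) (sub_pos.2 hc)])
      have h1 : 0.36 * 13.83 * (cc I + gg R) ≤ (cc I - 1) * (2 * cc I + 1) ^ 2 * (cc I + gg R) := by
        apply mul_le_mul_of_nonneg_right _ (by linarith only [hg', hc, hp2, hp1])
        apply mul_le_mul (by linarith only [hcl]) _ (by norm_num) (by linarith only [hc])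
        linarith only [hcl, mul_nonneg (sub_nonneg.2 hc.le) (sub_nonneg.2 hcl),
          mul_pos (sub_pos.2 hp2) (sub_pos.2 hp2), mul_pos (sub_pos.2 hp1) (sub_pos.2 hp2),
          mul_pos (sub_pos.2 hp1) (sub_pos.2 hp1)]
      linarith only [h1, hcl, hgl, hstar, hp2, hp1]
  · have hr₁ : r₁ = π / 2 := by
      rcases h.sl₁.r1.eq_or_lt with h1 | h1
      · exact h1
      · exfalso
        rcases h.sl₁.r0.eq_or_lt with h2 | h2
        · rw [← h2, sin_neg, sin_pi_div_two] at e2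
          have h3 := cosh_pos p₁
          have h4 := h.sl₁.m0
          linarith only [h4, h3, e2]
        · exact (cos_pos_of_mem_Ioo ⟨h2, h1⟩).ne' hr
    rw [hr₁, sin_pi_div_two, mul_one] at e2
    have hch : 1 ≤ cosh p₁ := one_le_cosh p₁
    have h3R : 3 * R ≤ a * R := mul_le_mul_of_nonneg_right ha hR0.le
    have hR2 : 2 * R ≤ 1.08 := by linarith only [h.hR, h3R, hr₁, hr₂, hp2, hp1]
    have hgl : 0.41 ≤ gg R := by
      have h1 : cos 1.08 ≤ gg R := by
        unfold gg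
        apply cos_le_cos_of_nonneg_of_le_pi <;> linarith
      have h2 := cos_ge 1.08
      norm_num at h1 h2 ⊢
      linarith only [h2, h1, hp2, hp1]
    have htt1 : tt R I ≤ 1 := tt_le_one_of hR0 (by linarith only [hR2, hp2, hp1])
    -- `tt² ≥ 1/1.21`
    have h1 : 1 ≤ 1.21 * tt R I ^ 2 := by
      have h2 : 1 ≤ 1.1 * tt R I := by
        have := mul_le_mul_of_nonneg_right i₁.ρ1 htt.le
        linarith only [this, hch, e2]
      (refine le_of_not_gt fun hng => ?_; linarith only [h2,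
        mul_nonneg (sub_nonneg.2 htt.le) (sub_nonneg.2 h2), mul_pos (sub_pos.2 hng) (sub_pos.2 hp2),
        mul_pos (sub_pos.2 hng) (sub_pos.2 hp1)])
    have h7 : 0 < cc I + gg R := by linarith only [hg', hc, hp2, hp1]
    have h8 : cc I + gg R ≤ 1.21 * (cc I - gg R) := by
      rw [← htk]
      (refine le_of_not_gt fun hng => ?_; linarith only [hng, h1, htk,
        mul_nonneg (sub_nonneg.2 hc.le) (sub_nonneg.2 h1),
        mul_nonneg (sub_nonneg.2 hng.le) (sub_nonneg.2 h1),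
        mul_nonneg (sq_nonneg (tt R I)) (sub_nonneg.2 htk.le),
        mul_nonneg (sq_nonneg (tt R I)) (sub_nonneg.2 htk.ge)])
    have hcl : 4 ≤ cc I := by linarith only [h8, hgl, hp2, hp1]
    -- `I ≤ max p`
    have hs : sinh I ≤ 1.1 := by
      have key : ∀ ρ β p r : ℝ, Slot R I ρ β p r → In ρ β → I ≤ p → sinh I ≤ 1.1 := by
        intro ρ β p r hs hi hIp
        have h9 := (sinh_le_sinh.2 hIp).trans hs.sinh_le
        have h10 : ρ * tt R I ≤ 1.1 * 1 := mul_le_mul hi.ρ1 htt1 htt.le (by norm_num)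
        linarith only [h10, h9]
      rcases le_total I p₁ with h2 | h2
      · exact key _ _ _ _ h.sl₁ i₁ h2
      · apply key _ _ _ _ h.sl₂ i₂
        have := h.hI
        have := mul_le_mul_of_nonneg_right ha hI0.le
        linarith [this, h2, hI0]
    have h5 : cc I = 1 + 2 * sinh I ^ 2 := by
      rw [GeoX_cc, cosh_sq]
      ring
    have h6 : 0 < sinh I := sinh_pos_iff.2 hI0
    linarith only [h5, hs, h8, hgl, mul_nonneg (sub_nonneg.2 hs) (sub_nonneg.2 h6.le),
      mul_pos (sub_pos.2 hp2) (sub_pos.2 hp2), mul_pos (sub_pos.2 hp1) (sub_pos.2 hp2),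
      mul_pos (sub_pos.2 hp1) (sub_pos.2 hp1)]

end Pool.Agent.S5.E
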