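import Pool.Agent.S5.E.V3B
import Pool.Agent.S5.E.D3
import Pool.Agent.S5.E.Num

/-!
# Mixed chains, block E: diagonal dominance for `a ≥ 3`, general case
-/

set_option autoImplicit false
set_option maxHeartbeats 4000000

namespace Pool.Agent.S5.E

open Real
open Pool.Agent.S3.E (al ph tt k2 s2 cc gg tt_pos tt_sq k2_pos s2_pos al_pos al_lt tan_al one_le_cc
  one_lt_cc gg_lt_one neg_one_lt_gg sinh_two_pos sin_two_pos sinh_two_sq sin_two_sq norm_tanh_sq
  tanh_quadrant proj_cs pos_cs GeoC_cos_re GeoC_cos_im GeoC_sin_re GeoC_sin_im)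

/-- `tanh (p + i r) = (u + i τ)/(1 + i u τ)`, `u = tanh p`, `τ = tan r`. -/
theorem tanh_form {p r : ℝ} (hc : cos r ≠ 0) :
    Complex.tanh ((p : ℂ) + (r : ℂ) * Complex.I) =
      ((tanh p : ℝ) + (tan r : ℝ) * Complex.I) / (1 + ((tanh p * tan r : ℝ) : ℂ) * Complex.I) := by
  have hp : (cosh p) ≠ 0 := (cosh_pos p).ne'
  have h1 : Complex.sinh ((p : ℂ) + (r : ℂ) * Complex.I) =
      ((cosh p * cos r : ℝ) : ℂ) * ((tanh p : ℝ) + (tan r : ℝ) * Complex.I) := by
    rw [Complex.sinh_add, Complex.cosh_mul_I, Complex.sinh_mul_I, ← Complex.ofReal_sinh,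
      ← Complex.ofReal_cosh, ← Complex.ofReal_cos, ← Complex.ofReal_sin, tanh_eq_sinh_div_cosh,
      tan_eq_sin_div_cos]
    push_cast
    have hp' : Complex.cosh (p : ℂ) ≠ 0 := by exact_mod_cast hp
    have hc' : Complex.cos (r : ℂ) ≠ 0 := by exact_mod_cast hc
    field_simp
  have h2 : Complex.cosh ((p : ℂ) + (r : ℂ) * Complex.I) =
      ((cosh p * cos r : ℝ) : ℂ) * (1 + ((tanh p * tan r : ℝ) : ℂ) * Complex.I) := by
    rw [Complex.cosh_add, Complex.cosh_mul_I, Complex.sinh_mul_I, ← Complex.ofReal_sinh,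
      ← Complex.ofReal_cosh, ← Complex.ofReal_cos, ← Complex.ofReal_sin, tanh_eq_sinh_div_cosh,
      tan_eq_sin_div_cos]
    push_cast
    have hp' : Complex.cosh (p : ℂ) ≠ 0 := by exact_mod_cast hp
    have hc' : Complex.cos (r : ℂ) ≠ 0 := by exact_mod_cast hc
    field_simp
  have h3 : ((cosh p * cos r : ℝ) : ℂ) ≠ 0 := by
    exact_mod_cast mul_ne_zero hp hc
  rw [Complex.tanh_eq_sinh_div_cosh, h1, h2, mul_div_mul_left _ _ h3]

private theorem tf_nsq (u t : ℝ) : Complex.normSq (1 + ((u * t : ℝ) : ℂ) * Complex.I) =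
    1 + u ^ 2 * t ^ 2 := by
  rw [Complex.normSq_apply]
  simp only [Complex.add_re, Complex.add_im, Complex.mul_re, Complex.mul_im, Complex.ofReal_re,
    Complex.ofReal_im, Complex.I_re, Complex.I_im, Complex.one_re, Complex.one_im]
  ring

private theorem tf_im (u t : ℝ) : (((u : ℂ) + (t : ℂ) * Complex.I) /
    (1 + ((u * t : ℝ) : ℂ) * Complex.I)).im = t * (1 - u ^ 2) / (1 + u ^ 2 * t ^ 2) := by
  rw [Complex.div_im, tf_nsq]
  simp only [Complex.add_re, Complex.add_im, Complex.mul_re, Complex.mul_im, Complex.ofReal_re,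
    Complex.ofReal_im, Complex.I_re, Complex.I_im, Complex.one_re, Complex.one_im]
  ring

theorem tanh_form_im {p r : ℝ} (hc : cos r ≠ 0) :
    (Complex.tanh ((p : ℂ) + (r : ℂ) * Complex.I)).im =
      tan r * (1 - tanh p ^ 2) / (1 + tanh p ^ 2 * tan r ^ 2) := by
  rw [tanh_form hc]
  exact tf_im _ _

private theorem tf_norm (u t : ℝ) : ‖((u : ℂ) + (t : ℂ) * Complex.I)‖ ^ 2 = u ^ 2 + t ^ 2 := by
  rw [← Complex.normSq_eq_norm_sq, Complex.normSq_apply]
  simp only [Complex.add_re, Complex.add_im, Complex.mul_re, Complex.mul_im, Complex.ofReal_re,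
    Complex.ofReal_im, Complex.I_re, Complex.I_im]
  ring

theorem tanh_form_norm {p r : ℝ} (hc : cos r ≠ 0) :
    ‖Complex.tanh ((p : ℂ) + (r : ℂ) * Complex.I)‖ ^ 2 =
      (tanh p ^ 2 + tan r ^ 2) / (1 + tanh p ^ 2 * tan r ^ 2) := by
  rw [tanh_form hc, norm_div, div_pow, tf_norm, ← Complex.normSq_eq_norm_sq, tf_nsq]

/-- (E1) -/
theorem slot_E1 {p r σ : ℝ} (hp : 0 ≤ p) (hr : 0 ≤ r) (hr' : r ≤ π / 4) (hσ : 0 ≤ σ)
    (hσ1 : σ ≤ 1) :
    σ * ‖Complex.tanh ((p : ℂ) + (r : ℂ) * Complex.I)‖ -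
      (Complex.tanh ((p : ℂ) + (r : ℂ) * Complex.I)).im ≤ σ * tanh p := by
  have hc : 0 < cos r := cos_pos_of_mem_Ioo ⟨by linarith only [pi_pos, hr], by linarith only [pi_pos,
                                                                                 hr']⟩
  have hu0 := tanh_nonneg hp
  have hu1 := (tanh_lt_one p).le
  have ht0 : 0 ≤ tan r := tan_nonneg_of_nonneg_of_le_pi_div_two hr (by linarith only [hr', hr])
  have ht1 : tan r ≤ 1 := by
    rcases hr'.eq_or_lt with h | h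
    · rw [h, tan_pi_div_four]
    · rw [← tan_pi_div_four]
      exact (tan_lt_tan_of_lt_of_lt_pi_div_two (by linarith only [h, hr]) (by linarith only [h, hr]) h).le
  have hi := tanh_form_im (p := p) hc.ne'
  have hn := tanh_form_norm (p := p) hc.ne'
  set u := tanh p with hu
  set t := tan r with ht
  have hD : 0 < 1 + u ^ 2 * t ^ 2 := by positivity
  have him : 0 ≤ t * (1 - u ^ 2) / (1 + u ^ 2 * t ^ 2) := by
    apply div_nonneg (mul_nonneg ht0 (by linarith only [hu1,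
                                           mul_nonneg (sub_nonneg.2 hu0) (sub_nonneg.2 hu1)])) hD.le
  have key : ‖Complex.tanh ((p : ℂ) + (r : ℂ) * Complex.I)‖ ≤
      u + (Complex.tanh ((p : ℂ) + (r : ℂ) * Complex.I)).im := by
    rw [hi]
    apply le_of_sq_le_sq _ (by linarith only [him, hu0])
    rw [hn]
    have e : (u + t * (1 - u ^ 2) / (1 + u ^ 2 * t ^ 2)) ^ 2 -
        (u ^ 2 + t ^ 2) / (1 + u ^ 2 * t ^ 2) =
        t * u * ((1 - u ^ 2) * (2 * (1 + u ^ 2 * t ^ 2) - 2 * u * t - u * t ^ 3 * (1 + u ^ 2))) /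
          (1 + u ^ 2 * t ^ 2) ^ 2 := by
      field_simp
      ring
    have h1 : 0 ≤ t * u * ((1 - u ^ 2) * (2 * (1 + u ^ 2 * t ^ 2) - 2 * u * t - u * t ^ 3 * (1 + u ^ 2))) /
          (1 + u ^ 2 * t ^ 2) ^ 2 := by
      apply div_nonneg _ (by positivity)
      apply mul_nonneg (mul_nonneg ht0 hu0)
      apply mul_nonneg (by linarith only [hu1, mul_nonneg (sub_nonneg.2 hu0) (sub_nonneg.2 hu1)])
      have hx0 : 0 ≤ u * t := mul_nonneg hu0 ht0
      have hx1 : u * t ≤ 1 := by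
        have := mul_le_mul hu1 ht1 ht0 (by norm_num)
        linarith only [this]
      have h2 : u * t ^ 3 ≤ u * t := by
        have h3 : t ^ 2 ≤ 1 := by linarith only [ht1,
                                    mul_nonneg (sub_nonneg.2 ht0) (sub_nonneg.2 ht1)]
        have := mul_le_mul_of_nonneg_left h3 hx0
        linarith only [this]
      have h4 : 0 ≤ (1 - u * t) * (2 - u * t + (u * t) ^ 2) := by
        apply mul_nonneg (by linarith only [hx1])
        linarith only [hx1, hD]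
      have h5 : u * t ^ 3 * (1 + u ^ 2) = u * t ^ 3 + (u * t) ^ 3 := by ring
      have h6 : (1 - u * t) * (2 - u * t + (u * t) ^ 2) =
        2 - 3 * (u * t) + 2 * (u * t) ^ 2 - (u * t) ^ 3 := by ring
      have h7 : 2 * (1 + u ^ 2 * t ^ 2) = 2 + 2 * (u * t) ^ 2 := by ring
      rw [h5, h7]
      linarith only [h4, h2]
    linarith only [h1, e]
  rw [hi] at key ⊢
  linarith only [mul_nonneg (sub_nonneg.2 hσ1) (sub_nonneg.2 him),
    mul_nonneg (sub_nonneg.2 hσ) (sub_nonneg.2 key)]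

/-- (E2) -/
theorem slot_E2 {p r σ G Q : ℝ} (hp : 0 ≤ p) (hc : 0 < cos r) (hr : tan r ≤ 0)
    (hG : -(G * tanh p) ≤ tan r) (hG0 : 0 ≤ G) (hQ : 0 ≤ Q) (hQ2 : 1 + G ^ 2 ≤ Q ^ 2)
    (hσ : 0 ≤ σ) :
    σ * ‖Complex.tanh ((p : ℂ) + (r : ℂ) * Complex.I)‖ -
      (Complex.tanh ((p : ℂ) + (r : ℂ) * Complex.I)).im ≤ (σ * Q + G) * tanh p := by
  have hu0 := tanh_nonneg hp
  have hu1 := (tanh_lt_one p).le
  have hi := tanh_form_im (p := p) hc.ne'
  have hn := tanh_form_norm (p := p) hc.ne'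
  set u := tanh p with hu
  set t := tan r with ht
  have hD : 0 < 1 + u ^ 2 * t ^ 2 := by positivity
  have hD1 : 1 ≤ 1 + u ^ 2 * t ^ 2 := by linarith only [sq_nonneg (u * t)]
  have h1 : ‖Complex.tanh ((p : ℂ) + (r : ℂ) * Complex.I)‖ ≤ Q * u := by
    apply le_of_sq_le_sq _ (mul_nonneg hQ hu0)
    rw [hn, div_le_iff₀ hD]
    have h2 : t ^ 2 ≤ (G * u) ^ 2 := by
      linarith only [mul_nonneg (sub_nonneg.2 hG) (sub_nonneg.2 hG),
        mul_nonneg (sub_nonneg.2 hr) (sub_nonneg.2 hG)]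
    have h3 : u ^ 2 + t ^ 2 ≤ (Q * u) ^ 2 := by
      have := mul_le_mul_of_nonneg_right hQ2 (sq_nonneg u)
      linarith only [this, h2]
    have h4 : (Q * u) ^ 2 * 1 ≤ (Q * u) ^ 2 * (1 + u ^ 2 * t ^ 2) :=
      mul_le_mul_of_nonneg_left hD1 (sq_nonneg _)
    linarith only [h4, h3]
  have h2 : -(Complex.tanh ((p : ℂ) + (r : ℂ) * Complex.I)).im ≤ G * u := by
    rw [hi, ← neg_div, div_le_iff₀ hD]
    have h3 : -(t * (1 - u ^ 2)) ≤ -t := by linarith only [mul_nonneg (neg_nonneg.2 hr) (sq_nonneg u)]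
    have h4 : G * u * 1 ≤ G * u * (1 + u ^ 2 * t ^ 2) :=
      mul_le_mul_of_nonneg_left hD1 (mul_nonneg hG0 hu0)
    linarith only [h4, h3, hG]
  have h3 := mul_le_mul_of_nonneg_left h1 hσ
  linarith only [h3, h2]

theorem tanh_dbl_im {p r : ℝ} (hc : 0 < cos r) :
    (Complex.tanh ((p : ℂ) + (r : ℂ) * Complex.I)).im =
      sin (2 * r) / (cosh (2 * p) + cos (2 * r)) := by
  have hp := cosh_pos p
  rw [tanh_form_im hc.ne']
  have h1 : cosh (2 * p) + cos (2 * r) = 2 * (cosh p ^ 2 * cos r ^ 2 + sinh p ^ 2 * sin r ^ 2) := by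
    rw [cosh_two_mul, cos_two_mul, sin_sq]
    have := cosh_sq p
    linarith only [this, mul_nonneg (sq_nonneg (cos r)) (sub_nonneg.2 this.le),
      mul_nonneg (sq_nonneg (cos r)) (sub_nonneg.2 this.ge)]
  have h2 : 0 < cosh p ^ 2 * cos r ^ 2 + sinh p ^ 2 * sin r ^ 2 := by positivity
  rw [h1, sin_two_mul, tanh_eq_sinh_div_cosh, tan_eq_sin_div_cos]
  have h3 : 1 - (sinh p / cosh p) ^ 2 = 1 / cosh p ^ 2 := by
    have := cosh_sq p
    field_simp
    linarith only [this]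
  have h4 : 1 + (sinh p / cosh p) ^ 2 * (sin r / cos r) ^ 2 =
      (cosh p ^ 2 * cos r ^ 2 + sinh p ^ 2 * sin r ^ 2) / (cosh p ^ 2 * cos r ^ 2) := by
    field_simp
  rw [h3, h4]
  field_simp

theorem den_pos {p r : ℝ} (hc : 0 < cos r) : 0 < cosh (2 * p) + cos (2 * r) := by
  have h1 := one_le_cosh (2 * p)
  rw [cos_two_mul]
  linarith only [pow_pos hc 2, h1]

/-- (K) with a constant. -/
theorem slot_K {p r σ K m : ℝ} (hc : 0 < cos r) (hr : cos (2 * r) ≤ 0)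
    (hσ : 0 ≤ σ) (hK : 0 ≤ K) (hm : 0 ≤ m)
    (hq : ∀ w : ℝ, 1 + 2 * w ≤ (K + m * w) ^ 2)
    (hs : σ * m * (-cos (2 * r)) ≤ sin (2 * r)) :
    σ * ‖Complex.tanh ((p : ℂ) + (r : ℂ) * Complex.I)‖ -
      (Complex.tanh ((p : ℂ) + (r : ℂ) * Complex.I)).im ≤ K * σ := by
  have hD := den_pos (p := p) hc
  have hn := norm_tanh_sq p r hD
  rw [tanh_dbl_im hc]
  set D := cosh (2 * p) + cos (2 * r) with hDd
  have h0 : 0 ≤ -cos (2 * r) / D := div_nonneg (by linarith only [hr]) hD.le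
  have h1 : ‖Complex.tanh ((p : ℂ) + (r : ℂ) * Complex.I)‖ ≤ K + m * (-cos (2 * r) / D) := by
    apply le_of_sq_le_sq _ (by positivity)
    rw [hn]
    have := hq (-cos (2 * r) / D)
    have e : (cosh (2 * p) - cos (2 * r)) / D = 1 + 2 * (-cos (2 * r) / D) := by
      have h2 : D ≠ 0 := hD.ne'
      field_simp
      rw [hDd]
      ring
    rw [e]
    exact this
  have h2 := mul_le_mul_of_nonneg_left h1 hσ
  have h3 : σ * m * (-cos (2 * r)) / D ≤ sin (2 * r) / D := div_le_div_of_nonneg_right hs hD.le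
  have h4 : σ * (K + m * (-cos (2 * r) / D)) = K * σ + σ * m * (-cos (2 * r)) / D := by ring
  linarith only [h4, h3, h2]

theorem re_N (z w : ℂ) (a : ℝ) :
    a / 2 * (cc z.im * sin (2 * z.re)) + w.im ≤
      ‖(a : ℂ) * (Complex.cos z * Complex.sin z) - Complex.I * w‖ := by
  refine le_trans (le_of_eq ?_) (Complex.re_le_norm _)
  rw [Complex.sub_re, Complex.re_ofReal_mul, Complex.mul_re, Complex.mul_re, GeoC_cos_re,
    GeoC_cos_im, GeoC_sin_re, GeoC_sin_im, Complex.I_re, Complex.I_im]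
  unfold cc
  rw [sin_two_mul, cosh_two_mul]
  ring

/-- An upper bound of `√(1 + G²)`. -/
noncomputable def QT (T : ℝ) : ℝ := 1.4428 * (1 + 0.4259 * T) / (1 + 1.04 * T)

section QT

variable {T : ℝ}

theorem QT_pos (h0 : 0 ≤ T) : 0 < QT T := by
  unfold QT
  positivity

theorem QT_mul (h0 : 0 ≤ T) : QT T * (1 + 1.04 * T) = 1.4428 * (1 + 0.4259 * T) := by
  have : 0 < 1 + 1.04 * T := by positivity
  unfold QT
  field_simp

theorem GA_mul (h0 : 0 ≤ T) : GA T * (1 + 1.04 * T) = 1.04 - T := by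
  have : 0 < 1 + 1.04 * T := by positivity
  unfold GA
  field_simp

theorem QT_sq (h0 : 0 ≤ T) (h1 : T ≤ 1.04) : 1 + GA T ^ 2 ≤ QT T ^ 2 := by
  have hW : 0 < 1 + 1.04 * T := by positivity
  have h2 := QT_mul h0
  have h3 := GA_mul h0
  have h4 : (1 + GA T ^ 2) * (1 + 1.04 * T) ^ 2 ≤ QT T ^ 2 * (1 + 1.04 * T) ^ 2 := by
    have e1 : (1 + GA T ^ 2) * (1 + 1.04 * T) ^ 2 = (1 + 1.04 * T) ^ 2 + (1.04 - T) ^ 2 := by
      rw [← h3]
      ring
    have e2 : QT T ^ 2 * (1 + 1.04 * T) ^ 2 = (1.4428 * (1 + 0.4259 * T)) ^ 2 := by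
      rw [← h2]
      ring
    rw [e1, e2]
    linarith only [h0, mul_nonneg (sub_nonneg.2 h0) (sub_nonneg.2 h1)]
  exact le_of_mul_le_mul_right h4 (by positivity)

theorem one_le_QT (h0 : 0 ≤ T) (h1 : T ≤ 1.04) : 1 ≤ QT T := by
  have h2 := QT_sq h0 h1
  have h3 := QT_pos h0
  (refine le_of_not_gt fun hng => ?_; linarith only [hng, h2, sq_nonneg (GA T),
    mul_pos (sub_pos.2 hng) (sub_pos.2 h3)])

/-- `0.82 T Q + T G < 1`. -/
theorem QT_alpha (h0 : 0 ≤ T) : 0.82 * (T * QT T) + T * GA T < 1 := by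
  have hW : 0 < 1 + 1.04 * T := by positivity
  have h2 := QT_mul h0
  have h3 := GA_mul h0
  have h4 : (0.82 * (T * QT T) + T * GA T) * (1 + 1.04 * T) < 1 * (1 + 1.04 * T) := by
    have e1 : (0.82 * (T * QT T) + T * GA T) * (1 + 1.04 * T) =
        0.82 * T * (1.4428 * (1 + 0.4259 * T)) + T * (1.04 - T) := by
      rw [← h3, ← h2]
      ring
    rw [e1]
    (refine lt_of_not_ge fun hng => ?_; linarith only [hng, sq_nonneg (T - 1),
      mul_nonneg (sub_nonneg.2 hng) (sub_nonneg.2 hng),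
      mul_nonneg (sq_nonneg (T - 1)) (sub_nonneg.2 hng),
      mul_nonneg (sq_nonneg (T - 1)) (sq_nonneg (T - 1))])
  exact lt_of_mul_lt_mul_right h4 hW.le

/-- `0.75 T Q + 1.5 T G ≤ 0.8`. -/
theorem QT_beta (h0 : 0 ≤ T) : 0.75 * (T * QT T) + 1.5 * (T * GA T) ≤ 0.8 := by
  have hW : 0 < 1 + 1.04 * T := by positivity
  have h2 := QT_mul h0
  have h3 := GA_mul h0
  have h4 : (0.75 * (T * QT T) + 1.5 * (T * GA T)) * (1 + 1.04 * T) ≤ 0.8 * (1 + 1.04 * T) := by
    have e1 : (0.75 * (T * QT T) + 1.5 * (T * GA T)) * (1 + 1.04 * T) =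
        0.75 * T * (1.4428 * (1 + 0.4259 * T)) + 1.5 * (T * (1.04 - T)) := by
      rw [← h3, ← h2]
      ring
    rw [e1]
    linarith only [sq_nonneg (T - 0.871), h0]
  exact le_of_mul_le_mul_right h4 hW

/-- `T Q ≤ 1.0402`. -/
theorem QT_T (h0 : 0 ≤ T) (h1 : T ≤ 1.04) : T * QT T ≤ 1.0402 := by
  have hW : 0 < 1 + 1.04 * T := by positivity
  have h2 := QT_mul h0
  have h4 : (T * QT T) * (1 + 1.04 * T) ≤ 1.0402 * (1 + 1.04 * T) := by
    have e1 : (T * QT T) * (1 + 1.04 * T) = T * (1.4428 * (1 + 0.4259 * T)) := by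
      rw [← h2]
      ring
    rw [e1]
    linarith only [h1, mul_nonneg (sub_nonneg.2 h0) (sub_nonneg.2 h1)]
  exact le_of_mul_le_mul_right h4 hW

/-- The numerical inequality of the case `g < 0`. -/
theorem QT_gamma {y S : ℝ} (h0 : 0 ≤ T) (h1 : T ≤ 1.04) (hy0 : 0 ≤ y) (hS : 0 < S)
    (hS2 : S ^ 2 = 1 - y ^ 2) (hy : y ≤ 0.206) (hyG : y ≤ 2 / 3 * GA T) :
    0.5 * (1 + y) < S * (1.5 - 0.75 * (1 + y) * (T * QT T) - 1.5 * (T * GA T)) := by
  have hW : 0 < 1 + 1.04 * T := by positivity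
  have h2 := QT_mul h0
  have h3 := GA_mul h0
  have hS' : ∀ y0 s0 : ℝ, y ≤ y0 → s0 ^ 2 ≤ 1 - y0 ^ 2 → s0 ≤ S := by
    intro y0 s0 hy0' hs0
    apply le_of_sq_le_sq _ hS.le
    rw [hS2]
    linarith only [hs0, mul_nonneg (sub_nonneg.2 hy0') (sub_nonneg.2 hy0'),
      mul_nonneg (sub_nonneg.2 hy0) (sub_nonneg.2 hy0')]
  -- the bracket is decreasing in `y`
  have hQ0 := QT_pos h0
  have hTQ : 0 ≤ T * QT T := mul_nonneg h0 hQ0.le
  have main : ∀ y0 s0 : ℝ, y ≤ y0 → 0 ≤ y0 → 0 < s0 → s0 ≤ S →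
      0.5 * (1 + y0) * (1 + 1.04 * T) <
        s0 * (1.5 * (1 + 1.04 * T) - 0.75 * (1 + y0) * (T * (1.4428 * (1 + 0.4259 * T))) -
          1.5 * (T * (1.04 - T))) →
      0.5 * (1 + y) < S * (1.5 - 0.75 * (1 + y) * (T * QT T) - 1.5 * (T * GA T)) := by
    intro y0 s0 hy1 hy2 hs1 hs2 hm
    have e1 : s0 * (1.5 * (1 + 1.04 * T) - 0.75 * (1 + y0) * (T * (1.4428 * (1 + 0.4259 * T))) -
          1.5 * (T * (1.04 - T))) =
        s0 * (1.5 - 0.75 * (1 + y0) * (T * QT T) - 1.5 * (T * GA T)) * (1 + 1.04 * T) := by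
      rw [← h2, ← h3]
      ring
    rw [e1] at hm
    have h4 := lt_of_mul_lt_mul_right hm hW.le
    have h5 : 0 < 1.5 - 0.75 * (1 + y0) * (T * QT T) - 1.5 * (T * GA T) := by
      by_contra hc
      push Not at hc
      have := mul_nonpos_of_nonneg_of_nonpos hs1.le hc
      linarith only [this, h4, hy1, hy0]
    have h6 : 1.5 - 0.75 * (1 + y0) * (T * QT T) - 1.5 * (T * GA T) ≤
        1.5 - 0.75 * (1 + y) * (T * QT T) - 1.5 * (T * GA T) := by
      have := mul_le_mul_of_nonneg_right hy1 hTQ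
      linarith only [this]
    have h7 : s0 * (1.5 - 0.75 * (1 + y0) * (T * QT T) - 1.5 * (T * GA T)) ≤
        S * (1.5 - 0.75 * (1 + y) * (T * QT T) - 1.5 * (T * GA T)) :=
      mul_le_mul hs2 h6 h5.le hS.le
    linarith only [h7, h4, hy1]
  have hGA : ∀ t0 : ℝ, t0 ≤ T → 0 ≤ t0 → GA T ≤ (1.04 - t0) / (1 + 1.04 * t0) := by
    intro t0 ht ht0
    unfold GA
    rw [div_le_div_iff₀ hW (by positivity)]
    linarith only [ht]
  rcases le_total T 0.6 with hT | hT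
  · apply main 0.206 0.9785 hy (by norm_num) (by norm_num) (hS' _ _ hy (by norm_num))
    linarith only [hT, mul_nonneg (sub_nonneg.2 h1) (sub_nonneg.2 hT)]
  rcases le_total T 0.7 with hT' | hT'
  · have h5 := hGA 0.6 hT (by norm_num)
    norm_num at h5
    have hy1 : y ≤ 0.1807 := by norm_num at hyG ⊢; linarith only [hyG, h5]
    apply main 0.1807 0.9835 hy1 (by norm_num) (by norm_num) (hS' _ _ hy1 (by norm_num))
    linarith only [hT', mul_nonneg (sub_nonneg.2 h1) (sub_nonneg.2 hT')]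
  · have h5 := hGA 0.7 hT' (by norm_num)
    norm_num at h5
    have hy1 : y ≤ 0.1313 := by norm_num at hyG ⊢; linarith only [hyG, h5]
    apply main 0.1313 0.9913 hy1 (by norm_num) (by norm_num) (hS' _ _ hy1 (by norm_num))
    linarith only [sq_nonneg (T - 0.93), hT']

end QT

end Pool.Agent.S5.E
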