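import Pool.Agent.S5.E.V3P

/-!
# Mixed chains, block E: upper bounds of `φ`, `a ≥ 3`
-/

set_option autoImplicit false
set_option maxHeartbeats 4000000

namespace Pool.Agent.S5.E

open Real
open Pool.Agent.S3.E (al ph tt k2 s2 cc gg tt_pos tt_sq k2_pos s2_pos al_pos al_lt tan_al one_le_cc
  one_lt_cc gg_lt_one neg_one_lt_gg sinh_two_pos sin_two_pos sinh_two_sq sin_two_sq GeoX_gg
  GeoX_sin_pos GeoX_cos_pos)

variable {a R I ρ₁ β₁ p₁ r₁ ρ₂ β₂ p₂ r₂ : ℝ}

/-- `tan φ < tan 0.68` from the crude bounds. -/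
theorem Vx.F68 (h : Vx a R I ρ₁ β₁ p₁ r₁ ρ₂ β₂ p₂ r₂) (ha : 3 ≤ a)
    (hρ₁ : ρ₁ ^ 2 ≤ 1.21) (hρ₂ : ρ₂ ^ 2 ≤ 1.21) (hβ₁ : -(1.04 * cos β₁) ≤ sin β₁)
    (hβ₂ : -(1.04 * cos β₂) ≤ sin β₂) (X0 : tan R ^ 2 ≤ 3) : tan R * tanh I < 0.8086 := by
  by_contra hf
  push Not at hf
  have hx0 : 0 < tan R := tan_pos' h.R0 h.R1
  have x1 : tan R < 1.5402 :=
    h.step ha (S := 1.21) (B := 1.04) (f := 0.8086) (X := 3) (m₀ := 0.4668) (τ₀ := 0.9083)
      (T₀ := 1.3785) (G := 0.139) (q := 1.9458) (t := 0.8378) (π₀ := 0.2471) (s := 0.1582)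
      hρ₁ hρ₂ hβ₁ hβ₂ (by norm_num) hf X0
      (by norm_num) (by norm_num) (by norm_num) (by norm_num) (by norm_num) (by norm_num) (by norm_num)
      (by norm_num) (by norm_num) (by norm_num) (by norm_num) (by norm_num) (by norm_num) (by norm_num)
      (by norm_num) (by norm_num) (by norm_num) (by norm_num) (by norm_num) (by norm_num) (by norm_num)
      (by norm_num)
  have X1 : tan R ^ 2 ≤ 2.3723 := by linarith only [x1, mul_pos (sub_pos.2 hx0) (sub_pos.2 x1)]
  have x2 : tan R < 1.4117 :=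
    h.step ha (S := 1.21) (B := 1.04) (f := 0.8086) (X := 2.3723) (m₀ := 0.5249) (τ₀ := 0.9412)
      (T₀ := 1.5867) (G := 0.2062) (q := 1.6011) (t := 0.8122) (π₀ := 0.4447) (s := 0.2857)
      hρ₁ hρ₂ hβ₁ hβ₂ (by norm_num) hf X1
      (by norm_num) (by norm_num) (by norm_num) (by norm_num) (by norm_num) (by norm_num) (by norm_num)
      (by norm_num) (by norm_num) (by norm_num) (by norm_num) (by norm_num) (by norm_num) (by norm_num)
      (by norm_num) (by norm_num) (by norm_num) (by norm_num) (by norm_num) (by norm_num) (by norm_num)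
      (by norm_num)
  have X2 : tan R ^ 2 ≤ 1.9929 := by linarith only [x2, mul_pos (sub_pos.2 hx0) (sub_pos.2 x2)]
  have x3 : tan R < 1.3028 :=
    h.step ha (S := 1.21) (B := 1.04) (f := 0.8086) (X := 1.9929) (m₀ := 0.5727) (τ₀ := 0.9606)
      (T₀ := 1.8072) (G := 0.2664) (q := 1.4034) (t := 0.7934) (π₀ := 0.5577) (s := 0.415)
      hρ₁ hρ₂ hβ₁ hβ₂ (by norm_num) hf X2
      (by norm_num) (by norm_num) (by norm_num) (by norm_num) (by norm_num) (by norm_num) (by norm_num)
      (by norm_num) (by norm_num) (by norm_num) (by norm_num) (by norm_num) (by norm_num) (by norm_num)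
      (by norm_num) (by norm_num) (by norm_num) (by norm_num) (by norm_num) (by norm_num) (by norm_num)
      (by norm_num)
  have X3 : tan R ^ 2 ≤ 1.6973 := by linarith only [x3, mul_pos (sub_pos.2 hx0) (sub_pos.2 x3)]
  exact h.stop ha (S := 1.21) (f := 0.8086) (X := 1.6973) (m₀ := 0.6206) (τ₀ := 0.9746)
    (q := 1.2593) (t := 0.7771) hρ₁ hρ₂ hf X3
    (by norm_num) (by norm_num) (by norm_num) (by norm_num) (by norm_num) (by norm_num) (by norm_num)
    (by norm_num) (by norm_num) (by norm_num) (by norm_num)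

/-- `tan φ < tan 0.65` if `ρ ≤ 1.09`, `β ≥ -0.786`. -/
theorem Vx.F65 (h : Vx a R I ρ₁ β₁ p₁ r₁ ρ₂ β₂ p₂ r₂) (ha : 3 ≤ a)
    (hρ₁ : ρ₁ ^ 2 ≤ 1.1881) (hρ₂ : ρ₂ ^ 2 ≤ 1.1881) (hβ₁ : -(1.0013 * cos β₁) ≤ sin β₁)
    (hβ₂ : -(1.0013 * cos β₂) ≤ sin β₂) (X0 : tan R ^ 2 ≤ 3) : tan R * tanh I < 0.7602 := by
  by_contra hf
  push Not at hf
  have hx0 : 0 < tan R := tan_pos' h.R0 h.R1
  have x1 : tan R < 1.588 :=
    h.step ha (S := 1.1881) (B := 1.0013) (f := 0.7602) (X := 3) (m₀ := 0.4389) (τ₀ := 0.888)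
      (T₀ := 1.2554) (G := 0.1125) (q := 2.0234) (t := 0.8404) (π₀ := 0.1576) (s := 0.1158)
      hρ₁ hρ₂ hβ₁ hβ₂ (by norm_num) hf X0
      (by norm_num) (by norm_num) (by norm_num) (by norm_num) (by norm_num) (by norm_num) (by norm_num)
      (by norm_num) (by norm_num) (by norm_num) (by norm_num) (by norm_num) (by norm_num) (by norm_num)
      (by norm_num) (by norm_num) (by norm_num) (by norm_num) (by norm_num) (by norm_num) (by norm_num)
      (by norm_num)
  have X1 : tan R ^ 2 ≤ 2.5218 := by linarith only [x1, mul_pos (sub_pos.2 hx0) (sub_pos.2 x1)]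
  have x2 : tan R < 1.5044 :=
    h.step ha (S := 1.1881) (B := 1.0013) (f := 0.7602) (X := 2.5218) (m₀ := 0.4787) (τ₀ := 0.916)
      (T₀ := 1.3772) (G := 0.158) (q := 1.7435) (t := 0.8213) (π₀ := 0.314) (s := 0.1916)
      hρ₁ hρ₂ hβ₁ hβ₂ (by norm_num) hf X1
      (by norm_num) (by norm_num) (by norm_num) (by norm_num) (by norm_num) (by norm_num) (by norm_num)
      (by norm_num) (by norm_num) (by norm_num) (by norm_num) (by norm_num) (by norm_num) (by norm_num)
      (by norm_num) (by norm_num) (by norm_num) (by norm_num) (by norm_num) (by norm_num) (by norm_num)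
      (by norm_num)
  have X2 : tan R ^ 2 ≤ 2.2633 := by linarith only [x2, mul_pos (sub_pos.2 hx0) (sub_pos.2 x2)]
  have x3 : tan R < 1.4436 :=
    h.step ha (S := 1.1881) (B := 1.0013) (f := 0.7602) (X := 2.2633) (m₀ := 0.5053) (τ₀ := 0.9314)
      (T₀ := 1.4719) (G := 0.1902) (q := 1.5962) (t := 0.8092) (π₀ := 0.4014) (s := 0.2519)
      hρ₁ hρ₂ hβ₁ hβ₂ (by norm_num) hf X2
      (by norm_num) (by norm_num) (by norm_num) (by norm_num) (by norm_num) (by norm_num) (by norm_num)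
      (by norm_num) (by norm_num) (by norm_num) (by norm_num) (by norm_num) (by norm_num) (by norm_num)
      (by norm_num) (by norm_num) (by norm_num) (by norm_num) (by norm_num) (by norm_num) (by norm_num)
      (by norm_num)
  have X3 : tan R ^ 2 ≤ 2.084 := by linarith only [x3, mul_pos (sub_pos.2 hx0) (sub_pos.2 x3)]
  have x4 : tan R < 1.394 :=
    h.step ha (S := 1.1881) (B := 1.0013) (f := 0.7602) (X := 2.084) (m₀ := 0.5265) (τ₀ := 0.942)
      (T₀ := 1.5566) (G := 0.217) (q := 1.4965) (t := 0.8001) (π₀ := 0.4609) (s := 0.3052)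
      hρ₁ hρ₂ hβ₁ hβ₂ (by norm_num) hf X3
      (by norm_num) (by norm_num) (by norm_num) (by norm_num) (by norm_num) (by norm_num) (by norm_num)
      (by norm_num) (by norm_num) (by norm_num) (by norm_num) (by norm_num) (by norm_num) (by norm_num)
      (by norm_num) (by norm_num) (by norm_num) (by norm_num) (by norm_num) (by norm_num) (by norm_num)
      (by norm_num)
  have X4 : tan R ^ 2 ≤ 1.9433 := by linarith only [x4, mul_pos (sub_pos.2 hx0) (sub_pos.2 x4)]
  have x5 : tan R < 1.3501 :=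
    h.step ha (S := 1.1881) (B := 1.0013) (f := 0.7602) (X := 1.9433) (m₀ := 0.5453) (τ₀ := 0.9503)
      (T₀ := 1.6387) (G := 0.2413) (q := 1.4201) (t := 0.7924) (π₀ := 0.5065) (s := 0.3559)
      hρ₁ hρ₂ hβ₁ hβ₂ (by norm_num) hf X4
      (by norm_num) (by norm_num) (by norm_num) (by norm_num) (by norm_num) (by norm_num) (by norm_num)
      (by norm_num) (by norm_num) (by norm_num) (by norm_num) (by norm_num) (by norm_num) (by norm_num)
      (by norm_num) (by norm_num) (by norm_num) (by norm_num) (by norm_num) (by norm_num) (by norm_num)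
      (by norm_num)
  have X5 : tan R ^ 2 ≤ 1.8228 := by linarith only [x5, mul_pos (sub_pos.2 hx0) (sub_pos.2 x5)]
  have x6 : tan R < 1.3089 :=
    h.step ha (S := 1.1881) (B := 1.0013) (f := 0.7602) (X := 1.8228) (m₀ := 0.563) (τ₀ := 0.9572)
      (T₀ := 1.7237) (G := 0.265) (q := 1.3562) (t := 0.7856) (π₀ := 0.5435) (s := 0.407)
      hρ₁ hρ₂ hβ₁ hβ₂ (by norm_num) hf X5
      (by norm_num) (by norm_num) (by norm_num) (by norm_num) (by norm_num) (by norm_num) (by norm_num)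
      (by norm_num) (by norm_num) (by norm_num) (by norm_num) (by norm_num) (by norm_num) (by norm_num)
      (by norm_num) (by norm_num) (by norm_num) (by norm_num) (by norm_num) (by norm_num) (by norm_num)
      (by norm_num)
  have X6 : tan R ^ 2 ≤ 1.7133 := by linarith only [x6, mul_pos (sub_pos.2 hx0) (sub_pos.2 x6)]
  have x7 : tan R < 1.2686 :=
    h.step ha (S := 1.1881) (B := 1.0013) (f := 0.7602) (X := 1.7133) (m₀ := 0.5807) (τ₀ := 0.9633)
      (T₀ := 1.8166) (G := 0.2892) (q := 1.2996) (t := 0.7791) (π₀ := 0.5752) (s := 0.461)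
      hρ₁ hρ₂ hβ₁ hβ₂ (by norm_num) hf X6
      (by norm_num) (by norm_num) (by norm_num) (by norm_num) (by norm_num) (by norm_num) (by norm_num)
      (by norm_num) (by norm_num) (by norm_num) (by norm_num) (by norm_num) (by norm_num) (by norm_num)
      (by norm_num) (by norm_num) (by norm_num) (by norm_num) (by norm_num) (by norm_num) (by norm_num)
      (by norm_num)
  have X7 : tan R ^ 2 ≤ 1.6094 := by linarith only [x7, mul_pos (sub_pos.2 hx0) (sub_pos.2 x7)]
  exact h.stop ha (S := 1.1881) (f := 0.7602) (X := 1.6094) (m₀ := 0.5992) (τ₀ := 0.969)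
    (q := 1.2476) (t := 0.7728) hρ₁ hρ₂ hf X7
    (by norm_num) (by norm_num) (by norm_num) (by norm_num) (by norm_num) (by norm_num) (by norm_num)
    (by norm_num) (by norm_num) (by norm_num) (by norm_num)

end Pool.Agent.S5.E
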